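import Pool.Agent.S11.EdDefs
import Pool.Agent.S11.Pack

/-!
# Project S14: left-ordered groups and the interface between the algebra and the topology

`LO G` = a left-invariant total order.  `L2P ι` = a complex of matrices over `ℤ[H]` which is exact after the reduction
modulo two and `ι` has no `ℓ²`-harmonic chains.  `LPack H` = a division ring of characteristic two with a homomorphism
from the group algebra such that `D ⊗ D` with the diagonal action is flat, and with the property `L2P`.
-/

set_option autoImplicit false
set_option linter.unusedSectionVars false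

open TensorProduct

namespace Pool.Agent.S14

open Pool.Agent.S11

/-- a total order on a group which is invariant on the left -/
class LO (G : Type) [Group G] extends LinearOrder G where
  lt_l : ∀ a b c : G, a < b → c * a < c * b

/-- No `ℓ²`-harmonic chains for the complexes of matrices over `ℤ[H]` which are exact over `D`. -/
def L2P {H D : Type} [Group H] [DivisionRing D] (ι : MonoidAlgebra (ZMod 2) H →+* D) : Prop :=
  ∀ (a b c : ℕ) (A : Matrix (Fin a) (Fin b) (MonoidAlgebra ℤ H)) (B : Matrix (Fin b) (Fin c) (MonoidAlgebra ℤ H)),
    A * B = 0 →
    (∀ y : Fin b → D, ((mod2 A).map ι).mulVec y = 0 → ∃ z : Fin c → D, ((mod2 B).map ι).mulVec z = y) →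
    ∀ x : Fin b → H → ℝ, (∀ j, Summable fun h => x j h ^ 2) →
    (∀ (l : Fin a) (g : H), ∑ j, ∑ h ∈ (A l j).coeff.support, ((A l j).coeff h : ℝ) * x j (g * h) = 0) →
    (∀ (l : Fin c) (g : H), ∑ j, ∑ h ∈ (B j l).coeff.support, ((B j l).coeff h : ℝ) * x j (g * h⁻¹) = 0) →
    ∀ j h, x j h = 0

/-- the division ring -/
structure LPack (H : Type) [Group H] where
  /-- the division ring -/
  D : Type
  /-- it is a division ring -/
  div : DivisionRing D
  /-- of characteristic two -/
  alg : Algebra (ZMod 2) D
  /-- the homomorphism from the group algebra -/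
  ι : MonoidAlgebra (ZMod 2) H →+* D
  flat : Flat ((lft ι).tprod (lft ι))
  l2 : L2P ι

attribute [instance] LPack.div LPack.alg

end Pool.Agent.S14
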