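import Pool.Agent.S11.SqMain
import Pool.Agent.S14.LDefs

/-!
# Project S14: left-ordered groups are torsion free; the square lemma for left-ordered groups

Copies of `S11/SqOrd`, `S11/SqBO` for a left-invariant order.
-/

set_option autoImplicit false
set_option linter.unusedSectionVars false

open Finset Pointwise

namespace Pool.Agent.S14

open Pool.Agent.S11

/-- left-ordered groups are torsion free -/
theorem LO.tf {H : Type} [Group H] [LO H] {g : H} {k : ℕ} (hk : 0 < k) (h : g ^ k = 1) : g = 1 := by
  rcases lt_trichotomy 1 g with h1 | h1 | h1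
  · have key : ∀ m : ℕ, 0 < m → 1 < g ^ m := by
      intro m hm
      induction m with
      | zero => exact absurd hm (lt_irrefl _)
      | succ m ih =>
        rcases Nat.eq_zero_or_pos m with h0 | h0
        · subst h0
          rwa [zero_add, pow_one]
        · have h2 := LO.lt_l 1 g (g ^ m) h1
          rw [mul_one, ← pow_succ] at h2
          exact (ih h0).trans h2
    exact absurd (key k hk) (by rw [h]; exact lt_irrefl _)
  · exact h1.symm
  · have key : ∀ m : ℕ, 0 < m → g ^ m < 1 := by
      intro m hm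
      induction m with
      | zero => exact absurd hm (lt_irrefl _)
      | succ m ih =>
        rcases Nat.eq_zero_or_pos m with h0 | h0
        · subst h0
          rwa [zero_add, pow_one]
        · have h2 := LO.lt_l g 1 (g ^ m) h1
          rw [mul_one, ← pow_succ] at h2
          exact h2.trans (ih h0)
    exact absurd (key k hk) (by rw [h]; exact lt_irrefl _)

/-- **An invariant relation which is a strict total order on every simplex.** -/
theorem exists_rel {H U : Type} [Group H] [LO H] [DecidableEq U] [MulAction H U] (K : Set (Finset U))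
    (hdown : ∀ s ∈ K, ∀ t, t ⊆ s → t.Nonempty → t ∈ K) (hK : ∀ (g : H) (s : Finset U), s ∈ K → g • s ∈ K)
    (hfree : ∀ (g : H) (s : Finset U), s ∈ K → g • s = s → g = 1) :
    ∃ r : U → U → Prop, (∀ (g : H) (u v : U), r (g • u) (g • v) ↔ r u v) ∧
      ∀ s ∈ K, (∀ u ∈ s, ¬ r u u) ∧ (∀ u ∈ s, ∀ v ∈ s, ∀ w ∈ s, r u v → r v w → r u w) ∧
        (∀ u ∈ s, ∀ v ∈ s, u ≠ v → r u v ∨ r v u) := by
  classical
  -- representatives of the orbits
  let rep : U → U := fun u => Quotient.out (Quotient.mk (MulAction.orbitRel H U) u)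
  have hrep : ∀ u, ∃ g : H, g • rep u = u := by
    intro u
    have h : (MulAction.orbitRel H U) (rep u) u := Quotient.exact (Quotient.out_eq (Quotient.mk (MulAction.orbitRel H U) u))
    rw [MulAction.orbitRel_apply] at h
    obtain ⟨g, hg⟩ := h
    refine ⟨g⁻¹, ?_⟩
    have hg' : g • u = rep u := hg
    rw [← hg', inv_smul_smul]
  have hrep_smul : ∀ (g : H) u, rep (g • u) = rep u := by
    intro g u
    have h : Quotient.mk (MulAction.orbitRel H U) (g • u) = Quotient.mk (MulAction.orbitRel H U) u := by
      refine Quotient.sound ?_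
      show (MulAction.orbitRel H U) (g • u) u
      rw [MulAction.orbitRel_apply]
      exact MulAction.mem_orbit u g
    show Quotient.out _ = Quotient.out _
    rw [h]
  choose gg hgg using hrep
  have hvert : ∀ (g : H) u, ({g • u} : Finset U) ∈ K ↔ ({u} : Finset U) ∈ K := by
    intro g u
    have h1 : ∀ (g : H) u, ({u} : Finset U) ∈ K → ({g • u} : Finset U) ∈ K := by
      intro g u hu
      have h := hK g _ hu
      rwa [Finset.smul_finset_singleton] at h
    refine ⟨fun h => ?_, h1 g u⟩
    have h2 := h1 g⁻¹ _ h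
    rwa [inv_smul_smul] at h2
  have huniq : ∀ (g g' : H) u, ({u} : Finset U) ∈ K → g • u = g' • u → g = g' := by
    intro g g' u hu h
    have h2 : (g'⁻¹ * g) • ({u} : Finset U) = {u} := by
      rw [Finset.smul_finset_singleton, mul_smul, h, inv_smul_smul]
    have h3 := hfree _ _ hu h2
    rw [inv_mul_eq_one] at h3
    exact h3.symm
  have hgg_smul : ∀ (g : H) u, ({u} : Finset U) ∈ K → gg (g • u) = g * gg u := by
    intro g u hu
    have hr : ({rep u} : Finset U) ∈ K := by
      rw [← hvert (gg u) (rep u), hgg]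
      exact hu
    refine huniq _ _ (rep u) hr ?_
    have h1 := hgg (g • u)
    rw [hrep_smul] at h1
    rw [h1, mul_smul, hgg]
  have hltl : ∀ (g a b : H), g * a < g * b ↔ a < b := by
    intro g a b
    refine ⟨fun h => ?_, fun h => LO.lt_l a b g h⟩
    have h1 := LO.lt_l _ _ g⁻¹ h
    rwa [inv_mul_cancel_left, inv_mul_cancel_left] at h1
  refine ⟨fun u v => ({u} : Finset U) ∈ K ∧ ({v} : Finset U) ∈ K ∧
    (gg u < gg v ∨ (gg u = gg v ∧ WellOrderingRel (rep u) (rep v))), ?_, ?_⟩
  · intro g u v
    show (_ ∧ _ ∧ _) ↔ (_ ∧ _ ∧ _)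
    rw [hvert, hvert]
    refine and_congr_right fun hu => and_congr_right fun hv => ?_
    rw [hgg_smul g u hu, hgg_smul g v hv, hltl, hrep_smul, hrep_smul, mul_right_inj]
  · intro s hs
    have hv : ∀ u ∈ s, ({u} : Finset U) ∈ K := fun u hu =>
      hdown s hs {u} (Finset.singleton_subset_iff.2 hu) (Finset.singleton_nonempty u)
    refine ⟨?_, ?_, ?_⟩
    · rintro u - ⟨-, -, h | ⟨-, h⟩⟩
      · exact lt_irrefl _ h
      · exact (irrefl_of WellOrderingRel (rep u)) h
    · rintro u - v - w - ⟨hu, -, h1⟩ ⟨-, hw, h2⟩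
      refine ⟨hu, hw, ?_⟩
      rcases h1 with h1 | ⟨h1, h1'⟩
      · rcases h2 with h2 | ⟨h2, -⟩
        · exact Or.inl (h1.trans h2)
        · exact Or.inl (h2 ▸ h1)
      · rcases h2 with h2 | ⟨h2, h2'⟩
        · exact Or.inl (h1 ▸ h2)
        · exact Or.inr ⟨h1.trans h2, trans_of WellOrderingRel h1' h2'⟩
    · intro u hu v hv' huv
      rcases lt_trichotomy (gg u) (gg v) with h | h | h
      · exact Or.inl ⟨hv u hu, hv v hv', Or.inl h⟩
      · have hne : rep u ≠ rep v := by
          intro h'
          refine huv ?_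
          rw [← hgg u, ← hgg v, h, h']
        rcases trichotomous_of WellOrderingRel (rep u) (rep v) with h' | h' | h'
        · exact Or.inl ⟨hv u hu, hv v hv', Or.inr ⟨h, h'⟩⟩
        · exact absurd h' hne
        · exact Or.inr ⟨hv v hv', hv u hu, Or.inr ⟨h.symm, h'⟩⟩
      · exact Or.inr ⟨hv v hv', hv u hu, Or.inl h⟩

/-- **The square lemma** for a group with a left-invariant order. -/
theorem squareLO {H U : Type} [Group H] [LO H] [DecidableEq U] [MulAction H U] {K B : Set (Finset U)} (h : SCx H K B)
    {V : Type} [AddCommGroup V] [Module (ZMod 2) V] (τ : Representation (ZMod 2) H V) (j : ℕ)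
    (hj : ∀ q ≤ 2 * j, ExactAt K B (τ.tprod τ) q) : ExactAt K B τ j := by
  obtain ⟨r, h1, h2⟩ := exists_rel (H := H) K h.down h.K_mem h.free
  exact square (r := r) { h with r_smul := h1, r_tot := h2 } τ j hj

end Pool.Agent.S14
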