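import Pool.Agent.S11.EdD
import Pool.Agent.S11.EdOrd
import Pool.Agent.S11.EdHil
import Pool.Agent.S11.EdHarm
import Pool.Agent.S11.EdMfd
import Pool.Agent.S11.EdB4
import Pool.Agent.S11.EdC
import Pool.Agent.S11.BrB
import Pool.Agent.S11.Fin
import Pool.Agent.S14.SqLO

/-!
# Project S14, block END: the vanishing of the reduced `ℓ²`-homology

`end_l2`: a left-ordered group `H` with a division ring `LPack H` acts freely and cocompactly on the acyclic simplicial
complex `X`, and properly on an acyclic homology manifold or duality pair of dimension `n`: the reduced `ℓ²`-homology of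
`X` vanishes in the degrees greater than `n / 2`.  (Copy of `S11/Ed` for `LPack`.)
-/

set_option autoImplicit false
set_option linter.unusedSectionVars false

open Finset Pointwise

namespace Pool.Agent.S14

open Pool.Agent.H37.TM Pool.Agent.H65.RM Pool.Agent.S10 Pool.Agent.S11

section

variable {H V U : Type} [Group H] [DecidableEq V] [MulAction H V] [DecidableEq U] [MulAction H U]
  {X : Set (Finset V)} {K B : Set (Finset U)} {n : ℕ}

/-- the duality data -/
theorem dual_of (h : ManOrDual H K B n (n + 1)) (hA : PAct H K B) :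
    ∃ mu, Dual K B mu n (n + 1) ∧ ∀ (g : H) (s : Finset U), s ∈ mu → g • s ∈ mu := by
  rcases h with ⟨h1, h2⟩ | h
  · refine ⟨_, dual_of_mfd h1 h2, ?_⟩
    rintro g s ⟨h3, h4, h5⟩
    refine ⟨hA.K_mem g s h3, fun h6 => h4 ?_, by rw [Finset.card_smul_finset, h5]⟩
    have h7 := hA.B_mem g⁻¹ _ h6
    rwa [inv_smul_smul] at h7
  · exact h

/-- the complex `X` with the free action -/
theorem scx_of_freeX (hX : FreeX H X) : SCx H X ∅ :=
  ⟨hX.ne, hX.down, Set.empty_subset _, fun s hs => absurd hs (Set.notMem_empty s), fun s hs => cofaces_finite hX hs,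
    fun g s hs => hX.mem g s hs, fun g s hs => absurd hs (Set.notMem_empty s), fun g s hs => hX.free g s hs⟩

/-- the cohomology with coefficients in the division ring -/
theorem exactAt_lft [LO H] (P : LPack H) (hM : ManOrDual H K B n (n + 1)) (hA : PAct H K B) {j : ℕ} (hj : 2 * j < n) :
    ExactAt K B (lft P.ι) j := by
  obtain ⟨mu, hD, -⟩ := dual_of hM hA
  have hK : SCx H K B := scx_of (fun g k hk h => LO.tf hk h) hM hA
  refine squareLO hK (lft P.ι) j fun q hq => exactAt_of_flat hK P.flat q ?_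
  exact hD.low q (by omega) (by omega)

/-- **The vanishing of the reduced `ℓ²`-homology.** -/
theorem end_l2 [LO H] (P : LPack H) (hX : FreeX H X) (hac : Acyc X)
    (hM : ManOrDual H K B n (n + 1)) (hA : PAct H K B) {i : ℕ} (hi : n < 2 * i) : L2ZeroS X i := by
  have hK : SCx H K B := scx_of (fun g k hk h => LO.tf hk h) hM hA
  have hXs := scx_of_freeX hX
  obtain ⟨F, G, h, hC⟩ := exists_chmaps hXs hac hK hM hA
  have hE : ∀ j, i + j = n → ExactAt K B (lft P.ι) j := fun j hj => exactAt_lft P hM hA (by omega)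
  have hex : ExactBd X (lft P.ι) (i + 1) := exactBd_of_chmaps hXs hK hC (lft P.ι) i hE
  obtain ⟨r, hr, hrT⟩ := exists_rel (H := H) X hX.down (fun g s hs => hX.mem g s hs) (fun g s hs => hX.free g s hs)
  have hT : Tot X r := by
    intro s hs u hu v hv huv
    obtain ⟨h1, h2, h3⟩ := hrT s hs
    refine ⟨?_, fun w hw => h2 u hu v hv w hw⟩
    rcases h3 u hu v hv huv with h4 | h4
    · exact Or.inl ⟨h4, fun h5 => h1 u hu (h2 u hu v hv u hu h4 h5)⟩
    · exact Or.inr ⟨h4, fun h5 => h1 u hu (h2 u hu v hv u hu h5 h4)⟩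
  obtain ⟨a, R, hR0⟩ := exists_rps hX i
  obtain ⟨b, R', hR1⟩ := exists_rps hX (i + 1)
  obtain ⟨c, R'', hR2⟩ := exists_rps hX (i + 2)
  have hmul := mtx_mul hX hT hr hR0 hR1 hR2
  have hm : ∀ y : Fin b → P.D, ((mod2 (mtx H r R R')).map P.ι).mulVec y = 0 →
      ∃ z : Fin c → P.D, ((mod2 (mtx H r R' R'')).map P.ι).mulVec z = y := fun y hy =>
    mtx_exact hX P.ι hR0 hR1 hR2 hex y hy
  have hharm : ∀ z, IsL2Ch X (i + 1) z → (∀ s ∈ X, bdR r z s = 0) → IsCoc X r z → z = 0 := fun z hz hz0 hz1 =>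
    harm_zero hX hT hr hR0 hR1 hR2 (fun x hx h1 h2 => P.l2 _ _ _ _ _ hmul hm x hx h1 h2) z hz hz0 hz1
  intro r' hr' z hz hz0 ε hε
  have hT' : Tot X r' := tot_of_order hr'
  exact l2_hil hX.ne hX.down (fun s hs => cofaces_finite hX hs) hT' i
    (harm_order hX.down hT hT' (i + 1) hharm) z hz hz0 ε hε

end

end Pool.Agent.S14
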