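import Pool.Agent.S14.Pack0
import Pool.Agent.S14.Ed
import Pool.Agent.S11.Cnt

/-!
# Project S14: the theorem for groups with a residually (amenable and left-orderable) subgroup of finite index
-/

set_option autoImplicit false
set_option linter.unusedSectionVars false

open Finset Pointwise

namespace Pool.Agent.S14

open Pool.Agent.H37.TM Pool.Agent.H65.RM Pool.Agent.S10 Pool.Agent.S11

section

variable {V U : Type} [DecidableEq V] [DecidableEq U]

/-- the theorem for groups with a residually (amenable and left-orderable) subgroup of finite index, if the whole group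
acts on both spaces -/
theorem main_RAL {P : Type} [Group P] [MulAction P V] [MulAction P U] {X : Set (Finset V)} (hG : IsGeomS P X)
    (hac : Acyc X) (J : Subgroup P) [hJ : J.FiniteIndex] (hU : RAL J) {M B : Set (Finset U)} {n : ℕ}
    (hM : ManOrDual P M B n (n + 1)) (hA : PAct P M B) (i : ℕ) (hn : n < 2 * i) : L2ZeroS X i := by
  have hGJ : IsGeomS J X := hG.sub J
  have : Countable J := countable_of_geom hGJ hac
  obtain ⟨lo, ⟨D⟩⟩ := hU.exists_lpack
  exact end_l2 D (hGJ.freeX fun g k hk h => LO.tf hk h) hac (hM.sub J) (PAct.sub hA J) hn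

/-- **The theorem.** -/
theorem s14 {G : Type} [Group G] [MulAction G V] {X : Set (Finset V)} (hX : Acyc X) (hG : IsGeomS G X)
    (H : Subgroup G) (hH : H.FiniteIndex) (hU : RAL H)
    (P : Subgroup G) (hP : P.FiniteIndex) [MulAction P U] {M B : Set (Finset U)} {n : ℕ}
    (hM : ManOrDual P M B n (n + 1)) (hA : PAct P M B) (i : ℕ) (hn : n < 2 * i) : L2ZeroS X i := by
  have hJ : (H.subgroupOf P).FiniteIndex := inferInstance
  have hUJ : RAL (H.subgroupOf P) :=
    RAL.comap (f := ({ toFun := fun x => ⟨((x : P) : G), Subgroup.mem_subgroupOf.1 x.2⟩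
                       map_one' := rfl
                       map_mul' := fun _ _ => rfl } : (H.subgroupOf P) →* H)) (by
        intro x y hxy
        apply Subtype.ext
        apply Subtype.ext
        exact congrArg (fun z : H => (z : G)) hxy) hU
  exact main_RAL (hG.sub P) hX (H.subgroupOf P) hUJ hM hA i hn

end

end Pool.Agent.S14
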