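import Pool.Agent.S14.KeyE
import Pool.Agent.S11.FL.Star
import Pool.Agent.S11.Pack

/-!
# Project S14: flatness of `D ⊗ D` for the diagonal action
-/

set_option autoImplicit false
set_option linter.unusedSectionVars false

open TensorProduct

namespace Pool.Agent.S14

open Pool.Agent.S11.FL Pool.Agent.S11

section

variable {H D : Type} [Group H] [DivisionRing D] [Algebra (ZMod 2) D] (ι : MonoidAlgebra (ZMod 2) H →+* D)
  (X : Type) [AddCommGroup X] [Module (ZMod 2) X]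

/-- the action `v ↦ g v` -/
noncomputable def lefR : Representation (ZMod 2) H D where
  toFun g := LinearMap.mulLeft (ZMod 2) (uh ι g)
  map_one' := by
    refine LinearMap.ext fun v => ?_
    rw [map_one]
    exact one_mul v
  map_mul' g h := by
    refine LinearMap.ext fun v => ?_
    rw [map_mul]
    exact mul_assoc _ _ v

/-- the action `v ↦ v g⁻¹` -/
noncomputable def rigR : Representation (ZMod 2) H D where
  toFun g := LinearMap.mulRight (ZMod 2) (uh ι g⁻¹)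
  map_one' := by
    refine LinearMap.ext fun v => ?_
    rw [inv_one, map_one]
    exact mul_one v
  map_mul' g h := by
    refine LinearMap.ext fun v => ?_
    rw [mul_inv_rev, map_mul]
    exact (mul_assoc v _ _).symm

theorem lefR_apply (g : H) (v : D) : lefR ι g v = uh ι g * v := rfl

theorem rigR_apply (g : H) (v : D) : rigR ι g v = v * uh ι g⁻¹ := rfl

/-- `D ⊗ D` with the action `a ⊗ b ↦ a g⁻¹ ⊗ g b` -/
noncomputable def tauD : Representation (ZMod 2) H (D ⊗[ZMod 2] D) := (rigR ι).tprod (lefR ι)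

variable (D) in
/-- rearrangement of the factors -/
noncomputable def ThD : X ⊗[ZMod 2] (D ⊗[ZMod 2] D) ≃ₗ[ZMod 2] MM (ZMod 2) D X :=
  TensorProduct.leftComm (ZMod 2) X D D

theorem ThD_tmul (x : X) (a b : D) : ThD D X (x ⊗ₜ[ZMod 2] (a ⊗ₜ[ZMod 2] b)) =
    (a ⊗ₜ[ZMod 2] (x ⊗ₜ[ZMod 2] b) : MM (ZMod 2) D X) := rfl

variable {X}

theorem ThD_act (ρ : Representation (ZMod 2) H X) (g : H) (t : X ⊗[ZMod 2] (D ⊗[ZMod 2] D)) :
    ThD D X ((ρ.tprod (tauD ι)) g t) = act (uh ι) ρ g (ThD D X t) := by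
  have : (ThD D X).toLinearMap ∘ₗ (ρ.tprod (tauD ι)) g = act (uh ι) ρ g ∘ₗ (ThD D X).toLinearMap := by
    refine TensorProduct.ext_threefold' fun x a b => ?_
    change ThD D X (ρ g x ⊗ₜ[ZMod 2] ((rigR ι g a) ⊗ₜ[ZMod 2] (lefR ι g b))) = _
    rw [ThD_tmul, LinearMap.comp_apply]
    change _ = act (uh ι) ρ g (a ⊗ₜ[ZMod 2] (x ⊗ₜ[ZMod 2] b))
    rw [act_tmul]
    rfl
  exact LinearMap.congr_fun this t

theorem ThD_Kr (ρ : Representation (ZMod 2) H X) (t : X ⊗[ZMod 2] (D ⊗[ZMod 2] D)) :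
    ThD D X t ∈ II (uh ι) ρ ⊤ ↔ t ∈ Kr (ρ.tprod (tauD ι)) ⊤ := by
  constructor
  · intro ht
    have h1 : II (uh ι) ρ ⊤ ≤ (Kr (ρ.tprod (tauD ι)) ⊤).comap (ThD D X).symm.toLinearMap := by
      refine II_le (uh ι) ρ fun g hg m => ?_
      rw [Submodule.mem_comap]
      have h2 : (ThD D X).symm.toLinearMap (act (uh ι) ρ g m - m) =
          (ρ.tprod (tauD ι)) g ((ThD D X).symm m) - (ThD D X).symm m := by
        change (ThD D X).symm (act (uh ι) ρ g m - m) = _
        rw [LinearEquiv.symm_apply_eq, map_sub, ThD_act, LinearEquiv.apply_symm_apply]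
      rw [h2]
      exact sub_mem_Kr _ hg _
    have := h1 ht
    rw [Submodule.mem_comap] at this
    change (ThD D X).symm (ThD D X t) ∈ _ at this
    rwa [LinearEquiv.symm_apply_apply] at this
  · intro ht
    have h1 : Kr (ρ.tprod (tauD ι)) ⊤ ≤ (II (uh ι) ρ ⊤).comap (ThD D X).toLinearMap := by
      refine Submodule.span_le.2 ?_
      rintro _ ⟨g, hg, m, rfl⟩
      change ThD D X ((ρ.tprod (tauD ι)) g m - m) ∈ II (uh ι) ρ ⊤
      rw [map_sub, ThD_act]
      exact act_sub_mem (uh ι) ρ hg _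
    exact h1 ht

theorem ThD_rTensor {X' : Type} [AddCommGroup X'] [Module (ZMod 2) X'] (f : X →ₗ[ZMod 2] X')
    (t : X ⊗[ZMod 2] (D ⊗[ZMod 2] D)) :
    ThD D X' (f.rTensor (D ⊗[ZMod 2] D) t) = mapX D f (ThD D X t) := by
  have : (ThD D X').toLinearMap ∘ₗ f.rTensor (D ⊗[ZMod 2] D) = mapX D f ∘ₗ (ThD D X).toLinearMap := by
    refine TensorProduct.ext_threefold' fun x a b => ?_
    change ThD D X' (f x ⊗ₜ[ZMod 2] (a ⊗ₜ[ZMod 2] b)) = _
    rw [ThD_tmul, LinearMap.comp_apply]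
    change _ = mapX D f (a ⊗ₜ[ZMod 2] (x ⊗ₜ[ZMod 2] b))
    rw [mapX_tmul]
  exact LinearMap.congr_fun this t

variable {ι}

/-- **Flatness of `D ⊗ D`** with the action `a ⊗ b ↦ a g⁻¹ ⊗ g b` -/
theorem flat_tauD (h : FlatOn.{0} (K := ZMod 2) (uh ι) (⊤ : Subgroup H)) : Flat (tauD ι) := by
  intro X X' _ _ _ _ ρ ρ' f hf hinj t ht
  rw [← ThD_Kr] at ht ⊢
  rw [ThD_rTensor] at ht
  exact h X X' ρ ρ' f hinj hf _ ht

/-- **Flatness of `D ⊗ D` for the diagonal action** -/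
theorem Frac.flat {σ : Inv ι} (h : Frac σ) (hι : Function.Injective ι) : Flat ((lft ι).tprod (lft ι)) :=
  flat_star (R := rigR ι) (L := lefR ι) (T := lft ι) (j := fun g => uh ι g)
    (k := fun g => ι (MonoidAlgebra.single g 1)) (RingHom.id D) (fun g => rfl) (fun g v => rfl) (fun g v => rfl)
    (fun g d => rfl) σ.st (map_add σ.st) σ.mul σ.inv σ.uh (flat_tauD (h.flatOn hι))

end

end Pool.Agent.S14
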