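import Pool.Agent.S14.E4

/-!
# Project S14: independent rows over an ultraproduct

`foelAppr_of`: `D` embeds in a ring `U` which is the image of `∏ F j` under `mk`, where `mk a = 0` only if `a j = 0` for
almost all `j`; the group algebras of the amenable quotients `Q j` embed in the `F j`, and the diagram commutes.  Then
`FoelAppr ι`.
-/

set_option autoImplicit false
set_option linter.unusedSectionVars false

open Matrix

namespace Pool.Agent.S14

/-- independent rows over a division ring: there is a right inverse -/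
theorem exists_rinv {D : Type} [DivisionRing D] {r c : ℕ} (A : Matrix (Fin r) (Fin c) D)
    (h : ∀ v : Fin r → D, v ᵥ* A = 0 → v = 0) : ∃ B : Matrix (Fin c) (Fin r) D, A * B = 1 := by
  obtain ⟨f, hf⟩ : ∃ f : (Fin r → D) →ₗ[D] (Fin c → D), ∀ v, f v = v ᵥ* A := ⟨A.vecMulLinear, fun v => rfl⟩
  have h1 : LinearMap.ker f = ⊥ := by
    rw [LinearMap.ker_eq_bot']
    intro v hv
    exact h v ((hf v).symm.trans hv)
  obtain ⟨g, hg⟩ := f.exists_leftInverse_of_injective h1
  refine ⟨Matrix.of fun i j => g (Pi.single i 1) j, ?_⟩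
  have h2 : ∀ w : Fin c → D, w ᵥ* (Matrix.of fun i j => g (Pi.single i 1) j) = g w := by
    intro w
    have h3 : w = ∑ i, w i • (Pi.single i (1 : D) : Fin c → D) := by
      funext j
      rw [Finset.sum_apply, Finset.sum_eq_single j]
      · rw [Pi.smul_apply, Pi.single_eq_same, smul_eq_mul, mul_one]
      · intro i _ hi
        rw [Pi.smul_apply, Pi.single_eq_of_ne (Ne.symm hi), smul_zero]
      · intro hj
        exact absurd (Finset.mem_univ _) hj
    conv_rhs => rw [h3, map_sum]
    funext j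
    rw [Finset.sum_apply]
    show ∑ i, w i * (g (Pi.single i 1) j) = _
    refine Finset.sum_congr rfl fun i _ => ?_
    rw [map_smul, Pi.smul_apply, smul_eq_mul]
  ext i j
  have h4 : (Pi.single i (1 : D) ᵥ* (A * (Matrix.of fun i j => g (Pi.single i 1) j))) = Pi.single i 1 := by
    rw [← Matrix.vecMul_vecMul, h2, ← hf]
    exact LinearMap.congr_fun hg (Pi.single i 1)
  rw [Matrix.single_one_vecMul] at h4
  have h5 := congrFun h4 j
  rw [Matrix.one_apply]
  refine Eq.trans h5 ?_
  rw [Pi.single_apply]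
  by_cases hij : j = i
  · rw [if_pos hij, if_pos hij.symm]
  · rw [if_neg hij, if_neg (Ne.symm hij)]

section

variable {H D U : Type} [Group H] [DivisionRing D] [Ring U] {ι : MonoidAlgebra (ZMod 2) H →+* D} {κ : D →+* U}
  {Q F : ℕ → Type} [∀ j, Group (Q j)] [∀ j, Ring (F j)] {ψ : ∀ j, H →* Q j}
  {v : ∀ j, MonoidAlgebra (ZMod 2) (Q j) →+* F j} {mk : (∀ j, F j) →+* U} {l : Filter ℕ}

theorem rows_eventually (hv : ∀ j, Function.Injective (v j)) (hmk : Function.Surjective mk)
    (h0 : ∀ a, mk a = 0 → ∀ᶠ j in l, a j = 0)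
    (hι : ∀ x, κ (ι x) = mk fun j => v j (MonoidAlgebra.mapDomainRingHom (ZMod 2) (ψ j) x)) {r c : ℕ}
    (A : Matrix (Fin r) (Fin c) (MonoidAlgebra (ZMod 2) H)) (hA : ∀ v : Fin r → D, v ᵥ* (A.map ι) = 0 → v = 0) :
    ∀ᶠ j in l, ∀ w : Fin r → MonoidAlgebra (ZMod 2) (Q j),
      w ᵥ* (A.map (MonoidAlgebra.mapDomainRingHom (ZMod 2) (ψ j))) = 0 → w = 0 := by
  obtain ⟨B, hB⟩ := exists_rinv (A.map ι) hA
  choose b hb using fun (i : Fin c) (k : Fin r) => hmk (κ (B i k))
  have h1 : ∀ i k : Fin r, ∀ᶠ j in l,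
      ∑ m, v j (MonoidAlgebra.mapDomainRingHom (ZMod 2) (ψ j) (A i m)) * b m k j = (1 : Matrix (Fin r) (Fin r) (F j)) i k := by
    intro i k
    have h2 : mk ((∑ m, (fun j => v j (MonoidAlgebra.mapDomainRingHom (ZMod 2) (ψ j) (A i m))) * b m k) -
        (fun j => (1 : Matrix (Fin r) (Fin r) (F j)) i k)) = 0 := by
      rw [map_sub, map_sum, sub_eq_zero]
      have h3 : ∀ m, mk ((fun j => v j (MonoidAlgebra.mapDomainRingHom (ZMod 2) (ψ j) (A i m))) * b m k) =
          κ (ι (A i m) * B m k) := by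
        intro m
        rw [map_mul, map_mul, hb, hι]
      rw [Finset.sum_congr rfl fun m _ => h3 m, ← map_sum]
      have h4 : ∑ m, ι (A i m) * B m k = (1 : Matrix (Fin r) (Fin r) D) i k := by
        rw [← hB]
        rfl
      rw [h4, Matrix.one_apply]
      by_cases hik : i = k
      · rw [if_pos hik, map_one]
        have h5 : (fun j => (1 : Matrix (Fin r) (Fin r) (F j)) i k) = (1 : ∀ j, F j) := by
          funext j
          rw [Matrix.one_apply, if_pos hik]
          rfl
        rw [h5, map_one]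
      · rw [if_neg hik, map_zero]
        have h5 : (fun j => (1 : Matrix (Fin r) (Fin r) (F j)) i k) = (0 : ∀ j, F j) := by
          funext j
          rw [Matrix.one_apply, if_neg hik]
          rfl
        rw [h5, map_zero]
    filter_upwards [h0 _ h2] with j hj
    rw [Pi.sub_apply, sub_eq_zero, Finset.sum_apply] at hj
    exact hj
  have h2 : ∀ᶠ j in l, ∀ i k : Fin r,
      ∑ m, v j (MonoidAlgebra.mapDomainRingHom (ZMod 2) (ψ j) (A i m)) * b m k j = (1 : Matrix (Fin r) (Fin r) (F j)) i k := by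
    rw [Filter.eventually_all]
    intro i
    rw [Filter.eventually_all]
    exact h1 i
  filter_upwards [h2] with j hj w hw
  have h3 : (A.map fun x => v j (MonoidAlgebra.mapDomainRingHom (ZMod 2) (ψ j) x)) * (Matrix.of fun m k => b m k j) = 1 := by
    ext i k
    exact hj i k
  have h4 : (fun i => v j (w i)) ᵥ* (A.map fun x => v j (MonoidAlgebra.mapDomainRingHom (ZMod 2) (ψ j) x)) = 0 := by
    funext k
    have h5 := congrArg (v j) (congrFun hw k)
    rw [Pi.zero_apply, map_zero] at h5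
    rw [Pi.zero_apply, ← h5]
    show ∑ i, v j (w i) * v j _ = v j (∑ i, w i * _)
    rw [map_sum]
    exact Finset.sum_congr rfl fun i _ => (map_mul _ _ _).symm
  have h5 : (fun i => v j (w i)) = 0 := by
    have h6 := congrArg (fun z => z ᵥ* (Matrix.of fun m k => b m k j)) h4
    simp only [Matrix.vecMul_vecMul, h3, Matrix.vecMul_one, Matrix.zero_vecMul] at h6
    exact h6
  funext i
  apply hv j
  rw [Pi.zero_apply, map_zero]
  exact congrFun h5 i

/-- **Independent rows over an ultraproduct** -/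
theorem foelAppr_of [l.NeBot] (hv : ∀ j, Function.Injective (v j)) (hmk : Function.Surjective mk)
    (h0 : ∀ a, mk a = 0 → ∀ᶠ j in l, a j = 0)
    (hι : ∀ x, κ (ι x) = mk fun j => v j (MonoidAlgebra.mapDomainRingHom (ZMod 2) (ψ j) x))
    (hψ : ∀ x : H, x ≠ 1 → ∀ᶠ j in l, ψ j x ≠ 1) (hQ : ∀ j, Foel (Q j)) : FoelAppr ι := by
  classical
  intro r c r' c' A B hA hB T
  have h1 : ∀ᶠ j in l, ∀ p ∈ T ×ˢ T, p.1 ≠ p.2 → ψ j p.1 ≠ ψ j p.2 := by
    rw [Filter.eventually_all_finset]
    intro p _
    by_cases hne : p.1 = p.2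
    · exact Filter.Eventually.of_forall fun j hc => absurd hne hc
    · have hne' : p.1⁻¹ * p.2 ≠ 1 := fun hc => hne (inv_mul_eq_one.1 hc)
      filter_upwards [hψ _ hne'] with j hj _ hc
      apply hj
      rw [map_mul, map_inv, hc, inv_mul_cancel]
  obtain ⟨j, hj, hjA, hjB⟩ := (h1.and ((rows_eventually hv hmk h0 hι A hA).and (rows_eventually hv hmk h0 hι B hB))).exists
  refine ⟨Q j, inferInstance, ψ j, hQ j, fun x hx y hy hxy => ?_, hjA, hjB⟩
  by_contra hne
  exact hj (x, y) (Finset.mk_mem_product hx hy) hne hxy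

end

end Pool.Agent.S14
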