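import Pool.Agent.S14.Fine

/-!
# S14/Coef: the coefficients of `b • 1` (input for the levels `Lvl` of the pairing)
-/

namespace S14

variable {D Q : Type} [DivisionRing D] [Group Q]

/-- The series `1`. -/
noncomputable def sone (G : Gr D Q) (o : LOG Q) : Ser G o := Ser.sgl G o 1 1 G.one

/-- The coefficient of degree `q` of `b • 1`. -/
noncomputable def coef (G : Gr D Q) (o : LOG Q) (q : Q) : D →+ D where
  toFun b := (b • sone G o).co q
  map_zero' := by
    rw [zero_smul]
    rfl
  map_add' a b := by
    rw [add_smul]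
    rfl

variable (G : Gr D Q) (o : LOG Q)

theorem coef_def (q : Q) (b : D) : coef G o q b = (b • sone G o).co q := rfl

/-- The coefficients are right linear over the elements of degree one. -/
theorem coef_mul (q : Q) (b : D) {c : D} (hc : c ∈ G.S 1) :
    coef G o q (b * c) = coef G o q b * c := by
  have h1 : c • sone G o = Ser.rm c hc (sone G o) := by
    refine Ser.ext fun p => ?_
    rw [hom_smul hc, Ser.co_rm, inv_one, one_mul]
    by_cases hp : p = 1
    · subst hp
      rw [sone, Ser.co_sgl, mul_one, one_mul]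
    · rw [sone, Ser.co_sgl_ne _ _ _ hp, mul_zero, zero_mul]
  rw [coef_def, mul_smul, h1, smul_rm, Ser.co_rm]
  rfl

/-- Homogeneous elements on the left translate the coefficients. -/
theorem coef_hom {x : D} {μ : Q} (hx : x ∈ G.S μ) (q : Q) (b : D) :
    coef G o (μ * q) (x * b) = x * coef G o q b := by
  rw [coef_def, mul_smul, hom_smul hx, inv_mul_cancel_left]
  rfl

theorem coef_self {x : D} {q : Q} (hx : x ∈ G.S q) : coef G o q x = x := by
  rw [coef_def, hom_smul hx, inv_mul_cancel, sone, Ser.co_sgl, mul_one]

theorem coef_ne {x : D} {q : Q} (hx : x ∈ G.S q) {p : Q} (hp : p ≠ q) : coef G o p x = 0 := by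
  rw [coef_def, hom_smul hx, sone, Ser.co_sgl_ne, mul_zero]
  intro h
  exact hp (by rw [← mul_one q, ← h, mul_inv_cancel_left])

/-- The supports for the order and for the opposite order meet in a finite set. -/
theorem coef_fin (a b : D) : {q | coef G o.rev q a ≠ 0 ∧ coef G o q b ≠ 0}.Finite :=
  LOG.WO.finite (o := o)
    ((b • sone G o).wo.mono fun _ h => h.2) ((a • sone G o.rev).wo.mono fun _ h => h.1)

variable {H : Type} [Group H] {u : H →* D}

/-- The coefficients of fine elements lie in `KH`. -/
theorem Tow.coef_fine (T : Tow u) {j : ℕ} {b : D} (hb : b ∈ T.Fine j) (q : T.Q j) :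
    coef (T.G j) (T.o j) q b ∈ KH u := by
  refine hb j le_rfl _ (fun p => ?_) q
  by_cases hp : p = 1
  · subst hp
    rw [sone, Ser.co_sgl]
    exact (KH u).one_mem
  · rw [sone, Ser.co_sgl_ne _ _ _ hp]
    exact (KH u).zero_mem

end S14
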