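import Mathlib

/-!
# Project S14: residually (amenable and left-orderable) groups
-/

set_option autoImplicit false

namespace Pool.Agent.S14

/-- `L` is amenable (Foelner's condition): for every finite set `S` and `ε > 0` there is a finite nonempty set `E` such
that at most `ε |E|` elements of `s E` are not in `E`, for all `s ∈ S` -/
def Amen (L : Type) [Group L] : Prop :=
  ∀ (S : Finset L) (ε : ℝ), 0 < ε →
    ∃ E : Finset L, E.Nonempty ∧ ∀ s ∈ S, ({x ∈ (E : Set L) | s * x ∉ E}.ncard : ℝ) ≤ ε * E.card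

/-- `L` is left-orderable: there is a positive cone -/
def LeftOrd (L : Type) [Group L] : Prop :=
  ∃ P : Set L, (∀ x ∈ P, ∀ y ∈ P, x * y ∈ P) ∧ (1 : L) ∉ P ∧ ∀ x, x ≠ 1 → x ∈ P ∨ x⁻¹ ∈ P

/-- `H` is residually (amenable and left-orderable): for every `x ≠ 1` there is a homomorphism from `H` to an amenable
left-orderable group which does not kill `x` -/
def RAL (H : Type) [Group H] : Prop :=
  ∀ x : H, x ≠ 1 → ∃ (L : Type) (_ : Group L) (φ : H →* L), Amen L ∧ LeftOrd L ∧ φ x ≠ 1

/-- subgroups -/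
theorem RAL.comap {H G : Type} [Group H] [Group G] {f : H →* G} (hf : Function.Injective f) (h : RAL G) : RAL H := by
  intro x hx
  obtain ⟨L, hL, φ, h1, h2, h3⟩ := h (f x) fun h0 => hx (hf (h0.trans f.map_one.symm))
  exact ⟨L, hL, φ.comp f, h1, h2, h3⟩

end Pool.Agent.S14
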