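import Pool.Agent.S14.E0
import Pool.Agent.S14.Cls
import Pool.Agent.S12.Fol

/-!
# Project S14: permanence of the Foelner condition
-/

set_option autoImplicit false
set_option linter.unusedSectionVars false

open Finset

namespace Pool.Agent.S14

/-- amenable groups: by the inversion -/
theorem Amen.foel {L : Type} [Group L] (h : Amen L) : Foel L := by
  classical
  intro S ε hε
  obtain ⟨E, hne, hE⟩ := h (S.image fun s => s⁻¹) (ε / (S.card + 1)) (by positivity)
  refine ⟨E.image fun x => x⁻¹, (E.image fun x => x⁻¹).filter fun g => ∀ s ∈ S, g * s ∈ E.image fun x => x⁻¹,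
    hne.image _, filter_subset _ _, fun g hg s hs => (mem_filter.1 hg).2 s hs, ?_⟩
  set F := E.image fun x => x⁻¹ with hF
  have hcard : F.card = E.card := card_image_of_injective _ inv_injective
  have h1 : (F.filter fun g => ¬ ∀ s ∈ S, g * s ∈ F) ⊆ S.biUnion fun s => F.filter fun g => g * s ∉ F := by
    intro g hg
    rw [mem_filter] at hg
    obtain ⟨h2, h3⟩ := hg
    push Not at h3
    obtain ⟨s, hs, h4⟩ := h3
    exact mem_biUnion.2 ⟨s, hs, mem_filter.2 ⟨h2, h4⟩⟩
  have h2 : ∀ s ∈ S, ((F.filter fun g => g * s ∉ F).card : ℝ) ≤ ε / (S.card + 1) * E.card := by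
    intro s hs
    refine le_trans ?_ (hE s⁻¹ (mem_image_of_mem _ hs))
    have h3 : {x ∈ (E : Set L) | s⁻¹ * x ∉ E} = ((E.filter fun x => s⁻¹ * x ∉ E : Finset L) : Set L) := by
      ext x
      simp
    rw [h3, Set.ncard_coe_finset]
    have h4 : (F.filter fun g => g * s ∉ F) ⊆ (E.filter fun x => s⁻¹ * x ∉ E).image fun x => x⁻¹ := by
      intro g hg
      rw [mem_filter] at hg
      obtain ⟨x, hx, rfl⟩ := mem_image.1 hg.1
      refine mem_image_of_mem _ (mem_filter.2 ⟨hx, fun h5 => hg.2 (mem_image.2 ⟨_, h5, ?_⟩)⟩)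
      rw [mul_inv_rev, inv_inv]
    exact_mod_cast (card_le_card h4).trans card_image_le
  have h3 : ((F.filter fun g => ¬ ∀ s ∈ S, g * s ∈ F).card : ℝ) ≤ ε * F.card := by
    have h4 : ((F.filter fun g => ¬ ∀ s ∈ S, g * s ∈ F).card : ℝ) ≤ ∑ s ∈ S, ((F.filter fun g => g * s ∉ F).card : ℝ) := by
      exact_mod_cast (card_le_card h1).trans card_biUnion_le
    refine h4.trans ((sum_le_sum h2).trans ?_)
    rw [sum_const, nsmul_eq_mul, hcard]
    have h5 : (S.card : ℝ) * (ε / (S.card + 1)) ≤ ε := by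
      rw [mul_div_assoc', div_le_iff₀ (by positivity)]
      nlinarith
    calc (S.card : ℝ) * (ε / (S.card + 1) * E.card) = (S.card : ℝ) * (ε / (S.card + 1)) * E.card := by ring
      _ ≤ ε * E.card := mul_le_mul_of_nonneg_right h5 (Nat.cast_nonneg _)
  have h4 : ((F.filter fun g => ∀ s ∈ S, g * s ∈ F).card : ℝ) + (F.filter fun g => ¬ ∀ s ∈ S, g * s ∈ F).card = F.card := by
    exact_mod_cast card_filter_add_card_filter_not (s := F) (p := fun g => ∀ s ∈ S, g * s ∈ F)
  linarith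

/-- subgroups -/
theorem Foel.comap {Q Γ : Type} [Group Q] [Group Γ] (f : Q →* Γ) (hf : Function.Injective f) (hΓ : Foel Γ) : Foel Q := by
  classical
  intro C ε hε
  obtain ⟨E, E', hne, hE', hS, hcard⟩ := hΓ (C.image f) ε hε
  -- a coset
  obtain ⟨κ, hκ, hle⟩ : ∃ κ ∈ E.image (QuotientGroup.mk : Γ → Γ ⧸ f.range),
      (1 - ε) * ((E.filter fun e => (QuotientGroup.mk e : Γ ⧸ f.range) = κ).card : ℝ) ≤
        ((E'.filter fun e => (QuotientGroup.mk e : Γ ⧸ f.range) = κ).card : ℝ) := by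
    refine Finset.exists_le_of_sum_le (hne.image _) ?_
    rw [← Finset.mul_sum]
    have h1 := Finset.card_eq_sum_card_fiberwise (s := E) (f := (QuotientGroup.mk : Γ → Γ ⧸ f.range))
      (t := E.image (QuotientGroup.mk : Γ → Γ ⧸ f.range)) (fun e he => Finset.mem_coe.2 (Finset.mem_image_of_mem _ he))
    have h2 := Finset.card_eq_sum_card_fiberwise (s := E') (f := (QuotientGroup.mk : Γ → Γ ⧸ f.range))
      (t := E.image (QuotientGroup.mk : Γ → Γ ⧸ f.range))
      (fun e he => Finset.mem_coe.2 (Finset.mem_image_of_mem _ (hE' he)))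
    have h3 : ((E.card : ℕ) : ℝ) = ∑ κ ∈ E.image (QuotientGroup.mk : Γ → Γ ⧸ f.range),
        ((E.filter fun e => (QuotientGroup.mk e : Γ ⧸ f.range) = κ).card : ℝ) := by
      exact_mod_cast h1
    have h4 : ((E'.card : ℕ) : ℝ) = ∑ κ ∈ E.image (QuotientGroup.mk : Γ → Γ ⧸ f.range),
        ((E'.filter fun e => (QuotientGroup.mk e : Γ ⧸ f.range) = κ).card : ℝ) := by
      exact_mod_cast h2
    rw [← h3, ← h4]
    exact hcard
  obtain ⟨x, hx, rfl⟩ := Finset.mem_image.1 hκ
  -- the preimages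
  let g : Q → Γ := fun q => x * f q
  have hg : Function.Injective g := fun a b hab => hf (mul_left_cancel hab)
  have hrange : ∀ e : Γ, e ∈ Set.range g ↔ (QuotientGroup.mk e : Γ ⧸ f.range) = (QuotientGroup.mk x : Γ ⧸ f.range) := by
    intro e
    rw [eq_comm, QuotientGroup.eq]
    constructor
    · rintro ⟨q, rfl⟩
      exact ⟨q, by simp [g]⟩
    · rintro ⟨q, hq⟩
      exact ⟨q, by simp [g, hq]⟩
  have hcp : ∀ T : Finset Γ, (T.preimage g hg.injOn).card =
      (T.filter fun e => (QuotientGroup.mk e : Γ ⧸ f.range) = (QuotientGroup.mk x : Γ ⧸ f.range)).card := by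
    intro T
    rw [Finset.card_preimage]
    congr 1
    exact Finset.filter_congr fun e _ => hrange e
  refine ⟨E.preimage g hg.injOn, E'.preimage g hg.injOn, ⟨1, Finset.mem_preimage.2 (by simpa [g] using hx)⟩,
    fun q hq => Finset.mem_preimage.2 (hE' (Finset.mem_preimage.1 hq)), fun q hq s hs => Finset.mem_preimage.2 ?_, ?_⟩
  · have h9 := hS _ (Finset.mem_preimage.1 hq) (f s) (Finset.mem_image_of_mem _ hs)
    simpa [g, mul_assoc] using h9
  · rw [hcp, hcp]
    exact hle

/-- products -/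
theorem foel_pi {n : ℕ} {L : Fin n → Type} [∀ i, Group (L i)] (h : ∀ i, Foel (L i)) : Foel (∀ i, L i) := by
  classical
  intro S ε hε
  obtain ⟨δ, hδ⟩ : ∃ δ, δ = min ε 1 / ((n : ℝ) + 1) := ⟨_, rfl⟩
  have hm : (0 : ℝ) < min ε 1 := lt_min hε one_pos
  have hδ0 : 0 < δ := by
    rw [hδ]
    positivity
  have hnδ : (n : ℝ) * δ ≤ ε := by
    rw [hδ, mul_div_assoc', div_le_iff₀ (by positivity)]
    have h1 : min ε 1 ≤ ε := min_le_left _ _
    nlinarith [Nat.cast_nonneg (α := ℝ) n]
  have hδ1 : δ ≤ 1 := by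
    rw [hδ, div_le_one (by positivity)]
    have h1 : min ε 1 ≤ 1 := min_le_right _ _
    linarith [Nat.cast_nonneg (α := ℝ) n]
  choose E E' hne hsub hS hcard using fun i => h i (S.image fun s => s i) δ hδ0
  refine ⟨Fintype.piFinset E, Fintype.piFinset E', Fintype.piFinset_nonempty.2 hne,
    Fintype.piFinset_subset _ _ hsub, fun g hg s hs => Fintype.mem_piFinset.2 fun i =>
      hS i _ (Fintype.mem_piFinset.1 hg i) _ (mem_image_of_mem (fun s => s i) hs), ?_⟩
  rw [Fintype.card_piFinset, Fintype.card_piFinset]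
  push_cast
  have h1 : ∏ i, ((1 - δ) * ((E i).card : ℝ)) ≤ ∏ i, ((E' i).card : ℝ) :=
    prod_le_prod (fun i _ => mul_nonneg (by linarith) (Nat.cast_nonneg _)) fun i _ => hcard i
  rw [prod_mul_distrib, prod_const, card_univ, Fintype.card_fin] at h1
  refine le_trans (mul_le_mul_of_nonneg_right ?_ (prod_nonneg fun i _ => Nat.cast_nonneg _)) h1
  have h2 := one_add_mul_le_pow (a := -δ) (by linarith) n
  have h3 : (1 : ℝ) + n * (-δ) = 1 - n * δ := by ring
  have h4 : (1 : ℝ) + -δ = 1 - δ := by ring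
  rw [h3, h4] at h2
  linarith

/-- products of two groups -/
theorem Foel.prod {L M : Type} [Group L] [Group M] (h₁ : Foel L) (h₂ : Foel M) : Foel (L × M) := by
  classical
  intro S ε hε
  have hm : (0 : ℝ) < min ε 1 := lt_min hε one_pos
  have hm1 : min ε 1 ≤ 1 := min_le_right _ _
  have hm2 : min ε 1 ≤ ε := min_le_left _ _
  obtain ⟨E, E', hne, hsub, hS, hcard⟩ := h₁ (S.image Prod.fst) (min ε 1 / 2) (by positivity)
  obtain ⟨F, F', hne', hsub', hS', hcard'⟩ := h₂ (S.image Prod.snd) (min ε 1 / 2) (by positivity)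
  refine ⟨E ×ˢ F, E' ×ˢ F', hne.product hne', product_subset_product hsub hsub', fun g hg s hs => ?_, ?_⟩
  · obtain ⟨hg1, hg2⟩ := mem_product.1 hg
    exact mem_product.2 ⟨hS _ hg1 _ (mem_image_of_mem _ hs), hS' _ hg2 _ (mem_image_of_mem _ hs)⟩
  · rw [card_product, card_product]
    push_cast
    have h3 : ((1 - min ε 1 / 2) * (E.card : ℝ)) * ((1 - min ε 1 / 2) * (F.card : ℝ)) ≤ E'.card * F'.card :=
      mul_le_mul hcard hcard' (mul_nonneg (by linarith) (Nat.cast_nonneg _)) (Nat.cast_nonneg _)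
    refine le_trans ?_ h3
    have h4 : (0 : ℝ) ≤ (E.card : ℝ) * F.card := by positivity
    have h5 : (1 - ε) ≤ (1 - min ε 1 / 2) * (1 - min ε 1 / 2) := by nlinarith [sq_nonneg (min ε 1)]
    nlinarith [mul_le_mul_of_nonneg_right h5 h4]

/-- the weak form -/
theorem Foel.fol {Q : Type} [Group Q] (h : Foel Q) : S12.Fol Q := by
  intro C
  obtain ⟨E, E', hne, hsub, hS, hcard⟩ := h C (1 / 4) (by norm_num)
  refine ⟨E', E, hS, ?_⟩
  have h1 : (0 : ℝ) < E.card := by exact_mod_cast hne.card_pos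
  have h2 : (E.card : ℝ) < 2 * E'.card := by linarith
  exact_mod_cast h2

/-- the trivial group and the finite groups -/
theorem foel_of_finite {Q : Type} [Group Q] [Finite Q] : Foel Q := by
  classical
  have := Fintype.ofFinite Q
  intro S ε hε
  refine ⟨univ, univ, ⟨1, mem_univ _⟩, subset_rfl, fun g _ s _ => mem_univ _, ?_⟩
  have h1 : (0 : ℝ) ≤ ((univ : Finset Q).card : ℝ) := Nat.cast_nonneg _
  nlinarith

end Pool.Agent.S14
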