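import Pool.Agent.S14.Cl
import Pool.Agent.S12.Ore
import Pool.Agent.S12.LinD
import Pool.Agent.S12.Fol

/-!
# Project S14: the sum of the homogeneous components is an Ore ring if the group of the degrees is amenable

`direct`: the components `cl u q` are independent.  `S12.Fol` = a weak form of the Foelner condition.
-/

set_option autoImplicit false
set_option linter.unusedSectionVars false

namespace Pool.Agent.S14

open Pool.Agent.S12

section

variable {H D : Type} [Group H] [DivisionRing D] (u : H →* D) {N : Subgroup H} [hN : N.Normal]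

/-- the homogeneous components are independent -/
def Direct (N : Subgroup H) [N.Normal] : Prop :=
  ∀ s : (H ⧸ N) →₀ D, (∀ q, s q ∈ cl u q) → (s.sum fun _ a => a) = 0 → s = 0

/-- a translation of a finite sum -/
theorem sum_shift {Q : Type} [Group Q] (s : Q →₀ D) (f : Q) (G : Finset Q) (h : ∀ q, s q ≠ 0 → f * q ∈ G) :
    ∑ g ∈ G, s (f⁻¹ * g) = s.sum fun _ a => a := by
  classical
  rw [Finsupp.sum, ← Finset.sum_image (s := G) (g := fun g => f⁻¹ * g) (f := fun q => s q)
    (fun x _ y _ hxy => mul_left_cancel hxy)]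
  symm
  refine Finset.sum_subset (fun q hq => ?_) fun q _ hq => Finsupp.notMem_support_iff.1 hq
  exact Finset.mem_image.2 ⟨f * q, h q (Finsupp.mem_support_iff.1 hq), inv_mul_cancel_left f q⟩

/-- the left Ore condition -/
theorem lore_SD (hd : Direct u N) (P : Subgroup (H ⧸ N)) (hP : Fol P) : LOre (SD u P) := by
  classical
  intro x hx t ht ht0
  obtain ⟨a, ha, haP, rfl⟩ := (mem_SD u).1 hx
  obtain ⟨b, hb, hbP, rfl⟩ := (mem_SD u).1 ht
  -- the Foelner set
  obtain ⟨F, G, hFP, hFG, hcard⟩ : ∃ F G : Finset (H ⧸ N), (∀ f ∈ F, f ∈ P) ∧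
      (∀ f ∈ F, ∀ q, (a q ≠ 0 ∨ b q ≠ 0) → f * q ∈ G) ∧ G.card < 2 * F.card := by
    let C : Finset P := (a.support ∪ b.support).subtype fun q => q ∈ P
    obtain ⟨F, G, h1, h2⟩ := hP C
    refine ⟨F.map ⟨Subtype.val, Subtype.val_injective⟩, G.map ⟨Subtype.val, Subtype.val_injective⟩, ?_, ?_, ?_⟩
    · intro f hf
      obtain ⟨f', -, rfl⟩ := Finset.mem_map.1 hf
      exact f'.2
    · intro f hf q hq
      obtain ⟨f', hf', rfl⟩ := Finset.mem_map.1 hf
      have hqP : q ∈ P := hq.elim (haP q) (hbP q)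
      have hqC : (⟨q, hqP⟩ : P) ∈ C := by
        rw [Finset.mem_subtype, Finset.mem_union, Finsupp.mem_support_iff, Finsupp.mem_support_iff]
        exact hq
      exact Finset.mem_map.2 ⟨f' * ⟨q, hqP⟩, h1 f' hf' _ hqC, rfl⟩
    · rw [Finset.card_map, Finset.card_map]
      exact h2
  -- representatives
  obtain ⟨rp, hrp⟩ : ∃ rp : H ⧸ N → H, ∀ α, ((rp α : H) : H ⧸ N) = α :=
    (QuotientGroup.mk_surjective (s := N)).hasRightInverse
  have hmem : ∀ (c : (H ⧸ N) →₀ D), (∀ q, c q ∈ cl u q) → ∀ f g : H ⧸ N,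
      u (rp f) * c (f⁻¹ * g) * (u (rp g))⁻¹ ∈ DN u N := by
    intro c hc f g
    have h1 : u (rp f) * c (f⁻¹ * g) ∈ cl u g := by
      have h2 := cl_mul u (u_mem_cl u (N := N) (rp f)) (hc (f⁻¹ * g))
      rwa [hrp, mul_inv_cancel_left] at h2
    exact h1 (rp g) (hrp g)
  obtain ⟨v, hv0, hv⟩ := exists_left (D := DN u N) (m := F ⊕ F) (n := G)
    (fun i j => Sum.elim (fun f : F => (⟨_, hmem a ha f.1 j.1⟩ : DN u N))
      (fun f : F => -(⟨_, hmem b hb f.1 j.1⟩ : DN u N)) i)
    (by rw [Fintype.card_sum, Fintype.card_coe, Fintype.card_coe]; omega)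
  set p : D := ∑ f : F, (v (Sum.inl f) : D) * u (rp f.1) with hp
  set r : D := ∑ f : F, (v (Sum.inr f) : D) * u (rp f.1) with hr
  have hprod : ∀ (c : (H ⧸ N) →₀ D) (w : F → DN u N), (∀ q, c q ≠ 0 → a q ≠ 0 ∨ b q ≠ 0) →
      (∑ f : F, (w f : D) * u (rp f.1)) * (c.sum fun _ a => a) =
      ∑ g : G, (∑ f : F, (w f : D) * (u (rp f.1) * c (f.1⁻¹ * g.1) * (u (rp g.1))⁻¹)) * u (rp g.1) := by
    intro c w hcw
    have h1 : ∀ g : G, (∑ f : F, (w f : D) * (u (rp f.1) * c (f.1⁻¹ * g.1) * (u (rp g.1))⁻¹)) * u (rp g.1) =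
        ∑ f : F, (w f : D) * u (rp f.1) * c (f.1⁻¹ * g.1) := by
      intro g
      rw [Finset.sum_mul]
      refine Finset.sum_congr rfl fun f _ => ?_
      rw [mul_assoc, inv_mul_cancel_right₀ (u_ne u _), mul_assoc]
    rw [Finset.sum_congr rfl fun g _ => h1 g, Finset.sum_comm, Finset.sum_mul]
    refine Finset.sum_congr rfl fun f _ => ?_
    rw [← Finset.mul_sum]
    congr 1
    rw [← sum_shift c f.1 G fun q hq => hFG f.1 f.2 q (hcw q hq)]
    exact (Finset.sum_coe_sort G fun g => c (f.1⁻¹ * g)).symm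
  have hup : p * (a.sum fun _ a => a) = r * (b.sum fun _ a => a) := by
    rw [← sub_eq_zero, hp, hr, hprod a _ fun q hq => Or.inl hq, hprod b _ fun q hq => Or.inr hq,
      ← Finset.sum_sub_distrib]
    refine Finset.sum_eq_zero fun g _ => ?_
    rw [← sub_mul]
    have h1 := congrArg (fun d : DN u N => (d : D)) (hv g)
    rw [Fintype.sum_sum_type] at h1
    simp only [Sum.elim_inl, Sum.elim_inr] at h1
    have h2 : (∑ f : F, (v (Sum.inl f) : D) * (u (rp f.1) * a (f.1⁻¹ * g.1) * (u (rp g.1))⁻¹)) -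
        ∑ f : F, (v (Sum.inr f) : D) * (u (rp f.1) * b (f.1⁻¹ * g.1) * (u (rp g.1))⁻¹) = 0 := by
      rw [sub_eq_add_neg, ← Finset.sum_neg_distrib]
      refine Eq.trans ?_ h1
      rw [Subfield.coe_add, AddSubmonoidClass.coe_finsetSum, AddSubmonoidClass.coe_finsetSum]
      congr 1
      refine Finset.sum_congr rfl fun f _ => ?_
      rw [← mul_neg]
      rfl
    rw [h2, zero_mul]
  have hzero : ∀ w : F → DN u N, (∑ f : F, (w f : D) * u (rp f.1)) = 0 → ∀ f, w f = 0 := by
    intro w hw f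
    let s : (H ⧸ N) →₀ D := Finsupp.indicator F fun q hq => (w ⟨q, hq⟩ : D) * u (rp q)
    have hs1 : ∀ q (hq : q ∈ F), s q = (w ⟨q, hq⟩ : D) * u (rp q) := fun q hq => Finsupp.indicator_of_mem hq _
    have hs0 : ∀ q, q ∉ F → s q = 0 := fun q hq => Finsupp.indicator_of_notMem hq _
    have hs : s = 0 := by
      refine hd s (fun q => ?_) ?_
      · by_cases hq : q ∈ F
        · rw [hs1 q hq]
          have h1 := mul_u_mem_cl u (w ⟨q, hq⟩).2 (rp q)
          rwa [hrp] at h1
        · rw [hs0 q hq]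
          exact (cl u q).zero_mem
      · rw [← hw, Finsupp.sum]
        rw [Finset.sum_subset (s₁ := s.support) (s₂ := F) (fun q hq => ?_) fun q _ hq => Finsupp.notMem_support_iff.1 hq]
        · rw [← Finset.sum_coe_sort F]
          exact Finset.sum_congr rfl fun q _ => hs1 q.1 q.2
        · by_contra hc
          exact Finsupp.mem_support_iff.1 hq (hs0 q hc)
    have h1 := hs1 f.1 f.2
    rw [hs, Finsupp.zero_apply] at h1
    rcases mul_eq_zero.1 h1.symm with h2 | h2
    · exact Subtype.ext h2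
    · exact absurd h2 (u_ne u _)
  have hmemS : ∀ w : F → DN u N, (∑ f : F, (w f : D) * u (rp f.1)) ∈ SD u P := fun w =>
    (SD u P).sum_mem fun f _ => cl_le_SD u (q := ((rp f.1 : H) : H ⧸ N)) (by rw [hrp]; exact hFP f.1 f.2)
      (mul_u_mem_cl u (w f).2 (rp f.1))
  refine ⟨p, hmemS fun f => v (Sum.inl f), r, hmemS fun f => v (Sum.inr f), fun hp0 => hv0 ?_, hup⟩
  rw [hp0, zero_mul] at hup
  have hr0 : r = 0 := (mul_eq_zero.1 hup.symm).resolve_right ht0
  funext i
  rcases i with f | f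
  · exact hzero (fun f => v (Sum.inl f)) hp0 f
  · exact hzero (fun f => v (Sum.inr f)) hr0 f

/-- **Fractions.** -/
theorem exists_frac (hd : Direct u N) (P : Subgroup (H ⧸ N)) (hP : Fol P) {c : D}
    (hc : c ∈ DN u (P.comap (QuotientGroup.mk' N))) : ∃ s ∈ SD u P, s ≠ 0 ∧ s * c ∈ SD u P := by
  obtain ⟨E, hE⟩ := exists_lfrac (lore_SD u hd P hP)
  refine (hE c).1 ?_
  have h1 : DN u (P.comap (QuotientGroup.mk' N)) ≤ E := by
    refine Subfield.closure_le.2 ?_
    rintro _ ⟨h, hh, rfl⟩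
    refine (hE _).2 ⟨1, (SD u P).one_mem, one_ne_zero, ?_⟩
    rw [one_mul]
    exact u_mem_SD u hh
  exact h1 hc

end

end Pool.Agent.S14
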