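import Pool.Agent.S14.Dat
import Pool.Agent.S14.Frac
import Pool.Agent.S14.Coef
import Pool.Agent.S14.FlatF
import Pool.Agent.S14.E5

/-!
# Project S14: from the data `Dat H` to the tower of gradings, the levels of the pairing and the flatness
-/

set_option autoImplicit false
set_option linter.unusedSectionVars false

open TensorProduct

namespace Pool.Agent.S14

open Pool.Agent.S11 Pool.Agent.S12

section

variable {H D : Type} [Group H] [DivisionRing D]

/-- the left order as explicit data -/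
def logOf {Q : Type} [Group Q] (o : LO Q) : _root_.S14.LOG Q := ⟨o.toLinearOrder, fun a b c h => o.lt_l a b c h⟩

/-- the anti-automorphism preserves the subfield generated by an invariant set -/
theorem st_closure' {D₀ : Type} [DivisionRing D₀] (st : D₀ → D₀) (st_add : ∀ a b, st (a + b) = st a + st b)
    (st_mul : ∀ a b, st (a * b) = st b * st a) (st_st : ∀ a, st (st a) = a) (R : Set D₀)
    (hR : ∀ a ∈ R, st a ∈ Subfield.closure R) : ∀ a ∈ Subfield.closure R, st a ∈ Subfield.closure R := by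
  have st_zero : st 0 = 0 := by
    have h1 := st_add 0 0
    rw [add_zero] at h1
    exact (add_eq_left.1 h1.symm)
  have st_one : st 1 = 1 := by
    have h1 := st_mul 1 1
    rw [mul_one] at h1
    have h2 : st 1 ≠ 0 := fun h0 => by
      have h3 := st_st 1
      rw [h0, st_zero] at h3
      exact zero_ne_one h3
    exact (mul_eq_left₀ h2).1 h1.symm
  have st_neg : ∀ a, st (-a) = -st a := fun a => by
    have h1 := st_add a (-a)
    rw [add_neg_cancel, st_zero] at h1
    exact (neg_eq_of_add_eq_zero_right h1.symm).symm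
  have st_inv : ∀ a, st a⁻¹ = (st a)⁻¹ := fun a => by
    by_cases ha : a = 0
    · rw [ha, inv_zero, st_zero, inv_zero]
    · have h1 := st_mul a a⁻¹
      rw [mul_inv_cancel₀ ha, st_one] at h1
      exact eq_inv_of_mul_eq_one_left h1.symm
  intro a ha
  induction ha using Subfield.closure_induction with
  | mem x hx => exact hR x hx
  | one => rw [st_one]; exact (Subfield.closure R).one_mem
  | add x y _ _ hx hy => rw [st_add]; exact (Subfield.closure R).add_mem hx hy
  | neg x _ hx => rw [st_neg]; exact (Subfield.closure R).neg_mem hx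
  | inv x _ hx => rw [st_inv]; exact (Subfield.closure R).inv_mem hx
  | mul x y _ _ hx hy => rw [st_mul]; exact (Subfield.closure R).mul_mem hy hx

/-- the graded sums as finitely supported functions -/
theorem exists_frac' (u : H →* D) {N : Subgroup H} [N.Normal] (hd : Direct u N) (P : Subgroup (H ⧸ N)) (hP : Fol P)
    {c : D} (hc : c ∈ DN u (P.comap (QuotientGroup.mk' N))) :
    ∃ s t : (H ⧸ N) →₀ D, (∀ q, s q ∈ cl u q) ∧ (∀ q, t q ∈ cl u q) ∧ (∀ q, s q ≠ 0 → q ∈ P) ∧ (∀ q, t q ≠ 0 → q ∈ P) ∧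
      _root_.S14.ev s ≠ 0 ∧ _root_.S14.ev s * c = _root_.S14.ev t := by
  obtain ⟨s, hs, hs0, hsc⟩ := exists_frac u hd P hP hc
  obtain ⟨a, ha, haP, rfl⟩ := (mem_SD u).1 hs
  obtain ⟨b, hb, hbP, hab⟩ := (mem_SD u).1 hsc
  exact ⟨a, b, ha, hb, haP, hbP, hs0, hab.symm⟩

/-- the grading -/
noncomputable def grOf (u : H →* D) (N : Subgroup H) [N.Normal] (hd : Direct u N) (hF : Foel (H ⧸ N))
    (hg : Subfield.closure (Set.range u) = ⊤) : _root_.S14.Gr D (H ⧸ N) where
  S := cl u
  one := cl_one u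
  mul := cl_mul u
  inv := cl_inv u
  direct := fun s hs h => hd s hs h
  frac := fun d => by
    have h1 : Fol (⊤ : Subgroup (H ⧸ N)) :=
      (Foel.comap (f := (⊤ : Subgroup (H ⧸ N)).subtype) Subtype.val_injective hF).fol
    obtain ⟨s, t, hs, ht, -, -, h0, h2⟩ := exists_frac' u hd ⊤ h1 (c := d) (by
      have h3 : DN u ((⊤ : Subgroup (H ⧸ N)).comap (QuotientGroup.mk' N)) = ⊤ := by
        unfold DN
        rw [Subgroup.comap_top, Subgroup.coe_top, Set.image_univ, hg]
      rw [h3]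
      exact Subfield.mem_top d)
    exact ⟨s, t, hs, ht, h0, h2⟩

variable (C : ℕ → Subgroup H) [hC : ∀ j, (C j).Normal]

open Classical in
/-- the maps of the quotients -/
noncomputable def piOf (i j : ℕ) : H ⧸ C j →* H ⧸ C i :=
  if h : C j ≤ C i then QuotientGroup.map (C j) (C i) (MonoidHom.id H) h else 1

theorem piOf_mk {i j : ℕ} (h : C j ≤ C i) (x : H) : piOf C i j (x : H ⧸ C j) = (x : H ⧸ C i) := by
  unfold piOf
  rw [dif_pos h]
  rfl

theorem prOf (u : H →* D) {i j : ℕ} (h : C j ≤ C i) (hi : Direct u (C i)) (hFi : Foel (H ⧸ C i))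
    (hj : Direct u (C j)) (hFj : Foel (H ⧸ C j)) (hg : Subfield.closure (Set.range u) = ⊤) :
    _root_.S14.Pr (grOf u (C j) hj hFj hg) (grOf u (C i) hi hFi hg) (piOf C i j) where
  le := by
    intro q a ha
    obtain ⟨x, rfl⟩ := QuotientGroup.mk_surjective q
    rw [piOf_mk C h]
    change a ∈ cl u ((x : H) : H ⧸ C i)
    rw [mem_cl_iff u rfl]
    exact DN_mono u h (ha x rfl)
  unit := by
    intro r
    obtain ⟨x, rfl⟩ := QuotientGroup.mk_surjective r
    exact ⟨(x : H ⧸ C j), piOf_mk C h x, u x, u_mem_cl u x, u_ne u x⟩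
  frac := by
    intro c hc
    have h1 : Fol (piOf C i j).ker := (Foel.comap (f := (piOf C i j).ker.subtype) Subtype.val_injective hFj).fol
    obtain ⟨s, t, hs, ht, hs', ht', h0, h2⟩ := exists_frac' u hj (piOf C i j).ker h1 (c := c) (by
      have h3 : ((piOf C i j).ker).comap (QuotientGroup.mk' (C j)) = C i := by
        ext x
        rw [Subgroup.mem_comap, MonoidHom.mem_ker, QuotientGroup.mk'_apply, piOf_mk C h, QuotientGroup.eq_one_iff]
      rw [h3]
      exact (mem_cl_one u).1 hc)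
    exact ⟨s, t, hs, ht, fun q hq => MonoidHom.mem_ker.1 (hs' q hq), fun q hq => MonoidHom.mem_ker.1 (ht' q hq), h0, h2⟩

end

section

variable {H : Type} [Group H] (d : Dat H)

theorem Dat.gen' : Subfield.closure (Set.range (uh d.ι)) = ⊤ := d.gen

/-- the tower of gradings -/
noncomputable def Dat.tow : _root_.S14.Tow (uh d.ι) where
  Q j := H ⧸ d.N j
  grp j := inferInstance
  q j := QuotientGroup.mk' (d.N j)
  surj j := QuotientGroup.mk'_surjective _
  G j := grOf (uh d.ι) (d.N j) (d.direct j) (d.foel j) d.gen'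
  u_mem j h := u_mem_cl _ h
  π i j := piOf d.N i j
  π_q i j hij h := piOf_mk d.N (d.anti hij) h
  pr i j hij := prOf d.N (uh d.ι) (d.anti hij) _ _ _ _ _
  o j := logOf (d.lo j)
  mono i j hij a b h := by
    obtain ⟨x, rfl⟩ := QuotientGroup.mk_surjective a
    obtain ⟨y, rfl⟩ := QuotientGroup.mk_surjective b
    rw [piOf_mk d.N (d.anti hij), piOf_mk d.N (d.anti hij)] at h
    exact d.mono i j hij x y h
  sep h hh := d.sep h fun j => (QuotientGroup.eq_one_iff h).1 (hh j)

theorem Dat.st_mem (N : Subgroup H) {c : d.D} (hc : c ∈ DN (uh d.ι) N) : d.σ.st c ∈ DN (uh d.ι) N := by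
  have h1 := st_closure' d.σ.st (fun a b => map_add _ a b) d.σ.mul d.σ.inv (uh d.ι '' (N : Set H)) (by
    rintro _ ⟨n, hn, rfl⟩
    rw [d.σ.uh]
    exact Subfield.subset_closure ⟨n⁻¹, N.inv_mem hn, rfl⟩)
  exact h1 c hc

theorem Dat.KH_le {b : d.D} (hb : b ∈ _root_.S14.KH (uh d.ι)) : ∃ a, b = d.ι a := by
  have h1 : _root_.S14.KH (uh d.ι) ≤ d.ι.range := by
    refine Subring.closure_le.2 ?_
    rintro _ ⟨h, rfl⟩
    exact ⟨MonoidAlgebra.single h 1, rfl⟩
  obtain ⟨a, ha⟩ := h1 hb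
  exact ⟨a, ha.symm⟩

/-- the levels of the pairing -/
noncomputable def Dat.lvl (j : ℕ) : Lvl d.ι d.σ (d.N j) where
  DN := DN (uh d.ι) (d.N j)
  st_mem c hc := d.st_mem _ hc
  conj_mem c hc h := by
    rw [u_inv]
    exact conj_DN _ h hc
  co := _root_.S14.coef (d.tow.G j) (d.tow.o j)
  cop := _root_.S14.coef (d.tow.G j) (d.tow.o j).rev
  co_mul q b c hc := _root_.S14.coef_mul _ _ q b ((mem_cl_one _).2 hc)
  cop_mul q b c hc := _root_.S14.coef_mul _ _ q b ((mem_cl_one _).2 hc)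
  co_uh h q b := _root_.S14.coef_hom _ _ (u_mem_cl (uh d.ι) h) q b
  cop_uh h q b := _root_.S14.coef_hom _ _ (u_mem_cl (uh d.ι) h) q b
  co_self c hc h := _root_.S14.coef_self _ _ (mul_u_mem_cl (uh d.ι) hc h)
  cop_self c hc h := _root_.S14.coef_self _ _ (mul_u_mem_cl (uh d.ι) hc h)
  co_ne c hc h q hq := _root_.S14.coef_ne _ _ (mul_u_mem_cl (uh d.ι) hc h) hq
  cop_ne c hc h q hq := _root_.S14.coef_ne _ _ (mul_u_mem_cl (uh d.ι) hc h) hq
  fin a b := _root_.S14.coef_fin _ _ a b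
  Fine := d.tow.Fine j ⊓ d.tow.rev.Fine j
  uh_mem h := Subring.mem_inf.2 ⟨d.tow.u_fine j h, d.tow.rev.u_fine j h⟩
  fine_co b hb q := d.KH_le (d.tow.coef_fine (Subring.mem_inf.1 hb).1 q)
  fine_cop b hb q := d.KH_le (d.tow.rev.coef_fine (Subring.mem_inf.1 hb).2 q)

theorem Dat.two : (2 : d.D) = 0 := by
  have h1 : (2 : ZMod 2) = 0 := by decide
  have h2 := congrArg (algebraMap (ZMod 2) d.D) h1
  rwa [map_ofNat, map_zero] at h2

theorem Dat.gen'' (S : Subring d.D) (h : ∀ h, uh d.ι h ∈ S) (hinv : ∀ x ∈ S, x⁻¹ ∈ S) : S = ⊤ := by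
  let E : Subfield d.D := { S with inv_mem' := hinv }
  have h1 : (⊤ : Subfield d.D) ≤ E := by
    rw [← d.gen']
    refine Subfield.closure_le.2 ?_
    rintro _ ⟨x, rfl⟩
    exact h x
  refine eq_top_iff.2 fun x _ => ?_
  exact h1 (Subfield.mem_top x)

/-- every finite set is fine at some level -/
theorem Dat.exists_level (F : Finset d.D) : ∃ j, ∀ a ∈ F, a ∈ (d.lvl j).Fine := by
  classical
  induction F using Finset.induction_on with
  | empty => exact ⟨0, fun a ha => absurd ha (Finset.notMem_empty a)⟩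
  | insert b F _ ih =>
    obtain ⟨j, hj⟩ := ih
    obtain ⟨k, hk⟩ := d.tow.exists_fine d.two d.gen'' b
    obtain ⟨l, hl⟩ := d.tow.rev.exists_fine d.two d.gen'' b
    refine ⟨max j (max k l), fun a ha => ?_⟩
    rcases Finset.mem_insert.1 ha with rfl | ha
    · exact Subring.mem_inf.2 ⟨d.tow.fine_mono ((le_max_left k l).trans (le_max_right _ _)) hk,
        d.tow.rev.fine_mono ((le_max_right k l).trans (le_max_right _ _)) hl⟩
    · obtain ⟨h1, h2⟩ := Subring.mem_inf.1 (hj a ha)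
      exact Subring.mem_inf.2 ⟨d.tow.fine_mono (le_max_left _ _) h1, d.tow.rev.fine_mono (le_max_left _ _) h2⟩

theorem Dat.SS_of_SD (j : ℕ) {a : d.D} (ha : a ∈ SD (uh d.ι) (⊤ : Subgroup (H ⧸ d.N j))) : a ∈ (d.lvl j).SS := by
  obtain ⟨s, hs, -, rfl⟩ := (mem_SD _).1 ha
  refine AddSubgroup.sum_mem _ fun q _ => AddSubgroup.subset_closure ?_
  obtain ⟨x, rfl⟩ := QuotientGroup.mk_surjective q
  obtain ⟨c, hc, h1⟩ := exists_mem_DN _ (hs x)
  exact ⟨c, hc, x, h1⟩

/-- levels for finite sets -/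
theorem Dat.frac : Frac d.σ := by
  intro F
  obtain ⟨j, hj⟩ := d.exists_level F
  have h1 : Fol (⊤ : Subgroup (H ⧸ d.N j)) :=
    (Foel.comap (f := (⊤ : Subgroup (H ⧸ d.N j)).subtype) Subtype.val_injective (d.foel j)).fol
  obtain ⟨s, hs, hs0, hsF⟩ := common_left (lore_SD (uh d.ι) (d.direct j) ⊤ h1) F fun a _ =>
    exists_frac (uh d.ι) (d.direct j) ⊤ h1 (by
      have h3 : DN (uh d.ι) ((⊤ : Subgroup (H ⧸ d.N j)).comap (QuotientGroup.mk' (d.N j))) = ⊤ := by
        unfold DN
        rw [Subgroup.comap_top, Subgroup.coe_top, Set.image_univ, d.gen']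
      rw [h3]
      exact Subfield.mem_top a)
  exact ⟨d.N j, inferInstance, d.lvl j, hj, s, d.SS_of_SD j hs, hs0, fun a ha => d.SS_of_SD j (hsF a ha)⟩

/-- **Flatness** -/
theorem Dat.flat : Flat ((lft d.ι).tprod (lft d.ι)) := d.frac.flat d.inj

/-- **The package** -/
theorem Dat.exists_lpack (d : Dat H) : Nonempty (LPack H) :=
  ⟨{ D := d.D, div := d.div, alg := d.alg, ι := d.ι, flat := d.flat, l2 := l2P_of_foel d.ι d.appr }⟩

end

end Pool.Agent.S14
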