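import Pool.Agent.S14.DatM2
import Pool.Agent.S14.Lv

/-!
# Project S14: the division ring of a countable residually (amenable and left-orderable) group
-/

set_option autoImplicit false

namespace Pool.Agent.S14

/-- **The division ring** -/
theorem RAL.exists_lpack {H : Type} [Group H] [Countable H] (h : RAL H) : ∃ _ : LO H, Nonempty (LPack H) := by
  obtain ⟨lo, ⟨C⟩⟩ := exists_chn h
  obtain ⟨d⟩ := exists_dat C
  exact ⟨lo, d.exists_lpack⟩

end Pool.Agent.S14
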