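import Pool.Agent.S14.UDefs
import Pool.Agent.S14.ApR

/-!
# Project S14: the approximation property in the ultraproduct

PROOF: independent rows over the division subring `D` have a right inverse over `D`, so over the ultraproduct; the entries are
sequences and the identity `A B = 1` holds over `F j` for almost all `j`; `T` is finite, so it injects into `H ⧸ N j` for almost
all `j`; `v_j` is injective.
-/

set_option autoImplicit false
set_option linter.unusedSectionVars false

namespace Pool.Agent.S14

variable {H : Type} [Group H] (C : Chn H) (Fr : ∀ j, Frc (H ⧸ C.N j))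

/-- **The approximation property** for a division ring `D` between `K[H]` and the ultraproduct -/
theorem appr_of_up {D : Type} [DivisionRing D] (ι : MonoidAlgebra (ZMod 2) H →+* D) (e : D →+* Up fun j => (Fr j).F)
    (he : ∀ a, e (ι a) = vU C Fr a) : FoelAppr ι := by
  refine foelAppr_of (κ := e) (Q := fun j => H ⧸ C.N j) (F := fun j => (Fr j).F)
    (ψ := fun j => QuotientGroup.mk' (C.N j)) (v := fun j => (Fr j).v) (mk := Up.mk _)
    (l := (Filter.hyperfilter ℕ : Filter ℕ)) (fun j => (Fr j).inj) Up.mk_surj (fun a ha => ?_) (fun x => ?_) (fun x hx => ?_)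
    C.foel
  · rw [← map_zero (Up.mk fun j => (Fr j).F), Up.mk_eq_iff] at ha
    exact ha
  · rw [he]
    rfl
  · obtain ⟨j₀, hj₀⟩ : ∃ j, x ∉ C.N j := by
      by_contra hc
      push Not at hc
      exact hx (C.sep x hc)
    have h1 : ∀ᶠ j in Filter.atTop, QuotientGroup.mk' (C.N j) x ≠ 1 := by
      filter_upwards [Filter.eventually_ge_atTop j₀] with j hj hc
      exact hj₀ (C.anti j₀ j hj ((QuotientGroup.eq_one_iff x).1 hc))
    have h2 : (Filter.hyperfilter ℕ : Filter ℕ) ≤ Filter.atTop := by
      rw [← Nat.cofinite_eq_atTop]
      exact Filter.hyperfilter_le_cofinite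
    exact h2 h1

end Pool.Agent.S14
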