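import Pool.Agent.S14.DDefs
import Pool.Agent.S14.E5

/-!
# Project S14: the chain

`exists_chn`: a countable residually (amenable and left-orderable) group is left-orderable and has a chain (`Chn`).
PROOF.  Enumerate the elements: homomorphisms `φ k : H →* L k`, `L k` amenable with a positive cone `P k`.  `N j` = the `x`
with `φ k x = 1` for all `k < j`.  The positive elements are those for which the first nontrivial `φ k x` is in `P k`.
`Foel`: `H ⧸ N j` embeds in a finite product (`E5`).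
-/

set_option autoImplicit false
set_option linter.unusedSectionVars false

namespace Pool.Agent.S14

/-! ### Positive cones -/

/-- a positive cone -/
structure Cone {Q : Type} [Group Q] (P : Set Q) : Prop where
  mul : ∀ x ∈ P, ∀ y ∈ P, x * y ∈ P
  one : (1 : Q) ∉ P
  tot : ∀ x, x ≠ 1 → x ∈ P ∨ x⁻¹ ∈ P

theorem Cone.not_inv {Q : Type} [Group Q] {P : Set Q} (h : Cone P) {x : Q} (hx : x ∈ P) : x⁻¹ ∉ P :=
  fun hx' => h.one (by simpa using h.mul x hx _ hx')

open Classical in
/-- the order of a positive cone -/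
@[reducible] noncomputable def Cone.ord {Q : Type} [Group Q] {P : Set Q} (h : Cone P) : LinearOrder Q where
  le a b := a = b ∨ a⁻¹ * b ∈ P
  lt a b := a⁻¹ * b ∈ P
  le_refl a := Or.inl rfl
  le_trans a b c := by
    rintro (rfl | h1) (rfl | h2)
    · exact Or.inl rfl
    · exact Or.inr h2
    · exact Or.inr h1
    · right
      have := h.mul _ h1 _ h2
      rwa [show a⁻¹ * b * (b⁻¹ * c) = a⁻¹ * c by group] at this
  lt_iff_le_not_ge a b := by
    constructor
    · intro h1
      refine ⟨Or.inr h1, ?_⟩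
      rintro (rfl | h2)
      · exact h.one (by simpa using h1)
      · exact h.not_inv h1 (by simpa using h2)
    · rintro ⟨rfl | h1, h2⟩
      · exact absurd (Or.inl rfl) h2
      · exact h1
  le_antisymm a b := by
    rintro (rfl | h1) (h2 | h2)
    · rfl
    · rfl
    · exact h2.symm
    · exact absurd (by simpa using h2) (h.not_inv h1)
  le_total a b := by
    rcases eq_or_ne (a⁻¹ * b) 1 with h1 | h1
    · exact Or.inl (Or.inl (inv_mul_eq_one.1 h1))
    · rcases h.tot _ h1 with h2 | h2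
      · exact Or.inl (Or.inr h2)
      · exact Or.inr (Or.inr (by simpa using h2))
  toDecidableLE := fun _ _ => Classical.propDecidable _

theorem Cone.ord_lt {Q : Type} [Group Q] {P : Set Q} (h : Cone P) (a b : Q) : h.ord.lt a b ↔ a⁻¹ * b ∈ P := Iff.rfl

theorem Cone.left {Q : Type} [Group Q] {P : Set Q} (h : Cone P) (a b c : Q) (hab : h.ord.lt a b) :
    h.ord.lt (c * a) (c * b) := by
  rw [Cone.ord_lt] at *
  rwa [show (c * a)⁻¹ * (c * b) = a⁻¹ * b by group]

/-- a left invariant order -/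
@[reducible] noncomputable def Cone.lo {Q : Type} [Group Q] {P : Set Q} (h : Cone P) : LO Q :=
  { h.ord with lt_l := h.left }

theorem LeftOrd.cone {L : Type} [Group L] (h : LeftOrd L) : ∃ P : Set L, Cone P := by
  obtain ⟨P, h1, h2, h3⟩ := h
  exact ⟨P, h1, h2, h3⟩

/-! ### The homomorphisms -/

/-- homomorphisms to amenable left-orderable groups which separate the elements -/
structure Src (H : Type) [Group H] where
  /-- the groups -/
  L : ℕ → Type
  /-- they are groups -/
  grp : ∀ k, Group (L k)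
  /-- the homomorphisms -/
  φ : ∀ k, H →* L k
  /-- the positive cones -/
  P : ∀ k, Set (L k)
  cone : ∀ k, Cone (P k)
  foel : ∀ k, Foel (L k)
  sep : ∀ h : H, (∀ k, φ k h = 1) → h = 1

attribute [instance] Src.grp

theorem amen_unit : Amen PUnit.{1} := by
  intro S ε hε
  refine ⟨{1}, Finset.singleton_nonempty _, fun s _ => ?_⟩
  have : {x : PUnit.{1} | x ∈ (({1} : Finset PUnit.{1}) : Set PUnit.{1}) ∧ s * x ∉ ({1} : Finset PUnit.{1})} = ∅ := by
    ext x
    simp
  have h2 : {x ∈ (({1} : Finset PUnit.{1}) : Set PUnit.{1}) | s * x ∉ ({1} : Finset PUnit.{1})} = ∅ := this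
  rw [h2]
  simp [hε.le]

theorem leftOrd_unit : LeftOrd PUnit.{1} :=
  ⟨∅, fun _ h => h.elim, fun h => h, fun _ hx => (hx rfl).elim⟩

theorem exists_src {H : Type} [Group H] [Countable H] (h : RAL H) : Nonempty (Src H) := by
  obtain ⟨f, hf⟩ := exists_surjective_nat H
  have key : ∀ n, ∃ (L : Type) (_ : Group L) (φ : H →* L), Amen L ∧ LeftOrd L ∧ (f n ≠ 1 → φ (f n) ≠ 1) := by
    intro n
    by_cases hn : f n = 1
    · exact ⟨PUnit, inferInstance, 1, amen_unit, leftOrd_unit, fun h => absurd hn h⟩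
    · obtain ⟨L, hL, φ, h1, h2, h3⟩ := h _ hn
      exact ⟨L, hL, φ, h1, h2, fun _ => h3⟩
  choose L hL φ h1 h2 h3 using key
  choose P hP using fun n => (h2 n).cone
  refine ⟨⟨L, hL, φ, P, hP, fun n => (h1 n).foel, fun x hx => ?_⟩⟩
  obtain ⟨n, rfl⟩ := hf x
  by_contra hn
  exact h3 n hn (hx n)

namespace Src

variable {H : Type} [Group H] (s : Src H)

/-- the chain -/
def N (j : ℕ) : Subgroup H where
  carrier := {h | ∀ k, k < j → s.φ k h = 1}
  mul_mem' := fun {a b} ha hb k hk => by rw [map_mul, ha k hk, hb k hk, mul_one]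
  one_mem' := fun k _ => map_one _
  inv_mem' := fun {a} ha k hk => by rw [map_inv, ha k hk, inv_one]

theorem mem_N {j : ℕ} {h : H} : h ∈ s.N j ↔ ∀ k, k < j → s.φ k h = 1 := Iff.rfl

instance (j : ℕ) : (s.N j).Normal := ⟨fun n hn g k hk => by
  rw [map_mul, map_mul, hn k hk, mul_one, ← map_mul, mul_inv_cancel, map_one]⟩

theorem N_zero : s.N 0 = ⊤ := by
  rw [eq_top_iff]
  intro h _ k hk
  exact absurd hk (Nat.not_lt_zero k)

theorem N_anti {i j : ℕ} (h : i ≤ j) : s.N j ≤ s.N i := fun _ hx k hk => hx k (hk.trans_le h)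

theorem N_sep {h : H} (hh : ∀ j, h ∈ s.N j) : h = 1 := s.sep h fun k => hh (k + 1) k (Nat.lt_succ_self k)

/-- the first homomorphism which does not kill the element has a positive value -/
def C (h : H) (k : ℕ) : Prop := (∀ i, i < k → s.φ i h = 1) ∧ s.φ k h ∈ s.P k

theorem C_mul {x y : H} {k l : ℕ} (hx : s.C x k) (hy : s.C y l) : s.C (x * y) (min k l) := by
  obtain ⟨x1, x2⟩ := hx
  obtain ⟨y1, y2⟩ := hy
  refine ⟨fun i hi => ?_, ?_⟩
  · rw [map_mul, x1 i (hi.trans_le (min_le_left _ _)), y1 i (hi.trans_le (min_le_right _ _)), mul_one]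
  · rcases lt_trichotomy k l with h | h | h
    · rw [min_eq_left h.le, map_mul, y1 k h, mul_one]
      exact x2
    · subst h
      rw [min_self, map_mul]
      exact (s.cone k).mul _ x2 _ y2
    · rw [min_eq_right h.le, map_mul, x1 l h, one_mul]
      exact y2

theorem C_ne {x : H} {k : ℕ} (hx : s.C x k) : s.φ k x ≠ 1 := fun h => (s.cone k).one (h ▸ hx.2)

theorem C_tot {x : H} {k : ℕ} (hk : s.φ k x ≠ 1) : ∃ l, l ≤ k ∧ (s.C x l ∨ s.C x⁻¹ l) := by
  classical
  have he : ∃ k, s.φ k x ≠ 1 := ⟨k, hk⟩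
  refine ⟨Nat.find he, Nat.find_min' he hk, ?_⟩
  have h1 : ∀ i, i < Nat.find he → s.φ i x = 1 := fun i hi => not_not.1 (Nat.find_min he hi)
  rcases (s.cone _).tot _ (Nat.find_spec he) with h2 | h2
  · exact Or.inl ⟨h1, h2⟩
  · refine Or.inr ⟨fun i hi => ?_, ?_⟩
    · rw [map_inv, h1 i hi, inv_one]
    · rw [map_inv]
      exact h2

theorem C_congr {x y : H} {j k : ℕ} (hk : k < j) (h : (x : H ⧸ s.N j) = y) (hx : s.C x k) : s.C y k := by
  have h1 : x⁻¹ * y ∈ s.N j := QuotientGroup.eq.1 h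
  have h2 : ∀ i, i < j → s.φ i x = s.φ i y := fun i hi => by
    have := h1 i hi
    rw [map_mul, map_inv] at this
    exact inv_mul_eq_one.1 this
  refine ⟨fun i hi => ?_, ?_⟩
  · rw [← h2 i (hi.trans hk)]
    exact hx.1 i hi
  · rw [← h2 k hk]
    exact hx.2

/-- the positive cone of the group -/
theorem coneH : Cone {h : H | ∃ k, s.C h k} where
  mul := fun _ ⟨k, hx⟩ _ ⟨l, hy⟩ => ⟨min k l, s.C_mul hx hy⟩
  one := fun ⟨k, hk⟩ => s.C_ne hk (map_one _)
  tot := fun x hx => by
    have : ∃ k, s.φ k x ≠ 1 := by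
      by_contra hc
      push Not at hc
      exact hx (s.sep x hc)
    obtain ⟨k, hk⟩ := this
    obtain ⟨l, -, h | h⟩ := s.C_tot hk
    · exact Or.inl ⟨l, h⟩
    · exact Or.inr ⟨l, h⟩

/-- the positive cone of the quotient -/
def PQ (j : ℕ) : Set (H ⧸ s.N j) := {q | ∃ h : H, (∃ k, k < j ∧ s.C h k) ∧ (h : H ⧸ s.N j) = q}

theorem mem_PQ {j : ℕ} {h : H} : (h : H ⧸ s.N j) ∈ s.PQ j ↔ ∃ k, k < j ∧ s.C h k := by
  constructor
  · rintro ⟨x, ⟨k, hk, hx⟩, h1⟩
    exact ⟨k, hk, s.C_congr hk h1 hx⟩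
  · intro hh
    exact ⟨h, hh, rfl⟩

theorem coneQ (j : ℕ) : Cone (s.PQ j) where
  mul := by
    intro x hx y hy
    induction x using QuotientGroup.induction_on with
    | H x =>
      induction y using QuotientGroup.induction_on with
      | H y =>
        rw [s.mem_PQ] at hx hy
        obtain ⟨k, hk, hx⟩ := hx
        obtain ⟨l, hl, hy⟩ := hy
        rw [← QuotientGroup.mk_mul, s.mem_PQ]
        exact ⟨min k l, lt_of_le_of_lt (min_le_left _ _) hk, s.C_mul hx hy⟩
  one := by
    intro h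
    rw [← QuotientGroup.mk_one, s.mem_PQ] at h
    obtain ⟨k, -, hk⟩ := h
    exact s.C_ne hk (map_one _)
  tot := by
    intro x hx
    induction x using QuotientGroup.induction_on with
    | H x =>
      have h1 : x ∉ s.N j := fun h => hx ((QuotientGroup.eq_one_iff x).2 h)
      rw [mem_N] at h1
      push Not at h1
      obtain ⟨k, hk, h2⟩ := h1
      rw [← QuotientGroup.mk_inv, s.mem_PQ, s.mem_PQ]
      obtain ⟨l, hl, h | h⟩ := s.C_tot h2
      · exact Or.inl ⟨l, lt_of_le_of_lt hl hk, h⟩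
      · exact Or.inr ⟨l, lt_of_le_of_lt hl hk, h⟩

/-- the order of the quotient -/
@[reducible] noncomputable def o (j : ℕ) : LO (H ⧸ s.N j) := (s.coneQ j).lo

theorem o_lt {j : ℕ} {x y : H} : (s.o j).lt (x : H ⧸ s.N j) y ↔ ∃ k, k < j ∧ s.C (x⁻¹ * y) k := by
  rw [← s.mem_PQ]
  exact Iff.rfl

/-- the orders are compatible -/
theorem o_mono {i j : ℕ} (h : i ≤ j) {x y : H} (hxy : (s.o i).lt (x : H ⧸ s.N i) y) :
    (s.o j).lt (x : H ⧸ s.N j) y := by
  rw [o_lt] at *
  obtain ⟨k, hk, hc⟩ := hxy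
  exact ⟨k, hk.trans_le h, hc⟩

theorem foel_Q (j : ℕ) : Foel (H ⧸ s.N j) := by
  have hπ := foel_pi (n := j) (L := fun k => s.L k) fun k => s.foel k
  have hk : ∀ h ∈ s.N j, (MonoidHom.pi fun k : Fin j => s.φ k) h = 1 := fun h hh => by
    funext k
    exact (s.mem_N.1 hh) k k.2
  refine Foel.comap (QuotientGroup.lift (s.N j) (MonoidHom.pi fun k : Fin j => s.φ k) hk) ?_ hπ
  rw [injective_iff_map_eq_one]
  intro x
  refine QuotientGroup.induction_on x fun y hy => ?_
  have h2 : (MonoidHom.pi fun k : Fin j => s.φ k) y = 1 := hy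
  exact (QuotientGroup.eq_one_iff y).2 (s.mem_N.2 fun k hk => congrFun h2 ⟨k, hk⟩)

end Src

/-- **The chain** -/
theorem exists_chn {H : Type} [Group H] [Countable H] (h : RAL H) : ∃ _ : LO H, Nonempty (Chn H) := by
  obtain ⟨s⟩ := exists_src h
  exact ⟨s.coneH.lo, ⟨⟨s.N, fun _ => inferInstance, s.N_zero, fun _ _ hij => s.N_anti hij, fun _ hx => s.N_sep hx,
    s.o, fun _ _ hij _ _ hxy => s.o_mono hij hxy, s.foel_Q⟩⟩⟩

end Pool.Agent.S14
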