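import Mathlib

/-!
# Project S14: the homogeneous components `DN * u h` of a division ring

`u : H →* D` a homomorphism to a division ring, `N` a normal subgroup; `DN u N` = the subfield generated by `u N`;
`cl u N q` = the set of the products `d * u h`, `d ∈ DN u N`, `h` in the coset `q`; `SD u N` = the sum of the `cl u N q`, a subring.
-/

set_option autoImplicit false
set_option linter.unusedSectionVars false

namespace Pool.Agent.S14

section

variable {H D : Type} [Group H] [DivisionRing D] (u : H →* D) (N : Subgroup H)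

theorem u_ne (h : H) : u h ≠ 0 := fun h0 => by
  have h1 := u.map_mul h h⁻¹
  rw [mul_inv_cancel, map_one, h0, zero_mul] at h1
  exact one_ne_zero h1

theorem u_inv (h : H) : u h⁻¹ = (u h)⁻¹ :=
  eq_inv_of_mul_eq_one_left (by rw [← map_mul, inv_mul_cancel, map_one])

/-- the subfield generated by `u N` -/
def DN : Subfield D := Subfield.closure (u '' (N : Set H))

variable {N}

theorem u_mem_DN {n : H} (hn : n ∈ N) : u n ∈ DN u N := Subfield.subset_closure ⟨n, hn, rfl⟩

theorem DN_mono {N' : Subgroup H} (h : N ≤ N') : DN u N ≤ DN u N' :=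
  Subfield.closure_mono (Set.image_mono h)

variable [hN : N.Normal]

theorem conj_DN (h : H) {d : D} (hd : d ∈ DN u N) : u h * d * (u h)⁻¹ ∈ DN u N := by
  have h0 := u_ne u h
  induction hd using Subfield.closure_induction with
  | mem x hx =>
    obtain ⟨n, hn, rfl⟩ := hx
    rw [← u_inv, ← map_mul, ← map_mul]
    exact u_mem_DN u (hN.conj_mem n hn h)
  | one => rw [mul_one, mul_inv_cancel₀ h0]; exact (DN u N).one_mem
  | add x y _ _ hx hy => rw [mul_add, add_mul]; exact (DN u N).add_mem hx hy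
  | neg x _ hx => rw [mul_neg, neg_mul]; exact (DN u N).neg_mem hx
  | inv x _ hx =>
    have e : u h * x⁻¹ * (u h)⁻¹ = (u h * x * (u h)⁻¹)⁻¹ := by
      rw [mul_inv_rev, mul_inv_rev, inv_inv, mul_assoc]
    rw [e]
    exact (DN u N).inv_mem hx
  | mul x y _ _ hx hy =>
    have e : u h * (x * y) * (u h)⁻¹ = (u h * x * (u h)⁻¹) * (u h * y * (u h)⁻¹) := by
      simp only [mul_assoc, inv_mul_cancel_left₀ h0]
    rw [e]
    exact (DN u N).mul_mem hx hy

theorem conj_DN' (h : H) {d : D} (hd : d ∈ DN u N) : (u h)⁻¹ * d * u h ∈ DN u N := by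
  have h1 := conj_DN u h⁻¹ hd
  rwa [u_inv, inv_inv] at h1

/-- the homogeneous component -/
def cl (q : H ⧸ N) : AddSubgroup D where
  carrier := {a | ∀ h : H, (h : H ⧸ N) = q → a * (u h)⁻¹ ∈ DN u N}
  zero_mem' := fun h _ => by rw [zero_mul]; exact (DN u N).zero_mem
  add_mem' := fun {a b} ha hb h hh => by rw [add_mul]; exact (DN u N).add_mem (ha h hh) (hb h hh)
  neg_mem' := fun {a} ha h hh => by rw [neg_mul]; exact (DN u N).neg_mem (ha h hh)

theorem mem_cl_iff {q : H ⧸ N} {h : H} (hh : (h : H ⧸ N) = q) {a : D} : a ∈ cl u q ↔ a * (u h)⁻¹ ∈ DN u N := by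
  refine ⟨fun ha => ha h hh, fun ha h' hh' => ?_⟩
  have h1 : h * h'⁻¹ ∈ N := by
    have h2 : (h' : H ⧸ N) = h := by rw [hh, hh']
    have h3 := hN.mem_comm (QuotientGroup.eq.1 h2)
    exact h3
  have e : a * (u h')⁻¹ = a * (u h)⁻¹ * u (h * h'⁻¹) := by
    rw [map_mul, u_inv, mul_assoc, inv_mul_cancel_left₀ (u_ne u h)]
  rw [e]
  exact (DN u N).mul_mem ha (u_mem_DN u h1)

theorem mul_u_mem_cl {d : D} (hd : d ∈ DN u N) (h : H) : d * u h ∈ cl u (h : H ⧸ N) := by
  rw [mem_cl_iff u rfl, mul_assoc, mul_inv_cancel₀ (u_ne u h), mul_one]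
  exact hd

theorem u_mul_mem_cl {d : D} (hd : d ∈ DN u N) (h : H) : u h * d ∈ cl u (h : H ⧸ N) := by
  rw [mem_cl_iff u rfl]
  exact conj_DN u h hd

theorem u_mem_cl (h : H) : u h ∈ cl u (h : H ⧸ N) := by
  have h1 := mul_u_mem_cl u (N := N) (DN u N).one_mem h
  rwa [one_mul] at h1

theorem exists_mem_DN {h : H} {a : D} (ha : a ∈ cl u (h : H ⧸ N)) : ∃ d ∈ DN u N, a = d * u h :=
  ⟨a * (u h)⁻¹, ha h rfl, by rw [inv_mul_cancel_right₀ (u_ne u h)]⟩

theorem exists_mem_DN' {h : H} {a : D} (ha : a ∈ cl u (h : H ⧸ N)) : ∃ d ∈ DN u N, a = u h * d := by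
  obtain ⟨d, hd, rfl⟩ := exists_mem_DN u ha
  exact ⟨(u h)⁻¹ * d * u h, conj_DN' u h hd, by rw [← mul_assoc, ← mul_assoc, mul_inv_cancel₀ (u_ne u h), one_mul]⟩

theorem mem_cl_one {a : D} : a ∈ cl u (1 : H ⧸ N) ↔ a ∈ DN u N := by
  have h1 := mem_cl_iff u (N := N) (q := 1) (h := 1) (QuotientGroup.mk_one N) (a := a)
  rwa [map_one, inv_one, mul_one] at h1

theorem cl_one : (1 : D) ∈ cl u (1 : H ⧸ N) := (mem_cl_one u).2 (DN u N).one_mem

theorem cl_mul {p q : H ⧸ N} {a b : D} (ha : a ∈ cl u p) (hb : b ∈ cl u q) : a * b ∈ cl u (p * q) := by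
  obtain ⟨h, rfl⟩ := QuotientGroup.mk_surjective p
  obtain ⟨k, rfl⟩ := QuotientGroup.mk_surjective q
  obtain ⟨c, hc, rfl⟩ := exists_mem_DN u ha
  obtain ⟨d, hd, rfl⟩ := exists_mem_DN u hb
  have e : c * u h * (d * u k) = c * (u h * d * (u h)⁻¹) * u (h * k) := by
    rw [map_mul]
    simp only [mul_assoc, inv_mul_cancel_left₀ (u_ne u h)]
  rw [e]
  exact mul_u_mem_cl u ((DN u N).mul_mem hc (conj_DN u h hd)) (h * k)

theorem cl_inv {q : H ⧸ N} {a : D} (ha : a ∈ cl u q) : a⁻¹ ∈ cl u q⁻¹ := by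
  obtain ⟨h, rfl⟩ := QuotientGroup.mk_surjective q
  obtain ⟨d, hd, rfl⟩ := exists_mem_DN u ha
  rw [mul_inv_rev, ← u_inv]
  exact u_mul_mem_cl u ((DN u N).inv_mem hd) h⁻¹

theorem cl_ne (q : H ⧸ N) : ∃ a ∈ cl u q, a ≠ 0 := by
  obtain ⟨h, rfl⟩ := QuotientGroup.mk_surjective q
  exact ⟨u h, u_mem_cl u h, u_ne u h⟩

variable (P : Subgroup (H ⧸ N))

/-- the sum of the homogeneous components of the degrees in `P` -/
def SD : Subring D where
  carrier := AddSubgroup.closure {a | ∃ q ∈ P, a ∈ cl u q}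
  zero_mem' := AddSubgroup.zero_mem _
  add_mem' := AddSubgroup.add_mem _
  neg_mem' := AddSubgroup.neg_mem _
  one_mem' := AddSubgroup.subset_closure ⟨1, P.one_mem, cl_one u⟩
  mul_mem' := fun {a b} ha hb => by
    induction ha, hb using AddSubgroup.closure_induction₂ with
    | mem x y hx hy =>
      obtain ⟨p, hp, hp'⟩ := hx
      obtain ⟨q, hq, hq'⟩ := hy
      exact AddSubgroup.subset_closure ⟨p * q, P.mul_mem hp hq, cl_mul u hp' hq'⟩
    | zero_left x _ => rw [zero_mul]; exact AddSubgroup.zero_mem _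
    | zero_right x _ => rw [mul_zero]; exact AddSubgroup.zero_mem _
    | add_left x y z _ _ _ h1 h2 => rw [add_mul]; exact AddSubgroup.add_mem _ h1 h2
    | add_right x y z _ _ _ h1 h2 => rw [mul_add]; exact AddSubgroup.add_mem _ h1 h2
    | neg_left x y _ _ h1 => rw [neg_mul]; exact AddSubgroup.neg_mem _ h1
    | neg_right x y _ _ h1 => rw [mul_neg]; exact AddSubgroup.neg_mem _ h1

variable {P}

theorem cl_le_SD {q : H ⧸ N} (hq : q ∈ P) {a : D} (ha : a ∈ cl u q) : a ∈ SD u P :=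
  AddSubgroup.subset_closure ⟨q, hq, ha⟩

theorem u_mem_SD {h : H} (hh : (h : H ⧸ N) ∈ P) : u h ∈ SD u P := cl_le_SD u hh (u_mem_cl u h)

/-- the elements of `SD` are finite sums of homogeneous elements -/
theorem mem_SD {a : D} : a ∈ SD u P ↔
    ∃ s : (H ⧸ N) →₀ D, (∀ q, s q ∈ cl u q) ∧ (∀ q, s q ≠ 0 → q ∈ P) ∧ (s.sum fun _ a => a) = a := by
  classical
  constructor
  · intro ha
    change a ∈ AddSubgroup.closure {a | ∃ q ∈ P, a ∈ cl u q} at ha
    induction ha using AddSubgroup.closure_induction with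
    | mem x hx =>
      obtain ⟨q, hq, hqx⟩ := hx
      refine ⟨Finsupp.single q x, fun p => ?_, fun p hp => ?_, Finsupp.sum_single_index rfl⟩
      · rw [Finsupp.single_apply]
        split_ifs with h
        · rw [← h]; exact hqx
        · exact (cl u p).zero_mem
      · rw [Finsupp.single_apply] at hp
        split_ifs at hp with h
        · rwa [← h]
        · exact absurd rfl hp
    | zero => exact ⟨0, fun q => (cl u q).zero_mem, fun q hq => absurd rfl hq, Finsupp.sum_zero_index⟩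
    | add x y _ _ hx hy =>
      obtain ⟨s, hs, hs', rfl⟩ := hx
      obtain ⟨t, ht, ht', rfl⟩ := hy
      refine ⟨s + t, fun q => (cl u q).add_mem (hs q) (ht q), fun q hq => ?_,
        Finsupp.sum_add_index' (fun _ => rfl) fun _ _ _ => rfl⟩
      by_contra hc
      apply hq
      rw [Finsupp.add_apply, not_imp_comm.1 (hs' q) hc, not_imp_comm.1 (ht' q) hc, add_zero]
    | neg x _ hx =>
      obtain ⟨s, hs, hs', rfl⟩ := hx
      refine ⟨-s, fun q => (cl u q).neg_mem (hs q), fun q hq => hs' q fun h0 => hq ?_, ?_⟩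
      · rw [Finsupp.neg_apply, h0, neg_zero]
      · rw [Finsupp.sum_neg_index fun _ => rfl]
        exact Finsupp.sum_neg
  · rintro ⟨s, hs, hs', rfl⟩
    exact (SD u P).sum_mem fun q hq => cl_le_SD u (hs' q (Finsupp.mem_support_iff.1 hq)) (hs q)

end

end Pool.Agent.S14
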