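import Pool.Agent.S14.E4
import Pool.Agent.S14.Cls

/-!
# Project S14: the data: chains of normal subgroups, division rings, independence of the cosets

`un v h` = the image of the group element `h`; `DC v M` = the division ring generated by the elements of `M`;
`Dir v M` = the cosets `DC v M * h` are independent; `Chn H` = a chain of normal subgroups with left-ordered amenable
quotients; `Frc Q` = a division ring with involution which contains `K[Q]`; `DatC H` = all data.
-/

set_option autoImplicit false
set_option linter.unusedSectionVars false

namespace Pool.Agent.S14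

section

variable {H F : Type} [Group H] [DivisionRing F] (v : MonoidAlgebra (ZMod 2) H →+* F)

/-- the image of a group element -/
noncomputable def un (h : H) : F := v (MonoidAlgebra.single h 1)

/-- the division ring which is generated by the elements of `M` -/
noncomputable def DC (M : Subgroup H) : Subfield F := Subfield.closure (un v '' (M : Set H))

/-- the cosets of `M` are independent over `DC v M` -/
def Dir (M : Subgroup H) : Prop :=
  ∀ (n : ℕ) (h : Fin n → H) (c : Fin n → F), (∀ i j, i ≠ j → h i * (h j)⁻¹ ∉ M) → (∀ i, c i ∈ DC v M) →
    ∑ i, c i * un v (h i) = 0 → ∀ i, c i = 0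

end

/-- a chain of normal subgroups with left-ordered amenable quotients -/
structure Chn (H : Type) [Group H] where
  /-- the subgroups -/
  N : ℕ → Subgroup H
  nor : ∀ j, (N j).Normal
  zero : N 0 = ⊤
  anti : ∀ i j, i ≤ j → N j ≤ N i
  sep : ∀ x, (∀ j, x ∈ N j) → x = 1
  /-- the left orders -/
  lo : ∀ j, LO (H ⧸ N j)
  mono : ∀ i j, i ≤ j → ∀ x y : H, (lo i).lt (x : H ⧸ N i) (y : H ⧸ N i) → (lo j).lt (x : H ⧸ N j) (y : H ⧸ N j)
  foel : ∀ j, Foel (H ⧸ N j)

attribute [instance] Chn.nor

/-- a division ring with an involution which contains the group algebra -/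
structure Frc (Q : Type) [Group Q] where
  /-- the division ring -/
  F : Type
  /-- it is a division ring -/
  div : DivisionRing F
  /-- the homomorphism from the group algebra -/
  v : MonoidAlgebra (ZMod 2) Q →+* F
  inj : Function.Injective v
  /-- the involution -/
  st : F → F
  st_add : ∀ a b, st (a + b) = st a + st b
  st_mul : ∀ a b, st (a * b) = st b * st a
  st_st : ∀ a, st (st a) = a
  st_un : ∀ q : Q, st (un v q) = un v q⁻¹

attribute [instance] Frc.div

/-- all data -/
structure DatC (H : Type) [Group H] extends Chn H where
  /-- the division ring -/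
  D : Type
  /-- it is a division ring -/
  div : DivisionRing D
  /-- of characteristic two -/
  alg : Algebra (ZMod 2) D
  /-- the homomorphism from the group algebra -/
  ι : MonoidAlgebra (ZMod 2) H →+* D
  inj : Function.Injective ι
  gen : Subfield.closure (Set.range (un ι)) = ⊤
  /-- the involution -/
  st : D → D
  st_add : ∀ a b, st (a + b) = st a + st b
  st_mul : ∀ a b, st (a * b) = st b * st a
  st_st : ∀ a, st (st a) = a
  st_un : ∀ h : H, st (un ι h) = un ι h⁻¹
  dir : ∀ j, Dir ι (N j)
  appr : FoelAppr ι

attribute [instance] DatC.div DatC.alg

end Pool.Agent.S14
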