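import Pool.Agent.S14.E3
import Pool.Agent.S14.LDefs
import Pool.Agent.S11.EdLk

/-!
# Project S14, block END: the property `L2P` from amenable quotients
-/

set_option autoImplicit false
set_option linter.unusedSectionVars false

open Matrix

namespace Pool.Agent.S14

open Pool.Agent.H4.Atiyah Pool.Agent.H4.Singer Pool.Agent.H93.S11 Pool.Agent.S11

/-- finitely many rows which are independent over `D` stay independent over the group algebras of suitable amenable
quotients, which are injective on a given finite set -/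
def FoelAppr {H D : Type} [Group H] [DivisionRing D] (ι : MonoidAlgebra (ZMod 2) H →+* D) : Prop :=
  ∀ (r c r' c' : ℕ) (A : Matrix (Fin r) (Fin c) (MonoidAlgebra (ZMod 2) H))
    (B : Matrix (Fin r') (Fin c') (MonoidAlgebra (ZMod 2) H)),
    (∀ v : Fin r → D, v ᵥ* (A.map ι) = 0 → v = 0) → (∀ v : Fin r' → D, v ᵥ* (B.map ι) = 0 → v = 0) →
    ∀ T : Finset H, ∃ (Q : Type) (_ : Group Q) (ψ : H →* Q), Foel Q ∧ Set.InjOn ψ T ∧
      (∀ v : Fin r → MonoidAlgebra (ZMod 2) Q, v ᵥ* (A.map (MonoidAlgebra.mapDomainRingHom (ZMod 2) ψ)) = 0 → v = 0) ∧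
      (∀ v : Fin r' → MonoidAlgebra (ZMod 2) Q, v ᵥ* (B.map (MonoidAlgebra.mapDomainRingHom (ZMod 2) ψ)) = 0 → v = 0)

section

variable {H D : Type} [Group H] [DivisionRing D] (ι : MonoidAlgebra (ZMod 2) H →+* D)

theorem l2_of_exactA (hF : FoelAppr ι) {a b c : ℕ}
    (D₁ : Matrix (Fin c) (Fin a) (MonoidAlgebra ℤ H)) (D₂ : Matrix (Fin b) (Fin c) (MonoidAlgebra ℤ H)) (hD : D₂ * D₁ = 0)
    (hex : ∀ v : Fin c → D, v ᵥ* ((toK (ZMod 2) D₁).map ι) = 0 → ∃ u : Fin b → D,
      u ᵥ* ((toK (ZMod 2) D₂).map ι) = v) :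
    ∀ x ∈ l2ker (toC ((Matrix.fromCols D₁ (adj D₂)).submatrix id finSumFinEquiv.symm)), x = 0 := by
  classical
  have h0 : (toK (ZMod 2) D₂).map ι * (toK (ZMod 2) D₁).map ι = 0 := by
    have h1 : (toK (ZMod 2) D₂) * (toK (ZMod 2) D₁) = 0 := by
      unfold toK
      rw [← Matrix.map_mul, hD]
      ext i j
      simp
    rw [← Matrix.map_mul, h1]
    ext i j
    simp
  obtain ⟨p, q, r₁, r₂, h1, h2, h3⟩ := exists_rows _ _ h0 hex
  refine l2_of_foel (ZMod 2) D₁ D₂ hD r₂ r₁ (by omega) fun T => ?_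
  exact hF q a p c ((toK (ZMod 2) D₁).submatrix r₂ id) ((toK (ZMod 2) D₂).submatrix r₁ id) h2 h1 T

/-- **No harmonic chains** -/
theorem l2P_of_foel (hF : FoelAppr ι) : L2P ι := by
  classical
  intro a b c A B hAB hex x hx hz hc
  have edk_coeff : ∀ {m n : Type} (M : Matrix m n (MonoidAlgebra ℤ H)) (i : m) (j : n) (h : H),
      (toC M i j).coeff h = (((M i j).coeff h : ℤ) : ℂ) := fun M i j h => rfl
  have edk_supp : ∀ {m n : Type} (M : Matrix m n (MonoidAlgebra ℤ H)) (i : m) (j : n),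
      (toC M i j).coeff.support = (M i j).coeff.support := by
    intro m n M i j
    ext h
    rw [Finsupp.mem_support_iff, Finsupp.mem_support_iff, edk_coeff, Ne, Int.cast_eq_zero]
  have edk_memlp : Memℓp (fun p : Fin b × H => (x p.1 p.2 : ℂ)) 2 := by
    refine memℓp_gen ?_
    have h1 : (fun p : Fin b × H => ‖(x p.1 p.2 : ℂ)‖ ^ (2 : ENNReal).toReal) =
        fun p : Fin b × H => x p.1 p.2 ^ 2 := by
      funext p
      rw [Complex.norm_real, ENNReal.toReal_ofNat, Real.rpow_ofNat, Real.norm_eq_abs, sq_abs]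
    rw [h1, summable_prod_of_nonneg (fun p => sq_nonneg _)]
    exact ⟨hx, Summable.of_finite⟩
  have h1 := row_of_col ((mod2 A).map ι) ((mod2 B).map ι) hex
  have key := l2_of_exactA ι hF B A hAB h1 ⟨_, edk_memlp⟩ ?_
  · intro j h
    have h2 := congrFun (congrArg (fun y : lp (fun _ : Fin b × H => ℂ) 2 => (y : Fin b × H → ℂ)) key) (j, h)
    have h3 : (x j h : ℂ) = 0 := h2
    exact Complex.ofReal_eq_zero.1 h3
  · intro i g
    show ∑ j : Fin b, ∑ h ∈ (toC ((Matrix.fromCols B (adj A)).submatrix id finSumFinEquiv.symm) j i).coeff.support,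
      (x j (g * h⁻¹) : ℂ) *
        (toC ((Matrix.fromCols B (adj A)).submatrix id finSumFinEquiv.symm) j i).coeff h = 0
    obtain ⟨i, rfl⟩ := (finSumFinEquiv (m := c) (n := a)).surjective i
    have h4 : ∀ j, ((Matrix.fromCols B (adj A)).submatrix id finSumFinEquiv.symm) j (finSumFinEquiv i) =
        Matrix.fromCols B (adj A) j i := by
      intro j
      rw [Matrix.submatrix_apply, Equiv.symm_apply_apply, id]
    rcases i with l | l
    · have h5 : (((∑ j, ∑ h ∈ (B j l).coeff.support, ((B j l).coeff h : ℝ) * x j (g * h⁻¹) : ℝ)) : ℂ) = 0 := by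
        rw [hc l g, Complex.ofReal_zero]
      refine Eq.trans ?_ h5
      rw [Complex.ofReal_sum]
      refine Finset.sum_congr rfl fun j _ => ?_
      rw [edk_supp, h4, Matrix.fromCols_apply_inl, Complex.ofReal_sum]
      refine Finset.sum_congr rfl fun h _ => ?_
      rw [edk_coeff, h4, Matrix.fromCols_apply_inl, Complex.ofReal_mul, Complex.ofReal_intCast, mul_comm]
    · have h5 : (((∑ j, ∑ h ∈ (A l j).coeff.support, ((A l j).coeff h : ℝ) * x j (g * h) : ℝ)) : ℂ) = 0 := by
        rw [hz l g, Complex.ofReal_zero]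
      refine Eq.trans ?_ h5
      rw [Complex.ofReal_sum]
      refine Finset.sum_congr rfl fun j _ => ?_
      rw [edk_supp, h4, Matrix.fromCols_apply_inr, Complex.ofReal_sum]
      refine Finset.sum_equiv (Equiv.inv H) ?_ ?_
      · intro h
        rw [Finsupp.mem_support_iff, Finsupp.mem_support_iff, coeff_adj, Equiv.inv_apply]
      · intro h _
        rw [edk_coeff, h4, Matrix.fromCols_apply_inr, coeff_adj, Equiv.inv_apply, Complex.ofReal_mul,
          Complex.ofReal_intCast, mul_comm]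

end

end Pool.Agent.S14
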