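import Pool.Agent.S14.KH
import Pool.Agent.S11.FL.Grade

/-!
# Project S14: one level (abstract interface) and the pairing `P`

`Lvl ι st N`: the division ring `DN` of the subgroup `N`, the coefficients `co q b` of `b • 1` in the series module and the coefficients
`cop q b` of `b • 1` in the series module of the opposite order, the fine elements.
`P (a ⊗ x ⊗ b) = ∑ q, st (cop q (st a)) ⊗ x ⊗ co q b`.
-/

set_option autoImplicit false
set_option linter.unusedSectionVars false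

open TensorProduct

namespace Pool.Agent.S14

open Pool.Agent.S11.FL

section

variable {H D : Type} [Group H] [DivisionRing D] [Algebra (ZMod 2) D]

/-- the group elements -/
noncomputable def uh (ι : MonoidAlgebra (ZMod 2) H →+* D) : H →* D :=
  (ι : MonoidAlgebra (ZMod 2) H →* D).comp (MonoidAlgebra.of (ZMod 2) H)

theorem uh_apply (ι : MonoidAlgebra (ZMod 2) H →+* D) (h : H) : uh ι h = ι (MonoidAlgebra.single h 1) := rfl

/-- the anti-automorphism -/
structure Inv (ι : MonoidAlgebra (ZMod 2) H →+* D) where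
  /-- the map -/
  st : D →+ D
  mul : ∀ a b, st (a * b) = st b * st a
  inv : ∀ a, st (st a) = a
  uh : ∀ h, st (uh ι h) = Pool.Agent.S14.uh ι h⁻¹

/-- one level -/
structure Lvl (ι : MonoidAlgebra (ZMod 2) H →+* D) (σ : Inv ι) (N : Subgroup H) [N.Normal] where
  /-- the division ring of `N` -/
  DN : Subfield D
  st_mem : ∀ c ∈ DN, σ.st c ∈ DN
  conj_mem : ∀ c ∈ DN, ∀ h : H, uh ι h * c * uh ι h⁻¹ ∈ DN
  /-- the coefficients -/
  co : H ⧸ N → D →+ D
  /-- the coefficients for the opposite order -/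
  cop : H ⧸ N → D →+ D
  co_mul : ∀ q b, ∀ c ∈ DN, co q (b * c) = co q b * c
  cop_mul : ∀ q b, ∀ c ∈ DN, cop q (b * c) = cop q b * c
  co_uh : ∀ (h : H) q b, co ((h : H ⧸ N) * q) (uh ι h * b) = uh ι h * co q b
  cop_uh : ∀ (h : H) q b, cop ((h : H ⧸ N) * q) (uh ι h * b) = uh ι h * cop q b
  co_self : ∀ c ∈ DN, ∀ h : H, co (h : H ⧸ N) (c * uh ι h) = c * uh ι h
  cop_self : ∀ c ∈ DN, ∀ h : H, cop (h : H ⧸ N) (c * uh ι h) = c * uh ι h
  co_ne : ∀ c ∈ DN, ∀ (h : H) (q : H ⧸ N), q ≠ (h : H ⧸ N) → co q (c * uh ι h) = 0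
  cop_ne : ∀ c ∈ DN, ∀ (h : H) (q : H ⧸ N), q ≠ (h : H ⧸ N) → cop q (c * uh ι h) = 0
  fin : ∀ a b, {q | cop q a ≠ 0 ∧ co q b ≠ 0}.Finite
  /-- the fine elements -/
  Fine : Subring D
  uh_mem : ∀ h, uh ι h ∈ Fine
  fine_co : ∀ b ∈ Fine, ∀ q, ∃ a, co q b = ι a
  fine_cop : ∀ b ∈ Fine, ∀ q, ∃ a, cop q b = ι a

/-- the multiplication on the first factor -/
noncomputable def Lm {X : Type} [AddCommGroup X] [Module (ZMod 2) X] (s : D) :
    MM (ZMod 2) D X →ₗ[ZMod 2] MM (ZMod 2) D X :=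
  (LinearMap.mulLeft (ZMod 2) s).rTensor (X ⊗[ZMod 2] D)

/-- the multiplication on the last factor -/
noncomputable def Rm {X : Type} [AddCommGroup X] [Module (ZMod 2) X] (s : D) :
    MM (ZMod 2) D X →ₗ[ZMod 2] MM (ZMod 2) D X :=
  TensorProduct.map (LinearMap.id : D →ₗ[ZMod 2] D)
      (TensorProduct.map (LinearMap.id : X →ₗ[ZMod 2] X) (LinearMap.mulRight (ZMod 2) s))

variable {X : Type} [AddCommGroup X] [Module (ZMod 2) X]

theorem Lm_tmul (s a : D) (x : X) (b : D) :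
    Lm s (a ⊗ₜ[ZMod 2] (x ⊗ₜ[ZMod 2] b)) = (s * a) ⊗ₜ[ZMod 2] (x ⊗ₜ[ZMod 2] b) := rfl

theorem Rm_tmul (s a : D) (x : X) (b : D) :
    Rm s (a ⊗ₜ[ZMod 2] (x ⊗ₜ[ZMod 2] b)) = a ⊗ₜ[ZMod 2] (x ⊗ₜ[ZMod 2] (b * s)) := rfl

theorem Lm_II (j : H →* D) (ρ : Representation (ZMod 2) H X) (J : Subgroup H) (s : D) {m : MM (ZMod 2) D X}
    (hm : m ∈ II j ρ J) : Lm s m ∈ II j ρ J := mulLeft_II (j := j) ρ J s hm

theorem Rm_II (j : H →* D) (ρ : Representation (ZMod 2) H X) (J : Subgroup H) (s : D) {m : MM (ZMod 2) D X}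
    (hm : m ∈ II j ρ J) : Rm s m ∈ II j ρ J := mulRight_II (j := j) ρ J s hm

theorem Lm_Lm (s t : D) (m : MM (ZMod 2) D X) : Lm s (Lm t m) = Lm (s * t) m := by
  have : Lm s ∘ₗ Lm t = Lm (X := X) (s * t) := MM_ext fun a x b => by
    rw [LinearMap.comp_apply, Lm_tmul, Lm_tmul, Lm_tmul, mul_assoc]
  exact LinearMap.congr_fun this m

theorem Rm_Rm (s t : D) (m : MM (ZMod 2) D X) : Rm s (Rm t m) = Rm (t * s) m := by
  have : Rm s ∘ₗ Rm t = Rm (X := X) (t * s) := MM_ext fun a x b => by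
    rw [LinearMap.comp_apply, Rm_tmul, Rm_tmul, Rm_tmul, mul_assoc]
  exact LinearMap.congr_fun this m

theorem Lm_one (m : MM (ZMod 2) D X) : Lm 1 m = m := by
  have : Lm 1 = (LinearMap.id : MM (ZMod 2) D X →ₗ[ZMod 2] _) := MM_ext fun a x b => by
    rw [Lm_tmul, one_mul, LinearMap.id_apply]
  exact LinearMap.congr_fun this m

theorem Rm_one (m : MM (ZMod 2) D X) : Rm 1 m = m := by
  have : Rm 1 = (LinearMap.id : MM (ZMod 2) D X →ₗ[ZMod 2] _) := MM_ext fun a x b => by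
    rw [Rm_tmul, mul_one, LinearMap.id_apply]
  exact LinearMap.congr_fun this m

theorem Lm_Rm (s t : D) (m : MM (ZMod 2) D X) : Lm s (Rm t m) = Rm t (Lm s m) := by
  have : Lm s ∘ₗ Rm t = Rm t ∘ₗ Lm (X := X) s := MM_ext fun a x b => by
    rw [LinearMap.comp_apply, LinearMap.comp_apply, Lm_tmul, Rm_tmul, Rm_tmul, Lm_tmul]
  exact LinearMap.congr_fun this m

theorem Lm_add (s t : D) (m : MM (ZMod 2) D X) : Lm (s + t) m = Lm s m + Lm t m := by
  have : Lm (s + t) = Lm s + Lm (X := X) t := MM_ext fun a x b => by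
    rw [LinearMap.add_apply, Lm_tmul, Lm_tmul, Lm_tmul, add_mul, TensorProduct.add_tmul]
  exact LinearMap.congr_fun this m

theorem Rm_add (s t : D) (m : MM (ZMod 2) D X) : Rm (s + t) m = Rm s m + Rm t m := by
  have : Rm (s + t) = Rm s + Rm (X := X) t := MM_ext fun a x b => by
    rw [LinearMap.add_apply, Rm_tmul, Rm_tmul, Rm_tmul, mul_add, TensorProduct.tmul_add, TensorProduct.tmul_add]
  exact LinearMap.congr_fun this m

theorem Lm_zero (m : MM (ZMod 2) D X) : Lm 0 m = 0 := by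
  have : Lm 0 = (0 : MM (ZMod 2) D X →ₗ[ZMod 2] _) := MM_ext fun a x b => by
    rw [Lm_tmul, zero_mul, TensorProduct.zero_tmul, LinearMap.zero_apply]
  exact LinearMap.congr_fun this m

theorem Rm_zero (m : MM (ZMod 2) D X) : Rm 0 m = 0 := by
  have : Rm 0 = (0 : MM (ZMod 2) D X →ₗ[ZMod 2] _) := MM_ext fun a x b => by
    rw [Rm_tmul, mul_zero, TensorProduct.tmul_zero, TensorProduct.tmul_zero, LinearMap.zero_apply]
  exact LinearMap.congr_fun this m

theorem Lm_act (j : H →* D) (ρ : Representation (ZMod 2) H X) (s : D) (g : H) (m : MM (ZMod 2) D X) :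
    Lm s (act j ρ g m) = act j ρ g (Lm s m) := by
  have : Lm s ∘ₗ act j ρ g = act j ρ g ∘ₗ Lm s := MM_ext fun a x b => by
    rw [LinearMap.comp_apply, LinearMap.comp_apply, act_tmul, Lm_tmul, Lm_tmul, act_tmul, mul_assoc]
  exact LinearMap.congr_fun this m

theorem Rm_act (j : H →* D) (ρ : Representation (ZMod 2) H X) (s : D) (g : H) (m : MM (ZMod 2) D X) :
    Rm s (act j ρ g m) = act j ρ g (Rm s m) := by
  have : Rm s ∘ₗ act j ρ g = act j ρ g ∘ₗ Rm s := MM_ext fun a x b => by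
    rw [LinearMap.comp_apply, LinearMap.comp_apply, act_tmul, Rm_tmul, Rm_tmul, act_tmul, mul_assoc]
  exact LinearMap.congr_fun this m

theorem Lm_mapX {X' : Type} [AddCommGroup X'] [Module (ZMod 2) X'] (i : X →ₗ[ZMod 2] X') (s : D)
    (m : MM (ZMod 2) D X) : Lm s (mapX D i m) = mapX D i (Lm s m) := by
  have : Lm s ∘ₗ mapX D i = mapX D i ∘ₗ Lm s := MM_ext fun a x b => by
    rw [LinearMap.comp_apply, LinearMap.comp_apply, mapX_tmul, Lm_tmul, Lm_tmul, mapX_tmul]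
  exact LinearMap.congr_fun this m

theorem Rm_mapX {X' : Type} [AddCommGroup X'] [Module (ZMod 2) X'] (i : X →ₗ[ZMod 2] X') (s : D)
    (m : MM (ZMod 2) D X) : Rm s (mapX D i m) = mapX D i (Rm s m) := by
  have : Rm s ∘ₗ mapX D i = mapX D i ∘ₗ Rm s := MM_ext fun a x b => by
    rw [LinearMap.comp_apply, LinearMap.comp_apply, mapX_tmul, Rm_tmul, Rm_tmul, mapX_tmul]
  exact LinearMap.congr_fun this m

namespace Lvl

variable {ι : MonoidAlgebra (ZMod 2) H →+* D} {σ : Inv ι} {N : Subgroup H} [N.Normal] (L : Lvl ι σ N)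

/-- the part of the pairing at `q` -/
noncomputable def Pq (q : H ⧸ N) : MM (ZMod 2) D X →ₗ[ZMod 2] MM (ZMod 2) D X :=
  TensorProduct.map (((σ.st.comp (L.cop q)).comp σ.st).toZModLinearMap 2)
    (TensorProduct.map (LinearMap.id : X →ₗ[ZMod 2] X) ((L.co q).toZModLinearMap 2))

theorem Pq_tmul (q : H ⧸ N) (a : D) (x : X) (b : D) : L.Pq q (a ⊗ₜ[ZMod 2] (x ⊗ₜ[ZMod 2] b)) =
    σ.st (L.cop q (σ.st a)) ⊗ₜ[ZMod 2] (x ⊗ₜ[ZMod 2] L.co q b) := rfl

theorem Pq_fin (m : MM (ZMod 2) D X) : (Function.support fun q => L.Pq q m).Finite := by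
  refine TensorProduct.induction_on m ?_ (fun a t => ?_) fun m m' h h' => ?_
  · refine Set.finite_empty.subset fun q hq => ?_
    exact hq (map_zero (L.Pq q))
  · refine TensorProduct.induction_on t ?_ (fun x b => ?_) fun t t' h h' => ?_
    · refine Set.finite_empty.subset fun q hq => hq ?_
      change L.Pq q (a ⊗ₜ[ZMod 2] (0 : X ⊗[ZMod 2] D)) = 0
      rw [TensorProduct.tmul_zero, map_zero]
    · refine (L.fin (σ.st a) b).subset fun q hq => ?_
      constructor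
      · intro h0
        apply hq
        change L.Pq q (a ⊗ₜ[ZMod 2] (x ⊗ₜ[ZMod 2] b)) = 0
        rw [Pq_tmul, h0, map_zero, TensorProduct.zero_tmul]
      · intro h0
        apply hq
        change L.Pq q (a ⊗ₜ[ZMod 2] (x ⊗ₜ[ZMod 2] b)) = 0
        rw [Pq_tmul, h0, TensorProduct.tmul_zero, TensorProduct.tmul_zero]
    · refine (h.union h').subset fun q hq => ?_
      by_contra hcon
      rw [Set.mem_union, not_or] at hcon
      apply hq
      change L.Pq q (a ⊗ₜ[ZMod 2] (t + t')) = 0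
      rw [TensorProduct.tmul_add, map_add, Function.notMem_support.1 hcon.1, Function.notMem_support.1 hcon.2, add_zero]
  · refine (h.union h').subset fun q hq => ?_
    by_contra hcon
    rw [Set.mem_union, not_or] at hcon
    apply hq
    change L.Pq q (m + m') = 0
    rw [map_add, Function.notMem_support.1 hcon.1, Function.notMem_support.1 hcon.2, add_zero]

variable (X) in
/-- **The pairing** -/
noncomputable def P : MM (ZMod 2) D X →ₗ[ZMod 2] MM (ZMod 2) D X :=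
  (AddMonoidHom.mk' (fun m => ∑ᶠ q, L.Pq q m) fun m m' => by
    rw [← finsum_add_distrib (L.Pq_fin m) (L.Pq_fin m')]
    exact finsum_congr fun q => map_add _ _ _).toZModLinearMap 2

theorem P_apply (m : MM (ZMod 2) D X) : L.P X m = ∑ᶠ q, L.Pq q m := rfl

/-- a linear map which commutes with all parts -/
theorem P_comm {X' : Type} [AddCommGroup X'] [Module (ZMod 2) X'] (T : MM (ZMod 2) D X →ₗ[ZMod 2] MM (ZMod 2) D X')
    (h : ∀ q m, L.Pq q (T m) = T (L.Pq q m)) (m : MM (ZMod 2) D X) : L.P X' (T m) = T (L.P X m) := by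
  rw [P_apply, P_apply]
  rw [show T (∑ᶠ q, L.Pq q m) = ∑ᶠ q, T (L.Pq q m) from T.toAddMonoidHom.map_finsum (L.Pq_fin m)]
  exact finsum_congr fun q => h q m

theorem P_mapX {X' : Type} [AddCommGroup X'] [Module (ZMod 2) X'] (i : X →ₗ[ZMod 2] X') (m : MM (ZMod 2) D X) :
    L.P X' (mapX D i m) = mapX D i (L.P X m) := by
  refine L.P_comm (mapX D i) (fun q m => ?_) m
  have : L.Pq q ∘ₗ mapX D i = mapX D i ∘ₗ L.Pq q := MM_ext fun a x b => by
    rw [LinearMap.comp_apply, LinearMap.comp_apply, mapX_tmul, Pq_tmul, Pq_tmul, mapX_tmul]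
  exact LinearMap.congr_fun this m

theorem P_Lm {c : D} (hc : c ∈ L.DN) (m : MM (ZMod 2) D X) : L.P X (Lm c m) = Lm c (L.P X m) := by
  refine L.P_comm (Lm c) (fun q m => ?_) m
  have : L.Pq q ∘ₗ Lm (X := X) c = Lm c ∘ₗ L.Pq q := MM_ext fun a x b => by
    rw [LinearMap.comp_apply, LinearMap.comp_apply, Lm_tmul, Pq_tmul, Pq_tmul, Lm_tmul, σ.mul,
      L.cop_mul _ _ _ (L.st_mem c hc), σ.mul, σ.inv]
  exact LinearMap.congr_fun this m

theorem P_Rm {c : D} (hc : c ∈ L.DN) (m : MM (ZMod 2) D X) : L.P X (Rm c m) = Rm c (L.P X m) := by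
  refine L.P_comm (Rm c) (fun q m => ?_) m
  have : L.Pq q ∘ₗ Rm (X := X) c = Rm c ∘ₗ L.Pq q := MM_ext fun a x b => by
    rw [LinearMap.comp_apply, LinearMap.comp_apply, Rm_tmul, Pq_tmul, Pq_tmul, Rm_tmul, L.co_mul _ _ _ hc]
  exact LinearMap.congr_fun this m

theorem Pq_act (ρ : Representation (ZMod 2) H X) (g : H) (q : H ⧸ N) (m : MM (ZMod 2) D X) :
    L.Pq ((g : H ⧸ N) * q) (act (uh ι) ρ g m) = act (uh ι) ρ g (L.Pq q m) := by
  have : L.Pq ((g : H ⧸ N) * q) ∘ₗ act (uh ι) ρ g = act (uh ι) ρ g ∘ₗ L.Pq q := MM_ext fun a x b => by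
    rw [LinearMap.comp_apply, LinearMap.comp_apply, act_tmul, Pq_tmul, Pq_tmul, act_tmul, L.co_uh, σ.mul, σ.uh,
      inv_inv, L.cop_uh, σ.mul, σ.uh]
  exact LinearMap.congr_fun this m

theorem P_act (ρ : Representation (ZMod 2) H X) (g : H) (m : MM (ZMod 2) D X) :
    L.P X (act (uh ι) ρ g m) = act (uh ι) ρ g (L.P X m) := by
  rw [P_apply, P_apply]
  rw [show act (uh ι) ρ g (∑ᶠ q, L.Pq q m) = ∑ᶠ q, act (uh ι) ρ g (L.Pq q m) from
    (act (uh ι) ρ g).toAddMonoidHom.map_finsum (L.Pq_fin m)]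
  symm
  refine finsum_eq_of_bijective (fun q : H ⧸ N => (g : H ⧸ N) * q) (Group.mulLeft_bijective _) fun q => ?_
  rw [L.Pq_act]

end Lvl

end

end Pool.Agent.S14
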