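import Pool.Agent.S14.Frac
import Pool.Agent.S14.Pair
import Pool.Agent.S14.E5
import Pool.Agent.S14.E4

/-!
# Project S14: the input of the flatness block

`Dat H` = a division ring `D` generated by the group algebra of `H`, with an anti-automorphism, a decreasing sequence of
normal subgroups `N j` with trivial intersection, with amenable quotients with compatible left orders, such that for all
`j` the components `DN * u h` (`DN` = the subfield generated by `N j`) are independent, and with the property `FoelAppr`.
-/

set_option autoImplicit false
set_option linter.unusedSectionVars false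

namespace Pool.Agent.S14

/-- the input -/
structure Dat (H : Type) [Group H] where
  /-- the division ring -/
  D : Type
  /-- it is a division ring -/
  div : DivisionRing D
  /-- of characteristic two -/
  alg : Algebra (ZMod 2) D
  /-- the homomorphism from the group algebra -/
  ι : MonoidAlgebra (ZMod 2) H →+* D
  inj : Function.Injective ι
  /-- the anti-automorphism -/
  σ : Inv ι
  gen : Subfield.closure (Set.range (uh ι)) = ⊤
  /-- the normal subgroups -/
  N : ℕ → Subgroup H
  nor : ∀ j, (N j).Normal
  anti : Antitone N
  sep : ∀ x, (∀ j, x ∈ N j) → x = 1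
  /-- the left orders -/
  lo : ∀ j, LO (H ⧸ N j)
  mono : ∀ i j, i ≤ j → ∀ x y : H, (lo i).lt (x : H ⧸ N i) (y : H ⧸ N i) → (lo j).lt (x : H ⧸ N j) (y : H ⧸ N j)
  foel : ∀ j, Foel (H ⧸ N j)
  direct : ∀ j, Direct (uh ι) (N j)
  appr : FoelAppr ι

attribute [instance] Dat.div Dat.alg Dat.nor

end Pool.Agent.S14
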