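import Pool.Agent.S14.DatMk
import Pool.Agent.S14.Dat

/-!
# Project S14: the data exist, in the form which is used by the flatness block
-/

set_option autoImplicit false
set_option linter.unusedSectionVars false

namespace Pool.Agent.S14

/-- the two forms of the independence of the cosets -/
theorem direct_of_dir {H D : Type} [Group H] [DivisionRing D] {ι : MonoidAlgebra (ZMod 2) H →+* D} {N : Subgroup H}
    [hN : N.Normal] (h : Dir ι N) : Direct (uh ι) N := by
  classical
  intro s hs hsum
  let e := s.support.equivFin
  have key := h s.support.card (fun i => ((e.symm i : H ⧸ N)).out)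
    (fun i => s (e.symm i) * (uh ι ((e.symm i : H ⧸ N)).out)⁻¹) ?_ ?_ ?_
  · refine Finsupp.ext fun q => ?_
    by_contra hq
    have hq' : q ∈ s.support := Finsupp.mem_support_iff.2 hq
    have h1 := key (e ⟨q, hq'⟩)
    rw [Equiv.symm_apply_apply] at h1
    rcases mul_eq_zero.1 h1 with h2 | h2
    · exact hq h2
    · exact u_ne (uh ι) _ (inv_eq_zero.1 h2)
  · intro i j hij hmem
    refine hij (e.symm.injective (Subtype.ext ?_))
    rw [← QuotientGroup.out_eq' (e.symm i : H ⧸ N), ← QuotientGroup.out_eq' (e.symm j : H ⧸ N)]
    refine (QuotientGroup.eq.2 ?_).symm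
    exact hN.mem_comm hmem
  · intro i
    exact hs _ _ (QuotientGroup.out_eq' _)
  · have h1 : (s.sum fun _ a => a) = ∑ i : Fin s.support.card, s (e.symm i) := by
      rw [Finsupp.sum, ← Finset.sum_coe_sort]
      exact (Equiv.sum_comp e.symm fun q : s.support => s q).symm
    rw [← hsum, h1]
    refine Finset.sum_congr rfl fun i _ => ?_
    show s (e.symm i) * (uh ι ((e.symm i : H ⧸ N)).out)⁻¹ * uh ι ((e.symm i : H ⧸ N)).out = s (e.symm i)
    rw [mul_assoc, inv_mul_cancel₀ (u_ne (uh ι) _), mul_one]

/-- **The data** -/
theorem exists_dat {H : Type} [Group H] (C : Chn H) : Nonempty (Dat H) := by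
  obtain ⟨d, -⟩ := exists_datC C
  exact ⟨{ D := d.D
           div := d.div
           alg := d.alg
           ι := d.ι
           inj := d.inj
           σ := { st := AddMonoidHom.mk' d.st d.st_add
                  mul := d.st_mul
                  inv := d.st_st
                  uh := d.st_un }
           gen := d.gen
           N := d.N
           nor := d.nor
           anti := fun i j hij => d.anti i j hij
           sep := d.sep
           lo := d.lo
           mono := d.mono
           foel := d.foel
           direct := fun j => direct_of_dir (d.dir j)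
           appr := d.appr }⟩

end Pool.Agent.S14
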