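import Pool.Agent.S14.UDefs

/-!
# Project S14: injectivity and independence of the cosets in the ultraproduct

PROOF of `dirU`: every element of `DC (vU) (N i)` is `Up.mk x` with `x j` in `DC v_j (image of N i)` for all `j` (put `x j = 0` where
necessary; closure induction, `Up.mk_inv`).  `Up.mk_eq_iff`: the relation holds for almost all `j`, in particular one can take
`j ≥ i` (`hyperfilter` contains the cofinite sets), where `h a * (h b)⁻¹ ∉ N i` gives the same in `H ⧸ N j` (`N j ≤ N i`); so
all coefficients are zero for almost all `j`.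
-/

set_option autoImplicit false
set_option linter.unusedSectionVars false

namespace Pool.Agent.S14

variable {H : Type} [Group H] (C : Chn H) (Fr : ∀ j, Frc (H ⧸ C.N j))

/-- all large `j` belong to the sets of the hyperfilter -/
theorem dirU_large {p : ℕ → Prop} (h : ∀ᶠ j in (Filter.atTop : Filter ℕ), p j) :
    ∀ᶠ j in (Filter.hyperfilter ℕ : Filter ℕ), p j := by
  have h1 : (Filter.hyperfilter ℕ : Filter ℕ) ≤ Filter.atTop := by
    rw [← Nat.cofinite_eq_atTop]
    exact Filter.hyperfilter_le_cofinite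
  exact h1 h

/-- the image of a group element -/
theorem dirU_un (h : H) : un (vU C Fr) h = Up.mk _ fun j => un (Fr j).v (h : H ⧸ C.N j) := by
  unfold un
  rw [vU_apply]
  congr 1
  funext j
  rw [red_single]
  rfl

/-- a finite set of group elements is separated by almost all quotients -/
theorem dirU_sep (S : Finset H) : ∀ᶠ j in (Filter.atTop : Filter ℕ),
    Set.InjOn (QuotientGroup.mk' (C.N j)) (S : Set H) := by
  have key : ∀ x ∈ S, ∀ y ∈ S, ∀ᶠ j in (Filter.atTop : Filter ℕ),
      QuotientGroup.mk' (C.N j) x = QuotientGroup.mk' (C.N j) y → x = y := by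
    intro x _ y _
    by_cases hxy : x = y
    · exact Filter.Eventually.of_forall fun _ _ => hxy
    · have : ∃ j, x⁻¹ * y ∉ C.N j := by
        by_contra hc
        push Not at hc
        exact hxy (inv_mul_eq_one.mp (C.sep _ hc))
      obtain ⟨j0, hj0⟩ := this
      filter_upwards [Filter.eventually_ge_atTop j0] with j hj he
      exact absurd (C.anti _ _ hj (QuotientGroup.eq.mp he)) hj0
  have h2 : ∀ᶠ j in (Filter.atTop : Filter ℕ), ∀ x ∈ S, ∀ y ∈ S,
      QuotientGroup.mk' (C.N j) x = QuotientGroup.mk' (C.N j) y → x = y := by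
    rw [Filter.eventually_all_finset]
    intro x hx
    rw [Filter.eventually_all_finset]
    intro y hy
    exact key x hx y hy
  filter_upwards [h2] with j hj x hx y hy
  exact hj x hx y hy

/-- **Injectivity** -/
theorem vU_injective : Function.Injective (vU C Fr) := by
  rw [injective_iff_map_eq_zero]
  intro a ha
  rw [vU_apply] at ha
  have h1 : Up.mk _ (fun j => red C Fr j a) = Up.mk (fun j => (Fr j).F) 0 := by
    rw [ha, map_zero]
  rw [Up.mk_eq_iff] at h1
  have h2 := dirU_large (dirU_sep C a.coeff.support)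
  obtain ⟨j, hj1, hj2⟩ := (h1.and h2).exists
  have h3 : MonoidAlgebra.mapDomainRingHom (ZMod 2) (QuotientGroup.mk' (C.N j)) a = 0 := by
    apply (Fr j).inj
    rw [map_zero]
    exact hj1
  have h4 : Finsupp.mapDomain (QuotientGroup.mk' (C.N j)) a.coeff = 0 := by
    have := congrArg MonoidAlgebra.coeff h3
    simpa using this
  have h5 : a.coeff = 0 := by
    apply Finsupp.mapDomain_injOn (S := (a.coeff.support : Set H)) hj2
    · exact fun x hx => hx
    · simp
    · rw [h4, Finsupp.mapDomain_zero]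
  exact MonoidAlgebra.coeff_injective (by rw [h5]; rfl)

/-- the elements of the division closure are represented by sequences of elements of the division closures -/
theorem dirU_rep (i : ℕ) (a : Up fun j => (Fr j).F) (ha : a ∈ DC (vU C Fr) (C.N i)) :
    ∃ x : ∀ j, (Fr j).F, (∀ j, x j ∈ DC (Fr j).v ((C.N i).map (QuotientGroup.mk' (C.N j)))) ∧
      Up.mk _ x = a := by
  unfold DC at ha
  induction ha using Subfield.closure_induction with
  | mem a ha =>
    obtain ⟨m, hm, rfl⟩ := ha
    refine ⟨fun j => un (Fr j).v (m : H ⧸ C.N j), fun j => ?_, (dirU_un C Fr m).symm⟩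
    exact Subfield.subset_closure ⟨_, ⟨m, hm, rfl⟩, rfl⟩
  | one => exact ⟨1, fun j => one_mem _, map_one _⟩
  | add a b _ _ ha hb =>
    obtain ⟨x, hx, rfl⟩ := ha
    obtain ⟨y, hy, rfl⟩ := hb
    exact ⟨x + y, fun j => add_mem (hx j) (hy j), map_add _ _ _⟩
  | neg a _ ha =>
    obtain ⟨x, hx, rfl⟩ := ha
    exact ⟨-x, fun j => neg_mem (hx j), map_neg _ _⟩
  | inv a _ ha =>
    obtain ⟨x, hx, rfl⟩ := ha
    exact ⟨fun j => (x j)⁻¹, fun j => inv_mem (hx j), (Up.mk_inv x).symm⟩
  | mul a b _ _ ha hb =>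
    obtain ⟨x, hx, rfl⟩ := ha
    obtain ⟨y, hy, rfl⟩ := hb
    exact ⟨x * y, fun j => mul_mem (hx j) (hy j), map_mul _ _ _⟩

/-- **Independence of the cosets** -/
theorem dirU (hd : ∀ i j, i ≤ j → Dir (Fr j).v ((C.N i).map (QuotientGroup.mk' (C.N j)))) (i : ℕ) :
    Dir (vU C Fr) (C.N i) := by
  intro n h c hne hc hsum
  choose x hx hxc using fun a => dirU_rep C Fr i (c a) (hc a)
  have h1 : Up.mk (fun j => (Fr j).F) (fun j => ∑ a, x a j * un (Fr j).v (h a : H ⧸ C.N j)) =
      Up.mk (fun j => (Fr j).F) 0 := by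
    rw [map_zero, ← hsum]
    have : (fun j => ∑ a, x a j * un (Fr j).v (h a : H ⧸ C.N j)) =
        ∑ a, (x a * fun j => un (Fr j).v (h a : H ⧸ C.N j)) := by
      funext j
      rw [Finset.sum_apply]
      rfl
    rw [this, map_sum]
    refine Finset.sum_congr rfl fun a _ => ?_
    rw [map_mul, hxc, dirU_un]
  rw [Up.mk_eq_iff] at h1
  have h2 := dirU_large (Filter.eventually_ge_atTop i)
  have h3 : ∀ᶠ j in (Filter.hyperfilter ℕ : Filter ℕ), ∀ a, x a j = 0 := by
    filter_upwards [h1, h2] with j hj hij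
    refine hd i j hij n (fun a => (h a : H ⧸ C.N j)) (fun a => x a j) ?_ (fun a => hx a j) hj
    intro a b hab hm
    obtain ⟨m, hm, hme⟩ := hm
    refine hne a b hab ?_
    have h4 : m⁻¹ * (h a * (h b)⁻¹) ∈ C.N j := by
      apply QuotientGroup.eq.mp
      exact hme
    have h5 := mul_mem hm (C.anti _ _ hij h4)
    rwa [mul_inv_cancel_left] at h5
  intro a
  rw [← hxc a, ← map_zero (Up.mk fun j => (Fr j).F), Up.mk_eq_iff]
  exact h3.mono fun j hj => hj a

end Pool.Agent.S14
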