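import Pool.Agent.S14.OreK

/-!
# Project S14: the division ring of fractions of the group algebra of a left-ordered amenable group
-/

set_option autoImplicit false
set_option linter.unusedSectionVars false

namespace Pool.Agent.S14

/-- no zero divisors -/
theorem nzd_of_lo {Q : Type} [Group Q] [LO Q] (a b : MonoidAlgebra (ZMod 2) Q) (h : a * b = 0) : a = 0 ∨ b = 0 := by
  have := LO.noZeroDivisors (Q := Q) (ZMod 2)
  exact mul_eq_zero.1 h

/-- **The division ring of fractions** -/
theorem exists_frc {Q : Type} [Group Q] [LO Q] (hQ : Foel Q) : Nonempty (Frc Q) := by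
  obtain ⟨F, hF, v, st, h1, -, h3, h4, h5⟩ := exists_frcA (Q := Q) hQ.fol
  refine ⟨⟨F, hF, v, h1, st, fun a b => map_add st a b, h3, h4, fun q => ?_⟩⟩
  unfold un
  rw [h5]
  congr 1
  exact Pool.Agent.S11.stA_single _ _

end Pool.Agent.S14
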