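import Pool.Agent.S14.OreK
import Pool.Agent.S14.E5
import Pool.Agent.S12.Ore

/-!
# Project S14: the cosets of a subgroup of an amenable group are independent over its division ring

PROOF.  `K[Q] ⊆ F` has no zero divisors.  `M` is amenable (`E5`), so `v (K[M])` is a left Ore subring of `F` and every element of
`DC v M` is `s⁻¹ t` with `s`, `t` in `v (K[M])` (`S12/Ore.exists_lfrac`); common denominators (`common_left`):
`s c_i = v t_i`, `t_i ∈ K[M]`, so `∑ t_i h_i = 0` in `K[Q]`; the supports are disjoint (the `M h_i` are disjoint): `t_i = 0`.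
-/

set_option autoImplicit false
set_option linter.unusedSectionVars false

namespace Pool.Agent.S14

/-- the coefficients of an element of the group algebra of a subgroup, multiplied by a group element -/
theorem frcD_coeff {Q : Type} [Group Q] (M : Subgroup Q) (t : MonoidAlgebra (ZMod 2) M) (m h : Q) :
    (MonoidAlgebra.mapDomainRingHom (ZMod 2) M.subtype t * MonoidAlgebra.single h 1).coeff m =
      Finsupp.mapDomain (M.subtype : M → Q) t.coeff (m * h⁻¹) := by
  rw [MonoidAlgebra.coeff_mul_single_apply, mul_one]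
  simp

/-- **Independence of the cosets** -/
theorem dir_of_foel {Q F : Type} [Group Q] [DivisionRing F] (v : MonoidAlgebra (ZMod 2) Q →+* F)
    (hv : Function.Injective v) (hQ : Foel Q) (M : Subgroup Q) : Dir v M := by
  classical
  intro n h c hne hc hsum
  obtain ⟨g, hg⟩ : ∃ g : MonoidAlgebra (ZMod 2) M →+* MonoidAlgebra (ZMod 2) Q,
      g = MonoidAlgebra.mapDomainRingHom (ZMod 2) M.subtype := ⟨_, rfl⟩
  have hginj : Function.Injective g := by
    rw [injective_iff_map_eq_zero]
    intro a ha
    have h1 : Finsupp.mapDomain (M.subtype : M → Q) a.coeff = 0 := by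
      have := congrArg MonoidAlgebra.coeff (hg ▸ ha)
      simpa using this
    have h2 : a.coeff = 0 := Finsupp.mapDomain_injective Subtype.val_injective (by rw [Finsupp.mapDomain_zero]; exact h1)
    exact MonoidAlgebra.coeff_injective (by rw [h2]; rfl)
  obtain ⟨w, hw⟩ : ∃ w : MonoidAlgebra (ZMod 2) M →+* F, w = v.comp g := ⟨_, rfl⟩
  have hwinj : Function.Injective w := by
    rw [hw]
    exact hv.comp hginj
  have hM : Foel M := hQ.comap M.subtype Subtype.val_injective
  have h0 : ∀ a b : MonoidAlgebra (ZMod 2) M, a * b = 0 → a = 0 ∨ b = 0 := by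
    intro a b hab
    have h1 : w a * w b = 0 := by rw [← map_mul, hab, map_zero]
    rcases mul_eq_zero.1 h1 with h2 | h2
    · exact Or.inl (hwinj (by rw [h2, map_zero]))
    · exact Or.inr (hwinj (by rw [h2, map_zero]))
  have hO : S12.LOre w.range := by
    rintro _ ⟨a, rfl⟩ _ ⟨b, rfl⟩ hb
    have hb0 : b ≠ 0 := fun h1 => hb (by rw [h1, map_zero])
    obtain ⟨p, r, hp, hpr⟩ := oreK hM h0 a b hb0
    refine ⟨w p, ⟨p, rfl⟩, w r, ⟨r, rfl⟩, fun h1 => hp (hwinj (by rw [h1, map_zero])), ?_⟩
    rw [← map_mul, ← map_mul, hpr]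
  obtain ⟨E, hE⟩ := S12.exists_lfrac hO
  have hDC : DC v M ≤ E := by
    unfold DC
    rw [Subfield.closure_le]
    rintro _ ⟨m, hm, rfl⟩
    refine (hE _).2 ⟨1, w.range.one_mem, one_ne_zero, ?_⟩
    rw [one_mul]
    refine ⟨MonoidAlgebra.single ⟨m, hm⟩ 1, ?_⟩
    rw [hw, hg]
    unfold un
    simp
  obtain ⟨s, hs, hs0, hsc⟩ := S12.common_left hO (Finset.univ.image c) (by
    intro a ha
    obtain ⟨i, _, rfl⟩ := Finset.mem_image.1 ha
    exact (hE _).1 (hDC (hc i)))
  choose t ht using fun i => hsc (c i) (Finset.mem_image_of_mem _ (Finset.mem_univ i))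
  have h1 : v (∑ i, g (t i) * MonoidAlgebra.single (h i) 1) = 0 := by
    rw [map_sum]
    have h2 : ∀ i, v (g (t i) * MonoidAlgebra.single (h i) 1) = s * (c i * un v (h i)) := by
      intro i
      rw [map_mul, ← mul_assoc, ← ht i, hw]
      rfl
    rw [Finset.sum_congr rfl fun i _ => h2 i, ← Finset.mul_sum, hsum, mul_zero]
  have h2 : ∑ i, g (t i) * MonoidAlgebra.single (h i) 1 = 0 := hv (by rw [h1, map_zero])
  intro i
  have h3 : t i = 0 := by
    apply MonoidAlgebra.coeff_injective
    ext m
    have h4 := congrArg (fun x => MonoidAlgebra.coeff x ((m : Q) * h i)) h2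
    simp only [MonoidAlgebra.coeff_sum, Finsupp.finsetSum_apply] at h4
    rw [Finset.sum_eq_single i] at h4
    · rw [hg, frcD_coeff, mul_inv_cancel_right] at h4
      have h5 := Finsupp.mapDomain_apply (f := (M.subtype : M → Q)) Subtype.val_injective (t i).coeff m
      rw [show (M.subtype : M → Q) m = (m : Q) from rfl] at h5
      rw [← h5]
      simpa using h4
    · intro j _ hj
      rw [hg, frcD_coeff]
      apply Finsupp.mapDomain_of_notMem_range
      rintro ⟨x, hx⟩
      refine hne i j (Ne.symm hj) ?_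
      have h6 : (x : Q) = (m : Q) * h i * (h j)⁻¹ := hx
      have h7 : h i * (h j)⁻¹ = (m : Q)⁻¹ * x := by
        rw [h6]
        group
      rw [h7]
      exact M.mul_mem (M.inv_mem m.2) x.2
    · intro h5
      exact absurd (Finset.mem_univ i) h5
  have h4 := ht i
  rw [h3, map_zero] at h4
  rcases mul_eq_zero.1 h4.symm with h5 | h5
  · exact absurd h5 hs0
  · exact h5

end Pool.Agent.S14
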