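import Pool.Agent.S14.Chn
import Pool.Agent.S14.Frc
import Pool.Agent.S14.FrcD
import Pool.Agent.S14.DirU
import Pool.Agent.S14.Appr

/-!
# Project S14: the data exist
-/

set_option autoImplicit false
set_option linter.unusedSectionVars false

namespace Pool.Agent.S14

section

variable {U : Type} [DivisionRing U] {s : U → U} (s_add : ∀ a b, s (a + b) = s a + s b)
  (s_mul : ∀ a b, s (a * b) = s b * s a) (s_s : ∀ a, s (s a) = a)

include s_add in
theorem st_zero : s 0 = 0 := by
  have h := s_add 0 0
  rw [add_zero] at h
  exact (left_eq_add.1 h)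

include s_add in
theorem st_neg (a : U) : s (-a) = -s a := by
  have h := s_add a (-a)
  rw [add_neg_cancel, st_zero s_add] at h
  exact (neg_eq_of_add_eq_zero_right h.symm).symm

include s_mul s_s in
theorem st_one : s 1 = 1 := by
  have h := s_mul (s 1) 1
  rw [s_s, mul_one, s_s] at h
  exact h.symm

include s_add s_mul s_s in
theorem st_inv (a : U) : s a⁻¹ = (s a)⁻¹ := by
  by_cases h : a = 0
  · rw [h, inv_zero, st_zero s_add, inv_zero]
  · have h1 := s_mul a a⁻¹
    rw [mul_inv_cancel₀ h, st_one s_mul s_s] at h1
    exact eq_inv_of_mul_eq_one_left h1.symm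

end

/-- **The data** -/
theorem exists_datC {H : Type} [Group H] (C : Chn H) : ∃ d : DatC H, d.toChn = C := by
  classical
  have hF : ∀ j, Nonempty (Frc (H ⧸ C.N j)) := fun j => by
    let _ := C.lo j
    exact exists_frc (C.foel j)
  let Fr : ∀ j, Frc (H ⧸ C.N j) := fun j => (hF j).some
  obtain ⟨s, hs, s_add, s_mul, s_s⟩ := Up.exists_st (F := fun j => (Fr j).F) (fun j => (Fr j).st)
    (fun j => (Fr j).st_add) (fun j => (Fr j).st_mul) (fun j => (Fr j).st_st)
  have s_un : ∀ h : H, s (un (vU C Fr) h) = un (vU C Fr) h⁻¹ := fun h => by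
    unfold un
    rw [vU_apply, hs, vU_apply]
    congr 1
    funext j
    rw [red_single, red_single, (Fr j).st_un]
    rfl
  let D : Subfield (Up fun j => (Fr j).F) := Subfield.closure (Set.range (un (vU C Fr)))
  have hv : ∀ a, vU C Fr a ∈ D := by
    intro a
    induction a using MonoidAlgebra.induction_linear with
    | zero => rw [map_zero]; exact D.zero_mem
    | add a b ha hb => rw [map_add]; exact D.add_mem ha hb
    | single h r =>
      have hr : r = 0 ∨ r = 1 := by
        revert r
        decide
      rcases hr with rfl | rfl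
      · rw [MonoidAlgebra.single_zero, map_zero]
        exact D.zero_mem
      · exact Subfield.subset_closure ⟨h, rfl⟩
  let ι : MonoidAlgebra (ZMod 2) H →+* D := (vU C Fr).codRestrict D hv
  have hι : ∀ a, ((ι a : D) : Up fun j => (Fr j).F) = vU C Fr a := fun a => rfl
  have s_mem : ∀ x ∈ D, s x ∈ D := by
    intro x hx
    refine Subfield.closure_induction (p := fun x _ => s x ∈ D) ?_ ?_ ?_ ?_ ?_ ?_ hx
    · rintro _ ⟨h, rfl⟩
      rw [s_un]
      exact Subfield.subset_closure ⟨h⁻¹, rfl⟩
    · rw [st_one s_mul s_s]
      exact D.one_mem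
    · intro x y _ _ h h'
      rw [s_add]
      exact D.add_mem h h'
    · intro x _ h
      rw [st_neg s_add]
      exact D.neg_mem h
    · intro x _ h
      rw [st_inv s_add s_mul s_s]
      exact D.inv_mem h
    · intro x y _ _ h h'
      rw [s_mul]
      exact D.mul_mem h' h
  have hmap : ∀ S : Set H, (Subfield.closure (un ι '' S)).map D.subtype = Subfield.closure (un (vU C Fr) '' S) := by
    intro S
    rw [RingHom.map_field_closure, ← Set.image_comp]
    rfl
  refine ⟨{ toChn := C
            D := D
            div := inferInstance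
            alg := (ι.comp MonoidAlgebra.singleOneRingHom).toAlgebra' fun c x => ?_
            ι := ι
            inj := fun a b hab => vU_injective C Fr (by rw [← hι, ← hι, hab])
            gen := ?_
            st := fun x => ⟨s x, s_mem x x.2⟩
            st_add := fun a b => Subtype.ext (s_add a b)
            st_mul := fun a b => Subtype.ext (s_mul a b)
            st_st := fun a => Subtype.ext (s_s a)
            st_un := fun h => Subtype.ext (s_un h)
            dir := ?_
            appr := appr_of_up C Fr ι D.subtype fun a => rfl }, rfl⟩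
  · have hc : c = 0 ∨ c = 1 := by
      revert c
      decide
    rcases hc with rfl | rfl
    · rw [map_zero, zero_mul, mul_zero]
    · rw [map_one, one_mul, mul_one]
  · refine eq_top_iff.2 fun x _ => ?_
    have h1 : (x : Up fun j => (Fr j).F) ∈ (Subfield.closure (un ι '' Set.univ)).map D.subtype := by
      rw [hmap, Set.image_univ]
      exact x.2
    obtain ⟨y, hy, hxy⟩ := h1
    rw [Set.image_univ] at hy
    rwa [← show y = x from Subtype.ext hxy]
  · intro i n h c hij hc hsum k
    refine Subtype.ext (dirU C Fr (fun i j hij => dir_of_foel (Fr j).v (Fr j).inj (C.foel j) _) i n h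
      (fun k => (c k : Up fun j => (Fr j).F)) hij (fun k => ?_) ?_ k)
    · have h1 : (c k : Up fun j => (Fr j).F) ∈ (DC ι (C.N i)).map D.subtype := ⟨c k, hc k, rfl⟩
      unfold DC at h1
      rw [hmap] at h1
      exact h1
    · have h2 := congrArg (fun x : D => (x : Up fun j => (Fr j).F)) hsum
      simp only [D.coe_zero] at h2
      rw [← h2]
      push_cast
      rfl

end Pool.Agent.S14
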