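import Pool.Agent.H4.Singer.LuckVanish
import Pool.Agent.H4.Singer.RankInt
import Pool.Agent.H93.S11.Rk

/-!
# Project S14, block END: Foelner sets and compressions of matrices over group algebras
-/

set_option autoImplicit false
set_option linter.unusedSectionVars false

namespace Pool.Agent.S14

/-- the Foelner condition: `E'` is the part of `E` which stays in `E` under the right translations by `S` -/
def Foel (Q : Type) [Group Q] : Prop :=
  ∀ (S : Finset Q) (ε : ℝ), 0 < ε → ∃ E E' : Finset Q, E.Nonempty ∧ E' ⊆ E ∧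
    (∀ g ∈ E', ∀ s ∈ S, g * s ∈ E) ∧ (1 - ε) * (E.card : ℝ) ≤ (E'.card : ℝ)

/-- the compression of `op A` to the rows over `E` and the columns over `F` -/
def cmp {R Q : Type} [Semiring R] [Group Q] {k n : Type} (E F : Finset Q) (A : Matrix k n (MonoidAlgebra R Q)) :
    Matrix (k × E) (n × F) R :=
  Matrix.of fun x y => (A x.1 y.1).coeff ((x.2 : Q)⁻¹ * (y.2 : Q))

theorem cmp_apply {R Q : Type} [Semiring R] [Group Q] {k n : Type} (E F : Finset Q) (A : Matrix k n (MonoidAlgebra R Q))
    (i : k) (g : E) (j : n) (h : F) : cmp E F A (i, g) (j, h) = (A i j).coeff ((g : Q)⁻¹ * (h : Q)) := rfl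

end Pool.Agent.S14
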