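import Pool.Agent.H4.Atiyah.VN

/-!
# Project S14, block END: compressions of the convolution operators to finite sets of an infinite group

`cpr E F A` = the matrix of the right multiplication by `A` with rows in `E` and columns in `F`.
-/

set_option autoImplicit false
set_option linter.unusedSectionVars false

open Matrix Pointwise
open scoped ComplexOrder ComplexConjugate

namespace Pool.Agent.S14

open Pool.Agent.H4.Atiyah

section

variable {R : Type*} [Semiring R] {Γ : Type*} [Group Γ] {κ ν μ : Type*}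

/-- the compression: rows in `E`, columns in `F` -/
def cpr (E F : Finset Γ) (A : Matrix κ ν (MonoidAlgebra R Γ)) : Matrix (κ × E) (ν × F) R :=
  Matrix.of fun x y => (A x.1 y.1).coeff ((x.2 : Γ)⁻¹ * y.2)

theorem cpr_apply (E F : Finset Γ) (A : Matrix κ ν (MonoidAlgebra R Γ)) (x : κ × E) (y : ν × F) :
    cpr E F A x y = (A x.1 y.1).coeff ((x.2 : Γ)⁻¹ * y.2) := rfl

/-- the entries are supported in `S` -/
def Sub (S : Finset Γ) (A : Matrix κ ν (MonoidAlgebra R Γ)) : Prop := ∀ i j g, (A i j).coeff g ≠ 0 → g ∈ S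

theorem Sub.mono {S T : Finset Γ} {A : Matrix κ ν (MonoidAlgebra R Γ)} (h : Sub S A) (hST : S ⊆ T) : Sub T A :=
  fun i j g hg => hST (h i j g hg)

theorem exists_sub [Finite κ] [Finite ν] (A : Matrix κ ν (MonoidAlgebra R Γ)) : ∃ S : Finset Γ, Sub S A := by
  classical
  let _ := Fintype.ofFinite κ
  let _ := Fintype.ofFinite ν
  refine ⟨(Finset.univ : Finset (κ × ν)).biUnion fun p => (A p.1 p.2).coeff.support, fun i j g hg => ?_⟩
  exact Finset.mem_biUnion.2 ⟨(i, j), Finset.mem_univ _, Finsupp.mem_support_iff.2 hg⟩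

/-- a row of a product -/
theorem cpr_mul_row [Fintype ν] {E F F' : Finset Γ} {S : Finset Γ} {A : Matrix κ ν (MonoidAlgebra R Γ)} (hA : Sub S A)
    (B : Matrix ν μ (MonoidAlgebra R Γ)) (x : κ × E) (hx : ∀ s ∈ S, (x.2 : Γ) * s ∈ F) (y : μ × F') :
    (cpr E F A * cpr F F' B) x y = cpr E F' (A * B) x y := by
  classical
  rw [Matrix.mul_apply, Fintype.sum_prod_type, cpr_apply, Matrix.mul_apply, MonoidAlgebra.coeff_sum,
    Finsupp.finsetSum_apply]
  refine Finset.sum_congr rfl fun j _ => ?_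
  rw [MonoidAlgebra.coeff_mul_apply_left, Finsupp.sum]
  have h1 : ∀ g ∈ (A x.1 j).coeff.support, (x.2 : Γ) * g ∈ F := fun g hg =>
    hx g (hA x.1 j g (Finsupp.mem_support_iff.1 hg))
  symm
  refine Finset.sum_bij_ne_zero (fun g hg _ => (⟨(x.2 : Γ) * g, h1 g hg⟩ : F)) (fun _ _ _ => Finset.mem_univ _) ?_ ?_ ?_
  · intro a _ _ b _ _ hab
    exact mul_left_cancel (congrArg Subtype.val hab)
  · intro f _ hf
    have hne : (A x.1 j).coeff ((x.2 : Γ)⁻¹ * f) ≠ 0 := by
      intro h0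
      apply hf
      rw [cpr_apply]
      change (A x.1 j).coeff ((x.2 : Γ)⁻¹ * f) * _ = 0
      rw [h0, zero_mul]
    have he : (x.2 : Γ) * ((x.2 : Γ)⁻¹ * f) = f := mul_inv_cancel_left _ _
    refine ⟨(x.2 : Γ)⁻¹ * f, Finsupp.mem_support_iff.2 hne, ?_, Subtype.ext he⟩
    intro h0
    apply hf
    rw [cpr_apply, cpr_apply]
    change (A x.1 j).coeff ((x.2 : Γ)⁻¹ * f) * (B j y.1).coeff ((f : Γ)⁻¹ * y.2) = 0
    rw [← h0]
    congr 2
    group
  · intro g hg _
    rw [cpr_apply, cpr_apply]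
    change _ = (A x.1 j).coeff ((x.2 : Γ)⁻¹ * (x.2 * g)) * (B j y.1).coeff (((x.2 : Γ) * g)⁻¹ * y.2)
    congr 2
    · group
    · group

/-- products -/
theorem cpr_mul [Fintype ν] {E F F' : Finset Γ} {S : Finset Γ} {A : Matrix κ ν (MonoidAlgebra R Γ)} (hA : Sub S A)
    (B : Matrix ν μ (MonoidAlgebra R Γ)) (h : ∀ e ∈ E, ∀ s ∈ S, e * s ∈ F) :
    cpr E F A * cpr F F' B = cpr E F' (A * B) := by
  ext x y
  exact cpr_mul_row hA B x (h x.2 x.2.2) y

theorem cpr_one [DecidableEq κ] [DecidableEq Γ] (E : Finset Γ) : cpr E E (1 : Matrix κ κ (MonoidAlgebra R Γ)) = 1 := by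
  ext ⟨i, g⟩ ⟨j, h⟩
  rw [cpr_apply]
  by_cases hij : i = j
  · subst hij
    rw [Matrix.one_apply_eq, MonoidAlgebra.one_def, MonoidAlgebra.coeff_single, Finsupp.single_apply]
    by_cases hgh : g = h
    · subst hgh
      simp
    · rw [if_neg, Matrix.one_apply_ne]
      · intro hc
        exact hgh (Prod.ext_iff.1 hc).2
      · intro hc
        have h1 : (g : Γ)⁻¹ * h = 1 := hc.symm
        rw [inv_mul_eq_one] at h1
        exact hgh (Subtype.ext h1)
  · rw [Matrix.one_apply_ne hij, Matrix.one_apply_ne (fun h => hij (Prod.ext_iff.1 h).1)]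
    rfl

theorem Sub.one [DecidableEq κ] {S : Finset Γ} (h1 : (1 : Γ) ∈ S) : Sub S (1 : Matrix κ κ (MonoidAlgebra R Γ)) := by
  classical
  intro i j g hg
  by_cases hij : i = j
  · subst hij
    rw [Matrix.one_apply_eq, MonoidAlgebra.one_def, MonoidAlgebra.coeff_single, Finsupp.single_apply] at hg
    by_cases hg1 : 1 = g
    · rwa [← hg1]
    · exact absurd (if_neg hg1) hg
  · rw [Matrix.one_apply_ne hij] at hg
    exact absurd rfl hg

theorem Sub.mul [DecidableEq Γ] [Fintype ν] {S T : Finset Γ} {A : Matrix κ ν (MonoidAlgebra R Γ)}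
    {B : Matrix ν μ (MonoidAlgebra R Γ)} (hA : Sub S A) (hB : Sub T B) : Sub (S * T) (A * B) := by
  intro i l g hg
  rw [Matrix.mul_apply, MonoidAlgebra.coeff_sum, Finsupp.finsetSum_apply] at hg
  obtain ⟨j, _, hj⟩ := Finset.exists_ne_zero_of_sum_ne_zero hg
  rw [MonoidAlgebra.coeff_mul_apply_left, Finsupp.sum] at hj
  obtain ⟨a, ha, h1⟩ := Finset.exists_ne_zero_of_sum_ne_zero hj
  refine Finset.mem_mul.2 ⟨a, hA i j a (Finsupp.mem_support_iff.1 ha), a⁻¹ * g, hB j l _ ?_, mul_inv_cancel_left _ _⟩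
  intro h0
  exact h1 (by rw [h0, mul_zero])

theorem Sub.pow [DecidableEq Γ] [Fintype κ] [DecidableEq κ] {S : Finset Γ} {A : Matrix κ κ (MonoidAlgebra R Γ)}
    (hA : Sub S A) (m : ℕ) : Sub (S ^ m) (A ^ m) := by
  induction m with
  | zero =>
    rw [pow_zero, pow_zero]
    exact Sub.one (Finset.one_mem_one)
  | succ m ih =>
    rw [pow_succ, pow_succ]
    exact ih.mul hA

/-- the rows of the powers far from the boundary -/
theorem cpr_pow_row [DecidableEq Γ] [Fintype κ] [DecidableEq κ] {E S : Finset Γ} (h1 : (1 : Γ) ∈ S)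
    {B : Matrix κ κ (MonoidAlgebra R Γ)} (hB : Sub S B) (m : ℕ) (x : κ × E) (hx : ∀ s ∈ S ^ m, (x.2 : Γ) * s ∈ E)
    (y : κ × E) : (cpr E E B ^ m) x y = cpr E E (B ^ m) x y := by
  induction m generalizing x with
  | zero => rw [pow_zero, pow_zero, cpr_one]
  | succ m ih =>
    have hS : ∀ s ∈ S, (x.2 : Γ) * s ∈ E := by
      intro s hs
      refine hx s ?_
      rw [pow_succ']
      exact Finset.mem_mul.2 ⟨s, hs, 1, Finset.one_mem_pow h1, mul_one s⟩
    rw [pow_succ', pow_succ', ← cpr_mul_row hB _ x hS y, Matrix.mul_apply, Matrix.mul_apply]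
    refine Finset.sum_congr rfl fun z _ => ?_
    by_cases h0 : cpr E E B x z = 0
    · rw [h0, zero_mul, zero_mul]
    · congr 1
      refine ih z fun s hs => ?_
      have h2 : (x.2 : Γ)⁻¹ * z.2 ∈ S := hB _ _ _ h0
      have h3 := hx ((x.2 : Γ)⁻¹ * z.2 * s) (by
        rw [pow_succ']
        exact Finset.mul_mem_mul h2 hs)
      rwa [← mul_assoc, mul_inv_cancel_left] at h3

end

section

variable {Γ : Type*} [Group Γ] {κ ν : Type*}

theorem cpr_astar (E F : Finset Γ) (A : Matrix κ ν (MonoidAlgebra ℂ Γ)) :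
    cpr F E (Astar A) = (cpr E F A)ᴴ := by
  ext x y
  rw [conjTranspose_apply, cpr_apply, cpr_apply]
  simp only [Astar, Matrix.of_apply, astar_coeff, _root_.mul_inv_rev, inv_inv]
  rfl

theorem cpr_sub (E F : Finset Γ) (A B : Matrix κ ν (MonoidAlgebra ℂ Γ)) :
    cpr E F (A - B) = cpr E F A - cpr E F B := rfl

theorem cpr_smul (E F : Finset Γ) (c : ℂ) (A : Matrix κ ν (MonoidAlgebra ℂ Γ)) :
    cpr E F (c • A) = c • cpr E F A := rfl

variable [Fintype κ] [Fintype ν] [DecidableEq κ] [DecidableEq ν] [DecidableEq Γ]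

/-- the compression of the Laplacian -/
theorem cpr_Dop {E F S : Finset Γ} {A : Matrix κ ν (MonoidAlgebra ℂ Γ)} (hA : Sub S A)
    (h : ∀ e ∈ E, ∀ s ∈ S, e * s ∈ F) (c : ℝ) :
    1 - ((c⁻¹ : ℝ) : ℂ) • (cpr E F A * (cpr E F A)ᴴ) = cpr E E (Dop A c) := by
  rw [← cpr_astar, cpr_mul hA _ h, ← cpr_one, ← cpr_smul, ← cpr_sub]
  rfl

theorem sum_row {E S : Finset Γ} {a : MonoidAlgebra ℂ Γ} (ha : ∀ g, a.coeff g ≠ 0 → g ∈ S) (e : Γ)
    (he : ∀ s ∈ S, e * s ∈ E) : ∑ f : E, ‖a.coeff (e⁻¹ * f)‖ ^ 2 = sqn a := by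
  unfold sqn Finsupp.sum
  symm
  refine Finset.sum_bij_ne_zero (fun g hg _ => (⟨e * g, he g (ha g (Finsupp.mem_support_iff.1 hg))⟩ : E))
    (fun _ _ _ => Finset.mem_univ _) ?_ ?_ ?_
  · intro a _ _ b _ _ hab
    exact mul_left_cancel (congrArg Subtype.val hab)
  · intro f _ hf
    have hne : a.coeff (e⁻¹ * f) ≠ 0 := by
      intro h0
      apply hf
      rw [h0]
      simp
    exact ⟨e⁻¹ * f, Finsupp.mem_support_iff.2 hne, hf, Subtype.ext (mul_inv_cancel_left _ _)⟩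
  · intro g _ _
    rw [inv_mul_cancel_left]

/-- **The trace of the powers of the compression** -/
theorem trace_cpr_ge {E F S S' : Finset Γ} {A : Matrix κ ν (MonoidAlgebra ℂ Γ)} (c : ℝ) (m : ℕ) (h1 : (1 : Γ) ∈ S)
    (hA : Sub S' A) (hD : Sub S (Dop A c)) (h : ∀ e ∈ E, ∀ s ∈ S', e * s ∈ F) :
    (((E.filter fun e => ∀ s ∈ S ^ m, e * s ∈ E).card : ℕ) : ℝ) * phi A c m ≤
      ∑ i, (1 - c⁻¹ * vnEv (cpr E F A) i) ^ (m + m) := by
  classical
  set T := cpr E E (Dop A c) with hT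
  have h2 := trace_pow (cpr E F A) c (m + m)
  rw [cpr_Dop hA h c, ← hT] at h2
  have h3 : T.IsHermitian := by
    rw [hT, ← cpr_Dop hA h c]
    refine Matrix.IsHermitian.sub Matrix.isHermitian_one ?_
    exact Matrix.IsHermitian.smul (herm_sq _) (Complex.conj_ofReal _)
  rw [pow_add] at h2
  have h4 : (T ^ m * T ^ m).trace = ((∑ x, ∑ y, ‖(T ^ m) x y‖ ^ 2 : ℝ) : ℂ) := by
    nth_rewrite 2 [← (h3.pow m).eq]
    rw [Matrix.trace]
    push_cast
    refine Finset.sum_congr rfl fun x _ => ?_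
    rw [Matrix.diag_apply, Matrix.mul_apply]
    refine Finset.sum_congr rfl fun y _ => ?_
    rw [conjTranspose_apply]
    exact Complex.mul_conj' _
  rw [h4] at h2
  have h5 := Complex.ofReal_injective h2
  rw [← h5, Fintype.sum_prod_type, Finset.sum_comm]
  have h6 : ∀ e : E, (∀ s ∈ S ^ m, (e : Γ) * s ∈ E) → ∑ i, ∑ y, ‖(T ^ m) (i, e) y‖ ^ 2 = phi A c m := by
    intro e he
    unfold phi
    refine Finset.sum_congr rfl fun i _ => ?_
    rw [Fintype.sum_prod_type]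
    refine Finset.sum_congr rfl fun i' _ => ?_
    rw [← sum_row (E := E) (fun g hg => (hD.pow m) i i' g hg) (e : Γ) he]
    refine Finset.sum_congr rfl fun f _ => ?_
    rw [hT, cpr_pow_row h1 hD m (i, e) he (i', f), cpr_apply]
  have h7 : (((E.filter fun e => ∀ s ∈ S ^ m, e * s ∈ E).card : ℕ) : ℝ) * phi A c m =
      ∑ e : E, if (∀ s ∈ S ^ m, (e : Γ) * s ∈ E) then phi A c m else 0 := by
    rw [Finset.sum_coe_sort E (fun e : Γ => if (∀ s ∈ S ^ m, e * s ∈ E) then phi A c m else 0), ← Finset.sum_filter,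
      Finset.sum_const, nsmul_eq_mul]
  rw [h7]
  refine Finset.sum_le_sum fun e _ => ?_
  split_ifs with he
  · exact (h6 e he).ge
  · exact Finset.sum_nonneg fun i _ => Finset.sum_nonneg fun y _ => sq_nonneg _

end

section

variable {G : Type*} [Group G] {Γ : Type*} [Group Γ] {κ ν : Type*} [Fintype κ] [Fintype ν] [DecidableEq κ]
  [DecidableEq ν]

/-- the norm of the compression -/
theorem nrm_cpr_le (π : G →* Γ) (A : Matrix κ ν (MonoidAlgebra ℂ G)) {c : ℝ} (hc : l1 A ^ 2 ≤ c) (E F : Finset Γ)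
    (x : κ × E → ℂ) : nrm (Matrix.vecMul x (cpr E F (A.map (MonoidAlgebra.mapDomainRingHom ℂ π)))) ^ 2 ≤
      c * nrm x ^ 2 := by
  classical
  let x' : κ × Γ → ℂ := fun p => if h : p.2 ∈ E then x (p.1, ⟨p.2, h⟩) else 0
  have hx'0 : ∀ p : κ × Γ, p ∉ ((Finset.univ : Finset κ) ×ˢ E) → x' p = 0 := by
    intro p hp
    refine dif_neg fun h => hp ?_
    exact Finset.mem_product.2 ⟨Finset.mem_univ _, h⟩
  have hs : Summable fun p => ‖x' p‖ ^ 2 := summable_of_ne_finset_zero (s := (Finset.univ : Finset κ) ×ˢ E)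
    fun p hp => by rw [hx'0 p hp]; simp
  set X : LL κ Γ := ⟨x', (memlp_iff _).2 hs⟩ with hX
  have h1 : ‖X‖ ^ 2 = nrm x ^ 2 := by
    rw [norm_sq_lp, nrm_sq, tsum_eq_sum (s := (Finset.univ : Finset κ) ×ˢ E)
      (fun p hp => by
        show ‖x' p‖ ^ 2 = 0
        rw [hx'0 p hp]; simp), Finset.sum_product, Fintype.sum_prod_type]
    refine Finset.sum_congr rfl fun i _ => ?_
    rw [← Finset.sum_coe_sort E]
    refine Finset.sum_congr rfl fun e _ => ?_
    show ‖x' (i, (e : Γ))‖ ^ 2 = _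
    have : x' (i, (e : Γ)) = x (i, e) := dif_pos e.2
    rw [this]
  have h2 : ∀ p : ν × F, Matrix.vecMul x (cpr E F (A.map (MonoidAlgebra.mapDomainRingHom ℂ π))) p =
      Lop π A X (p.1, (p.2 : Γ)) := by
    rintro ⟨i, h⟩
    rw [Lop_apply]
    show ∑ y, x y * cpr E F (A.map (MonoidAlgebra.mapDomainRingHom ℂ π)) y (i, h) = _
    rw [Fintype.sum_prod_type]
    refine Finset.sum_congr rfl fun j _ => ?_
    show ∑ e : E, x (j, e) * (Finsupp.mapDomain π (A j i).coeff) ((e : Γ)⁻¹ * h) =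
      (A j i).coeff.sum fun s z => x' (j, h * (π s)⁻¹) * z
    have h3 : (A j i).coeff.sum (fun s z => x' (j, h * (π s)⁻¹) * z)
        = (Finsupp.mapDomain π (A j i).coeff).sum (fun t z => x' (j, h * t⁻¹) * z) := by
      rw [Finsupp.sum_mapDomain_index]
      · intro t; simp
      · intro t a b; ring
    rw [h3, Finsupp.sum]
    symm
    have hE : ∀ t : Γ, x' (j, h * t⁻¹) ≠ 0 → (h : Γ) * t⁻¹ ∈ E := by
      intro t ht
      by_contra hc
      exact ht (dif_neg hc)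
    refine Finset.sum_bij_ne_zero (fun t _ ht => (⟨(h : Γ) * t⁻¹, hE t fun h0 => ht (by rw [h0, zero_mul])⟩ : E))
      (fun _ _ _ => Finset.mem_univ _) ?_ ?_ ?_
    · intro a _ _ b _ _ hab
      exact inv_injective (mul_left_cancel (congrArg Subtype.val hab))
    · intro e _ he
      have h4 : (h : Γ) * ((e : Γ)⁻¹ * h)⁻¹ = e := by group
      have h5 : (Finsupp.mapDomain π (A j i).coeff) ((e : Γ)⁻¹ * h) ≠ 0 := fun h0 => he (by rw [h0, mul_zero])
      have h6 : x' (j, (h : Γ) * ((e : Γ)⁻¹ * h)⁻¹) = x (j, e) := by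
        rw [h4]
        exact dif_pos e.2
      refine ⟨(e : Γ)⁻¹ * h, Finsupp.mem_support_iff.2 h5, ?_, Subtype.ext h4⟩
      rw [h6]
      exact he
    · intro t _ ht
      have h7 := hE t fun h0 => ht (by rw [h0, zero_mul])
      have h8 : x' (j, (h : Γ) * t⁻¹) = x (j, ⟨(h : Γ) * t⁻¹, h7⟩) := dif_pos h7
      have h9 : ((h : Γ) * t⁻¹)⁻¹ * h = t := by group
      show x' (j, (h : Γ) * t⁻¹) * (Finsupp.mapDomain π (A j i).coeff) t =
        x (j, ⟨(h : Γ) * t⁻¹, h7⟩) * (Finsupp.mapDomain π (A j i).coeff) (((h : Γ) * t⁻¹)⁻¹ * h)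
      exact congrArg₂ (· * ·) h8 (congrArg (Finsupp.mapDomain π (A j i).coeff) h9.symm)
  have h3 : nrm (Matrix.vecMul x (cpr E F (A.map (MonoidAlgebra.mapDomainRingHom ℂ π)))) ^ 2 ≤ ‖Lop π A X‖ ^ 2 := by
    rw [nrm_sq, norm_sq_lp]
    have hsum : Summable fun p => ‖Lop π A X p‖ ^ 2 := (memlp_iff _).1 (lp.memℓp (Lop π A X))
    have hinj : Function.Injective fun p : ν × F => ((p.1, (p.2 : Γ)) : ν × Γ) := by
      rintro ⟨a, b⟩ ⟨c, d⟩ hab
      rw [Prod.mk.injEq] at hab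
      exact Prod.ext hab.1 (Subtype.ext hab.2)
    have h4 := tsum_comp_le_tsum_of_inj hsum (fun p => sq_nonneg _) hinj
    rw [tsum_fintype] at h4
    refine le_trans (le_of_eq ?_) h4
    refine Finset.sum_congr rfl fun p _ => ?_
    rw [h2]
    rfl
  rw [← h1]
  exact h3.trans (norm_Lop_sq π A hc X)

/-- the numbers `phi` at a level where the supports are separated -/
theorem phi_map (π : G →* Γ) (A : Matrix κ ν (MonoidAlgebra ℂ G)) (c : ℝ) (m : ℕ)
    (hinj : ∀ i i', Set.InjOn π ((Dop A c ^ m) i i').coeff.support) :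
    phi (A.map (MonoidAlgebra.mapDomainRingHom ℂ π)) c m = phi A c m := by
  set f := MonoidAlgebra.mapDomainRingHom ℂ π with hf
  have h1 : Dop (A.map f) c = (Dop A c).map f := by
    unfold Dop
    rw [← Astar_map, ← Matrix.map_mul]
    ext1 i j
    simp only [Matrix.map_apply, Matrix.sub_apply, Matrix.smul_apply, map_sub]
    congr 1
    · rw [Matrix.one_apply, Matrix.one_apply]
      split_ifs <;> simp
    · apply MonoidAlgebra.coeff_injective
      show _ = Finsupp.mapDomain π ((((c⁻¹ : ℝ) : ℂ) • (A * Astar A) i j).coeff)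
      rw [MonoidAlgebra.coeff_smul, MonoidAlgebra.coeff_smul, Finsupp.mapDomain_smul]
      rfl
  have h2 : Dop (A.map f) c ^ m = (Dop A c ^ m).map f := by
    rw [h1]
    exact (map_pow f.mapMatrix (Dop A c) m).symm
  unfold phi
  rw [h2]
  refine Finset.sum_congr rfl fun i _ => Finset.sum_congr rfl fun i' _ => ?_
  rw [Matrix.map_apply]
  exact sqn_map π _ (hinj i i')

end

end Pool.Agent.S14
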