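import Pool.Agent.S14.E0
import Pool.Agent.S14.EnA
import Pool.Agent.H4.Singer.LuckDim
import Pool.Agent.H4.Singer.LuckKer

/-!
# Project S14, block END: the spectral part
-/

set_option autoImplicit false
set_option linter.unusedSectionVars false

open Finset Filter Topology Pointwise

namespace Pool.Agent.S14

open Pool.Agent.H4.Atiyah Pool.Agent.H4.Singer Pool.Agent.H93.S11

theorem cmp_eq_cpr {R Q : Type} [Semiring R] [Group Q] {k n : Type} (E F : Finset Q)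
    (A : Matrix k n (MonoidAlgebra R Q)) : cmp E F A = cpr E F A := rfl

theorem toC_map {G Q : Type} [Group G] [Group Q] {k n : ℕ} (ψ : G →* Q)
    (A : Matrix (Fin k) (Fin n) (MonoidAlgebra ℤ G)) :
    toC (A.map (MonoidAlgebra.mapDomainRingHom ℤ ψ)) = (toC A).map (MonoidAlgebra.mapDomainRingHom ℂ ψ) := by
  ext1 i j
  apply MonoidAlgebra.coeff_injective
  show Finsupp.mapRange (Int.cast : ℤ → ℂ) Int.cast_zero (Finsupp.mapDomain ψ (A i j).coeff) =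
    Finsupp.mapDomain ψ (Finsupp.mapRange (Int.cast : ℤ → ℂ) Int.cast_zero (A i j).coeff)
  exact (Finsupp.mapDomain_mapRange _ _ _ _ (fun x y => Int.cast_add x y)).symm

theorem cpr_toC {Q : Type} [Group Q] {k n : ℕ} (E F : Finset Q) (A : Matrix (Fin k) (Fin n) (MonoidAlgebra ℤ Q)) :
    cpr E F (toC A) = (cpr E F A).map (Int.cast : ℤ → ℂ) := rfl

/-- **The spectral part** -/
theorem vnDim_nonpos_cmp {G : Type} [Group G] [DecidableEq G] {k n : ℕ} (A : Matrix (Fin k) (Fin n) (MonoidAlgebra ℤ G))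
    (h : ∀ η : ℝ, 0 < η → ∀ T : Finset G, ∃ (Q : Type) (_ : Group Q) (ψ : G →* Q), Set.InjOn ψ T ∧
      ∀ U : Finset Q, ∃ E E' F : Finset Q, E.Nonempty ∧ E' ⊆ E ∧ (∀ g ∈ E', ∀ u ∈ U, g * u ∈ E) ∧
        (1 - η) * (E.card : ℝ) ≤ (E'.card : ℝ) ∧
        (∀ g ∈ E, ∀ i j, ∀ s ∈ (A i j).coeff.support, g * ψ s ∈ F) ∧
        (k : ℝ) * E.card - (cmp E F (toC (A.map (MonoidAlgebra.mapDomainRingHom ℤ ψ)))).rank ≤ η * E.card) :
    vnDim (toC A) ≤ 0 := by
  classical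
  by_contra hcon
  push Not at hcon
  obtain ⟨d, hd⟩ : ∃ d, d = vnDim (toC A) := ⟨_, rfl⟩
  rw [← hd] at hcon
  obtain ⟨c, hc⟩ : ∃ c, c = l1 (Astar (toC A)) ^ 2 + l1 (toC A) ^ 2 + 1 := ⟨_, rfl⟩
  have hc1 : 1 ≤ c := by
    rw [hc]
    linarith [sq_nonneg (l1 (toC A)), sq_nonneg (l1 (Astar (toC A)))]
  have hc0 : 0 < c := by linarith
  have hcA : l1 (toC A) ^ 2 ≤ c := by
    rw [hc]
    linarith [sq_nonneg (l1 (Astar (toC A)))]
  have hcA' : l1 (Astar (toC A)) ^ 2 ≤ c := by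
    rw [hc]
    linarith [sq_nonneg (l1 (toC A))]
  have hlogc : 0 ≤ Real.log c := Real.log_nonneg hc1
  obtain ⟨L, hL⟩ : ∃ L, L = 8 * (k * Real.log c) / d + 1 := ⟨_, rfl⟩
  have hL0 : 0 < L := by
    rw [hL]
    positivity
  have hkL : k * (Real.log c / L) ≤ d / 8 := by
    rw [← mul_div_assoc, div_le_div_iff₀ hL0 (by norm_num)]
    have h1 : d * L = 8 * (k * Real.log c) + d := by
      rw [hL]
      field_simp
    rw [h1]
    linarith
  have hε0 : 0 < Real.exp (-L) := Real.exp_pos _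
  have hε1 : Real.exp (-L) < 1 := by
    rw [Real.exp_lt_one_iff]
    linarith
  have hlogε : Real.log (1 / Real.exp (-L)) = L := by
    rw [one_div, Real.log_inv, Real.log_exp, neg_neg]
  obtain ⟨ε, hε⟩ : ∃ ε, ε = Real.exp (-L) := ⟨_, rfl⟩
  rw [← hε] at hε0 hε1 hlogε
  -- the power
  have hq0 : 0 ≤ 1 - c⁻¹ * ε ^ 2 := by
    have h1 : ε ^ 2 ≤ 1 := pow_le_one₀ hε0.le hε1.le
    have h2 : c⁻¹ ≤ 1 := inv_le_one_of_one_le₀ hc1
    have h3 : 0 ≤ c⁻¹ := by positivity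
    nlinarith [sq_nonneg ε]
  have hq1 : 1 - c⁻¹ * ε ^ 2 < 1 := by
    have : 0 < c⁻¹ * ε ^ 2 := by positivity
    linarith
  have hpow : Tendsto (fun m : ℕ => (k : ℝ) * (1 - c⁻¹ * ε ^ 2) ^ m) atTop (𝓝 0) := by
    have := (tendsto_pow_atTop_nhds_zero_of_lt_one hq0 hq1).const_mul (k : ℝ)
    rwa [mul_zero] at this
  obtain ⟨m, hm⟩ := (hpow.eventually (eventually_le_nhds (show (0 : ℝ) < d / 8 by linarith))).exists
  obtain ⟨-, hlow⟩ := tendsto_phi (toC A) hc0 hcA'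
  obtain ⟨η, hη⟩ : ∃ η, η = min (1 / 2) (d / 8) := ⟨_, rfl⟩
  have hη0 : 0 < η := by
    rw [hη]
    exact lt_min (by norm_num) (by linarith)
  have hη1 : η ≤ 1 / 2 := by rw [hη]; exact min_le_left _ _
  have hη2 : η ≤ d / 8 := by rw [hη]; exact min_le_right _ _
  obtain ⟨T, hT⟩ : ∃ T : Finset G, T = (Finset.univ : Finset (Fin k × Fin k)).biUnion
      fun p => ((Dop (toC A) c ^ m) p.1 p.2).coeff.support := ⟨_, rfl⟩
  obtain ⟨Q, hQ, ψ, hψ, hU⟩ := h η hη0 T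
  have hj1 : ∀ i i', Set.InjOn ψ ((Dop (toC A) c ^ m) i i').coeff.support := by
    intro i i'
    refine hψ.mono ?_
    intro g hg
    rw [hT]
    exact Finset.mem_coe.2 (Finset.mem_biUnion.2 ⟨(i, i'), Finset.mem_univ _, hg⟩)
  obtain ⟨A', hA'⟩ : ∃ A', A' = (toC A).map (MonoidAlgebra.mapDomainRingHom ℂ ψ) := ⟨_, rfl⟩
  obtain ⟨S₂, hS₂⟩ := exists_sub (Dop A' c)
  obtain ⟨S, hS⟩ : ∃ S : Finset Q, S = insert 1 S₂ := ⟨_, rfl⟩
  have h1S : (1 : Q) ∈ S := by rw [hS]; exact Finset.mem_insert_self _ _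
  have hSD : Sub S (Dop A' c) := hS₂.mono (by
    rw [hS]
    exact Finset.subset_insert _ _)
  obtain ⟨S', hS'⟩ : ∃ S' : Finset Q, S' = (Finset.univ : Finset (Fin k × Fin n)).biUnion
      fun p => (A p.1 p.2).coeff.support.image ψ := ⟨_, rfl⟩
  have hSA : Sub S' A' := by
    intro i i' g hg
    rw [hA', ← toC_map] at hg
    have h1 : Finsupp.mapDomain ψ (A i i').coeff g ≠ 0 := by
      intro h0
      apply hg
      show ((Finsupp.mapDomain ψ (A i i').coeff g : ℤ) : ℂ) = 0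
      rw [h0, Int.cast_zero]
    rw [hS']
    refine Finset.mem_biUnion.2 ⟨(i, i'), Finset.mem_univ _, ?_⟩
    exact Finsupp.mapDomain_support (Finsupp.mem_support_iff.2 h1)
  obtain ⟨E, E', F, hEne, hE', hE'S, hcard, hEF, hrank⟩ := hU (S ^ m)
  rw [toC_map, cmp_eq_cpr, ← hA'] at hrank
  have hEF' : ∀ e ∈ E, ∀ s ∈ S', e * s ∈ F := by
    intro e he s hs
    rw [hS'] at hs
    obtain ⟨p, -, hp⟩ := Finset.mem_biUnion.1 hs
    obtain ⟨t, ht, rfl⟩ := Finset.mem_image.1 hp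
    exact hEF e he p.1 p.2 t ht
  have htr := trace_cpr_ge (E := E) (F := F) c m h1S hSA hSD hEF'
  rw [hA'] at htr
  rw [phi_map ψ (toC A) c m hj1, ← hA'] at htr
  have hbound2 : ∀ x : Fin k × E → ℂ, nrm (Matrix.vecMul x (cpr E F A')) ^ 2 ≤ c * nrm x ^ 2 := by
    intro x
    rw [hA']
    exact nrm_cpr_le ψ (toC A) hcA E F x
  obtain ⟨V, hV1, hV2⟩ := exists_small_space (cpr E F A') hc0 hbound2 hε0 m
  have hint : cpr E F A' = (cpr E F (A.map (MonoidAlgebra.mapDomainRingHom ℤ ψ))).map (Int.cast : ℤ → ℂ) := by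
    rw [← cpr_toC, toC_map, hA']
  have hbound : ∀ x : Fin k × E → ℂ, nrm (Matrix.vecMul x
      ((cpr E F (A.map (MonoidAlgebra.mapDomainRingHom ℤ ψ))).map (Int.cast : ℤ → ℂ))) ≤ c * nrm x := by
    intro x
    rw [← hint]
    have h4 : 0 ≤ nrm x := Real.sqrt_nonneg _
    refine le_of_sq_le_sq ((hbound2 x).trans ?_) (by positivity)
    rw [mul_pow]
    have h5 : c ≤ c ^ 2 := by nlinarith
    exact mul_le_mul_of_nonneg_right h5 (sq_nonneg _)
  have hV2' : ∀ x ∈ V, nrm (Matrix.vecMul x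
      ((cpr E F (A.map (MonoidAlgebra.mapDomainRingHom ℤ ψ))).map (Int.cast : ℤ → ℂ))) ≤ ε * nrm x := by
    intro x hx
    rw [← hint]
    exact hV2 x hx
  have h6 := luck_int (cpr E F (A.map (MonoidAlgebra.mapDomainRingHom ℤ ψ))) c hc1 hbound ε hε0 hε1 V hV2'
  rw [hlogε, ← hint, Fintype.card_prod, Fintype.card_fin, Fintype.card_coe] at h6
  rw [Fintype.card_prod, Fintype.card_fin, Fintype.card_coe] at hV1
  push_cast at h6 hV1
  have hP : (0 : ℝ) < E.card := by exact_mod_cast hEne.card_pos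
  have h7 : (k * E.card : ℝ) * (Real.log c / L) ≤ d / 8 * E.card := by
    calc (k * E.card : ℝ) * (Real.log c / L)
        = (k * (Real.log c / L)) * E.card := by ring
      _ ≤ _ := mul_le_mul_of_nonneg_right hkL hP.le
  have h8 : (k * E.card : ℝ) * (1 - c⁻¹ * ε ^ 2) ^ (m + m) ≤ d / 8 * E.card := by
    have h9 : (1 - c⁻¹ * ε ^ 2) ^ (m + m) ≤ (1 - c⁻¹ * ε ^ 2) ^ m :=
      pow_le_pow_of_le_one hq0 hq1.le (Nat.le_add_left m m)
    calc (k * E.card : ℝ) * (1 - c⁻¹ * ε ^ 2) ^ (m + m) ≤ (k * E.card : ℝ) * (1 - c⁻¹ * ε ^ 2) ^ m :=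
          mul_le_mul_of_nonneg_left h9 (by positivity)
      _ = (k * (1 - c⁻¹ * ε ^ 2) ^ m) * E.card := by ring
      _ ≤ _ := mul_le_mul_of_nonneg_right hm hP.le
  have h10 : (E'.card : ℝ) ≤ ((E.filter fun e => ∀ s ∈ S ^ m, e * s ∈ E).card : ℕ) := by
    exact_mod_cast Finset.card_le_card fun e he => Finset.mem_filter.2
      ⟨hE' he, fun s hs => hE'S e he s hs⟩
  have h11 : d ≤ phi (toC A) c m := by rw [hd]; exact hlow m
  have h12 : (1 / 2 * E.card : ℝ) * d ≤ ((E.filter fun e => ∀ s ∈ S ^ m, e * s ∈ E).card : ℕ) * phi (toC A) c m := by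
    refine mul_le_mul ?_ h11 hcon.le (by positivity)
    refine le_trans ?_ (hcard.trans h10)
    exact mul_le_mul_of_nonneg_right (by linarith) hP.le
  have h13 : 0 < d * E.card := mul_pos hcon hP
  have h14 : η * (E.card : ℝ) ≤ d / 8 * E.card := mul_le_mul_of_nonneg_right hη2 hP.le
  nlinarith

end Pool.Agent.S14
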