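import Pool.Agent.S14.E0
import Pool.Agent.H93.S11.Seq

/-!
# Project S14, block END: the ranks of the compressions

PROOF of `rank_cmp_ge`.  `S` = a finite set which contains `U` and the supports of `D₂`; `E, E'` from `hQ S ε`,
`ε = η / (r₂ + 1)`; `F` = a finite set which contains `E * T`, `E`, and `E * (supports of D₁)`.
`M₁ = cmp E F D₁`, `N = cmp E' E D₂`: `N * M₁ = 0` (as `E' * supp D₂ ⊆ E`), so by `Pool.Agent.H93.S11.rank_add_le` over `ℂ`
`M₁.rank + N.rank ≤ (fromCols M₁ Nᴴ).rank`, and `fromCols M₁ Nᴴ` consists of columns of `cmp E F (toC (fromCols D₁ (adj D₂)) ..)`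
(`E' ⊆ E ⊆ F`).  `M₁.rank ≥ rank over K` (`rank_int_le`) `≥ r₁ * E.card`: the rows `(rows₁ i, g)`, `g ∈ E`, are independent over
`K`, because all the coefficients of `v D₁`, `v` supported in `E`, are in `F`.  `N.rank ≥ r₂ * E'.card` in the same way.
-/

set_option autoImplicit false
set_option linter.unusedSectionVars false

open Finset Filter Topology

namespace Pool.Agent.S14

open Pool.Agent.H4.Atiyah Pool.Agent.H4.Singer Pool.Agent.H93.S11

theorem cmp_mul {R Q : Type} [CommRing R] [Group Q] {k m n : Type} [Fintype m] {E E₁ F : Finset Q}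
    (A : Matrix k m (MonoidAlgebra R Q)) (B : Matrix m n (MonoidAlgebra R Q))
    (h : ∀ g ∈ E, ∀ i j, ∀ s ∈ (A i j).coeff.support, g * s ∈ E₁) :
    cmp E E₁ A * cmp E₁ F B = cmp E F (A * B) := by
  classical
  ext ⟨i, g⟩ ⟨l, x⟩
  rw [Matrix.mul_apply, Fintype.sum_prod_type, cmp_apply, Matrix.mul_apply, MonoidAlgebra.coeff_sum,
    Finsupp.finsetSum_apply]
  refine Finset.sum_congr rfl fun j _ => ?_
  rw [MonoidAlgebra.coeff_mul_apply_left, Finsupp.sum]
  have h1 : ∑ y : E₁, cmp E E₁ A (i, g) (j, y) * cmp E₁ F B (j, y) (l, x) =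
      ∑ y ∈ E₁, (A i j).coeff ((g : Q)⁻¹ * y) * (B j l).coeff (y⁻¹ * (x : Q)) := by
    rw [← Finset.sum_coe_sort E₁ fun y => (A i j).coeff ((g : Q)⁻¹ * y) * (B j l).coeff (y⁻¹ * (x : Q))]
    rfl
  rw [h1]
  have h2 : ((A i j).coeff.support.image fun s => (g : Q) * s) ⊆ E₁ := by
    intro y hy
    obtain ⟨s, hs, rfl⟩ := Finset.mem_image.1 hy
    exact h g g.2 i j s hs
  rw [← Finset.sum_subset h2, Finset.sum_image fun s _ t _ hst => mul_left_cancel hst]
  · refine Finset.sum_congr rfl fun s _ => ?_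
    rw [inv_mul_cancel_left, mul_inv_rev, mul_assoc]
  · intro y _ hy
    have h3 : (A i j).coeff ((g : Q)⁻¹ * y) = 0 := by
      by_contra h4
      exact hy (Finset.mem_image.2 ⟨_, Finsupp.mem_support_iff.2 h4, mul_inv_cancel_left _ _⟩)
    rw [h3, zero_mul]

theorem cmp_toC {Q : Type} [Group Q] {k n : Type} (E F : Finset Q) (A : Matrix k n (MonoidAlgebra ℤ Q)) :
    cmp E F (toC A) = (cmp E F A).map (Int.cast : ℤ → ℂ) := rfl

theorem cmp_toK {K Q : Type} [Field K] [Group Q] {k n : Type} (E F : Finset Q) (A : Matrix k n (MonoidAlgebra ℤ Q)) :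
    cmp E F (toK K A) = (cmp E F A).map (Int.cast : ℤ → K) := rfl

/-- independent rows over the group algebra -/
theorem rows_le_rank {K Q : Type} [Field K] [Group Q] {c a r : ℕ} (A : Matrix (Fin c) (Fin a) (MonoidAlgebra K Q))
    (rows : Fin r → Fin c) (h : ∀ v : Fin r → MonoidAlgebra K Q, Matrix.vecMul v (A.submatrix rows id) = 0 → v = 0)
    {E F : Finset Q} (hF : ∀ g ∈ E, ∀ i j, ∀ s ∈ (A i j).coeff.support, g * s ∈ F) :
    r * E.card ≤ (cmp E F A).rank := by
  classical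
  have h0 : ∀ v : Fin r × E → K, Matrix.vecMul v ((cmp E F A).submatrix (fun p : Fin r × E => (rows p.1, p.2)) id) = 0 →
      v = 0 := by
    intro v hv
    obtain ⟨w, hw⟩ : ∃ w : Fin r → MonoidAlgebra K Q, ∀ i, w i = ∑ g : E, MonoidAlgebra.single (g : Q) (v (i, g)) :=
      ⟨_, fun i => rfl⟩
    have hcoef : ∀ (i : Fin r) (x : MonoidAlgebra K Q) (y : Q),
        (w i * x).coeff y = ∑ g : E, v (i, g) * x.coeff ((g : Q)⁻¹ * y) := by
      intro i x y
      rw [hw, Finset.sum_mul, MonoidAlgebra.coeff_sum, Finsupp.finsetSum_apply]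
      exact Finset.sum_congr rfl fun g _ => MonoidAlgebra.coeff_single_mul_apply _ _ _ _
    have hw0 : w = 0 := by
      apply h
      funext j
      rw [Pi.zero_apply]
      show ∑ i, w i * A (rows i) j = 0
      apply MonoidAlgebra.coeff_injective
      ext y
      rw [MonoidAlgebra.coeff_sum, Finsupp.finsetSum_apply, MonoidAlgebra.coeff_zero, Finsupp.zero_apply]
      simp_rw [hcoef]
      by_cases hy : y ∈ F
      · have h2 := congrFun hv (j, ⟨y, hy⟩)
        rw [Pi.zero_apply] at h2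
        rw [← h2]
        show _ = ∑ p : Fin r × E, v p * (A (rows p.1) j).coeff ((p.2 : Q)⁻¹ * y)
        rw [Fintype.sum_prod_type]
      · refine Finset.sum_eq_zero fun i _ => Finset.sum_eq_zero fun g _ => ?_
        have h2 : (A (rows i) j).coeff ((g : Q)⁻¹ * y) = 0 := by
          by_contra h3
          have h4 := hF g g.2 (rows i) j _ (Finsupp.mem_support_iff.2 h3)
          rw [mul_inv_cancel_left] at h4
          exact hy h4
        rw [h2, mul_zero]
    funext p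
    have h2 := hcoef p.1 1 p.2
    rw [hw0, Pi.zero_apply, zero_mul, MonoidAlgebra.coeff_zero, Finsupp.zero_apply, Finset.sum_eq_single p.2] at h2
    · rw [inv_mul_cancel, MonoidAlgebra.one_def, MonoidAlgebra.coeff_single, Finsupp.single_eq_same, mul_one] at h2
      exact h2.symm
    · intro g _ hg
      rw [MonoidAlgebra.one_def, MonoidAlgebra.coeff_single, Finsupp.single_eq_of_ne, mul_zero]
      intro h3
      exact hg (Subtype.ext (inv_mul_eq_one.1 h3))
    · intro h3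
      exact absurd (mem_univ _) h3
  have h1 : LinearIndependent K ((cmp E F A).submatrix (fun p : Fin r × E => (rows p.1, p.2)) id).row := by
    rw [← Matrix.vecMul_injective_iff]
    intro v w hvw
    have h2 := h0 (v - w) (by rw [Matrix.sub_vecMul]; exact sub_eq_zero.2 hvw)
    exact sub_eq_zero.1 h2
  have h2 := h1.rank_matrix
  have h3 := Matrix.rank_submatrix_le (cmp E F A) (fun p : Fin r × E => (rows p.1, p.2)) id
  rw [h2, Fintype.card_prod, Fintype.card_fin, Fintype.card_coe] at h3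
  exact h3

theorem rows_le_rank_int {K Q : Type} [Field K] [Group Q] {c a r : ℕ} (A : Matrix (Fin c) (Fin a) (MonoidAlgebra ℤ Q))
    (rows : Fin r → Fin c)
    (h : ∀ v : Fin r → MonoidAlgebra K Q, Matrix.vecMul v ((toK K A).submatrix rows id) = 0 → v = 0)
    {E F : Finset Q} (hF : ∀ g ∈ E, ∀ i j, ∀ s ∈ (A i j).coeff.support, g * s ∈ F) :
    r * E.card ≤ (cmp E F (toC A)).rank := by
  refine (rows_le_rank (toK K A) rows h (F := F) fun g hg i j s hs => hF g hg i j s ?_).trans ?_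
  · rw [Finsupp.mem_support_iff] at hs ⊢
    intro h0
    apply hs
    show ((((A i j).coeff s : ℤ)) : K) = 0
    rw [h0, Int.cast_zero]
  · rw [cmp_toK, cmp_toC]
    exact rank_int_le _ _

/-- **The ranks of the compressions** -/
theorem rank_cmp_ge {Q : Type} [Group Q] (hQ : Foel Q) (K : Type) [Field K] {a b c : ℕ}
    (D₁ : Matrix (Fin c) (Fin a) (MonoidAlgebra ℤ Q)) (D₂ : Matrix (Fin b) (Fin c) (MonoidAlgebra ℤ Q)) (hD : D₂ * D₁ = 0)
    {r₁ r₂ : ℕ} (rows₁ : Fin r₁ → Fin c) (rows₂ : Fin r₂ → Fin b)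
    (h₁ : ∀ v : Fin r₁ → MonoidAlgebra K Q, Matrix.vecMul v ((toK K D₁).submatrix rows₁ id) = 0 → v = 0)
    (h₂ : ∀ v : Fin r₂ → MonoidAlgebra K Q, Matrix.vecMul v ((toK K D₂).submatrix rows₂ id) = 0 → v = 0)
    (hc : c ≤ r₁ + r₂) {η : ℝ} (hη : 0 < η) (U T : Finset Q) :
    ∃ E E' F : Finset Q, E.Nonempty ∧ E' ⊆ E ∧ (∀ g ∈ E', ∀ u ∈ U, g * u ∈ E) ∧
      (1 - η) * (E.card : ℝ) ≤ (E'.card : ℝ) ∧ (∀ g ∈ E, ∀ t ∈ T, g * t ∈ F) ∧
      (c : ℝ) * E.card - (cmp E F (toC ((Matrix.fromCols D₁ (adj D₂)).submatrix id finSumFinEquiv.symm))).rank ≤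
        η * E.card := by
  classical
  have hr : (0 : ℝ) < (r₂ : ℝ) + 1 := by positivity
  obtain ⟨S₁, hS₁⟩ : ∃ S : Finset Q, ∀ i j, ∀ s ∈ (D₁ i j).coeff.support, s ∈ S :=
    ⟨univ.biUnion fun i => univ.biUnion fun j => (D₁ i j).coeff.support, fun i j s hs =>
      mem_biUnion.2 ⟨i, mem_univ _, mem_biUnion.2 ⟨j, mem_univ _, hs⟩⟩⟩
  obtain ⟨S₂, hS₂⟩ : ∃ S : Finset Q, ∀ i j, ∀ s ∈ (D₂ i j).coeff.support, s ∈ S :=
    ⟨univ.biUnion fun i => univ.biUnion fun j => (D₂ i j).coeff.support, fun i j s hs =>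
      mem_biUnion.2 ⟨i, mem_univ _, mem_biUnion.2 ⟨j, mem_univ _, hs⟩⟩⟩
  obtain ⟨E, E', hne, hsub, hS, hcard⟩ := hQ (U ∪ S₂) (η / (r₂ + 1)) (by positivity)
  obtain ⟨F, hF⟩ : ∃ F : Finset Q, E ⊆ F ∧ (∀ g ∈ E, ∀ t ∈ T, g * t ∈ F) ∧ ∀ g ∈ E, ∀ t ∈ S₁, g * t ∈ F := by
    refine ⟨E ∪ (E ×ˢ (T ∪ S₁)).image fun p => p.1 * p.2, subset_union_left, fun g hg t ht => ?_, fun g hg t ht => ?_⟩
    · exact mem_union_right _ (mem_image.2 ⟨(g, t), mem_product.2 ⟨hg, mem_union_left _ ht⟩, rfl⟩)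
    · exact mem_union_right _ (mem_image.2 ⟨(g, t), mem_product.2 ⟨hg, mem_union_right _ ht⟩, rfl⟩)
  obtain ⟨hF1, hF2, hF3⟩ := hF
  have hε : η / (r₂ + 1) ≤ η := div_le_self hη.le (by linarith [Nat.cast_nonneg (α := ℝ) r₂])
  have hE : (0 : ℝ) ≤ E.card := Nat.cast_nonneg _
  refine ⟨E, E', F, hne, hsub, fun g hg u hu => hS g hg u (mem_union_left _ hu), ?_, hF2, ?_⟩
  · refine le_trans (mul_le_mul_of_nonneg_right ?_ hE) hcard
    linarith
  · have h3 : cmp E' E (toC D₂) * cmp E F (toC D₁) = 0 := by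
      rw [cmp_mul (toC D₂) (toC D₁)]
      · have h4 : toC D₂ * toC D₁ = toC (D₂ * D₁) := by
          unfold toC
          rw [Matrix.map_mul]
        rw [h4, hD]
        ext x y
        simp [cmp, toC]
      · intro g hg i j s hs
        refine hS g hg s (mem_union_right _ (hS₂ i j s ?_))
        rw [Finsupp.mem_support_iff] at hs ⊢
        intro h0
        apply hs
        show (((D₂ i j).coeff s : ℤ) : ℂ) = 0
        rw [h0, Int.cast_zero]
    have h4 := rank_add_le _ _ h3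
    have h5 : Matrix.fromCols (cmp E F (toC D₁)) (cmp E' E (toC D₂)).conjTranspose =
        (cmp E F (toC ((Matrix.fromCols D₁ (adj D₂)).submatrix id finSumFinEquiv.symm))).submatrix id
          (Sum.elim (fun p : Fin a × F => (finSumFinEquiv (Sum.inl p.1), p.2))
            (fun p : Fin b × E' => (finSumFinEquiv (Sum.inr p.1), ⟨p.2, hF1 (hsub p.2.2)⟩))) := by
      ext ⟨i, g⟩ y
      rcases y with ⟨j, x⟩ | ⟨j, x⟩
      · show (toC D₁ i j).coeff ((g : Q)⁻¹ * (x : Q)) = ((toC ((Matrix.fromCols D₁ (adj D₂)).submatrix id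
          finSumFinEquiv.symm)) i (finSumFinEquiv (Sum.inl j))).coeff ((g : Q)⁻¹ * (x : Q))
        simp [toC]
      · show (starRingEnd ℂ) ((toC D₂ j i).coeff ((x : Q)⁻¹ * (g : Q))) = ((toC ((Matrix.fromCols D₁ (adj D₂)).submatrix id
          finSumFinEquiv.symm)) i (finSumFinEquiv (Sum.inr j))).coeff ((g : Q)⁻¹ * (x : Q))
        simp [toC, coeff_adj]
    have h6 := Matrix.rank_submatrix_le (cmp E F (toC ((Matrix.fromCols D₁ (adj D₂)).submatrix id finSumFinEquiv.symm)))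
      id (Sum.elim (fun p : Fin a × F => (finSumFinEquiv (Sum.inl p.1), p.2))
            (fun p : Fin b × E' => (finSumFinEquiv (Sum.inr p.1), ⟨p.2, hF1 (hsub p.2.2)⟩)))
    rw [← h5] at h6
    have h7 := rows_le_rank_int D₁ rows₁ h₁ (E := E) (F := F) fun g hg i j s hs => hF3 g hg s (hS₁ i j s hs)
    have h8 := rows_le_rank_int D₂ rows₂ h₂ (E := E') (F := E) fun g hg i j s hs =>
      hS g hg s (mem_union_right _ (hS₂ i j s hs))
    have h9 : ((r₁ * E.card : ℕ) : ℝ) + ((r₂ * E'.card : ℕ) : ℝ) ≤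
        (cmp E F (toC ((Matrix.fromCols D₁ (adj D₂)).submatrix id finSumFinEquiv.symm))).rank := by
      exact_mod_cast (add_le_add h7 h8).trans (h4.trans h6)
    push_cast at h9
    have h10 : (c : ℝ) ≤ r₁ + r₂ := by exact_mod_cast hc
    have h11 : (c : ℝ) * E.card ≤ (r₁ + r₂) * E.card := mul_le_mul_of_nonneg_right h10 hE
    have h12 : (r₂ : ℝ) * ((1 - η / (r₂ + 1)) * E.card) ≤ r₂ * E'.card :=
      mul_le_mul_of_nonneg_left hcard (Nat.cast_nonneg _)
    have h13 : (r₂ : ℝ) * (η / (r₂ + 1)) ≤ η := by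
      rw [mul_div_assoc', div_le_iff₀ hr]
      nlinarith
    have h14 : (r₂ : ℝ) * (η / (r₂ + 1)) * E.card ≤ η * E.card := mul_le_mul_of_nonneg_right h13 hE
    nlinarith

end Pool.Agent.S14
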