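import Pool.Agent.S14.E1
import Pool.Agent.S14.E2

/-!
# Project S14, block END: the vanishing of the `ℓ²`-kernel from amenable quotients
-/

set_option autoImplicit false
set_option linter.unusedSectionVars false

open Finset Filter Topology

namespace Pool.Agent.S14

open Pool.Agent.H4.Atiyah Pool.Agent.H4.Singer Pool.Agent.H93.S11

theorem map_adj {R G Q : Type} [Semiring R] [Group G] [Group Q] (ψ : G →* Q) {m n : Type}
    (A : Matrix m n (MonoidAlgebra R G)) :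
    (adj A).map (MonoidAlgebra.mapDomainRingHom R ψ) = adj (A.map (MonoidAlgebra.mapDomainRingHom R ψ)) := by
  classical
  ext i j y
  rw [coeff_adj]
  show (Finsupp.mapDomain ψ ((A j i).coeff.equivMapDomain (Equiv.inv G))) y = (Finsupp.mapDomain ψ (A j i).coeff) y⁻¹
  rw [Finsupp.equivMapDomain_eq_mapDomain, ← Finsupp.mapDomain_comp]
  have h1 : (ψ : G → Q) ∘ (Equiv.inv G) = (Equiv.inv Q) ∘ ψ := by
    funext x
    simp
  rw [h1, Finsupp.mapDomain_comp, ← Finsupp.equivMapDomain_eq_mapDomain (Equiv.inv Q)]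
  rfl

theorem map_toK {K G Q : Type} [Field K] [Group G] [Group Q] (ψ : G →* Q) {m n : Type} (A : Matrix m n (MonoidAlgebra ℤ G)) :
    (toK K A).map (MonoidAlgebra.mapDomainRingHom K ψ) = toK K (A.map (MonoidAlgebra.mapDomainRingHom ℤ ψ)) := by
  ext i j y
  show (Finsupp.mapDomain ψ (Finsupp.mapRange (Int.cast : ℤ → K) Int.cast_zero (A i j).coeff)) y =
    (((Finsupp.mapDomain ψ (A i j).coeff) y : ℤ) : K)
  rw [Finsupp.mapDomain_mapRange _ _ _ _ (fun x y => Int.cast_add x y), Finsupp.mapRange_apply]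

/-- **Vanishing of the `ℓ²`-kernel from amenable quotients** -/
theorem l2_of_foel {H : Type} [Group H] [DecidableEq H] (K : Type) [Field K] {a b c : ℕ}
    (D₁ : Matrix (Fin c) (Fin a) (MonoidAlgebra ℤ H)) (D₂ : Matrix (Fin b) (Fin c) (MonoidAlgebra ℤ H)) (hD : D₂ * D₁ = 0)
    {r₁ r₂ : ℕ} (rows₁ : Fin r₁ → Fin c) (rows₂ : Fin r₂ → Fin b) (hc : c ≤ r₁ + r₂)
    (h : ∀ T : Finset H, ∃ (Q : Type) (_ : Group Q) (ψ : H →* Q), Foel Q ∧ Set.InjOn ψ T ∧
      (∀ v : Fin r₁ → MonoidAlgebra K Q, Matrix.vecMul v (((toK K D₁).submatrix rows₁ id).map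
        (MonoidAlgebra.mapDomainRingHom K ψ)) = 0 → v = 0) ∧
      (∀ v : Fin r₂ → MonoidAlgebra K Q, Matrix.vecMul v (((toK K D₂).submatrix rows₂ id).map
        (MonoidAlgebra.mapDomainRingHom K ψ)) = 0 → v = 0)) :
    ∀ x ∈ l2ker (toC ((Matrix.fromCols D₁ (adj D₂)).submatrix id finSumFinEquiv.symm)), x = 0 := by
  classical
  apply l2ker_trivial_of_vnDim
  apply vnDim_nonpos_cmp
  intro η hη T
  obtain ⟨Q, gQ, ψ, hQ, hψ, h₁, h₂⟩ := h T
  refine ⟨Q, gQ, ψ, hψ, fun U => ?_⟩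
  have e : ((Matrix.fromCols D₁ (adj D₂)).submatrix id finSumFinEquiv.symm).map (MonoidAlgebra.mapDomainRingHom ℤ ψ) =
      (Matrix.fromCols (D₁.map (MonoidAlgebra.mapDomainRingHom ℤ ψ))
        (adj (D₂.map (MonoidAlgebra.mapDomainRingHom ℤ ψ)))).submatrix id (finSumFinEquiv (m := a) (n := b)).symm := by
    rw [← map_adj]
    ext i j : 2
    obtain ⟨j, rfl⟩ := (finSumFinEquiv (m := a) (n := b)).surjective j
    rcases j with j | j
    · simp
    · simp
  have hD' : D₂.map (MonoidAlgebra.mapDomainRingHom ℤ ψ) * D₁.map (MonoidAlgebra.mapDomainRingHom ℤ ψ) = 0 := by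
    rw [← Matrix.map_mul, hD]
    ext i j : 2
    simp
  obtain ⟨E, E', F, hne, hsub, hU, hcard, hF, hrank⟩ := rank_cmp_ge hQ K (D₁.map (MonoidAlgebra.mapDomainRingHom ℤ ψ))
    (D₂.map (MonoidAlgebra.mapDomainRingHom ℤ ψ)) hD' rows₁ rows₂ (by rw [← map_toK]; exact h₁) (by rw [← map_toK]; exact h₂)
    hc hη U
    ((univ.biUnion fun i => univ.biUnion fun j =>
      (((Matrix.fromCols D₁ (adj D₂)).submatrix id (finSumFinEquiv (m := a) (n := b)).symm) i j).coeff.support).image ψ)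
  refine ⟨E, E', F, hne, hsub, hU, hcard, fun g hg i j s hs => hF g hg _ (mem_image_of_mem _ ?_), ?_⟩
  · exact mem_biUnion.2 ⟨i, mem_univ _, mem_biUnion.2 ⟨j, mem_univ _, hs⟩⟩
  · rw [e]
    exact hrank

end Pool.Agent.S14
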