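import Pool.Agent.S14.E5

/-!
# Project S14, examples: tools (the other form of the Foelner condition, abelian groups, finite index, cones)
-/

set_option autoImplicit false
set_option linter.unusedSectionVars false

open Finset Filter Topology

namespace Pool.Agent.S14

/-- the two forms of the Foelner condition agree -/
theorem Foel.amen {L : Type} [Group L] (h : Foel L) : Amen L := by
  classical
  intro S ε hε
  obtain ⟨E, E', hne, hsub, hS, hcard⟩ := h (S.image fun s => s⁻¹) ε hε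
  refine ⟨E.image fun x => x⁻¹, hne.image _, fun s hs => ?_⟩
  rw [card_image_of_injective _ inv_injective]
  have h1 : {x ∈ ((E.image fun x => x⁻¹ : Finset L) : Set L) | s * x ∉ E.image fun x => x⁻¹} ⊆
      ((E \ E').image fun x => x⁻¹ : Finset L) := by
    rintro x ⟨hx, hx2⟩
    obtain ⟨e, he, rfl⟩ := mem_image.1 (mem_coe.1 hx)
    refine mem_coe.2 (mem_image_of_mem _ (mem_sdiff.2 ⟨he, fun he' => hx2 ?_⟩))
    refine mem_image.2 ⟨e * s⁻¹, hS e he' _ (mem_image_of_mem _ hs), ?_⟩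
    rw [mul_inv_rev, inv_inv]
  have h2 := Set.ncard_le_ncard h1 (finite_toSet _)
  rw [Set.ncard_coe_finset] at h2
  have h3 : ((E \ E').image fun x => x⁻¹).card ≤ (E \ E').card := card_image_le
  have h4 : ((E \ E').card : ℝ) = E.card - E'.card := by
    rw [card_sdiff_of_subset hsub, Nat.cast_sub (card_le_card hsub)]
  have h5 : (({x ∈ ((E.image fun x => x⁻¹ : Finset L) : Set L) | s * x ∉ E.image fun x => x⁻¹}.ncard : ℕ) : ℝ) ≤
      (E \ E').card := by exact_mod_cast h2.trans h3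
  rw [h4] at h5
  linarith

/-- the products of the elements of `S` with exponents less than `m` -/
noncomputable def pw {A : Type} [CommGroup A] [DecidableEq A] (S : Finset A) (m : ℕ) : Finset A :=
  (Fintype.piFinset fun _ : S => range m).image fun k => ∏ s : S, (s : A) ^ k s

theorem card_pw {A : Type} [CommGroup A] [DecidableEq A] (S : Finset A) (m : ℕ) : (pw S m).card ≤ m ^ S.card := by
  refine card_image_le.trans ?_
  rw [Fintype.card_piFinset, prod_const, card_range, card_univ, Fintype.card_coe]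

theorem pw_mul {A : Type} [CommGroup A] [DecidableEq A] {S : Finset A} {m : ℕ} {x s : A} (hx : x ∈ pw S m) (hs : s ∈ S) :
    x * s ∈ pw S (m + 1) := by
  obtain ⟨k, hk, rfl⟩ := mem_image.1 hx
  refine mem_image.2 ⟨Function.update k ⟨s, hs⟩ (k ⟨s, hs⟩ + 1), Fintype.mem_piFinset.2 fun t => ?_, ?_⟩
  · have h1 := mem_range.1 (Fintype.mem_piFinset.1 hk t)
    by_cases ht : t = ⟨s, hs⟩
    · subst ht
      rw [Function.update_self]
      exact mem_range.2 (by omega)
    · rw [Function.update_of_ne ht]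
      exact mem_range.2 (by omega)
  · rw [← mul_prod_erase univ _ (mem_univ (⟨s, hs⟩ : S)), ← mul_prod_erase univ (fun t : S => (t : A) ^ k t)
      (mem_univ (⟨s, hs⟩ : S)), Function.update_self, pow_succ]
    have h1 : ∏ t ∈ univ.erase (⟨s, hs⟩ : S), (t : A) ^ (Function.update k ⟨s, hs⟩ (k ⟨s, hs⟩ + 1) t) =
        ∏ t ∈ univ.erase (⟨s, hs⟩ : S), (t : A) ^ k t :=
      prod_congr rfl fun t ht => by rw [Function.update_of_ne (ne_of_mem_erase ht)]
    rw [h1]
    exact mul_right_comm _ _ _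

theorem pw_sub {A : Type} [CommGroup A] [DecidableEq A] (S : Finset A) (m : ℕ) : pw S m ⊆ pw S (m + 1) := by
  intro x hx
  obtain ⟨k, hk, rfl⟩ := mem_image.1 hx
  refine mem_image.2 ⟨k, Fintype.mem_piFinset.2 fun t => ?_, rfl⟩
  have h1 := mem_range.1 (Fintype.mem_piFinset.1 hk t)
  exact mem_range.2 (by omega)

theorem pw_one {A : Type} [CommGroup A] [DecidableEq A] (S : Finset A) : (1 : A) ∈ pw S 1 :=
  mem_image.2 ⟨fun _ => 0, Fintype.mem_piFinset.2 fun _ => mem_range.2 one_pos, by simp⟩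

/-- abelian groups -/
theorem foel_of_comm (A : Type) [CommGroup A] : Foel A := by
  classical
  intro S ε hε
  have hne : ∀ m, (1 : A) ∈ pw S (m + 1) := by
    intro m
    induction m with
    | zero => exact pw_one S
    | succ m ih => exact pw_sub S _ ih
  rcases le_or_gt 1 ε with h1 | h1
  · exact ⟨pw S 1, ∅, ⟨1, pw_one S⟩, empty_subset _, fun g hg => absurd hg (notMem_empty g), by
      rw [card_empty, Nat.cast_zero]
      exact mul_nonpos_of_nonpos_of_nonneg (by linarith) (Nat.cast_nonneg _)⟩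
  by_contra hcon
  have h2 : ∀ m, ((pw S (m + 1)).card : ℝ) < (1 - ε) * ((pw S (m + 2)).card : ℝ) := by
    intro m
    by_contra h3
    exact hcon ⟨pw S (m + 2), pw S (m + 1), ⟨1, hne _⟩, pw_sub S _, fun g hg s hs => pw_mul hg hs, not_lt.1 h3⟩
  have hr : 0 < 1 - ε := by linarith
  have h3 : ∀ m, (1 - ε)⁻¹ ^ m ≤ ((pw S (m + 1)).card : ℝ) := by
    intro m
    induction m with
    | zero =>
      rw [pow_zero]
      exact_mod_cast card_pos.2 ⟨1, pw_one S⟩
    | succ m ih =>
      rw [pow_succ]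
      have h4 : ((pw S (m + 1)).card : ℝ) * (1 - ε)⁻¹ ≤ ((pw S (m + 2)).card : ℝ) := by
        rw [mul_inv_le_iff₀ hr, mul_comm]
        exact (h2 m).le
      exact (mul_le_mul_of_nonneg_right ih (inv_nonneg.2 hr.le)).trans h4
  have hr1 : 1 < (1 - ε)⁻¹ := by
    rw [one_lt_inv₀ hr]
    linarith
  have h4 : Tendsto (fun m : ℕ => ((m : ℝ) ^ S.card) / (1 - ε)⁻¹ ^ m) atTop (𝓝 0) :=
    tendsto_pow_const_div_const_pow_of_one_lt S.card hr1
  obtain ⟨m, hm, hm1⟩ := ((h4.eventually (gt_mem_nhds (show (0 : ℝ) < (1 - ε) by linarith))).and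
    (eventually_ge_atTop 1)).exists
  obtain ⟨k, rfl⟩ : ∃ k, m = k + 1 := ⟨m - 1, by omega⟩
  rw [div_lt_iff₀ (by positivity), pow_succ, mul_comm _ (1 - ε)⁻¹, mul_inv_cancel_left₀ hr.ne'] at hm
  have h5 : ((pw S (k + 1)).card : ℝ) ≤ ((k + 1 : ℕ) : ℝ) ^ S.card := by exact_mod_cast card_pw S (k + 1)
  linarith [h3 k]

/-- a subgroup of finite index -/
theorem Foel.of_finiteIndex {G : Type} [Group G] (A : Subgroup G) [A.FiniteIndex] (hA : Foel A) : Foel G := by
  classical
  have := Fintype.ofFinite (G ⧸ A)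
  -- representatives of the right cosets `A t`
  let t : G ⧸ A → G := fun q => q.out⁻¹
  have ht : ∀ x : G, x * (t (x⁻¹ : G))⁻¹ ∈ A := by
    intro x
    have h1 : ((x⁻¹ : G) : G ⧸ A) = (((x⁻¹ : G) : G ⧸ A).out : G) := (QuotientGroup.out_eq' _).symm
    have h2 := QuotientGroup.eq.1 h1
    simpa [t] using h2
  let a : G → A := fun x => ⟨x * (t (x⁻¹ : G))⁻¹, ht x⟩
  have ha : ∀ x, (a x : G) * t (x⁻¹ : G) = x := fun x => inv_mul_cancel_right _ _
  intro S ε hε
  obtain ⟨E, E', hne, hsub, hS, hcard⟩ := hA ((univ ×ˢ S).image fun p : (G ⧸ A) × G => a (t p.1 * p.2)) ε hε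
  let m : A × (G ⧸ A) → G := fun p => (p.1 : G) * t p.2
  have hm : Function.Injective m := by
    rintro ⟨x, q⟩ ⟨y, r⟩ hxy
    have h1 : (x : G) * q.out⁻¹ = y * r.out⁻¹ := hxy
    have h2 : q = r := by
      have h3 : (q.out : G ⧸ A) = (r.out : G) := by
        rw [QuotientGroup.eq]
        have h4 : q.out⁻¹ * r.out = ((x⁻¹ * y : A) : G) := by
          rw [Subgroup.coe_mul, Subgroup.coe_inv]
          have h5 : q.out⁻¹ = (x : G)⁻¹ * (y * r.out⁻¹) := by rw [← h1, inv_mul_cancel_left]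
          rw [h5, mul_assoc, inv_mul_cancel_right]
        rw [h4]
        exact SetLike.coe_mem _
      rwa [QuotientGroup.out_eq', QuotientGroup.out_eq'] at h3
    subst h2
    rw [mul_left_inj] at h1
    rw [Prod.mk.injEq]
    exact ⟨Subtype.ext h1, rfl⟩
  refine ⟨(E ×ˢ univ).image m, (E' ×ˢ univ).image m, (hne.product ⟨((1 : G) : G ⧸ A), mem_univ _⟩).image _,
    image_subset_image (product_subset_product_left hsub), ?_, ?_⟩
  · intro g hg s hs
    obtain ⟨⟨x, q⟩, hp, rfl⟩ := mem_image.1 hg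
    have hx := (mem_product.1 hp).1
    refine mem_image.2 ⟨(x * a (t q * s), (((t q * s)⁻¹ : G) : G ⧸ A)), mem_product.2 ⟨?_, mem_univ _⟩, ?_⟩
    · exact hS x hx _ (mem_image.2 ⟨(q, s), mem_product.2 ⟨mem_univ _, hs⟩, rfl⟩)
    · show ((x * a (t q * s) : A) : G) * t (((t q * s)⁻¹ : G) : G ⧸ A) = x * t q * s
      rw [Subgroup.coe_mul, mul_assoc, ha, mul_assoc]
  · rw [card_image_of_injective _ hm, card_image_of_injective _ hm, card_product, card_product]
    push_cast
    rw [← mul_assoc]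
    exact mul_le_mul_of_nonneg_right hcard (Nat.cast_nonneg _)

/-- a cone in a power of the rational numbers -/
theorem exists_cone (Φ : Type) : ∃ P : Set (Φ → ℚ), (∀ x ∈ P, ∀ y ∈ P, x + y ∈ P) ∧ (0 : Φ → ℚ) ∉ P ∧
    ∀ x, x ≠ 0 → x ∈ P ∨ -x ∈ P := by
  classical
  let _ : LinearOrder Φ := linearOrderOfSTO WellOrderingRel
  have : WellFoundedLT Φ := ⟨WellOrderingRel.isWellOrder.wf⟩
  refine ⟨{x | 0 < toLex x}, fun x hx y hy => ?_, fun h => lt_irrefl (0 : Lex (Φ → ℚ)) h, fun x hx => ?_⟩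
  · show 0 < toLex (x + y)
    rw [toLex_add]
    exact add_pos hx hy
  · rcases lt_trichotomy (0 : Lex (Φ → ℚ)) (toLex x) with h | h | h
    · exact Or.inl h
    · exact absurd (toLex.injective h.symm) hx
    · refine Or.inr ?_
      show 0 < toLex (-x)
      rw [toLex_neg]
      exact neg_pos.2 h

end Pool.Agent.S14
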