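import Pool.Agent.S14.ExB

/-!
# Project S14, examples: the residually finite rationally solvable groups (Agol) are residually (amenable and left-orderable)
-/

set_option autoImplicit false
set_option linter.unusedSectionVars false

namespace Pool.Agent.S14

/-- `H` is residually finite rationally solvable (Agol): there is a decreasing sequence of normal subgroups `G i` of finite
index with `G 0 = H` and trivial intersection, such that `G (i + 1)` contains the kernel of `G i → H₁(G i; ℚ)`, i.e. every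
element of `G i` which is killed by all homomorphisms `G i → ℚ` -/
def RFRS (H : Type) [Group H] : Prop :=
  ∃ G : ℕ → Subgroup H, G 0 = ⊤ ∧ (∀ i, (G i).Normal) ∧ (∀ i, (G i).FiniteIndex) ∧ (∀ i, G (i + 1) ≤ G i) ∧
    (∀ x, (∀ i, x ∈ G i) → x = 1) ∧ ∀ i (x : G i), (∀ φ : G i →* Multiplicative ℚ, φ x = 1) → (x : H) ∈ G (i + 1)

/-- the subgroup of the elements which are killed by all homomorphisms to `ℚ` -/
def kq {H : Type} [Group H] (G : Subgroup H) : Subgroup H where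
  carrier := {x | ∃ h : x ∈ G, ∀ φ : G →* Multiplicative ℚ, φ ⟨x, h⟩ = 1}
  mul_mem' := by
    rintro x y ⟨hx, h1⟩ ⟨hy, h2⟩
    refine ⟨G.mul_mem hx hy, fun φ => ?_⟩
    have h3 : (⟨x * y, G.mul_mem hx hy⟩ : G) = ⟨x, hx⟩ * ⟨y, hy⟩ := rfl
    rw [h3, map_mul, h1, h2, one_mul]
  one_mem' := ⟨G.one_mem, fun φ => map_one φ⟩
  inv_mem' := by
    rintro x ⟨hx, h1⟩
    refine ⟨G.inv_mem hx, fun φ => ?_⟩
    have h3 : (⟨x⁻¹, G.inv_mem hx⟩ : G) = (⟨x, hx⟩ : G)⁻¹ := rfl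
    rw [h3, map_inv, h1, inv_one]

theorem mem_kq {H : Type} [Group H] (G : Subgroup H) (x : H) :
    x ∈ kq G ↔ ∃ h : x ∈ G, ∀ φ : G →* Multiplicative ℚ, φ ⟨x, h⟩ = 1 := Iff.rfl

theorem kq_le {H : Type} [Group H] (G : Subgroup H) : kq G ≤ G := fun _ hx => hx.1

theorem kq_normal {H : Type} [Group H] (G : Subgroup H) [hG : G.Normal] : (kq G).Normal := by
  refine ⟨fun x hx g => ?_⟩
  obtain ⟨hx, h1⟩ := hx
  refine ⟨hG.conj_mem x hx g, fun φ => ?_⟩
  exact h1 (φ.comp (MulAut.conjNormal g).toMonoidHom)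

theorem kq_mono {H : Type} [Group H] {G G' : Subgroup H} (h : G' ≤ G) : kq G' ≤ kq G := by
  rintro x ⟨hx, h1⟩
  exact ⟨h hx, fun φ => h1 (φ.comp (Subgroup.inclusion h))⟩

/-- all homomorphisms to `ℚ` at once -/
def fq {H : Type} [Group H] (G : Subgroup H) : G →* Multiplicative ((G →* Multiplicative ℚ) → ℚ) where
  toFun x := Multiplicative.ofAdd fun φ => (φ x).toAdd
  map_one' := by
    apply Multiplicative.toAdd.injective
    funext φ
    show (φ 1).toAdd = 0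
    rw [map_one]
    rfl
  map_mul' x y := by
    apply Multiplicative.toAdd.injective
    funext φ
    show (φ (x * y)).toAdd = (φ x).toAdd + (φ y).toAdd
    rw [map_mul]
    rfl

theorem fq_eq_one {H : Type} [Group H] (G : Subgroup H) (x : G) : fq G x = 1 ↔ (x : H) ∈ kq G := by
  constructor
  · intro h
    exact ⟨x.2, fun φ => Multiplicative.toAdd.injective (congrFun (congrArg Multiplicative.toAdd h) φ)⟩
  · rintro ⟨h1, h2⟩
    apply Multiplicative.toAdd.injective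
    funext φ
    exact congrArg Multiplicative.toAdd (h2 φ)

/-- a cone for `H ⧸ N` -/
def ConeN {H : Type} [Group H] (N : Subgroup H) : Prop :=
  ∃ P : Set H, (∀ x ∈ P, ∀ y ∈ P, x * y ∈ P) ∧ (∀ x ∈ P, x ∉ N) ∧ (∀ x, x ∉ N → x ∈ P ∨ x⁻¹ ∈ P) ∧
    ∀ x ∈ P, ∀ n ∈ N, x * n ∈ P

theorem ConeN.leftOrd {H : Type} [Group H] {N : Subgroup H} [N.Normal] (h : ConeN N) : LeftOrd (H ⧸ N) := by
  obtain ⟨P, h1, h2, h3, -⟩ := h
  refine ⟨QuotientGroup.mk' N '' P, ?_, ?_, ?_⟩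
  · rintro _ ⟨x, hx, rfl⟩ _ ⟨y, hy, rfl⟩
    exact ⟨x * y, h1 x hx y hy, map_mul _ _ _⟩
  · rintro ⟨x, hx, hx1⟩
    exact h2 x hx ((QuotientGroup.eq_one_iff x).1 hx1)
  · intro q hq
    obtain ⟨x, rfl⟩ := QuotientGroup.mk'_surjective N q
    rcases h3 x fun hx => hq ((QuotientGroup.eq_one_iff x).2 hx) with h | h
    · exact Or.inl ⟨x, h, rfl⟩
    · exact Or.inr ⟨x⁻¹, h, map_inv _ _⟩

/-- the next step -/
theorem ConeN.step {H : Type} [Group H] {N N' : Subgroup H} [N.Normal] (h : ConeN N) (hN : N' ≤ N) {A : Type} [AddCommGroup A]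
    (f : N →* Multiplicative A) (hf : ∀ x : N, f x = 1 ↔ (x : H) ∈ N')
    (hA : ∃ P : Set A, (∀ x ∈ P, ∀ y ∈ P, x + y ∈ P) ∧ (0 : A) ∉ P ∧ ∀ x, x ≠ 0 → x ∈ P ∨ -x ∈ P) : ConeN N' := by
  obtain ⟨P, h1, h2, h3, h4⟩ := h
  obtain ⟨C, c1, c2, c3⟩ := hA
  have h5 : ∀ x ∈ P, ∀ n ∈ N, n * x ∈ P := by
    intro x hx n hn
    have h6 := h4 x hx (x⁻¹ * n * x) (by simpa using (inferInstance : N.Normal).conj_mem n hn x⁻¹)
    have h7 : x * (x⁻¹ * n * x) = n * x := by group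
    rwa [h7] at h6
  refine ⟨P ∪ {x | ∃ h : x ∈ N, (f ⟨x, h⟩).toAdd ∈ C}, ?_, ?_, ?_, ?_⟩
  · rintro x (hx | ⟨hx, hx1⟩) y (hy | ⟨hy, hy1⟩)
    · exact Or.inl (h1 x hx y hy)
    · exact Or.inl (h4 x hx y hy)
    · exact Or.inl (h5 y hy x hx)
    · refine Or.inr ⟨N.mul_mem hx hy, ?_⟩
      have h6 : (⟨x * y, N.mul_mem hx hy⟩ : N) = ⟨x, hx⟩ * ⟨y, hy⟩ := rfl
      rw [h6, map_mul]
      exact c1 _ hx1 _ hy1
  · rintro x (hx | ⟨hx, hx1⟩) hxN
    · exact h2 x hx (hN hxN)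
    · have h6 : f ⟨x, hx⟩ = 1 := (hf ⟨x, hx⟩).2 hxN
      rw [h6] at hx1
      exact c2 hx1
  · intro x hx
    by_cases hxN : x ∈ N
    · have h6 : (f ⟨x, hxN⟩).toAdd ≠ 0 := fun h0 => hx ((hf ⟨x, hxN⟩).1 (Multiplicative.toAdd.injective h0))
      rcases c3 _ h6 with h7 | h7
      · exact Or.inl (Or.inr ⟨hxN, h7⟩)
      · refine Or.inr (Or.inr ⟨N.inv_mem hxN, ?_⟩)
        have h8 : (⟨x⁻¹, N.inv_mem hxN⟩ : N) = (⟨x, hxN⟩ : N)⁻¹ := rfl
        rw [h8, map_inv]
        exact h7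
    · exact (h3 x hxN).imp Or.inl Or.inl
  · rintro x (hx | ⟨hx, hx1⟩) n hn
    · exact Or.inl (h4 x hx n (hN hn))
    · refine Or.inr ⟨N.mul_mem hx (hN hn), ?_⟩
      have h6 : (⟨x * n, N.mul_mem hx (hN hn)⟩ : N) = ⟨x, hx⟩ * ⟨n, hN hn⟩ := rfl
      rw [h6, map_mul, (hf ⟨n, hN hn⟩).2 hn, mul_one]
      exact hx1

theorem cone_top {H : Type} [Group H] : ConeN (⊤ : Subgroup H) :=
  ⟨∅, fun _ h => absurd h (Set.notMem_empty _), fun _ h => absurd h (Set.notMem_empty _),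
    fun x hx => absurd (Subgroup.mem_top x) hx, fun _ h => absurd h (Set.notMem_empty _)⟩

/-- virtually abelian quotients -/
theorem foel_kq {H : Type} [Group H] (G : Subgroup H) [G.Normal] [G.FiniteIndex] [(kq G).Normal] : Foel (H ⧸ kq G) := by
  have hfi : (G.map (QuotientGroup.mk' (kq G))).FiniteIndex := by
    refine ⟨fun h0 => ?_⟩
    have h1 := Subgroup.index_map_dvd G (QuotientGroup.mk'_surjective (kq G))
    rw [h0, zero_dvd_iff] at h1
    exact Subgroup.FiniteIndex.index_ne_zero h1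
  refine Foel.of_finiteIndex (G.map (QuotientGroup.mk' (kq G))) ?_
  let p : G →* G.map (QuotientGroup.mk' (kq G)) := (QuotientGroup.mk' (kq G)).subgroupMap G
  have hp : Function.Surjective p := MonoidHom.subgroupMap_surjective _ _
  have hker : p.ker ≤ (fq G).ker := by
    intro x hx
    have h1 : ((x : H) : H ⧸ kq G) = 1 := congrArg Subtype.val (MonoidHom.mem_ker.1 hx)
    exact MonoidHom.mem_ker.2 ((fq_eq_one G x).2 ((QuotientGroup.eq_one_iff (x : H)).1 h1))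
  let g := MonoidHom.liftOfSurjective p hp ⟨fq G, hker⟩
  have hg : ∀ x, g (p x) = fq G x := fun x => MonoidHom.liftOfRightInverse_comp_apply _ _ _ _ x
  refine Foel.comap g ?_ (foel_of_comm _)
  rw [injective_iff_map_eq_one]
  intro q hq
  obtain ⟨x, rfl⟩ := hp q
  rw [hg, fq_eq_one] at hq
  exact Subtype.ext ((QuotientGroup.eq_one_iff (x : H)).2 hq)

/-- **Residually finite rationally solvable groups** -/
theorem RFRS.ral {H : Type} [Group H] (h : RFRS H) : RAL H := by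
  obtain ⟨G, h0, hn, hfi, hanti, hsep, hker⟩ := h
  have hle : ∀ i, kq (G i) ≤ G (i + 1) := by
    rintro i x ⟨hx, h1⟩
    exact hker i ⟨x, hx⟩ h1
  have hnor : ∀ i, (kq (G i)).Normal := fun i => kq_normal (G i)
  have hcone : ∀ i, ConeN (kq (G i)) := by
    intro i
    induction i with
    | zero =>
      refine cone_top.step le_top ((fq (G 0)).comp (Subgroup.inclusion (by rw [h0]))) (fun x => ?_) (exists_cone _)
      exact fq_eq_one (G 0) _
    | succ i ih =>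
      refine ih.step (kq_mono (hanti i)) ((fq (G (i + 1))).comp (Subgroup.inclusion (hle i))) (fun x => ?_) (exists_cone _)
      exact fq_eq_one (G (i + 1)) _
  intro x hx
  obtain ⟨i, hi⟩ : ∃ i, x ∉ G i := by
    by_contra hcon
    push Not at hcon
    exact hx (hsep x hcon)
  refine ⟨H ⧸ kq (G i), inferInstance, QuotientGroup.mk' _, (foel_kq (G i)).amen, (hcone i).leftOrd, fun h1 => hi ?_⟩
  exact kq_le _ ((QuotientGroup.eq_one_iff x).1 h1)

end Pool.Agent.S14
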