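import Pool.Agent.S14.ExRF

/-!
# Project S14, examples: extensions; groups whose rational derived series has trivial intersection
-/

set_option autoImplicit false
set_option linter.unusedSectionVars false

open Finset

namespace Pool.Agent.S14

/-- extensions of amenable groups -/
theorem Foel.ext {L : Type} [Group L] (N : Subgroup L) [hn : N.Normal] (hN : Foel N) (hQ : Foel (L ⧸ N)) : Foel L := by
  classical
  intro S ε hε
  have hm : (0 : ℝ) < min ε 1 := lt_min hε one_pos
  have hm1 : min ε 1 ≤ 1 := min_le_right _ _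
  have hm2 : min ε 1 ≤ ε := min_le_left _ _
  obtain ⟨F, F', hne, hsub, hS, hcard⟩ := hQ (S.image fun s : L => (s : L ⧸ N)) (min ε 1 / 2) (by positivity)
  have hc : ∀ (q : L ⧸ N) (s : L), q.out * s * (q * (s : L ⧸ N)).out⁻¹ ∈ N := by
    intro q s
    have h1 : (((q * (s : L ⧸ N)).out : L) : L ⧸ N) = ((q.out * s : L) : L ⧸ N) := by
      rw [QuotientGroup.out_eq', QuotientGroup.mk_mul, QuotientGroup.out_eq']
    have h2 := QuotientGroup.eq.1 h1
    have h3 := hn.conj_mem _ h2 (q * (s : L ⧸ N)).out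
    have h4 : (q * (s : L ⧸ N)).out * ((q * (s : L ⧸ N)).out⁻¹ * (q.out * s)) * (q * (s : L ⧸ N)).out⁻¹ =
        q.out * s * (q * (s : L ⧸ N)).out⁻¹ := by group
    rwa [h4] at h3
  obtain ⟨E, E', hne', hsub', hS', hcard'⟩ := hN ((F' ×ˢ S).image fun p : (L ⧸ N) × L => ⟨_, hc p.1 p.2⟩) (min ε 1 / 2)
    (by positivity)
  let m : N × (L ⧸ N) → L := fun p => (p.1 : L) * p.2.out
  have hmk : ∀ p, ((m p : L) : L ⧸ N) = p.2 := by
    intro p
    show (((p.1 : L) * p.2.out : L) : L ⧸ N) = p.2
    rw [QuotientGroup.mk_mul, QuotientGroup.out_eq', (QuotientGroup.eq_one_iff _).2 p.1.2, one_mul]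
  have hinj : Function.Injective m := by
    rintro ⟨x, q⟩ ⟨y, r⟩ hxy
    have h1 : q = r := (hmk (x, q)).symm.trans ((congrArg (fun z : L => (z : L ⧸ N)) hxy).trans (hmk (y, r)))
    subst h1
    have h2 : (x : L) * q.out = y * q.out := hxy
    rw [mul_left_inj] at h2
    rw [Prod.mk.injEq]
    exact ⟨Subtype.ext h2, rfl⟩
  refine ⟨(E ×ˢ F).image m, (E' ×ˢ F').image m, (hne'.product hne).image _,
    image_subset_image (product_subset_product hsub' hsub), ?_, ?_⟩
  · intro g hg s hs
    obtain ⟨⟨x, q⟩, hp, rfl⟩ := mem_image.1 hg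
    obtain ⟨hx, hq⟩ := mem_product.1 hp
    refine mem_image.2 ⟨(x * ⟨_, hc q s⟩, q * (s : L ⧸ N)), mem_product.2 ⟨?_, ?_⟩, ?_⟩
    · exact hS' x hx _ (mem_image.2 ⟨(q, s), mem_product.2 ⟨hq, hs⟩, rfl⟩)
    · exact hS q hq _ (mem_image_of_mem (fun s : L => (s : L ⧸ N)) hs)
    · show (x : L) * (q.out * s * (q * (s : L ⧸ N)).out⁻¹) * (q * (s : L ⧸ N)).out = x * q.out * s
      group
  · rw [card_image_of_injective _ hinj, card_image_of_injective _ hinj, card_product, card_product]
    push_cast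
    have h3 : ((1 - min ε 1 / 2) * (E.card : ℝ)) * ((1 - min ε 1 / 2) * (F.card : ℝ)) ≤ E'.card * F'.card :=
      mul_le_mul hcard' hcard (mul_nonneg (by linarith) (Nat.cast_nonneg _)) (Nat.cast_nonneg _)
    refine le_trans ?_ h3
    have h4 : (0 : ℝ) ≤ (E.card : ℝ) * F.card := by positivity
    have h5 : (1 - ε) ≤ (1 - min ε 1 / 2) * (1 - min ε 1 / 2) := by nlinarith [sq_nonneg (min ε 1)]
    nlinarith [mul_le_mul_of_nonneg_right h5 h4]

/-- extensions of left-orderable groups -/
theorem LeftOrd.ext {L : Type} [Group L] (N : Subgroup L) [hn : N.Normal] (hN : LeftOrd N) (hQ : LeftOrd (L ⧸ N)) :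
    LeftOrd L := by
  obtain ⟨P, p1, p2, p3⟩ := hN
  obtain ⟨C, c1, c2, c3⟩ := hQ
  refine ⟨{x | (x : L ⧸ N) ∈ C ∨ ∃ h : x ∈ N, (⟨x, h⟩ : N) ∈ P}, ?_, ?_, ?_⟩
  · rintro x (hx | ⟨hx, hx1⟩) y (hy | ⟨hy, hy1⟩)
    · exact Or.inl (by rw [QuotientGroup.mk_mul]; exact c1 _ hx _ hy)
    · exact Or.inl (by rw [QuotientGroup.mk_mul, (QuotientGroup.eq_one_iff y).2 hy, mul_one]; exact hx)
    · exact Or.inl (by rw [QuotientGroup.mk_mul, (QuotientGroup.eq_one_iff x).2 hx, one_mul]; exact hy)
    · exact Or.inr ⟨N.mul_mem hx hy, p1 _ hx1 _ hy1⟩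
  · rintro (h | ⟨h, h1⟩)
    · exact c2 h
    · exact p2 h1
  · intro x hx
    by_cases hxN : x ∈ N
    · rcases p3 ⟨x, hxN⟩ fun h => hx (congrArg Subtype.val h) with h | h
      · exact Or.inl (Or.inr ⟨hxN, h⟩)
      · exact Or.inr (Or.inr ⟨N.inv_mem hxN, h⟩)
    · rcases c3 (x : L ⧸ N) fun h => hxN ((QuotientGroup.eq_one_iff x).1 h) with h | h
      · exact Or.inl (Or.inl h)
      · exact Or.inr (Or.inl h)

/-- one more abelian factor -/
theorem foel_step {H : Type} [Group H] {N N' : Subgroup H} [N.Normal] [N'.Normal] (hle : N' ≤ N) (hN : Foel (H ⧸ N))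
    {A : Type} [CommGroup A] (f : N →* A) (hf : ∀ x : N, f x = 1 ↔ (x : H) ∈ N') : Foel (H ⧸ N') := by
  refine Foel.ext (N.map (QuotientGroup.mk' N')) ?_ ?_
  · let p : N →* N.map (QuotientGroup.mk' N') := (QuotientGroup.mk' N').subgroupMap N
    have hp : Function.Surjective p := MonoidHom.subgroupMap_surjective _ _
    have hker : p.ker ≤ f.ker := by
      intro x hx
      have h1 : ((x : H) : H ⧸ N') = 1 := congrArg Subtype.val (MonoidHom.mem_ker.1 hx)
      exact MonoidHom.mem_ker.2 ((hf x).2 ((QuotientGroup.eq_one_iff (x : H)).1 h1))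
    let g := MonoidHom.liftOfSurjective p hp ⟨f, hker⟩
    have hg : ∀ x, g (p x) = f x := fun x => MonoidHom.liftOfRightInverse_comp_apply _ _ _ _ x
    refine Foel.comap g ?_ (foel_of_comm _)
    rw [injective_iff_map_eq_one]
    intro q hq
    obtain ⟨x, rfl⟩ := hp q
    rw [hg, hf] at hq
    exact Subtype.ext ((QuotientGroup.eq_one_iff (x : H)).2 hq)
  · exact Foel.comap (QuotientGroup.quotientQuotientEquivQuotient N' N hle).toMonoidHom
      (QuotientGroup.quotientQuotientEquivQuotient N' N hle).injective hN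

/-- the rational derived series: `dr H (i + 1)` is the kernel of `dr H i → H₁(dr H i; ℚ)` -/
def dr (H : Type) [Group H] : ℕ → Subgroup H
  | 0 => ⊤
  | i + 1 => kq (dr H i)

/-- the rational derived series has trivial intersection -/
def RRS (H : Type) [Group H] : Prop := ∀ x : H, (∀ i, x ∈ dr H i) → x = 1

theorem dr_normal (H : Type) [Group H] (i : ℕ) : (dr H i).Normal := by
  induction i with
  | zero => exact (inferInstance : (⊤ : Subgroup H).Normal)
  | succ i ih => exact kq_normal _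

theorem kq_comap {H L : Type} [Group H] [Group L] (φ : H →* L) (G : Subgroup L) {G' : Subgroup H} (h : G' ≤ G.comap φ) :
    kq G' ≤ (kq G).comap φ := by
  rintro x ⟨hx, h1⟩
  exact ⟨h hx, fun ψ => h1 (ψ.comp ((φ.comp G'.subtype).codRestrict G fun y => h y.2))⟩

theorem dr_comap {H L : Type} [Group H] [Group L] (φ : H →* L) (i : ℕ) : dr H i ≤ (dr L i).comap φ := by
  induction i with
  | zero => exact fun x _ => Subgroup.mem_top _
  | succ i ih => exact kq_comap φ _ ih

/-- residual version, e.g. all groups `L` with `dr L n = ⊥` for some `n` are allowed -/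
theorem RRS.of_residual {H : Type} [Group H]
    (h : ∀ x : H, x ≠ 1 → ∃ (L : Type) (_ : Group L) (φ : H →* L), RRS L ∧ φ x ≠ 1) : RRS H := by
  intro x hx
  by_contra hcon
  obtain ⟨L, hL, φ, h1, h2⟩ := h x hcon
  exact h2 (h1 _ fun i => dr_comap φ i (hx i))

theorem RFRS.rrs {H : Type} [Group H] (h : RFRS H) : RRS H := by
  obtain ⟨G, h0, hn, hfi, hanti, hsep, hker⟩ := h
  have h1 : ∀ i, dr H i ≤ G i := by
    intro i
    induction i with
    | zero => rw [h0]; exact le_top
    | succ i ih =>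
      intro x hx
      obtain ⟨hx1, hx2⟩ := kq_mono ih hx
      exact hker i ⟨x, hx1⟩ hx2
  exact fun x hx => hsep x fun i => h1 i (hx i)

/-- **Groups whose rational derived series has trivial intersection** -/
theorem RRS.ral {H : Type} [Group H] (h : RRS H) : RAL H := by
  have hnor : ∀ i, (dr H i).Normal := dr_normal H
  have hcone : ∀ i, ConeN (dr H i) := by
    intro i
    induction i with
    | zero => exact cone_top
    | succ i ih => exact ih.step (kq_le _) (fq (dr H i)) (fun x => fq_eq_one _ x) (exists_cone _)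
  have hfoel : ∀ i, Foel (H ⧸ dr H i) := by
    intro i
    induction i with
    | zero =>
      have : Finite (H ⧸ dr H 0) := by
        have : Subsingleton (H ⧸ (⊤ : Subgroup H)) := QuotientGroup.subsingleton_quotient_top
        exact (inferInstance : Finite (H ⧸ (⊤ : Subgroup H)))
      exact foel_of_finite
    | succ i ih =>
      have h1 := hnor i
      have h2 : (kq (dr H i)).Normal := hnor (i + 1)
      exact foel_step (kq_le _) ih (fq (dr H i)) (fun x => fq_eq_one _ x)
  intro x hx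
  obtain ⟨i, hi⟩ : ∃ i, x ∉ dr H i := by
    by_contra hcon
    push Not at hcon
    exact hx (h x hcon)
  exact ⟨H ⧸ dr H i, inferInstance, QuotientGroup.mk' _, (hfoel i).amen, (hcone i).leftOrd,
    fun h1 => hi ((QuotientGroup.eq_one_iff x).1 h1)⟩

end Pool.Agent.S14
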