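import Pool.Agent.S14.ExB
import Pool.Agent.S12.Appr1
import Pool.Agent.S12.Ex

/-!
# Project S14, examples: the residually unitriangular groups (projects S11 and S12) are residually (amenable and left-orderable)
-/

set_option autoImplicit false
set_option linter.unusedSectionVars false

namespace Pool.Agent.S14

open Pool.Agent.S11 Pool.Agent.S11.Cu

theorem amen_of_fbox {Γ : Type} [Group Γ] (hB : FBox Γ) : Amen Γ := by
  refine Foel.amen fun S ε hε => ?_
  obtain ⟨W, B, hW, E, E', -, -, -, hbij, hE', hS, hcard⟩ := hB S ε hε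
  obtain ⟨⟨b, e⟩, -⟩ := hbij.2 1
  exact ⟨E, E', ⟨e, e.2⟩, hE', hS, hcard⟩

theorem leftOrd_of_bo (Γ : Type) [Group Γ] [BO Γ] : LeftOrd Γ := by
  refine ⟨{x | 1 < x}, fun x hx y hy => ?_, fun h => lt_irrefl (1 : Γ) h, fun x hx => ?_⟩
  · have h1 : x * 1 < x * y := BO.lt_l 1 y x hy
    rw [mul_one] at h1
    exact lt_trans hx h1
  · rcases lt_trichotomy 1 x with h | h | h
    · exact Or.inl h
    · exact absurd h.symm hx
    · refine Or.inr ?_
      have h1 : x⁻¹ * x < x⁻¹ * 1 := BO.lt_l x 1 x⁻¹ h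
      rwa [inv_mul_cancel, mul_one] at h1

/-- **Residually unitriangular groups** (project S12) -/
theorem RUT.ral {H : Type} [Group H] (h : S12.RUT H) : RAL H := by
  intro x hx
  obtain ⟨n, φ, hφ, h2⟩ := h x hx
  exact ⟨UT ℤ n, inferInstance, toUT φ hφ, amen_of_fbox fbox_UT, leftOrd_of_bo _, fun h0 => h2 ((toUT_eq_one φ hφ x).1 h0)⟩

/-- subgroups of right-angled Artin groups -/
theorem RAL.of_raag {H : Type} [Group H] {r : ℕ} (Γ : SimpleGraph (Fin r)) (f : H →* Pool.Agent.H68.Amp.Raag Γ)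
    (hf : Function.Injective f) : RAL H := RUT.ral (S12.RUT.of_raag Γ f hf)

/-- direct products -/
theorem RAL.prod {G H : Type} [Group G] [Group H] (hG : RAL G) (hH : RAL H) : RAL (G × H) := by
  rintro ⟨x, y⟩ hxy
  by_cases hx : x = 1
  · have hy : y ≠ 1 := fun hy => hxy (by rw [hx, hy]; rfl)
    obtain ⟨L, hL, φ, h1, h2, h3⟩ := hH y hy
    exact ⟨L, hL, φ.comp (MonoidHom.snd G H), h1, h2, h3⟩
  · obtain ⟨L, hL, φ, h1, h2, h3⟩ := hG x hx
    exact ⟨L, hL, φ.comp (MonoidHom.fst G H), h1, h2, h3⟩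

end Pool.Agent.S14
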