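import Mathlib

/-!
# S14/Ext: a homomorphism from a subring extends to the division ring of its left fractions
-/

namespace S14

/-- `ev : A → D` injective, every element of the division ring `D` is a left fraction of elements
of `A`, `ρ : A → R` makes all nonzero elements invertible: then `ρ` extends to `D`. -/
theorem exists_ext {A D R : Type} [Ring A] [DivisionRing D] [Ring R] (ev : A →+* D)
    (inj : ∀ a, ev a = 0 → a = 0)
    (frac : ∀ d : D, ∃ s t : A, ev s ≠ 0 ∧ ev s * d = ev t)
    (ρ : A →+* R) (unit : ∀ a, a ≠ 0 → IsUnit (ρ a)) :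
    ∃ Ψ : D →+* R, ∀ a, Ψ (ev a) = ρ a := by
  have inj' : ∀ a b : A, ev a = ev b → a = b := fun a b h =>
    sub_eq_zero.1 (inj _ (by rw [map_sub, h, sub_self]))
  have hun : ∀ a, ev a ≠ 0 → IsUnit (ρ a) := fun a ha => unit a fun h => ha (by rw [h, map_zero])
  -- `r` is the value at `d`
  let P : D → R → Prop := fun d r => ∀ s t : A, ev s * d = ev t → ρ s * r = ρ t
  have hex : ∀ d, ∃ r, P d r := by
    intro d
    obtain ⟨s₀, t₀, h0, h1⟩ := frac d
    obtain ⟨w, hw⟩ := hun s₀ h0
    refine ⟨↑w⁻¹ * ρ t₀, fun s t h => ?_⟩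
    obtain ⟨u, v, hu, huv⟩ := frac (ev s * (ev s₀)⁻¹)
    have e1 : u * s = v * s₀ := by
      refine inj' _ _ ?_
      rw [map_mul, map_mul, ← huv, mul_assoc, mul_assoc, inv_mul_cancel₀ h0, mul_one]
    have e2 : v * t₀ = u * t := by
      refine inj' _ _ ?_
      rw [map_mul, map_mul, ← h1, ← h, ← mul_assoc, ← mul_assoc, ← map_mul, ← map_mul, e1]
    have h3 : ρ s₀ * (↑w⁻¹ * ρ t₀) = ρ t₀ := by
      rw [← hw, ← mul_assoc, Units.mul_inv, one_mul]
    refine (hun u hu).mul_left_cancel ?_
    rw [← mul_assoc, ← map_mul, e1, map_mul, mul_assoc, h3, ← map_mul, e2, map_mul]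
  have huq : ∀ d r r', P d r → P d r' → r = r' := by
    intro d r r' h h'
    obtain ⟨s₀, t₀, h0, h1⟩ := frac d
    refine (hun s₀ h0).mul_left_cancel ?_
    rw [h _ _ h1, h' _ _ h1]
  have hadd : ∀ d d' r r', P d r → P d' r' → P (d + d') (r + r') := by
    intro d d' r r' h h' s t hst
    obtain ⟨u, v, hu, huv⟩ := frac (ev s * d)
    have e1 : ev (u * s) * d = ev v := by rw [map_mul, mul_assoc, huv]
    have e2 : ev (u * s) * d' = ev (u * t - v) := by
      rw [map_sub, ← e1, map_mul ev u t, ← hst, map_mul, mul_add, mul_add, ← mul_assoc, ← mul_assoc]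
      abel
    refine (hun u hu).mul_left_cancel ?_
    rw [← mul_assoc, ← map_mul, mul_add, h _ _ e1, h' _ _ e2, ← map_add, ← map_mul]
    congr 1
    abel
  have hmul : ∀ d d' r r', P d r → P d' r' → P (d * d') (r * r') := by
    intro d d' r r' h h' s t hst
    obtain ⟨u, v, hu, huv⟩ := frac (ev s * d)
    have e1 : ev (u * s) * d = ev v := by rw [map_mul, mul_assoc, huv]
    have e2 : ev v * d' = ev (u * t) := by
      rw [← e1, map_mul ev u t, ← hst, map_mul]
      simp only [mul_assoc]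
    refine (hun u hu).mul_left_cancel ?_
    rw [← mul_assoc, ← mul_assoc, ← map_mul, h _ _ e1, h' _ _ e2, map_mul]
  have hev : ∀ a, P (ev a) (ρ a) := by
    intro a s t h
    rw [← map_mul] at h
    rw [← map_mul, inj' _ _ h]
  choose Ψ hΨ using hex
  have key : ∀ a, Ψ (ev a) = ρ a := fun a => huq _ _ _ (hΨ _) (hev a)
  exact ⟨{ toFun := Ψ
           map_one' := by have := key 1; rwa [map_one, map_one] at this
           map_zero' := by have := key 0; rwa [map_zero, map_zero] at this
           map_add' := fun d d' => huq _ _ _ (hΨ _) (hadd _ _ _ _ (hΨ d) (hΨ d'))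
           map_mul' := fun d d' => huq _ _ _ (hΨ _) (hmul _ _ _ _ (hΨ d) (hΨ d')) }, key⟩

end S14
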