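import Pool.Agent.S14.Low

/-!
# S14/Fine: towers of gradings; fine elements; every element is fine
-/

namespace S14

variable {H D : Type} [Group H] [DivisionRing D]

/-- The subring generated by the units `u h`. -/
def KH (u : H →* D) : Subring D := Subring.closure (Set.range u)

theorem u_mem_KH (u : H →* D) (h : H) : u h ∈ KH u := Subring.subset_closure ⟨h, rfl⟩

private theorem kh_add (u : H →* D) (h2 : (2 : D) = 0) {x y : D}
    (hx : ∃ A : Finset H, x = ∑ h ∈ A, u h) (hy : ∃ A : Finset H, y = ∑ h ∈ A, u h) :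
    ∃ A : Finset H, x + y = ∑ h ∈ A, u h := by
  classical
  obtain ⟨A, rfl⟩ := hx
  obtain ⟨B, rfl⟩ := hy
  refine ⟨symmDiff A B, ?_⟩
  have h1 : ∑ h ∈ A, u h = ∑ h ∈ A \ B, u h + ∑ h ∈ A ∩ B, u h := by
    rw [← Finset.sum_union (Finset.disjoint_sdiff_inter A B), Finset.sdiff_union_inter]
  have h3 : ∑ h ∈ B, u h = ∑ h ∈ B \ A, u h + ∑ h ∈ A ∩ B, u h := by
    rw [Finset.inter_comm A B,
      ← Finset.sum_union (Finset.disjoint_sdiff_inter B A), Finset.sdiff_union_inter]
  have h4 : ∑ h ∈ symmDiff A B, u h = ∑ h ∈ A \ B, u h + ∑ h ∈ B \ A, u h := by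
    rw [symmDiff_def, Finset.sup_eq_union, Finset.sum_union]
    exact disjoint_sdiff_sdiff
  rw [h4, h1, h3]
  have h5 : ∑ h ∈ A ∩ B, u h + ∑ h ∈ A ∩ B, u h = 0 := by
    rw [← two_mul, h2, zero_mul]
  calc _ = ∑ h ∈ A \ B, u h + ∑ h ∈ B \ A, u h + (∑ h ∈ A ∩ B, u h + ∑ h ∈ A ∩ B, u h) := by
        abel
    _ = _ := by rw [h5, add_zero]

/-- In characteristic two the elements of `KH` are the finite sums of distinct `u h`. -/
theorem exists_finset_of_mem_KH (u : H →* D) (h2 : (2 : D) = 0) {x : D} (hx : x ∈ KH u) :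
    ∃ A : Finset H, x = ∑ h ∈ A, u h := by
  classical
  have hz : ∃ A : Finset H, (0 : D) = ∑ h ∈ A, u h := ⟨∅, by simp⟩
  induction hx using Subring.closure_induction with
  | mem x hx =>
    obtain ⟨h, rfl⟩ := hx
    exact ⟨{h}, by simp⟩
  | zero => exact hz
  | one => exact ⟨{1}, by simp⟩
  | add x y _ _ hx hy => exact kh_add u h2 hx hy
  | neg x _ hx =>
    obtain ⟨A, rfl⟩ := hx
    refine ⟨A, ?_⟩
    rw [neg_eq_iff_add_eq_zero, ← two_mul, h2, zero_mul]
  | mul x y hx0 _ hx hy =>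
    obtain ⟨A, rfl⟩ := hx
    obtain ⟨B, rfl⟩ := hy
    clear hx0
    induction A using Finset.induction_on with
    | empty =>
      rw [Finset.sum_empty, zero_mul]
      exact hz
    | insert a A ha ih =>
      rw [Finset.sum_insert ha, add_mul]
      refine kh_add u h2 ⟨B.image fun b => a * b, ?_⟩ ih
      rw [Finset.mul_sum, Finset.sum_image fun b _ c _ h => mul_left_cancel h]
      simp

/-- A tower of gradings with compatible left orders. -/
structure Tow (u : H →* D) where
  Q : ℕ → Type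
  [grp : ∀ j, Group (Q j)]
  q : ∀ j, H →* Q j
  surj : ∀ j, Function.Surjective (q j)
  G : ∀ j, Gr D (Q j)
  u_mem : ∀ j h, u h ∈ (G j).S (q j h)
  π : ∀ i j, Q j →* Q i
  π_q : ∀ i j, i ≤ j → ∀ h, π i j (q j h) = q i h
  pr : ∀ i j, i ≤ j → Pr (G j) (G i) (π i j)
  o : ∀ j, LOG (Q j)
  mono : ∀ i j, i ≤ j → ∀ a b, (o i).lt (π i j a) (π i j b) → (o j).lt a b
  sep : ∀ h, (∀ j, q j h = 1) → h = 1

attribute [instance] Tow.grp

variable {u : H →* D}

/-- The same tower with the opposite orders. -/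
def Tow.rev (T : Tow u) : Tow u where
  Q := T.Q
  q := T.q
  surj := T.surj
  G := T.G
  u_mem := T.u_mem
  π := T.π
  π_q := T.π_q
  pr := T.pr
  o := fun j => (T.o j).rev
  mono := fun i j hij a b h => T.mono i j hij b a h
  sep := T.sep

/-- The elements of `D` which preserve the series with coefficients in `KH` from level `j` on. -/
def Tow.Fine (T : Tow u) (j : ℕ) : Subring D where
  carrier := {b | ∀ i, j ≤ i → ∀ f : Ser (T.G i) (T.o i), (∀ q, f.co q ∈ KH u) →
    ∀ q, (b • f).co q ∈ KH u}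
  mul_mem' := fun {a b} ha hb i hi f hf q => by
    rw [mul_smul]
    exact ha i hi _ (hb i hi f hf) q
  one_mem' := fun i hi f hf q => by
    rw [one_smul]
    exact hf q
  add_mem' := fun {a b} ha hb i hi f hf q => by
    rw [add_smul, Ser.co_add]
    exact (KH u).add_mem (ha i hi f hf q) (hb i hi f hf q)
  zero_mem' := fun i hi f hf q => by
    rw [zero_smul, Ser.co_zero]
    exact (KH u).zero_mem
  neg_mem' := fun {a} ha i hi f hf q => by
    rw [neg_smul, Ser.co_neg]
    exact (KH u).neg_mem (ha i hi f hf q)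

theorem Tow.fine_mono (T : Tow u) {i j : ℕ} (h : i ≤ j) : T.Fine i ≤ T.Fine j :=
  fun _ hb k hk => hb k (h.trans hk)

theorem Tow.u_fine (T : Tow u) (j : ℕ) (h : H) : u h ∈ T.Fine j := by
  intro i _ f hf q
  rw [hom_smul (T.u_mem i h)]
  exact (KH u).mul_mem (u_mem_KH u h) (hf _)

/-- The transition map from a level to itself is the identity. -/
private theorem Tow.π_self (T : Tow u) (i : ℕ) (a : T.Q i) : T.π i i a = a := by
  obtain ⟨h, rfl⟩ := T.surj i a
  exact T.π_q i i le_rfl h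

private theorem Tow.q_anti (T : Tow u) {i j : ℕ} (hij : i ≤ j) {h : H} (hq : T.q j h = 1) :
    T.q i h = 1 := by
  rw [← T.π_q i j hij, hq, map_one]

/-- A finite set of group elements is separated from some level on. -/
private theorem Tow.sep_fin (T : Tow u) (F : Finset H) (hF : ∀ h ∈ F, h ≠ 1) :
    ∃ j, ∀ k, j ≤ k → ∀ h ∈ F, T.q k h ≠ 1 := by
  classical
  induction F using Finset.induction_on with
  | empty => exact ⟨0, fun k _ h hh => absurd hh (Finset.notMem_empty h)⟩
  | insert a F _ ih =>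
    obtain ⟨j, hj⟩ := ih fun h hh => hF h (Finset.mem_insert_of_mem hh)
    have ha : ∃ i, T.q i a ≠ 1 := by
      by_contra hc
      push Not at hc
      exact hF a (Finset.mem_insert_self _ _) (T.sep a hc)
    obtain ⟨i, hi⟩ := ha
    refine ⟨max i j, fun k hk h hh => ?_⟩
    rcases Finset.mem_insert.1 hh with rfl | hh
    · exact fun hc => hi (T.q_anti ((le_max_left i j).trans hk) hc)
    · exact hj k ((le_max_right i j).trans hk) h hh

private theorem Tow.inj_fin (T : Tow u) (W : Finset H) :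
    ∃ j, ∀ k, j ≤ k → ∀ h ∈ W, ∀ h' ∈ W, T.q k h = T.q k h' → h = h' := by
  classical
  obtain ⟨j, hj⟩ := T.sep_fin (((W ×ˢ W).image fun x => x.1⁻¹ * x.2).filter fun h => h ≠ 1)
    (fun h hh => (Finset.mem_filter.1 hh).2)
  refine ⟨j, fun k hk h hh h' hh' he => ?_⟩
  by_contra hne
  refine hj k hk (h⁻¹ * h') (Finset.mem_filter.2 ⟨Finset.mem_image.2
    ⟨(h, h'), Finset.mem_product.2 ⟨hh, hh'⟩, rfl⟩, fun h1 => hne ?_⟩) ?_
  · exact (inv_mul_eq_one.1 h1)
  · rw [map_mul, map_inv, he, inv_mul_cancel]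

/-- The finitely supported function of a finite set of group elements. -/
private theorem exists_sum_fun {Q : Type} [Group Q] (q : H →* Q) (u : H →* D) (A : Finset H)
    (hA : ∀ h ∈ A, ∀ h' ∈ A, q h = q h' → h = h') :
    ∃ s : Q →₀ D, (∀ h ∈ A, s (q h) = u h) ∧ (∀ μ, s μ ≠ 0 → ∃ h ∈ A, μ = q h) ∧
      ev s = ∑ h ∈ A, u h := by
  classical
  induction A using Finset.induction_on with
  | empty => exact ⟨0, by simp, by simp, by simp [ev]⟩
  | insert a A ha ih =>
    obtain ⟨s, h1, h2, h3⟩ := ih fun h hh h' hh' => hA h (Finset.mem_insert_of_mem hh) h'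
      (Finset.mem_insert_of_mem hh')
    have h0 : ∀ h ∈ A, q h ≠ q a := fun h hh he => ha (by
      rw [← hA h (Finset.mem_insert_of_mem hh) a (Finset.mem_insert_self _ _) he]
      exact hh)
    have h4 : s (q a) = 0 := by
      by_contra hc
      obtain ⟨h, hh, he⟩ := h2 _ hc
      exact h0 h hh he.symm
    refine ⟨s + Finsupp.single (q a) (u a), ?_, ?_, ?_⟩
    · intro h hh
      rcases Finset.mem_insert.1 hh with rfl | hh
      · rw [Finsupp.add_apply, h4, Finsupp.single_eq_same, zero_add]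
      · rw [Finsupp.add_apply, h1 h hh, Finsupp.single_apply, if_neg (Ne.symm (h0 h hh)),
          add_zero]
    · intro μ hμ
      by_cases hc : μ = q a
      · exact ⟨a, Finset.mem_insert_self _ _, hc⟩
      · rw [Finsupp.add_apply, Finsupp.single_apply, if_neg (Ne.symm hc), add_zero] at hμ
        obtain ⟨h, hh, he⟩ := h2 μ hμ
        exact ⟨h, Finset.mem_insert_of_mem hh, he⟩
    · rw [ev, Finsupp.sum_add_index' (fun _ => rfl) (fun _ _ _ => rfl),
        Finsupp.sum_single_index rfl, Finset.sum_insert ha]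
      change ev s + u a = _
      rw [h3, add_comm]

/-- Lemma 2: the inverse of a fine element is fine from some level on. -/
theorem Tow.inv_fine (T : Tow u) (h2 : (2 : D) = 0) {i : ℕ} {b : D} (hb : b ∈ T.Fine i) :
    ∃ j, b⁻¹ ∈ T.Fine j := by
  classical
  by_cases hb0 : b = 0
  · exact ⟨i, by rw [hb0, inv_zero]; exact (T.Fine i).zero_mem⟩
  obtain ⟨σ, e, hσ, hfin, he, key⟩ := exists_low (T.G i) (T.o i) b hb0
  -- all values of `e` are in `KH`
  have heK : ∀ p, e p ∈ KH u := by
    intro p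
    obtain ⟨h, rfl⟩ := T.surj i p
    set f : Ser (T.G i) (T.o i) := Ser.sgl (T.G i) (T.o i) (T.q i h) (u h) (T.u_mem i h) with hf
    have h1 := (key (T.G i) (T.o i) (T.π i i) (T.pr i i le_rfl) (T.mono i i le_rfl) f (T.q i h)
      (fun a ha => by
        rw [T.π_self] at ha
        exact Ser.co_sgl_ne _ _ _ (fun hc => (T.o i).irrefl _ (by rwa [hc] at ha)))).2
    have h3 : (b • f).co (σ (T.q i h)) = e (T.q i h) * u h := by
      have h4 : ((b • f).cl (T.π i i) (σ (T.q i h))).co (σ (T.q i h)) =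
          (e (T.q i h) • f.cl (T.π i i) (T.q i h)).co (σ (T.q i h)) := by rw [h1]
      rw [Ser.co_cl _ _ _ (T.π_self i _), hom_smul (he _).2] at h4
      rw [h4]
      congr 1
      have h5 : (σ (T.q i h) * (T.q i h)⁻¹)⁻¹ * σ (T.q i h) = T.q i h := by
        simp
      rw [h5, Ser.co_cl _ _ _ (T.π_self i _), hf, Ser.co_sgl]
    have h6 : (b • f).co (σ (T.q i h)) ∈ KH u := by
      refine hb i le_rfl f (fun a => ?_) _
      by_cases ha : a = T.q i h
      · rw [ha, hf, Ser.co_sgl]
        exact u_mem_KH u h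
      · rw [hf, Ser.co_sgl_ne _ _ _ ha]
        exact (KH u).zero_mem
    rw [h3] at h6
    have h7 := (KH u).mul_mem h6 (u_mem_KH u h⁻¹)
    rwa [mul_assoc, ← map_mul, mul_inv_cancel, map_one, mul_one] at h7
  -- finitely many supports
  let B : D → Finset H := fun x => if hx : x ∈ KH u then
    (exists_finset_of_mem_KH u h2 hx).choose else ∅
  have hB : ∀ p, e p = ∑ h ∈ B (e p), u h := by
    intro p
    have h1 : B (e p) = (exists_finset_of_mem_KH u h2 (heK p)).choose := dif_pos (heK p)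
    rw [h1]
    exact (exists_finset_of_mem_KH u h2 (heK p)).choose_spec
  obtain ⟨j, hj⟩ := T.inj_fin (hfin.toFinset.biUnion B)
  have hW : ∀ p, ∀ h ∈ B (e p), h ∈ hfin.toFinset.biUnion B := fun p h hh =>
    Finset.mem_biUnion.2 ⟨e p, hfin.mem_toFinset.2 ⟨p, rfl⟩, hh⟩
  -- the lowest term of `b • f`
  have low : ∀ k, max i j ≤ k → ∀ (f : Ser (T.G k) (T.o k)) (a : T.Q k), f.co a ≠ 0 →
      (∀ c, (T.o k).lt c a → f.co c = 0) → ∃ δ g, (b • f).co δ = u g * f.co a := by
    intro k hk f a ha hlow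
    have hik : i ≤ k := (le_max_left i j).trans hk
    have hjk : j ≤ k := (le_max_right i j).trans hk
    set p := T.π i k a with hp
    have h1 := (key (T.G k) (T.o k) (T.π i k) (T.pr i k hik) (T.mono i k hik) f p
      (fun c hc => hlow c (T.mono i k hik _ _ hc))).2
    obtain ⟨s, hs1, hs2, hs3⟩ := exists_sum_fun (T.q k) u (B (e p))
      (fun h hh h' hh' heq => hj k hjk h (hW p h hh) h' (hW p h' hh') heq)
    have hs : ∀ c, s c ∈ (T.G k).S c := by
      intro c
      by_cases hc : s c = 0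
      · rw [hc]
        exact ((T.G k).S c).zero_mem
      · obtain ⟨h, hh, rfl⟩ := hs2 c hc
        rw [hs1 h hh]
        exact T.u_mem k h
    have hs0 : s ≠ 0 := by
      intro hc
      refine (he p).1 ?_
      rw [hB p, ← hs3, hc]
      simp [ev]
    obtain ⟨μ, hμ⟩ := exists_ld (T.o k) hs0 a
    obtain ⟨g, hg, rfl⟩ := hs2 μ hμ.1
    have h3 : (e p • f.cl (T.π i k) p).co (T.q k g * a) = u g * f.co a := by
      conv_lhs => rw [hB p, ← hs3]
      rw [ev_smul s hs]
      have h4 := sum_ld (T.o k) (V := D) (f.cl (T.π i k) p).co (α := a) (μ := T.q k g)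
        (fun c hc => by
          by_cases hcp : T.π i k c = p
          · rw [Ser.co_cl _ _ _ hcp]
            exact hlow c hc
          · exact Ser.co_cl_ne _ _ _ hcp) hμ
      simp only [smul_eq_mul] at h4
      rw [h4, hs1 g hg, Ser.co_cl _ _ _ hp.symm]
    rw [← h1] at h3
    refine ⟨T.q k g * a, g, ?_⟩
    rw [← h3]
    by_cases hδ : T.π i k (T.q k g * a) = σ p
    · rw [Ser.co_cl _ _ _ hδ]
    · exfalso
      rw [Ser.co_cl_ne _ _ _ hδ] at h3
      have h5 : u g ≠ 0 := by
        intro h0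
        have h7 : u g * u g⁻¹ = 1 := by rw [← map_mul, mul_inv_cancel, map_one]
        rw [h0, zero_mul] at h7
        exact zero_ne_one h7
      rcases mul_eq_zero.1 h3.symm with h6 | h6
      · exact h5 h6
      · exact ha h6
  refine ⟨max i j, fun k hk f hf => ?_⟩
  have hik : i ≤ k := (le_max_left i j).trans hk
  set g := b⁻¹ • f with hg
  by_contra hc
  push Not at hc
  obtain ⟨a, ha, hmin⟩ := LOG.WO.min (o := T.o k) (s := {c | g.co c ∉ KH u})
    (g.wo.mono fun c hc' => by
      intro h0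
      exact hc' (by rw [h0]; exact (KH u).zero_mem)) hc
  have hlt : ∀ c, (T.o k).lt c a → g.co c ∈ KH u := by
    intro c hc'
    by_contra hc2
    exact hmin c hc2 hc'
  set g1 := g.res {c | (T.o k).lt c a} with hg1
  have hgK : ∀ c, g1.co c ∈ KH u := by
    intro c
    by_cases hc' : (T.o k).lt c a
    · rw [hg1, Ser.co_res_mem _ (show c ∈ {c | (T.o k).lt c a} from hc')]
      exact hlt c hc'
    · rw [hg1, Ser.co_res_not _ (show c ∉ {c | (T.o k).lt c a} from hc')]
      exact (KH u).zero_mem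
  have hga : (g - g1).co a = g.co a := by
    rw [Ser.co_sub, hg1, Ser.co_res_not _ (show a ∉ {c | (T.o k).lt c a} from (T.o k).irrefl a),
      sub_zero]
  obtain ⟨δ, h, hδ⟩ := low k hk (g - g1) a (by
      rw [hga]
      intro h0
      refine ha ?_
      rw [h0]
      exact (KH u).zero_mem) (fun c hc' => by
      rw [Ser.co_sub, hg1, Ser.co_res_mem _ (show c ∈ {c | (T.o k).lt c a} from hc'), sub_self])
  rw [hga] at hδ
  have h3 : (b • (g - g1)).co δ ∈ KH u := by
    rw [smul_sub, Ser.co_sub, hg, smul_smul, mul_inv_cancel₀ hb0, one_smul]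
    exact (KH u).sub_mem (hf δ) (hb k hik g1 hgK δ)
  rw [hδ] at h3
  refine ha ?_
  have h4 := (KH u).mul_mem (u_mem_KH u h⁻¹) h3
  rwa [← mul_assoc, ← map_mul, inv_mul_cancel, map_one, one_mul] at h4

/-- Every element is fine, if `D` is the smallest division ring with the `u h`. -/
theorem Tow.exists_fine (T : Tow u) (h2 : (2 : D) = 0)
    (gen : ∀ S : Subring D, (∀ h, u h ∈ S) → (∀ x ∈ S, x⁻¹ ∈ S) → S = ⊤) (b : D) :
    ∃ j, b ∈ T.Fine j := by
  let S : Subring D :=
    { carrier := {b | ∃ j, b ∈ T.Fine j}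
      mul_mem' := by
        rintro a b ⟨i, hi⟩ ⟨j, hj⟩
        exact ⟨max i j, (T.Fine _).mul_mem (T.fine_mono (le_max_left i j) hi)
          (T.fine_mono (le_max_right i j) hj)⟩
      one_mem' := ⟨0, (T.Fine 0).one_mem⟩
      add_mem' := by
        rintro a b ⟨i, hi⟩ ⟨j, hj⟩
        exact ⟨max i j, (T.Fine _).add_mem (T.fine_mono (le_max_left i j) hi)
          (T.fine_mono (le_max_right i j) hj)⟩
      zero_mem' := ⟨0, (T.Fine 0).zero_mem⟩
      neg_mem' := by
        rintro a ⟨i, hi⟩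
        exact ⟨i, (T.Fine i).neg_mem hi⟩ }
  have hS : S = ⊤ := gen S (fun h => ⟨0, T.u_fine 0 h⟩) (fun x ⟨j, hj⟩ => T.inv_fine h2 hj)
  have h1 : b ∈ S := by
    rw [hS]
    trivial
  exact h1

end S14
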