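import Pool.Agent.S14.LDefs
import Pool.Agent.S14.E5
import Pool.Agent.S12.LinD
import Pool.Agent.S11.StA
import Mathlib.RingTheory.OreLocalization.Ring

/-!
# Project S14: the division ring of fractions of the group algebra of a left-ordered amenable group
-/

set_option autoImplicit false
set_option linter.unusedSectionVars false

open scoped nonZeroDivisors

namespace Pool.Agent.S14

open Pool.Agent.S11

section

variable {Q : Type} [Group Q]

/-- the group algebra of a left-ordered group is a domain -/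
theorem LO.noZeroDivisors (K : Type) [Field K] [LO Q] : NoZeroDivisors (MonoidAlgebra K Q) := by
  have : MulLeftStrictMono Q := ⟨fun c a b h => LO.lt_l a b c h⟩
  infer_instance

theorem mul_coeff_sum {K : Type} [Field K] (F : Finset Q) (v : F → K) (x : MonoidAlgebra K Q) (y : Q) :
    ((∑ f : F, MonoidAlgebra.single (f : Q) (v f)) * x).coeff y = ∑ f : F, v f * x.coeff ((f : Q)⁻¹ * y) := by
  rw [Finset.sum_mul, MonoidAlgebra.coeff_sum, Finsupp.finsetSum_apply]
  exact Finset.sum_congr rfl fun f _ => MonoidAlgebra.coeff_single_mul_apply _ _ _ _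

theorem comb_eq_zero {K : Type} [Field K] (F : Finset Q) (v : F → K)
    (h : ∑ f : F, MonoidAlgebra.single (f : Q) (v f) = 0) (f : F) : v f = 0 := by
  classical
  have h1 := mul_coeff_sum F v 1 f
  rw [h, zero_mul, Finset.sum_eq_single f] at h1
  · rw [inv_mul_cancel, MonoidAlgebra.one_def, MonoidAlgebra.coeff_single, Finsupp.single_eq_same, mul_one] at h1
    exact h1.symm
  · intro g _ hg
    rw [MonoidAlgebra.one_def, MonoidAlgebra.coeff_single, Finsupp.single_eq_of_ne, mul_zero]
    intro h3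
    exact hg (Subtype.ext (inv_mul_eq_one.1 h3))
  · intro h3
    exact absurd (Finset.mem_univ _) h3

/-- **The left Ore condition** -/
theorem exists_lore (hQ : S12.Fol Q) {K : Type} [Field K] [NoZeroDivisors (MonoidAlgebra K Q)]
    (r s : MonoidAlgebra K Q) (hs : s ≠ 0) : ∃ r' s' : MonoidAlgebra K Q, s' ≠ 0 ∧ s' * r = r' * s := by
  classical
  obtain ⟨F, G, hFG, hcard⟩ := hQ (r.coeff.support ∪ s.coeff.support)
  obtain ⟨v, hv0, hv⟩ := S12.exists_left (D := K) (m := F ⊕ F) (n := G)
    (fun i γ => Sum.elim (fun f : F => r.coeff ((f : Q)⁻¹ * γ)) (fun f : F => -s.coeff ((f : Q)⁻¹ * γ)) i) (by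
      rw [Fintype.card_sum, Fintype.card_coe, Fintype.card_coe]
      omega)
  have hz : ∀ (x : MonoidAlgebra K Q), x.coeff.support ⊆ r.coeff.support ∪ s.coeff.support → ∀ f : F, ∀ γ, γ ∉ G →
      x.coeff ((f : Q)⁻¹ * γ) = 0 := by
    intro x hx f γ hγ
    by_contra h0
    have h1 := hFG f f.2 _ (hx (Finsupp.mem_support_iff.2 h0))
    rw [mul_inv_cancel_left] at h1
    exact hγ h1
  have heq : (∑ f : F, MonoidAlgebra.single (f : Q) (v (Sum.inl f))) * r =
      (∑ f : F, MonoidAlgebra.single (f : Q) (v (Sum.inr f))) * s := by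
    apply MonoidAlgebra.coeff_injective
    ext γ
    rw [mul_coeff_sum F (fun f => v (Sum.inl f)), mul_coeff_sum F (fun f => v (Sum.inr f))]
    by_cases hγ : γ ∈ G
    · have h1 := hv ⟨γ, hγ⟩
      rw [Fintype.sum_sum_type] at h1
      simp only [Sum.elim_inl, Sum.elim_inr, mul_neg, Finset.sum_neg_distrib] at h1
      exact add_neg_eq_zero.1 h1
    · rw [Finset.sum_eq_zero fun f _ => by rw [hz r Finset.subset_union_left f γ hγ, mul_zero],
        Finset.sum_eq_zero fun f _ => by rw [hz s Finset.subset_union_right f γ hγ, mul_zero]]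
  refine ⟨_, _, fun h0 => hv0 ?_, heq⟩
  rw [h0, zero_mul] at heq
  have h1 := (mul_eq_zero.1 heq.symm).resolve_right hs
  funext i
  rcases i with i | i
  · exact comb_eq_zero F (fun f => v (Sum.inl f)) h0 i
  · exact comb_eq_zero F (fun f => v (Sum.inr f)) h1 i

theorem nonempty_oreSet (hQ : S12.Fol Q) (K : Type) [Field K] [NoZeroDivisors (MonoidAlgebra K Q)] :
    Nonempty (OreLocalization.OreSet (MonoidAlgebra K Q)⁰) := by
  rw [OreLocalization.nonempty_oreSet_iff_of_noZeroDivisors]
  intro r s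
  obtain ⟨r', s', h0, h⟩ := exists_lore hQ r s (nonZeroDivisors.coe_ne_zero s)
  exact ⟨r', ⟨s', mem_nonZeroDivisors_of_ne_zero h0⟩, h⟩

end

/-- the anti-involution as a homomorphism -/
noncomputable def stO {Q : Type} [Group Q] : MonoidAlgebra (ZMod 2) Q →+* (MonoidAlgebra (ZMod 2) Q)ᵐᵒᵖ where
  toFun x := MulOpposite.op (stA x)
  map_zero' := by rw [stA_zero, MulOpposite.op_zero]
  map_one' := by rw [stA_one, MulOpposite.op_one]
  map_add' x y := by rw [stA_add, MulOpposite.op_add]
  map_mul' x y := by rw [stA_mul, MulOpposite.op_mul]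

/-- **The division ring of fractions with the anti-involution** -/
theorem exists_frcA {Q : Type} [Group Q] [LO Q] (hQ : S12.Fol Q) :
    ∃ (F : Type) (_ : DivisionRing F) (v : MonoidAlgebra (ZMod 2) Q →+* F) (st : F →+ F),
      Function.Injective v ∧ (∀ d : F, ∃ s t, s ≠ 0 ∧ v s * d = v t) ∧ (∀ a b, st (a * b) = st b * st a) ∧
      (∀ a, st (st a) = a) ∧ ∀ x, st (v x) = v (stA x) := by
  have := LO.noZeroDivisors (Q := Q) (ZMod 2)
  obtain ⟨hS⟩ := nonempty_oreSet hQ (ZMod 2)
  let _ : OreLocalization.OreSet (MonoidAlgebra (ZMod 2) Q)⁰ := hS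
  let F := OreLocalization (MonoidAlgebra (ZMod 2) Q)⁰ (MonoidAlgebra (ZMod 2) Q)
  let v : MonoidAlgebra (ZMod 2) Q →+* F := OreLocalization.numeratorRingHom
  have hv : Function.Injective v := OreLocalization.numeratorHom_inj inf_le_left
  have hfrac : ∀ d : F, ∃ s t, s ≠ 0 ∧ v s * d = v t := by
    intro d
    induction d using OreLocalization.ind with
    | _ r s => exact ⟨s.1, r, nonZeroDivisors.coe_ne_zero s, OreLocalization.mul_cancel⟩
  let φ : MonoidAlgebra (ZMod 2) Q →+* Fᵐᵒᵖ := v.op.comp stO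
  have h0 : ∀ s : (MonoidAlgebra (ZMod 2) Q)⁰, φ s.1 ≠ 0 := by
    intro s h
    have h1 : v (stA s.1) = 0 := MulOpposite.op_injective h
    rw [← map_zero v] at h1
    exact stA_ne_zero (nonZeroDivisors.coe_ne_zero s) (hv h1)
  let fS : (MonoidAlgebra (ZMod 2) Q)⁰ →* (Fᵐᵒᵖ)ˣ :=
    { toFun := fun s => Units.mk0 (φ s.1) (h0 s)
      map_one' := Units.ext (map_one φ)
      map_mul' := fun s t => Units.ext (map_mul φ s.1 t.1) }
  obtain ⟨σ, hσ⟩ : ∃ σ : F →+* Fᵐᵒᵖ, ∀ x, σ (v x) = MulOpposite.op (v (stA x)) :=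
    ⟨OreLocalization.universalHom φ fS (fun s => rfl), fun x => OreLocalization.universalHom_commutes φ fS _⟩
  let st : F →+ F := (MulOpposite.opAddEquiv (α := F)).symm.toAddMonoidHom.comp σ.toAddMonoidHom
  have hst : ∀ a, st a = (σ a).unop := fun a => rfl
  have hstv : ∀ x, st (v x) = v (stA x) := by
    intro x
    rw [hst, hσ, MulOpposite.unop_op]
  have hmul : ∀ a b, st (a * b) = st b * st a := by
    intro a b
    rw [hst, map_mul, MulOpposite.unop_mul]
    rfl
  refine ⟨F, inferInstance, v, st, hv, hfrac, hmul, fun a => ?_, hstv⟩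
  obtain ⟨s, t, hs, h⟩ := hfrac a
  have hs' : v s ≠ 0 := fun h0 => hs (hv (by rw [h0, map_zero]))
  have h1 := congrArg st (congrArg st h)
  rw [hmul, hmul, hstv, hstv, hstv, hstv, stA_stA, stA_stA, ← h] at h1
  exact mul_left_cancel₀ hs' h1

end Pool.Agent.S14
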