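import Mathlib

/-!
# S14/Gr: left ordered groups with explicit order data, graded pieces of a division ring

`LOG Q` is a left invariant linear order on the group `Q`.  `WO` is well-ordered for it.
`Gr D Q` is a family of additive subgroups `S q` of the division ring `D`, `q` in `Q`, such that the
sum is direct and every element of `D` is a left fraction of two elements of the sum.
-/

namespace S14

/-- A left invariant linear order on a group (explicit data). -/
structure LOG (Q : Type) [Group Q] where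
  ord : LinearOrder Q
  left : ∀ a b c : Q, ord.lt a b → ord.lt (c * a) (c * b)

namespace LOG

variable {Q : Type} [Group Q] (o : LOG Q)

/-- The strict order. -/
def lt (a b : Q) : Prop := o.ord.lt a b

/-- The opposite order is left invariant, too. -/
def rev : LOG Q where
  ord := letI := o.ord; (inferInstance : LinearOrder Qᵒᵈ)
  left := fun a b c h => o.left b a c h

theorem rev_lt (a b : Q) : o.rev.lt a b ↔ o.lt b a := Iff.rfl

theorem irrefl (a : Q) : ¬ o.lt a a := by
  let _ := o.ord
  exact lt_irrefl (a := a)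

theorem trans {a b c : Q} (h : o.lt a b) (h' : o.lt b c) : o.lt a c := by
  let _ := o.ord
  exact lt_trans (α := Q) h h'

theorem asymm {a b : Q} (h : o.lt a b) : ¬ o.lt b a := fun h' => o.irrefl a (o.trans h h')

theorem tri (a b : Q) : o.lt a b ∨ a = b ∨ o.lt b a := by
  let _ := o.ord
  exact lt_trichotomy (α := Q) a b

theorem eq_of_not {a b : Q} (h : ¬ o.lt a b) (h' : ¬ o.lt b a) : a = b := by
  rcases o.tri a b with h1 | h1 | h1
  · exact absurd h1 h
  · exact h1
  · exact absurd h1 h'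

theorem lt_of_lt_of_not {a b c : Q} (h : o.lt a b) (h' : ¬ o.lt c b) : o.lt a c := by
  rcases o.tri a c with h1 | h1 | h1
  · exact h1
  · exact absurd (h1 ▸ h) h'
  · exact absurd (o.trans h1 h) h'

theorem lt_of_not_of_lt {a b c : Q} (h : ¬ o.lt b a) (h' : o.lt b c) : o.lt a c := by
  rcases o.tri a c with h1 | h1 | h1
  · exact h1
  · exact absurd (h1 ▸ h') h
  · exact absurd (o.trans h' h1) h

theorem mul_lt (c : Q) {a b : Q} (h : o.lt a b) : o.lt (c * a) (c * b) := o.left a b c h

theorem mul_lt_iff (c a b : Q) : o.lt (c * a) (c * b) ↔ o.lt a b := by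
  refine ⟨fun h => ?_, o.mul_lt c⟩
  have := o.mul_lt c⁻¹ h
  simpa using this

theorem lt_inv_mul (c a b : Q) : o.lt a (c⁻¹ * b) ↔ o.lt (c * a) b := by
  rw [← o.mul_lt_iff c]
  simp

theorem inv_mul_lt (c a b : Q) : o.lt (c⁻¹ * a) b ↔ o.lt a (c * b) := by
  rw [← o.mul_lt_iff c]
  simp

/-- Well-ordered subsets. -/
def WO (s : Set Q) : Prop := s.WellFoundedOn o.lt

variable {o} {s t : Set Q}

theorem WO.mono (h : o.WO t) (hs : s ⊆ t) : o.WO s := Set.WellFoundedOn.subset h hs

theorem WO.union (h : o.WO s) (h' : o.WO t) : o.WO (s ∪ t) := by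
  let _ := o.ord
  exact Set.IsWF.union (α := Q) h h'

theorem WO.of_finite (h : s.Finite) : o.WO s := by
  let _ := o.ord
  exact Set.Finite.isWF (α := Q) h

theorem WO.biUnion {ι : Type} (F : Finset ι) (f : ι → Set Q) (h : ∀ i ∈ F, o.WO (f i)) :
    o.WO (⋃ i ∈ F, f i) := by
  classical
  induction F using Finset.induction_on with
  | empty =>
    refine WO.of_finite ?_
    simp
  | insert a F _ ih =>
    rw [Finset.set_biUnion_insert]
    exact WO.union (h a (Finset.mem_insert_self _ _))
      (ih fun i hi => h i (Finset.mem_insert_of_mem hi))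

theorem WO.min (h : o.WO s) (hs : s.Nonempty) : ∃ a ∈ s, ∀ b ∈ s, ¬ o.lt b a := by
  let _ := o.ord
  exact ⟨Set.IsWF.min (α := Q) h hs, Set.IsWF.min_mem (α := Q) h hs, fun b hb =>
    Set.IsWF.not_lt_min (α := Q) h hs hb⟩

theorem wo_of_min (h : ∀ t : Set Q, t ⊆ s → t.Nonempty → ∃ a ∈ t, ∀ b ∈ t, ¬ o.lt b a) :
    o.WO s := by
  refine WellFounded.wellFounded_iff_has_min.2 ?_
  intro T hT
  obtain ⟨a, ha, hm⟩ := h (Subtype.val '' T) (by rintro _ ⟨x, _, rfl⟩; exact x.2) (hT.image _)
  obtain ⟨x, hx, rfl⟩ := ha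
  exact ⟨x, hx, fun y hy => hm y.1 ⟨y, hy, rfl⟩⟩

/-- The image of a well-ordered set under a weakly monotone map is well-ordered. -/
theorem WO.image {R : Type} [Group R] (o' : LOG R) (f : Q → R)
    (hf : ∀ a b, o'.lt (f a) (f b) → o.lt a b) (h : o.WO s) : o'.WO (f '' s) := by
  refine wo_of_min fun t hts htn => ?_
  have h1 : (s ∩ f ⁻¹' t).Nonempty := by
    obtain ⟨y, hy⟩ := htn
    obtain ⟨x, hx, rfl⟩ := hts hy
    exact ⟨x, hx, hy⟩
  obtain ⟨a, ha, hm⟩ := WO.min (WO.mono h Set.inter_subset_left) h1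
  refine ⟨f a, ha.2, fun b hb hlt => ?_⟩
  obtain ⟨x, hx, rfl⟩ := hts hb
  exact hm x ⟨hx, hb⟩ (hf _ _ hlt)

theorem WO.lmul (h : o.WO s) (c : Q) : o.WO ((fun x => c * x) '' s) :=
  WO.image o (fun x => c * x) (fun a b hab => (o.mul_lt_iff c a b).1 hab) h

/-- A set which is well-ordered for the order and for its opposite is finite. -/
theorem WO.finite (h : o.WO s) (h' : o.rev.WO s) : s.Finite := by
  let _ := o.ord
  by_contra hc
  have hinf : s.Infinite := hc
  let f := hinf.natEmbedding
  have hpwo : s.IsPWO := Set.IsWF.isPWO (α := Q) h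
  obtain ⟨g, hg⟩ := hpwo.exists_monotone_subseq (f := fun n => (f n : Q)) (fun n => (f n).2)
  obtain ⟨m, hm, hmax⟩ := WO.min (o := o.rev) (s := Set.range fun n => (f (g n) : Q))
    (h'.mono (by rintro _ ⟨n, rfl⟩; exact (f (g n)).2)) ⟨_, 0, rfl⟩
  obtain ⟨n, rfl⟩ := hm
  refine hmax (f (g (n + 1))) ⟨n + 1, rfl⟩ ?_
  have h1 : (f (g n) : Q) ≤ f (g (n + 1)) := hg (Nat.le_succ n)
  have h2 : (f (g n) : Q) ≠ f (g (n + 1)) := by
    intro he
    have h3 := g.injective (f.injective (Subtype.ext he))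
    omega
  exact lt_of_le_of_ne h1 h2

end LOG

variable {D Q : Type} [DivisionRing D] [Group Q]

/-- Sum of the coefficients. -/
noncomputable def ev (s : Q →₀ D) : D := s.sum fun _ d => d

/-- A family of additive subgroups of the division ring `D` indexed by `Q`, multiplicative, closed
under inverses, with direct sum, whose left fractions are all of `D`. -/
structure Gr (D Q : Type) [DivisionRing D] [Group Q] where
  S : Q → AddSubgroup D
  one : (1 : D) ∈ S 1
  mul : ∀ {p q : Q} {a b : D}, a ∈ S p → b ∈ S q → a * b ∈ S (p * q)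
  inv : ∀ {q : Q} {a : D}, a ∈ S q → a⁻¹ ∈ S q⁻¹
  direct : ∀ s : Q →₀ D, (∀ q, s q ∈ S q) → ev s = 0 → s = 0
  frac : ∀ d : D, ∃ s t : Q →₀ D, (∀ q, s q ∈ S q) ∧ (∀ q, t q ∈ S q) ∧ ev s ≠ 0 ∧
    ev s * d = ev t

/-- Series: functions `Q → D` with homogeneous values and well-ordered support. -/
def ser (G : Gr D Q) (o : LOG Q) : AddSubgroup (Q → D) where
  carrier := {f | (∀ q, f q ∈ G.S q) ∧ o.WO {q | f q ≠ 0}}
  zero_mem' := ⟨fun q => (G.S q).zero_mem, LOG.WO.of_finite (by simp)⟩
  add_mem' := fun {f g} hf hg => ⟨fun q => (G.S q).add_mem (hf.1 q) (hg.1 q),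
    (LOG.WO.union hf.2 hg.2).mono fun q hq => by
      by_contra hc
      simp only [Set.mem_union, Set.mem_ofPred_eq, not_or, not_not] at hc
      exact hq (by simp [hc.1, hc.2])⟩
  neg_mem' := fun {f} hf => ⟨fun q => (G.S q).neg_mem (hf.1 q), hf.2.mono fun q hq => by
    simpa using hq⟩

/-- The type of series. -/
def Ser (G : Gr D Q) (o : LOG Q) : Type := ser G o

noncomputable instance (G : Gr D Q) (o : LOG Q) : AddCommGroup (Ser G o) :=
  inferInstanceAs (AddCommGroup (ser G o))

variable {G : Gr D Q} {o : LOG Q}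

/-- The function underlying a series. -/
def Ser.co (f : Ser G o) : Q → D := f.1

/-- A series from its coefficients. -/
def Ser.mk (f : Q → D) (h : ∀ q, f q ∈ G.S q) (h' : o.WO {q | f q ≠ 0}) : Ser G o := ⟨f, h, h'⟩

theorem Ser.co_mk (f : Q → D) (h : ∀ q, f q ∈ G.S q) (h' : o.WO {q | f q ≠ 0}) :
    (Ser.mk f h h' : Ser G o).co = f := rfl

theorem Ser.mem (f : Ser G o) (q : Q) : f.co q ∈ G.S q := f.2.1 q

theorem Ser.wo (f : Ser G o) : o.WO {q | f.co q ≠ 0} := f.2.2

theorem Ser.ext {f g : Ser G o} (h : ∀ q, f.co q = g.co q) : f = g := Subtype.ext (funext h)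

theorem Ser.co_zero : (0 : Ser G o).co = 0 := rfl

theorem Ser.co_add (f g : Ser G o) (q : Q) : (f + g).co q = f.co q + g.co q := rfl

theorem Ser.co_sub (f g : Ser G o) (q : Q) : (f - g).co q = f.co q - g.co q := rfl

theorem Ser.co_neg (f : Ser G o) (q : Q) : (-f).co q = -f.co q := rfl

/-- The coefficient as an additive map. -/
def Ser.coHom (G : Gr D Q) (o : LOG Q) (q : Q) : Ser G o →+ D where
  toFun f := f.co q
  map_zero' := rfl
  map_add' _ _ := rfl

theorem Ser.exists_min (f : Ser G o) (hf : f ≠ 0) :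
    ∃ q, f.co q ≠ 0 ∧ ∀ p, o.lt p q → f.co p = 0 := by
  have h1 : {q | f.co q ≠ 0}.Nonempty := by
    by_contra hc
    rw [Set.not_nonempty_iff_eq_empty] at hc
    refine hf (Ser.ext fun q => ?_)
    by_contra hq
    have : q ∈ {q | f.co q ≠ 0} := hq
    rw [hc] at this
    exact this
  obtain ⟨q, hq, hm⟩ := LOG.WO.min f.wo h1
  exact ⟨q, hq, fun p hp => by
    by_contra hc
    exact hm p hc hp⟩

open Classical in
/-- The restriction of a series to a set of degrees. -/
noncomputable def Ser.res (f : Ser G o) (P : Set Q) : Ser G o :=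
  Ser.mk (fun q => if q ∈ P then f.co q else 0)
    (fun q => by
      split_ifs
      · exact f.mem q
      · exact (G.S q).zero_mem)
    (f.wo.mono fun q hq => by
      intro hc
      exact hq (by simp [hc]))

open Classical in
theorem Ser.co_res (f : Ser G o) (P : Set Q) (q : Q) :
    (f.res P).co q = if q ∈ P then f.co q else 0 := rfl

theorem Ser.co_res_mem (f : Ser G o) {P : Set Q} {q : Q} (h : q ∈ P) :
    (f.res P).co q = f.co q := by
  rw [Ser.co_res, if_pos h]

theorem Ser.co_res_not (f : Ser G o) {P : Set Q} {q : Q} (h : q ∉ P) :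
    (f.res P).co q = 0 := by
  rw [Ser.co_res, if_neg h]

open Classical in
/-- The series with one term. -/
noncomputable def Ser.sgl (G : Gr D Q) (o : LOG Q) (q : Q) (x : D) (hx : x ∈ G.S q) : Ser G o :=
  Ser.mk (fun p => if p = q then x else 0)
    (fun p => by
      split_ifs with h
      · exact h ▸ hx
      · exact (G.S p).zero_mem)
    (LOG.WO.of_finite ((Set.finite_singleton q).subset fun p hp => by
      by_contra hc
      exact hp (if_neg hc)))

theorem Ser.co_sgl (q : Q) (x : D) (hx : x ∈ G.S q) : (Ser.sgl G o q x hx).co q = x := if_pos rfl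

theorem Ser.co_sgl_ne (q : Q) (x : D) (hx : x ∈ G.S q) {p : Q} (h : p ≠ q) :
    (Ser.sgl G o q x hx).co p = 0 := if_neg h

/-- Right multiplication of a series with an element of degree one. -/
def Ser.rm (c : D) (hc : c ∈ G.S 1) : Ser G o →+ Ser G o where
  toFun f := Ser.mk (fun q => f.co q * c) (fun q => by simpa using G.mul (f.mem q) hc)
    (f.wo.mono fun q hq => by
      intro h
      exact hq (by simp [h]))
  map_zero' := Ser.ext fun q => by simp [Ser.co_mk, Ser.co_zero]
  map_add' f g := Ser.ext fun q => by simp [Ser.co_mk, Ser.co_add, add_mul]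

theorem Ser.co_rm (c : D) (hc : c ∈ G.S 1) (f : Ser G o) (q : Q) :
    (Ser.rm c hc f).co q = f.co q * c := rfl

end S14
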