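import Pool.Agent.S11.FL.Defs

/-!
# Project S14: the group algebra itself

`X ↦ (K[H] ⊗ X ⊗ K[H])_H` preserves injections: it is `X ⊗ K[H]`.
-/

set_option autoImplicit false
set_option linter.unusedSectionVars false

open TensorProduct

namespace Pool.Agent.S14

open Pool.Agent.S11.FL

section

variable {H : Type} [Group H] {X : Type} [AddCommGroup X] [Module (ZMod 2) X] (ρ : Representation (ZMod 2) H X)

variable (H) in
/-- the left multiplication -/
noncomputable def lKH : Representation (ZMod 2) H (MonoidAlgebra (ZMod 2) H) where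
  toFun g := LinearMap.mulLeft (ZMod 2) (MonoidAlgebra.of (ZMod 2) H g)
  map_one' := by
    refine LinearMap.ext fun f => ?_
    rw [map_one]
    exact one_mul f
  map_mul' g h := by
    refine LinearMap.ext fun f => ?_
    rw [map_mul]
    exact mul_assoc _ _ f

/-- the action on `X ⊗ K[H]` -/
noncomputable def aKH : Representation (ZMod 2) H (X ⊗[ZMod 2] MonoidAlgebra (ZMod 2) H) := ρ.tprod (lKH H)

/-- the invariant -/
noncomputable def psiK : MM (ZMod 2) (MonoidAlgebra (ZMod 2) H) X →ₗ[ZMod 2] X ⊗[ZMod 2] MonoidAlgebra (ZMod 2) H :=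
  TensorProduct.lift (aKH ρ).asAlgebraHom.toLinearMap

theorem psiK_tmul (a : MonoidAlgebra (ZMod 2) H) (t : X ⊗[ZMod 2] MonoidAlgebra (ZMod 2) H) :
    psiK ρ (a ⊗ₜ[ZMod 2] t) = (aKH ρ).asAlgebraHom a t := rfl

theorem act_tmul' (g : H) (a : MonoidAlgebra (ZMod 2) H) (t : X ⊗[ZMod 2] MonoidAlgebra (ZMod 2) H) :
    act (MonoidAlgebra.of (ZMod 2) H) ρ g (a ⊗ₜ[ZMod 2] t) =
      (a * MonoidAlgebra.of (ZMod 2) H g⁻¹) ⊗ₜ[ZMod 2] (aKH ρ g t) := rfl

theorem psiK_act (g : H) (m : MM (ZMod 2) (MonoidAlgebra (ZMod 2) H) X) :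
    psiK ρ (act (MonoidAlgebra.of (ZMod 2) H) ρ g m) = psiK ρ m := by
  have : psiK ρ ∘ₗ act (MonoidAlgebra.of (ZMod 2) H) ρ g = psiK ρ := TensorProduct.ext' fun a t => by
    rw [LinearMap.comp_apply, act_tmul', psiK_tmul, psiK_tmul, map_mul, Representation.asAlgebraHom_of]
    have e : (aKH ρ) g⁻¹ ((aKH ρ) g t) = t := by
      rw [← Module.End.mul_apply, ← map_mul, inv_mul_cancel, map_one]
      rfl
    change (aKH ρ).asAlgebraHom a ((aKH ρ) g⁻¹ ((aKH ρ) g t)) = _
    rw [e]
  exact LinearMap.congr_fun this m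

theorem psiK_II {N : Subgroup H} {m : MM (ZMod 2) (MonoidAlgebra (ZMod 2) H) X}
    (hm : m ∈ II (MonoidAlgebra.of (ZMod 2) H) ρ N) : psiK ρ m = 0 := by
  have : II (MonoidAlgebra.of (ZMod 2) H) ρ N ≤ LinearMap.ker (psiK ρ) :=
    II_le (MonoidAlgebra.of (ZMod 2) H) ρ fun g _ m => by
      rw [LinearMap.mem_ker, map_sub, psiK_act, sub_self]
  exact this hm

theorem sub_psiK (m : MM (ZMod 2) (MonoidAlgebra (ZMod 2) H) X) :
    (1 : MonoidAlgebra (ZMod 2) H) ⊗ₜ[ZMod 2] psiK ρ m - m ∈
      II (MonoidAlgebra.of (ZMod 2) H) ρ (⊤ : Subgroup H) := by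
  refine TensorProduct.induction_on m ?_ (fun a t => ?_) fun m m' h h' => ?_
  · rw [map_zero, TensorProduct.tmul_zero, sub_zero]
    exact Submodule.zero_mem _
  rotate_left
  · rw [map_add, TensorProduct.tmul_add, add_sub_add_comm]
    exact Submodule.add_mem _ h h'
  ·
    rw [psiK_tmul]
    induction a using MonoidAlgebra.induction_linear with
    | zero => rw [map_zero, LinearMap.zero_apply, TensorProduct.tmul_zero, TensorProduct.zero_tmul, sub_zero]
              exact Submodule.zero_mem _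
    | add a b ha hb =>
      rw [map_add, LinearMap.add_apply, TensorProduct.tmul_add, TensorProduct.add_tmul, add_sub_add_comm]
      exact Submodule.add_mem _ ha hb
    | single h r =>
      have e1 : (MonoidAlgebra.single h r : MonoidAlgebra (ZMod 2) H) = r • MonoidAlgebra.of (ZMod 2) H h := by
        rw [MonoidAlgebra.of_apply, MonoidAlgebra.smul_single, smul_eq_mul, mul_one]
      have e2 : act (MonoidAlgebra.of (ZMod 2) H) ρ h (MonoidAlgebra.of (ZMod 2) H h ⊗ₜ[ZMod 2] t) =
          (1 : MonoidAlgebra (ZMod 2) H) ⊗ₜ[ZMod 2] (aKH ρ h t) := by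
        rw [act_tmul', ← map_mul, mul_inv_cancel, map_one]
      have key := Submodule.smul_mem _ r (act_sub_mem (MonoidAlgebra.of (ZMod 2) H) ρ (Subgroup.mem_top h)
        (MonoidAlgebra.of (ZMod 2) H h ⊗ₜ[ZMod 2] t))
      rw [e2, smul_sub] at key
      have e3 : (1 : MonoidAlgebra (ZMod 2) H) ⊗ₜ[ZMod 2] ((aKH ρ).asAlgebraHom (MonoidAlgebra.single h r) t) =
          r • ((1 : MonoidAlgebra (ZMod 2) H) ⊗ₜ[ZMod 2] (aKH ρ h t)) := by
        rw [e1, map_smul, LinearMap.smul_apply, TensorProduct.tmul_smul, Representation.asAlgebraHom_of]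
      have e4 : (MonoidAlgebra.single h r : MonoidAlgebra (ZMod 2) H) ⊗ₜ[ZMod 2] t =
          r • (MonoidAlgebra.of (ZMod 2) H h ⊗ₜ[ZMod 2] t) := by
        rw [e1]
        rfl
      rw [e3, e4]
      exact key

/-- **The group algebra.** -/
theorem flatOn_KH : FlatOn.{0} (K := ZMod 2) (MonoidAlgebra.of (ZMod 2) H) (⊤ : Subgroup H) := by
  intro X' X _ _ _ _ ρ' ρ i hi he m hm
  have h1 := psiK_II ρ hm
  have h2 : psiK ρ (mapX (MonoidAlgebra (ZMod 2) H) i m) =
      TensorProduct.map i LinearMap.id (psiK ρ' m) := by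
    have : psiK ρ ∘ₗ mapX (MonoidAlgebra (ZMod 2) H) i = TensorProduct.map i LinearMap.id ∘ₗ psiK ρ' := by
      refine TensorProduct.ext' fun a t => ?_
      rw [LinearMap.comp_apply, LinearMap.comp_apply, psiK_tmul]
      change (aKH ρ).asAlgebraHom a (TensorProduct.map i LinearMap.id t) = _
      induction a using MonoidAlgebra.induction_linear with
      | zero => rw [map_zero, map_zero, LinearMap.zero_apply, LinearMap.zero_apply, map_zero]
      | add a b ha hb => rw [map_add, map_add, LinearMap.add_apply, LinearMap.add_apply, map_add, ha, hb]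
      | single h r =>
        have e1 : (MonoidAlgebra.single h r : MonoidAlgebra (ZMod 2) H) = r • MonoidAlgebra.of (ZMod 2) H h := by
          rw [MonoidAlgebra.of_apply, MonoidAlgebra.smul_single, smul_eq_mul, mul_one]
        rw [e1, map_smul, map_smul, LinearMap.smul_apply, LinearMap.smul_apply, map_smul,
          Representation.asAlgebraHom_of, Representation.asAlgebraHom_of]
        congr 1
        induction t with
        | zero => simp only [map_zero]
        | add t t' ht ht' => simp only [map_add, ht, ht']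
        | tmul x b =>
          change ρ h (i x) ⊗ₜ[ZMod 2] (lKH H h b) = i (ρ' h x) ⊗ₜ[ZMod 2] (lKH H h b)
          rw [he]
    exact LinearMap.congr_fun this m
  rw [h1] at h2
  have h3 : Function.Injective (TensorProduct.map i (LinearMap.id : MonoidAlgebra (ZMod 2) H →ₗ[ZMod 2] _)) :=
    Module.Flat.rTensor_preserves_injective_linearMap i hi
  have h4 : psiK ρ' m = 0 := h3 (by rw [map_zero]; exact h2.symm)
  have h5 := sub_psiK ρ' m
  rw [h4, TensorProduct.tmul_zero, zero_sub] at h5
  exact (Submodule.neg_mem_iff _).1 h5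

end

end Pool.Agent.S14
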