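import Pool.Agent.S14.PairF

/-!
# Project S14: flatness for `a ⊗ x ⊗ b ↦ a g⁻¹ ⊗ g x ⊗ g b` from levels which are fine enough

`Frac σ`: for every finite set `F` of `D` there is a level such that the elements of `F` are fine and have a common
left denominator in `SS`.
-/

set_option autoImplicit false
set_option linter.unusedSectionVars false

open TensorProduct

namespace Pool.Agent.S14

open Pool.Agent.S11.FL

section

variable {H D : Type} [Group H] [DivisionRing D] [Algebra (ZMod 2) D] {ι : MonoidAlgebra (ZMod 2) H →+* D}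
  {X X' : Type} [AddCommGroup X] [Module (ZMod 2) X] [AddCommGroup X'] [Module (ZMod 2) X']

/-- levels for finite sets -/
def Frac (σ : Inv ι) : Prop :=
  ∀ F : Finset D, ∃ (N : Subgroup H) (_ : N.Normal) (L : Lvl ι σ N), (∀ a ∈ F, a ∈ L.Fine) ∧
    ∃ s ∈ L.SS, s ≠ 0 ∧ ∀ a ∈ F, s * a ∈ L.SS

variable (X) in
/-- the span of the tensors with entries in `F` -/
noncomputable def TT (F : Finset D) : Submodule (ZMod 2) (MM (ZMod 2) D X) :=
  Submodule.span (ZMod 2) {z | ∃ a ∈ F, ∃ x : X, ∃ b ∈ F, z = a ⊗ₜ[ZMod 2] (x ⊗ₜ[ZMod 2] b)}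

theorem TT_mono {F F' : Finset D} (h : F ⊆ F') : TT X F ≤ TT X F' := by
  refine Submodule.span_mono ?_
  rintro _ ⟨a, ha, x, b, hb, rfl⟩
  exact ⟨a, h ha, x, b, h hb, rfl⟩

theorem exists_TT (m : MM (ZMod 2) D X) : ∃ F : Finset D, m ∈ TT X F := by
  classical
  refine TensorProduct.induction_on m ⟨∅, Submodule.zero_mem _⟩ (fun a t => ?_) ?_
  · refine TensorProduct.induction_on t ?_ (fun x b => ?_) ?_
    · exact ⟨∅, by rw [TensorProduct.tmul_zero]; exact Submodule.zero_mem _⟩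
    · exact ⟨{a, b}, Submodule.subset_span ⟨a, by simp, x, b, by simp, rfl⟩⟩
    · rintro t t' ⟨F, hF⟩ ⟨F', hF'⟩
      refine ⟨F ∪ F', ?_⟩
      rw [TensorProduct.tmul_add]
      exact Submodule.add_mem _ (TT_mono Finset.subset_union_left hF) (TT_mono Finset.subset_union_right hF')
  · rintro t t' ⟨F, hF⟩ ⟨F', hF'⟩
    exact ⟨F ∪ F', Submodule.add_mem _ (TT_mono Finset.subset_union_left hF) (TT_mono Finset.subset_union_right hF')⟩

/-- the span of the `g y - y`, `y ∈ TT F` -/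
noncomputable def IIT (F : Finset D) (ρ : Representation (ZMod 2) H X) (ι : MonoidAlgebra (ZMod 2) H →+* D) :
    Submodule (ZMod 2) (MM (ZMod 2) D X) :=
  Submodule.span (ZMod 2) {z | ∃ g : H, ∃ y ∈ TT X F, z = act (uh ι) ρ g y - y}

theorem IIT_mono (ρ : Representation (ZMod 2) H X) {F F' : Finset D} (h : F ⊆ F') : IIT F ρ ι ≤ IIT F' ρ ι := by
  refine Submodule.span_mono ?_
  rintro _ ⟨g, y, hy, rfl⟩
  exact ⟨g, y, TT_mono h hy, rfl⟩

theorem exists_IIT (ρ : Representation (ZMod 2) H X) {m : MM (ZMod 2) D X}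
    (hm : m ∈ II (uh ι) ρ (⊤ : Subgroup H)) : ∃ F : Finset D, m ∈ IIT F ρ ι := by
  classical
  induction hm using Submodule.span_induction with
  | mem z hz =>
    obtain ⟨g, -, y, rfl⟩ := hz
    obtain ⟨F, hF⟩ := exists_TT y
    exact ⟨F, Submodule.subset_span ⟨g, y, hF, rfl⟩⟩
  | zero => exact ⟨∅, Submodule.zero_mem _⟩
  | add m m' _ _ h h' =>
    obtain ⟨F, hF⟩ := h
    obtain ⟨F', hF'⟩ := h'
    exact ⟨F ∪ F', Submodule.add_mem _ (IIT_mono ρ Finset.subset_union_left hF)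
      (IIT_mono ρ Finset.subset_union_right hF')⟩
  | smul r m _ h =>
    obtain ⟨F, hF⟩ := h
    exact ⟨F, Submodule.smul_mem _ _ hF⟩

/-- **Flatness** for `a ⊗ x ⊗ b ↦ a g⁻¹ ⊗ g x ⊗ g b` -/
theorem Frac.flatOn {σ : Inv ι} (h : Frac σ) (hι : Function.Injective ι) :
    FlatOn.{0} (K := ZMod 2) (uh ι) (⊤ : Subgroup H) := by
  classical
  intro X' X _ _ _ _ ρ' ρ i hi he m hm
  obtain ⟨F₀, hF₀⟩ := exists_TT m
  obtain ⟨F₁, hF₁⟩ := exists_IIT ρ hm
  obtain ⟨N, hN, L, hfine, s, hs, hs0, hsF⟩ := h ((F₀ ∪ F₁) ∪ (F₀ ∪ F₁).image σ.st)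
  have hst : ∀ a ∈ F₀ ∪ F₁, σ.st a ∈ (F₀ ∪ F₁) ∪ (F₀ ∪ F₁).image σ.st := fun a ha =>
    Finset.mem_union_right _ (Finset.mem_image_of_mem _ ha)
  have hself : ∀ a ∈ F₀ ∪ F₁, a ∈ (F₀ ∪ F₁) ∪ (F₀ ∪ F₁).image σ.st := fun a ha =>
    Finset.mem_union_left _ ha
  -- fine tensors
  have hTT : ∀ (Y : Type) [AddCommGroup Y] [Module (ZMod 2) Y], TT Y (F₀ ∪ F₁) ≤ L.TF Y := by
    intro Y _ _
    refine Submodule.span_mono ?_
    rintro _ ⟨a, ha, x, b, hb, rfl⟩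
    exact ⟨a, hfine _ (hst a ha), x, b, hfine _ (hself b hb), rfl⟩
  have h1 : m ∈ L.TF X' := hTT X' (TT_mono Finset.subset_union_left hF₀)
  have h2 : mapX D i m ∈ L.IIF ρ := by
    have h3 : IIT (F₀ ∪ F₁) ρ ι ≤ L.IIF ρ := by
      refine Submodule.span_mono ?_
      rintro _ ⟨g, y, hy, rfl⟩
      exact ⟨g, y, hTT X hy, rfl⟩
    exact h3 (IIT_mono ρ Finset.subset_union_right hF₁)
  have hs'0 : σ.st s ≠ 0 := by
    intro h0
    apply hs0
    rw [← σ.inv s, h0, map_zero]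
  refine L.mem_II_of_fine hι ρ' ρ i hi he h1 h2 hs (L.SS_st hs) hs0 hs'0 ?_
  -- the denominators
  have h4 : TT X' F₀ ≤ (L.TS X').comap (Lm s ∘ₗ Rm (σ.st s)) := by
    refine Submodule.span_le.2 ?_
    rintro _ ⟨a, ha, x, b, hb, rfl⟩
    refine Submodule.subset_span ⟨s * a, hsF _ (hself a (Finset.mem_union_left _ ha)), x, b * σ.st s, ?_, rfl⟩
    rw [show b * σ.st s = σ.st (s * σ.st b) by rw [σ.mul, σ.inv]]
    exact L.SS_st (hsF _ (hst b (Finset.mem_union_left _ hb)))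
  exact h4 hF₀

end

end Pool.Agent.S14
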