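import Pool.Agent.S14.Gr

/-!
# S14/Ld: the leading map of a finitely supported function on a left ordered group
-/

namespace S14

variable {D Q : Type} [DivisionRing D] [Group Q]

/-- `μ` is the element of the support of `s` for which `μ * α` is smallest. -/
def IsLd (o : LOG Q) (s : Q →₀ D) (α μ : Q) : Prop :=
  s μ ≠ 0 ∧ ∀ ν, s ν ≠ 0 → ν ≠ μ → o.lt (μ * α) (ν * α)

theorem exists_min_fin (o : LOG Q) (F : Finset Q) (hF : F.Nonempty) (g : Q → Q)
    (hg : Function.Injective g) : ∃ μ ∈ F, ∀ ν ∈ F, ν ≠ μ → o.lt (g μ) (g ν) := by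
  obtain ⟨a, ha, hm⟩ := LOG.WO.min (o := o) (s := g '' (F : Set Q))
    (LOG.WO.of_finite ((Finset.finite_toSet F).image g)) (by simpa using hF)
  obtain ⟨μ, hμ, rfl⟩ := ha
  refine ⟨μ, hμ, fun ν hν hne => ?_⟩
  rcases o.tri (g μ) (g ν) with h | h | h
  · exact h
  · exact absurd (hg h).symm hne
  · exact absurd h (hm _ ⟨ν, hν, rfl⟩)

theorem exists_ld (o : LOG Q) {s : Q →₀ D} (hs : s ≠ 0) (α : Q) : ∃ μ, IsLd o s α μ := by
  obtain ⟨μ, hμ, hm⟩ := exists_min_fin o s.support (Finsupp.support_nonempty_iff.2 hs)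
    (fun x => x * α) (mul_left_injective α)
  exact ⟨μ, Finsupp.mem_support_iff.1 hμ, fun ν hν hne =>
    hm ν (Finsupp.mem_support_iff.2 hν) hne⟩

theorem IsLd.le {o : LOG Q} {s : Q →₀ D} {α μ ν : Q} (h : IsLd o s α μ) (hν : s ν ≠ 0) :
    ¬ o.lt (ν * α) (μ * α) := by
  by_cases hne : ν = μ
  · subst hne
    exact o.irrefl _
  · exact o.asymm (h.2 ν hν hne)

theorem IsLd.unique {o : LOG Q} {s : Q →₀ D} {α μ ν : Q} (h : IsLd o s α μ)
    (h' : IsLd o s α ν) : μ = ν := by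
  by_contra hne
  exact o.asymm (h.2 ν h'.1 (Ne.symm hne)) (h'.2 μ h.1 hne)

/-- The leading position is strictly increasing. -/
theorem IsLd.lt {o : LOG Q} {s : Q →₀ D} {α β μ ν : Q} (h : IsLd o s α μ) (h' : IsLd o s β ν)
    (hab : o.lt α β) : o.lt (μ * α) (ν * β) :=
  o.lt_of_not_of_lt (h.le h'.1) (o.mul_lt ν hab)

/-- Every element is a leading position. -/
theorem ld_onto (o : LOG Q) {s : Q →₀ D} (hs : s ≠ 0) (δ : Q) :
    ∃ α μ, IsLd o s α μ ∧ μ * α = δ := by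
  obtain ⟨μ, hμ, hm⟩ := exists_min_fin o.rev s.support (Finsupp.support_nonempty_iff.2 hs)
    (fun x => x⁻¹ * δ) (fun a b hab => inv_injective (mul_left_injective δ hab))
  refine ⟨μ⁻¹ * δ, μ, ⟨Finsupp.mem_support_iff.1 hμ, fun ν hν hne => ?_⟩, by simp⟩
  have h1 : o.lt (ν⁻¹ * δ) (μ⁻¹ * δ) := hm ν (Finsupp.mem_support_iff.2 hν) hne
  rw [o.inv_mul_lt] at h1
  simpa using h1

variable {V : Type} [AddCommGroup V] [Module D V]

/-- The lowest value of a twisted sum. -/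
theorem sum_ld (o : LOG Q) {s : Q →₀ D} (φ : Q → V) {α μ : Q}
    (hφ : ∀ p, o.lt p α → φ p = 0) (h : IsLd o s α μ) :
    (s.sum fun ν d => d • φ (ν⁻¹ * (μ * α))) = s μ • φ α := by
  rw [Finsupp.sum, Finset.sum_eq_single μ]
  · simp
  · intro ν hν hne
    rw [hφ, smul_zero]
    rw [o.inv_mul_lt]
    exact h.2 ν (Finsupp.mem_support_iff.1 hν) hne
  · intro hc
    exact absurd (Finsupp.mem_support_iff.2 h.1) hc

/-- Below the lowest position a twisted sum vanishes. -/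
theorem sum_ld_zero (o : LOG Q) {s : Q →₀ D} (φ : Q → V) {α μ : Q}
    (hφ : ∀ p, o.lt p α → φ p = 0) (h : IsLd o s α μ) {δ : Q} (hδ : o.lt δ (μ * α)) :
    (s.sum fun ν d => d • φ (ν⁻¹ * δ)) = 0 := by
  rw [Finsupp.sum]
  refine Finset.sum_eq_zero fun ν hν => ?_
  rw [hφ, smul_zero]
  rw [o.inv_mul_lt]
  exact o.lt_of_lt_of_not hδ (h.le (Finsupp.mem_support_iff.1 hν))

end S14
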