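import Pool.Agent.S14.Pr

/-!
# S14/Low: the lowest coarse part of `b • f`
-/

namespace S14

variable {D R : Type} [DivisionRing D] [Group R]

/-- The leading positions of two finitely supported functions give a strictly increasing map. -/
theorem exists_low_aux (o' : LOG R) {s t : R →₀ D} (hs0 : s ≠ 0) (ht0 : t ≠ 0) :
    ∃ (σ μ τ : R → R), ∀ p, IsLd o' t p (τ p) ∧ IsLd o' s (σ p) (μ p) ∧ μ p * σ p = τ p * p := by
  have h : ∀ p, ∃ α μ τ, IsLd o' t p τ ∧ IsLd o' s α μ ∧ μ * α = τ * p := by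
    intro p
    obtain ⟨τ, hτ⟩ := exists_ld o' ht0 p
    obtain ⟨α, μ, h1, h2⟩ := ld_onto o' hs0 (τ * p)
    exact ⟨α, μ, τ, hτ, h1, h2⟩
  choose σ μ τ h using h
  exact ⟨σ, μ, τ, h⟩

/-- The coarse part over `r` vanishes when the coefficients over `r` vanish. -/
theorem cl_eq_zero {Q : Type} [Group Q] {G : Gr D Q} {o : LOG Q} (π : Q →* R) (f : Ser G o) {r : R}
    (h : ∀ q, π q = r → f.co q = 0) : f.cl π r = 0 := by
  refine Ser.ext fun q => ?_
  by_cases hq : π q = r
  · rw [Ser.co_cl π r f hq, h q hq]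
    rfl
  · rw [Ser.co_cl_ne π r f hq]
    rfl

/-- For `b ≠ 0` there are a strictly increasing map `σ` and a function `e` with finitely many
values, homogeneous and nonzero, such that for every refinement and every series `f` without terms
below the class `p` the part of `b • f` over `σ p` is `e p` times the part of `f` over `p`, and
`b • f` has no terms below the class `σ p`. -/
theorem exists_low (G' : Gr D R) (o' : LOG R) (b : D) (hb : b ≠ 0) :
    ∃ (σ : R → R) (e : R → D), (∀ p p', o'.lt p p' → o'.lt (σ p) (σ p')) ∧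
      (Set.range e).Finite ∧ (∀ p, e p ≠ 0 ∧ e p ∈ G'.S (σ p * p⁻¹)) ∧
      ∀ {Q : Type} [Group Q] (G : Gr D Q) (o : LOG Q) (π : Q →* R) (_ : Pr G G' π)
        (_ : ∀ a b : Q, o'.lt (π a) (π b) → o.lt a b) (f : Ser G o) (p : R)
        (_ : ∀ q, o'.lt (π q) p → f.co q = 0),
        (∀ q, o'.lt (π q) (σ p) → (b • f).co q = 0) ∧
          (b • f).cl π (σ p) = e p • f.cl π p := by
  classical
  obtain ⟨s, t, hs, ht, hs0, hst⟩ := G'.frac b
  have hs1 : s ≠ 0 := by
    rintro rfl
    exact hs0 (by rw [ev, Finsupp.sum_zero_index])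
  have ht1 : t ≠ 0 := by
    rintro rfl
    refine mul_ne_zero hs0 hb ?_
    rw [hst, ev, Finsupp.sum_zero_index]
  obtain ⟨σ, μ, τ, h⟩ := exists_low_aux o' hs1 ht1
  refine ⟨σ, fun p => (s (μ p))⁻¹ * t (τ p), ?_, ?_, ?_, ?_⟩
  · intro p p' hpp
    obtain ⟨h1, h2, h3⟩ := h p
    obtain ⟨h1', h2', h3'⟩ := h p'
    have h4 : o'.lt (μ p * σ p) (μ p' * σ p') := by
      rw [h3, h3']
      exact h1.lt h1' hpp
    rcases o'.tri (σ p) (σ p') with h5 | h5 | h5
    · exact h5
    · rw [← h5] at h2' h4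
      rw [h2.unique h2'] at h4
      exact absurd h4 (o'.irrefl _)
    · exact absurd h4 (o'.asymm (h2'.lt h2 h5))
  · refine ((s.support ×ˢ t.support).image fun x => (s x.1)⁻¹ * t x.2).finite_toSet.subset ?_
    rintro _ ⟨p, rfl⟩
    refine Finset.mem_coe.2 (Finset.mem_image.2 ⟨(μ p, τ p), Finset.mem_product.2 ⟨?_, ?_⟩, rfl⟩)
    · exact Finsupp.mem_support_iff.2 (h p).2.1.1
    · exact Finsupp.mem_support_iff.2 (h p).1.1
  · intro p
    obtain ⟨h1, h2, h3⟩ := h p
    refine ⟨mul_ne_zero (inv_ne_zero h2.1) h1.1, ?_⟩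
    have h4 : σ p * p⁻¹ = (μ p)⁻¹ * τ p := by
      rw [mul_inv_eq_iff_eq_mul, mul_assoc, ← h3, inv_mul_cancel_left]
    rw [h4]
    exact G'.mul (G'.inv (hs _)) (ht _)
  · intro Q _ G o π P hmono f p hf
    obtain ⟨h1, h2, h3⟩ := h p
    have hg : ev s • (b • f) = ev t • f := by
      rw [smul_smul, hst]
    have hfz : ∀ r, o'.lt r p → f.cl π r = 0 := fun r hr =>
      cl_eq_zero π f fun q hq => hf q (by rw [hq]; exact hr)
    -- no terms below the class
    have key : ∀ q, o'.lt (π q) (σ p) → (b • f).co q = 0 := by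
      intro q hq
      by_contra hc
      obtain ⟨r, hr, hmin⟩ := LOG.WO.min (o := o')
        (LOG.WO.image o' π hmono (b • f).wo) ⟨π q, q, hc, rfl⟩
      have hrlt : o'.lt r (σ p) := by
        have := hmin (π q) ⟨q, hc, rfl⟩
        exact o'.lt_of_not_of_lt this hq
      obtain ⟨q', hq', rfl⟩ := hr
      obtain ⟨μ0, hμ0⟩ := exists_ld o' hs1 (π q')
      have hgz : ∀ r, o'.lt r (π q') → (b • f).cl π r = 0 := fun r hr =>
        cl_eq_zero π _ fun a ha => by
          by_contra hca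
          exact hmin (π a) ⟨a, hca, rfl⟩ (by rw [ha]; exact hr)
      have e1 : (ev s • (b • f)).cl π (μ0 * π q') = s μ0 • (b • f).cl π (π q') := by
        rw [cl_ev_smul P s hs]
        exact sum_ld o' (fun r => (b • f).cl π r) hgz hμ0
      have hlt : o'.lt (μ0 * π q') (τ p * p) := by
        rw [← h3]
        exact hμ0.lt h2 hrlt
      have e2 : (ev t • f).cl π (μ0 * π q') = 0 := by
        rw [cl_ev_smul P t ht]
        exact sum_ld_zero o' (fun r => f.cl π r) hfz h1 hlt
      rw [hg, e2] at e1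
      have e3 : (b • f).cl π (π q') = 0 := by
        have := congrArg (fun z => (s μ0)⁻¹ • z) e1.symm
        rwa [smul_zero, smul_smul, inv_mul_cancel₀ hμ0.1, one_smul] at this
      refine hq' ?_
      rw [← Ser.co_cl π (π q') (b • f) rfl, e3]
      rfl
    refine ⟨key, ?_⟩
    have hgz : ∀ r, o'.lt r (σ p) → (b • f).cl π r = 0 := fun r hr =>
      cl_eq_zero π _ fun q hq => key q (by rw [hq]; exact hr)
    have e1 : (ev s • (b • f)).cl π (μ p * σ p) = s (μ p) • (b • f).cl π (σ p) := by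
      rw [cl_ev_smul P s hs]
      exact sum_ld o' (fun r => (b • f).cl π r) hgz h2
    have e2 : (ev t • f).cl π (τ p * p) = t (τ p) • f.cl π p := by
      rw [cl_ev_smul P t ht]
      exact sum_ld o' (fun r => f.cl π r) hfz h1
    rw [hg, h3, e2] at e1
    rw [mul_smul, e1, smul_smul, inv_mul_cancel₀ h2.1, one_smul]

end S14
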