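import Pool.Agent.S14.DDefs
import Pool.Agent.S14.FrcA

/-!
# Project S14: the group algebra of an amenable group is an Ore ring if it has no zero divisors
-/

set_option autoImplicit false
set_option linter.unusedSectionVars false

namespace Pool.Agent.S14

/-- **The left Ore condition** -/
theorem oreK {Q : Type} [Group Q] (hQ : Foel Q) (h0 : ∀ a b : MonoidAlgebra (ZMod 2) Q, a * b = 0 → a = 0 ∨ b = 0)
    (a b : MonoidAlgebra (ZMod 2) Q) (hb : b ≠ 0) :
    ∃ p r : MonoidAlgebra (ZMod 2) Q, p ≠ 0 ∧ p * a = r * b := by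
  have : NoZeroDivisors (MonoidAlgebra (ZMod 2) Q) := ⟨fun {a b} h => h0 a b h⟩
  obtain ⟨r, p, hp, h⟩ := exists_lore hQ.fol a b hb
  exact ⟨p, r, hp, h⟩

end Pool.Agent.S14
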