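import Pool.Agent.S14.PairS

/-!
# Project S14: fine tensors

`TF` = the span of the tensors with fine entries.  The pairing maps `TF` into the image of `K[H] ⊗ (X ⊗ K[H])`, and `flatOn_KH` gives: if
`m ∈ TF` and `i m` is in the span of the `g y - y`, `y ∈ TF`, then `P m` is in `II`.
-/

set_option autoImplicit false
set_option linter.unusedSectionVars false

open TensorProduct

namespace Pool.Agent.S14

open Pool.Agent.S11.FL

section

variable {H D : Type} [Group H] [DivisionRing D] [Algebra (ZMod 2) D] {ι : MonoidAlgebra (ZMod 2) H →+* D}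
  {X X' : Type} [AddCommGroup X] [Module (ZMod 2) X] [AddCommGroup X'] [Module (ZMod 2) X']

variable (ι) in
/-- `ι` as a linear map -/
noncomputable def iotaL : MonoidAlgebra (ZMod 2) H →ₗ[ZMod 2] D := ι.toAddMonoidHom.toZModLinearMap 2

theorem iotaL_apply (a : MonoidAlgebra (ZMod 2) H) : iotaL ι a = ι a := rfl

variable (ι X) in
/-- the map induced by `ι` -/
noncomputable def JJ : MM (ZMod 2) (MonoidAlgebra (ZMod 2) H) X →ₗ[ZMod 2] MM (ZMod 2) D X :=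
  TensorProduct.map (iotaL ι) (TensorProduct.map (LinearMap.id : X →ₗ[ZMod 2] X) (iotaL ι))

theorem JJ_tmul (a : MonoidAlgebra (ZMod 2) H) (x : X) (b : MonoidAlgebra (ZMod 2) H) :
    JJ ι X (a ⊗ₜ[ZMod 2] (x ⊗ₜ[ZMod 2] b)) = ι a ⊗ₜ[ZMod 2] (x ⊗ₜ[ZMod 2] ι b) := rfl

theorem JJ_inj (hι : Function.Injective ι) : Function.Injective (JJ ι X) :=
  TensorProduct.map_injective_of_flat_flat _ _ hι
    (TensorProduct.map_injective_of_flat_flat _ _ (fun _ _ h => h) hι)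

theorem JJ_act (ρ : Representation (ZMod 2) H X) (g : H) (m : MM (ZMod 2) (MonoidAlgebra (ZMod 2) H) X) :
    JJ ι X (act (MonoidAlgebra.of (ZMod 2) H) ρ g m) = act (uh ι) ρ g (JJ ι X m) := by
  have : JJ ι X ∘ₗ act (MonoidAlgebra.of (ZMod 2) H) ρ g = act (uh ι) ρ g ∘ₗ JJ ι X := MM_ext fun a x b => by
    rw [LinearMap.comp_apply, LinearMap.comp_apply, act_tmul, JJ_tmul, JJ_tmul, act_tmul, map_mul, map_mul]
    rfl
  exact LinearMap.congr_fun this m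

theorem JJ_mapX (i : X →ₗ[ZMod 2] X') (m : MM (ZMod 2) (MonoidAlgebra (ZMod 2) H) X) :
    JJ ι X' (mapX (MonoidAlgebra (ZMod 2) H) i m) = mapX D i (JJ ι X m) := by
  have : JJ ι X' ∘ₗ mapX (MonoidAlgebra (ZMod 2) H) i = mapX D i ∘ₗ JJ ι X := MM_ext fun a x b => by
    rw [LinearMap.comp_apply, LinearMap.comp_apply, mapX_tmul, JJ_tmul, JJ_tmul, mapX_tmul]
  exact LinearMap.congr_fun this m

theorem JJ_II (ρ : Representation (ZMod 2) H X) {m : MM (ZMod 2) (MonoidAlgebra (ZMod 2) H) X}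
    (hm : m ∈ II (MonoidAlgebra.of (ZMod 2) H) ρ (⊤ : Subgroup H)) : JJ ι X m ∈ II (uh ι) ρ (⊤ : Subgroup H) := by
  have : II (MonoidAlgebra.of (ZMod 2) H) ρ (⊤ : Subgroup H) ≤ (II (uh ι) ρ (⊤ : Subgroup H)).comap (JJ ι X) :=
    II_le (MonoidAlgebra.of (ZMod 2) H) ρ fun g hg m => by
      rw [Submodule.mem_comap, map_sub, JJ_act]
      exact act_sub_mem (uh ι) ρ hg _
  exact this hm

/-- the anti-automorphism on the group algebra -/
theorem Inv.exists_st (σ : Inv ι) (f : MonoidAlgebra (ZMod 2) H) : ∃ f', σ.st (ι f) = ι f' := by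
  induction f using MonoidAlgebra.induction_linear with
  | zero => exact ⟨0, by rw [map_zero, map_zero]⟩
  | add f g hf hg =>
    obtain ⟨f', hf'⟩ := hf
    obtain ⟨g', hg'⟩ := hg
    exact ⟨f' + g', by rw [map_add, map_add, hf', hg', map_add]⟩
  | single h r =>
    rcases (by decide : ∀ r : ZMod 2, r = 0 ∨ r = 1) r with rfl | rfl
    · exact ⟨0, by rw [MonoidAlgebra.single_zero, map_zero, map_zero]⟩
    · exact ⟨MonoidAlgebra.single h⁻¹ 1, by rw [← uh_apply, ← uh_apply, σ.uh]⟩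

namespace Lvl

variable {σ : Inv ι} {N : Subgroup H} [N.Normal] (L : Lvl ι σ N)

variable (X) in
/-- the span of the tensors with fine entries -/
noncomputable def TF : Submodule (ZMod 2) (MM (ZMod 2) D X) :=
  Submodule.span (ZMod 2) {z | ∃ a, σ.st a ∈ L.Fine ∧ ∃ x : X, ∃ b ∈ L.Fine, z = a ⊗ₜ[ZMod 2] (x ⊗ₜ[ZMod 2] b)}

/-- the span of the `g y - y`, `y ∈ TF` -/
noncomputable def IIF (ρ : Representation (ZMod 2) H X) : Submodule (ZMod 2) (MM (ZMod 2) D X) :=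
  Submodule.span (ZMod 2) {z | ∃ g : H, ∃ y ∈ L.TF X, z = act (uh ι) ρ g y - y}

theorem Lm_TF (g : H) {m : MM (ZMod 2) D X} (hm : m ∈ L.TF X) : Lm (uh ι g) m ∈ L.TF X := by
  have : L.TF X ≤ (L.TF X).comap (Lm (uh ι g)) := by
    refine Submodule.span_le.2 ?_
    rintro _ ⟨a, ha, x, b, hb, rfl⟩
    refine Submodule.subset_span ⟨uh ι g * a, ?_, x, b, hb, rfl⟩
    rw [σ.mul, σ.uh]
    exact L.Fine.mul_mem ha (L.uh_mem _)
  exact this hm

theorem Rm_TF (g : H) {m : MM (ZMod 2) D X} (hm : m ∈ L.TF X) : Rm (uh ι g) m ∈ L.TF X := by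
  have : L.TF X ≤ (L.TF X).comap (Rm (uh ι g)) := by
    refine Submodule.span_le.2 ?_
    rintro _ ⟨a, ha, x, b, hb, rfl⟩
    exact Submodule.subset_span ⟨a, ha, x, b * uh ι g, L.Fine.mul_mem hb (L.uh_mem _), rfl⟩
  exact this hm

theorem Lm_IIF (ρ : Representation (ZMod 2) H X) (g : H) {m : MM (ZMod 2) D X} (hm : m ∈ L.IIF ρ) :
    Lm (uh ι g) m ∈ L.IIF ρ := by
  have : L.IIF ρ ≤ (L.IIF ρ).comap (Lm (uh ι g)) := by
    refine Submodule.span_le.2 ?_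
    rintro _ ⟨h, y, hy, rfl⟩
    refine Submodule.subset_span ⟨h, Lm (uh ι g) y, L.Lm_TF g hy, ?_⟩
    rw [map_sub, Lm_act]
  exact this hm

theorem Rm_IIF (ρ : Representation (ZMod 2) H X) (g : H) {m : MM (ZMod 2) D X} (hm : m ∈ L.IIF ρ) :
    Rm (uh ι g) m ∈ L.IIF ρ := by
  have : L.IIF ρ ≤ (L.IIF ρ).comap (Rm (uh ι g)) := by
    refine Submodule.span_le.2 ?_
    rintro _ ⟨h, y, hy, rfl⟩
    refine Submodule.subset_span ⟨h, Rm (uh ι g) y, L.Rm_TF g hy, ?_⟩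
    rw [map_sub, Rm_act]
  exact this hm

/-- **The pairing of fine tensors** -/
theorem P_TF {m : MM (ZMod 2) D X} (hm : m ∈ L.TF X) : ∃ m', L.P X m = JJ ι X m' := by
  have : L.TF X ≤ (LinearMap.range (JJ ι X)).comap (L.P X) := by
    refine Submodule.span_le.2 ?_
    rintro _ ⟨a, ha, x, b, hb, rfl⟩
    change L.P X _ ∈ LinearMap.range (JJ ι X)
    rw [P_apply]
    refine finsum_induction (fun z => z ∈ LinearMap.range (JJ ι X)) (Submodule.zero_mem _)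
      (fun _ _ h h' => Submodule.add_mem _ h h') fun q => ?_
    obtain ⟨a', ha'⟩ := L.fine_cop _ ha q
    obtain ⟨b', hb'⟩ := L.fine_co _ hb q
    obtain ⟨a'', ha''⟩ := σ.exists_st a'
    refine ⟨a'' ⊗ₜ[ZMod 2] (x ⊗ₜ[ZMod 2] b'), ?_⟩
    rw [Pq_tmul, ha', ha'', hb', JJ_tmul]
  obtain ⟨m', hm'⟩ := this hm
  exact ⟨m', hm'.symm⟩

theorem P_IIF (ρ : Representation (ZMod 2) H X) {m : MM (ZMod 2) D X} (hm : m ∈ L.IIF ρ) :
    ∃ m' ∈ II (MonoidAlgebra.of (ZMod 2) H) ρ (⊤ : Subgroup H), L.P X m = JJ ι X m' := by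
  have : L.IIF ρ ≤ ((II (MonoidAlgebra.of (ZMod 2) H) ρ (⊤ : Subgroup H)).map (JJ ι X)).comap (L.P X) := by
    refine Submodule.span_le.2 ?_
    rintro _ ⟨g, y, hy, rfl⟩
    obtain ⟨y', hy'⟩ := L.P_TF hy
    refine ⟨act (MonoidAlgebra.of (ZMod 2) H) ρ g y' - y',
      act_sub_mem (MonoidAlgebra.of (ZMod 2) H) ρ (Subgroup.mem_top g) y', ?_⟩
    rw [map_sub, JJ_act, ← hy', map_sub, P_act]
  obtain ⟨m', h1, h2⟩ := this hm
  exact ⟨m', h1, h2.symm⟩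

/-- **The key step** -/
theorem P_mem_II (hι : Function.Injective ι) (ρ' : Representation (ZMod 2) H X') (ρ : Representation (ZMod 2) H X)
    (i : X' →ₗ[ZMod 2] X) (hi : Function.Injective i) (he : ∀ g x, i (ρ' g x) = ρ g (i x)) {m : MM (ZMod 2) D X'}
    (hm : m ∈ L.TF X') (hm2 : mapX D i m ∈ L.IIF ρ) : L.P X' m ∈ II (uh ι) ρ' (⊤ : Subgroup H) := by
  obtain ⟨m', hm'⟩ := L.P_TF hm
  obtain ⟨m'', h1, h2⟩ := L.P_IIF ρ hm2
  rw [P_mapX, hm', ← JJ_mapX] at h2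
  have h3 := JJ_inj hι h2
  rw [← h3] at h1
  rw [hm']
  exact JJ_II ρ' (flatOn_KH X' X ρ' ρ i hi he m' h1)

/-- **One level** -/
theorem mem_II_of_fine (hι : Function.Injective ι) (ρ' : Representation (ZMod 2) H X') (ρ : Representation (ZMod 2) H X)
    (i : X' →ₗ[ZMod 2] X) (hi : Function.Injective i) (he : ∀ g x, i (ρ' g x) = ρ g (i x)) {m : MM (ZMod 2) D X'}
    (hm : m ∈ L.TF X') (hm2 : mapX D i m ∈ L.IIF ρ) {s s' : D} (hs : s ∈ L.SS) (hs' : s' ∈ L.SS) (hs0 : s ≠ 0)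
    (hs'0 : s' ≠ 0) (hTS : Lm s (Rm s' m) ∈ L.TS X') : m ∈ II (uh ι) ρ' (⊤ : Subgroup H) := by
  refine L.mem_II_of_frac ρ' (fun g h => ?_) hs hs' hs0 hs'0 hTS
  refine L.P_mem_II hι ρ' ρ i hi he (L.Lm_TF g (L.Rm_TF h hm)) ?_
  rw [← Lm_mapX, ← Rm_mapX]
  exact L.Lm_IIF ρ g (L.Rm_IIF ρ h hm2)

end Lvl

end

end Pool.Agent.S14
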