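import Pool.Agent.S14.Pair

/-!
# Project S14: recomposition from the values of the pairing

`SS` = the finite sums of elements `c * u h`, `c ∈ DN`.  `TS` = the span of the pure tensors with entries in `SS`.
For `m ∈ TS` one has `m = ∑ γ, Rm (u γ⁻¹) (P (Rm (u γ) m))` (`γ` runs over representatives of finitely many cosets).
-/

set_option autoImplicit false
set_option linter.unusedSectionVars false

open TensorProduct

namespace Pool.Agent.S14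

open Pool.Agent.S11.FL

section

variable {H D : Type} [Group H] [DivisionRing D] [Algebra (ZMod 2) D] {ι : MonoidAlgebra (ZMod 2) H →+* D}
  {σ : Inv ι} {N : Subgroup H} [N.Normal] (L : Lvl ι σ N) {X : Type} [AddCommGroup X] [Module (ZMod 2) X]

theorem uh_mul_inv (h : H) : uh ι h * uh ι h⁻¹ = 1 := by rw [← map_mul, mul_inv_cancel, map_one]

theorem uh_inv_mul (h : H) : uh ι h⁻¹ * uh ι h = 1 := by rw [← map_mul, inv_mul_cancel, map_one]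

namespace Lvl

/-- the homogeneous elements -/
def Hom : Set D := {x | ∃ c ∈ L.DN, ∃ h : H, x = c * uh ι h}

/-- the finite sums of homogeneous elements -/
def SS : AddSubgroup D := AddSubgroup.closure L.Hom

theorem hom_mul_uh {x : D} (hx : x ∈ L.Hom) (g : H) : x * uh ι g ∈ L.Hom := by
  obtain ⟨c, hc, h, rfl⟩ := hx
  exact ⟨c, hc, h * g, by rw [map_mul, mul_assoc]⟩

/-- the other form of the homogeneous elements -/
theorem hom_right {x : D} (hx : x ∈ L.Hom) : ∃ c ∈ L.DN, ∃ h : H, x = uh ι h * c := by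
  obtain ⟨c, hc, h, rfl⟩ := hx
  refine ⟨uh ι h⁻¹ * c * uh ι h, ?_, h, ?_⟩
  · have := L.conj_mem c hc h⁻¹
    rwa [inv_inv] at this
  · rw [← mul_assoc, ← mul_assoc, uh_mul_inv, one_mul]

theorem hom_of_right {c : D} (hc : c ∈ L.DN) (h : H) : uh ι h * c ∈ L.Hom := by
  refine ⟨uh ι h * c * uh ι h⁻¹, L.conj_mem c hc h, h, ?_⟩
  rw [mul_assoc, uh_inv_mul, mul_one]

theorem hom_mul {x y : D} (hx : x ∈ L.Hom) (hy : y ∈ L.Hom) : x * y ∈ L.Hom := by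
  obtain ⟨c, hc, h, rfl⟩ := hx
  obtain ⟨c', hc', h', rfl⟩ := hy
  refine ⟨c * (uh ι h * c' * uh ι h⁻¹), L.DN.mul_mem hc (L.conj_mem c' hc' h), h * h', ?_⟩
  rw [map_mul]
  calc c * uh ι h * (c' * uh ι h') = c * (uh ι h * c' * (uh ι h⁻¹ * uh ι h)) * uh ι h' := by
        rw [uh_inv_mul, mul_one]; simp only [mul_assoc]
    _ = _ := by simp only [mul_assoc]

theorem hom_st {x : D} (hx : x ∈ L.Hom) : σ.st x ∈ L.Hom := by
  obtain ⟨c, hc, h, rfl⟩ := hx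
  rw [σ.mul, σ.uh]
  exact L.hom_of_right (L.st_mem c hc) _

theorem SS_st {x : D} (hx : x ∈ L.SS) : σ.st x ∈ L.SS := by
  have : L.SS ≤ L.SS.comap σ.st := by
    refine (AddSubgroup.closure_le _).2 fun y hy => ?_
    exact AddSubgroup.subset_closure (L.hom_st hy)
  exact this hx

theorem SS_mul_uh {x : D} (hx : x ∈ L.SS) (g : H) : x * uh ι g ∈ L.SS := by
  have : L.SS ≤ L.SS.comap (AddMonoidHom.mulRight (uh ι g)) := by
    refine (AddSubgroup.closure_le _).2 fun y hy => ?_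
    exact AddSubgroup.subset_closure (L.hom_mul_uh hy g)
  exact this hx

variable (X) in
/-- the span of the tensors with entries in `SS` -/
noncomputable def TS : Submodule (ZMod 2) (MM (ZMod 2) D X) :=
  Submodule.span (ZMod 2) {z | ∃ a ∈ L.SS, ∃ x : X, ∃ b ∈ L.SS, z = a ⊗ₜ[ZMod 2] (x ⊗ₜ[ZMod 2] b)}

variable (X) in
/-- the span of the tensors with homogeneous entries -/
noncomputable def TH : Submodule (ZMod 2) (MM (ZMod 2) D X) :=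
  Submodule.span (ZMod 2) {z | ∃ a ∈ L.Hom, ∃ x : X, ∃ b ∈ L.Hom, z = a ⊗ₜ[ZMod 2] (x ⊗ₜ[ZMod 2] b)}

theorem TS_le_TH : L.TS X ≤ L.TH X := by
  refine Submodule.span_le.2 ?_
  rintro _ ⟨a, ha, x, b, hb, rfl⟩
  have h1 : ∀ a ∈ L.Hom, a ⊗ₜ[ZMod 2] (x ⊗ₜ[ZMod 2] b) ∈ L.TH X := by
    intro a ha
    have : L.SS ≤ (L.TH X).toAddSubgroup.comap
        ((TensorProduct.mk (ZMod 2) D (X ⊗[ZMod 2] D) a).toAddMonoidHom.comp
          (TensorProduct.mk (ZMod 2) X D x).toAddMonoidHom) := by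
      refine (AddSubgroup.closure_le _).2 fun b hb => ?_
      exact Submodule.subset_span ⟨a, ha, x, b, hb, rfl⟩
    exact this hb
  have : L.SS ≤ (L.TH X).toAddSubgroup.comap
      ((TensorProduct.mk (ZMod 2) D (X ⊗[ZMod 2] D)).flip (x ⊗ₜ[ZMod 2] b)).toAddMonoidHom := by
    refine (AddSubgroup.closure_le _).2 fun a ha => ?_
    exact h1 a ha
  exact this ha

/-- the pairing of a homogeneous tensor -/
theorem P_hom {c c' : D} (hc : c ∈ L.DN) (hc' : c' ∈ L.DN) (h k : H) (x : X) :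
    L.P X ((c * uh ι h) ⊗ₜ[ZMod 2] (x ⊗ₜ[ZMod 2] (c' * uh ι k))) =
      L.Pq ((h : H ⧸ N))⁻¹ ((c * uh ι h) ⊗ₜ[ZMod 2] (x ⊗ₜ[ZMod 2] (c' * uh ι k))) := by
  rw [P_apply]
  refine finsum_eq_single _ _ fun q hq => ?_
  rw [Pq_tmul]
  have e : σ.st (c * uh ι h) = (uh ι h⁻¹ * σ.st c * uh ι h⁻¹⁻¹) * uh ι h⁻¹ := by
    rw [σ.mul, σ.uh, inv_inv, mul_assoc, mul_assoc, uh_mul_inv, mul_one]
  rw [e, L.cop_ne _ (L.conj_mem _ (L.st_mem c hc) _) _ _ (by rw [QuotientGroup.mk_inv]; exact hq), map_zero,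
    TensorProduct.zero_tmul]

theorem Pq_hom_eq {c c' : D} (hc : c ∈ L.DN) (hc' : c' ∈ L.DN) (h k : H) (x : X)
    (hk : ((k : H ⧸ N)) = ((h : H ⧸ N))⁻¹) :
    L.Pq ((h : H ⧸ N))⁻¹ ((c * uh ι h) ⊗ₜ[ZMod 2] (x ⊗ₜ[ZMod 2] (c' * uh ι k))) =
      (c * uh ι h) ⊗ₜ[ZMod 2] (x ⊗ₜ[ZMod 2] (c' * uh ι k)) := by
  rw [Pq_tmul, ← hk, L.co_self c' hc']
  have e : σ.st (c * uh ι h) = (uh ι h⁻¹ * σ.st c * uh ι h⁻¹⁻¹) * uh ι h⁻¹ := by
    rw [σ.mul, σ.uh, inv_inv, mul_assoc, mul_assoc, uh_mul_inv, mul_one]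
  rw [e, hk, ← QuotientGroup.mk_inv, L.cop_self _ (L.conj_mem _ (L.st_mem c hc) _) h⁻¹, ← e, σ.inv]

theorem Pq_hom_ne {c c' : D} (hc' : c' ∈ L.DN) (h k : H) (x : X)
    (hk : ((k : H ⧸ N)) ≠ ((h : H ⧸ N))⁻¹) :
    L.Pq ((h : H ⧸ N))⁻¹ ((c * uh ι h) ⊗ₜ[ZMod 2] (x ⊗ₜ[ZMod 2] (c' * uh ι k))) = 0 := by
  rw [Pq_tmul, L.co_ne c' hc' _ _ (Ne.symm hk), TensorProduct.tmul_zero, TensorProduct.tmul_zero]

/-- the recomposition for the span of the homogeneous tensors -/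
theorem recomp {m : MM (ZMod 2) D X} (hm : m ∈ L.TH X) : ∃ G : Finset (H ⧸ N), ∀ G', G ⊆ G' →
    m = ∑ g ∈ G', Rm (uh ι g.out⁻¹) (L.P X (Rm (uh ι g.out) m)) := by
  classical
  induction hm using Submodule.span_induction with
  | mem z hz =>
    obtain ⟨a, ⟨c, hc, h, rfl⟩, x, b, ⟨c', hc', k, rfl⟩, rfl⟩ := hz
    refine ⟨{((k : H ⧸ N))⁻¹ * ((h : H ⧸ N))⁻¹}, fun G' hG => ?_⟩
    have hterm : ∀ g : H ⧸ N, Rm (uh ι g.out⁻¹) (L.P X (Rm (uh ι g.out)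
        ((c * uh ι h) ⊗ₜ[ZMod 2] (x ⊗ₜ[ZMod 2] (c' * uh ι k))))) =
        if g = ((k : H ⧸ N))⁻¹ * ((h : H ⧸ N))⁻¹ then (c * uh ι h) ⊗ₜ[ZMod 2] (x ⊗ₜ[ZMod 2] (c' * uh ι k)) else 0 := by
      intro g
      rw [Rm_tmul, mul_assoc, ← map_mul, L.P_hom hc hc']
      split_ifs with hg
      · rw [L.Pq_hom_eq hc hc', Rm_tmul, mul_assoc, ← map_mul, mul_assoc, mul_inv_cancel, mul_one]
        rw [QuotientGroup.mk_mul, QuotientGroup.out_eq', hg, mul_inv_cancel_left]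
      · rw [L.Pq_hom_ne hc', map_zero]
        intro h1
        apply hg
        rw [QuotientGroup.mk_mul, QuotientGroup.out_eq'] at h1
        rw [← h1, inv_mul_cancel_left]
    rw [Finset.sum_congr rfl fun g _ => hterm g, Finset.sum_ite_eq', if_pos (hG (Finset.mem_singleton_self _))]
  | zero => exact ⟨∅, fun G' _ => by simp only [map_zero, Finset.sum_const_zero]⟩
  | add m m' _ _ h h' =>
    obtain ⟨G, hG⟩ := h
    obtain ⟨G₁, hG₁⟩ := h'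
    refine ⟨G ∪ G₁, fun G' hG' => ?_⟩
    simp only [map_add, Finset.sum_add_distrib]
    rw [← hG G' (Finset.union_subset_left hG'), ← hG₁ G' (Finset.union_subset_right hG')]
  | smul r m _ h =>
    obtain ⟨G, hG⟩ := h
    refine ⟨G, fun G' hG' => ?_⟩
    simp only [map_smul, ← Finset.smul_sum]
    rw [← hG G' hG']

/-- **Recomposition** -/
theorem mem_of_P {m : MM (ZMod 2) D X} (hm : m ∈ L.TS X) (I : Submodule (ZMod 2) (MM (ZMod 2) D X))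
    (h : ∀ γ : H, L.P X (Rm (uh ι γ) m) ∈ I) (hI : ∀ (γ : H), ∀ z ∈ I, Rm (uh ι γ) z ∈ I) : m ∈ I := by
  obtain ⟨G, hG⟩ := L.recomp (L.TS_le_TH hm)
  rw [hG G (Finset.Subset.refl _)]
  exact Submodule.sum_mem _ fun g _ => hI _ _ (h _)

/-- multiplication with elements of `SS` -/
theorem P_SS (ρ : Representation (ZMod 2) H X) {m : MM (ZMod 2) D X}
    (hm : ∀ g h : H, L.P X (Lm (uh ι g) (Rm (uh ι h) m)) ∈ II (uh ι) ρ (⊤ : Subgroup H)) {s s' : D}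
    (hs : s ∈ L.SS) (hs' : s' ∈ L.SS) : L.P X (Lm s (Rm s' m)) ∈ II (uh ι) ρ (⊤ : Subgroup H) := by
  have h1 : ∀ s ∈ L.Hom, ∀ s' ∈ L.Hom, L.P X (Lm s (Rm s' m)) ∈ II (uh ι) ρ (⊤ : Subgroup H) := by
    intro s hs s' hs'
    obtain ⟨c, hc, h, rfl⟩ := hs
    obtain ⟨c', hc', h', rfl⟩ := L.hom_right hs'
    rw [← Lm_Lm, ← Rm_Rm, L.P_Lm hc, Lm_Rm, L.P_Rm hc']
    exact Lm_II _ ρ _ _ (Rm_II _ ρ _ _ (hm h h'))
  have h2 : ∀ s ∈ L.Hom, ∀ s' ∈ L.SS, L.P X (Lm s (Rm s' m)) ∈ II (uh ι) ρ (⊤ : Subgroup H) := by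
    intro s hs s' hs'
    have : L.SS ≤ (II (uh ι) ρ (⊤ : Subgroup H)).toAddSubgroup.comap
        (AddMonoidHom.mk' (fun s' => L.P X (Lm s (Rm s' m))) fun a b => by
          rw [Rm_add, map_add, map_add]) :=
      (AddSubgroup.closure_le _).2 fun b hb => h1 s hs b hb
    exact this hs'
  have : L.SS ≤ (II (uh ι) ρ (⊤ : Subgroup H)).toAddSubgroup.comap
      (AddMonoidHom.mk' (fun s => L.P X (Lm s (Rm s' m))) fun a b => by
        rw [Lm_add, map_add]) :=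
    (AddSubgroup.closure_le _).2 fun a ha => h2 a ha s' hs'
  exact this hs

/-- **Division by elements of `SS`** -/
theorem mem_II_of_frac (ρ : Representation (ZMod 2) H X) {m : MM (ZMod 2) D X}
    (hm : ∀ g h : H, L.P X (Lm (uh ι g) (Rm (uh ι h) m)) ∈ II (uh ι) ρ (⊤ : Subgroup H)) {s s' : D}
    (hs : s ∈ L.SS) (hs' : s' ∈ L.SS) (hs0 : s ≠ 0) (hs'0 : s' ≠ 0) (hTS : Lm s (Rm s' m) ∈ L.TS X) :
    m ∈ II (uh ι) ρ (⊤ : Subgroup H) := by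
  have hx : Lm s (Rm s' m) ∈ II (uh ι) ρ (⊤ : Subgroup H) := by
    refine L.mem_of_P hTS _ (fun γ => ?_) fun γ z hz => Rm_II _ ρ _ _ hz
    rw [← Lm_Rm, Rm_Rm]
    exact L.P_SS ρ hm hs (L.SS_mul_uh hs' γ)
  have h3 := Rm_II (uh ι) ρ ⊤ s'⁻¹ (Lm_II (uh ι) ρ ⊤ s⁻¹ hx)
  rw [Lm_Lm, inv_mul_cancel₀ hs0, Lm_one, Rm_Rm, mul_inv_cancel₀ hs'0, Rm_one] at h3
  exact h3

end Lvl

end

end Pool.Agent.S14
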