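import Pool.Agent.S14.SerD

/-!
# S14/Pr: a finer and a coarser grading of the same division ring; coarse parts of fine series
-/

namespace S14

variable {D Q R : Type} [DivisionRing D] [Group Q] [Group R]

/-- The grading `G` over `Q` refines the grading `G'` over `R` along `π`. -/
structure Pr (G : Gr D Q) (G' : Gr D R) (π : Q →* R) : Prop where
  le : ∀ q, G.S q ≤ G'.S (π q)
  unit : ∀ r, ∃ q, π q = r ∧ ∃ x ∈ G.S q, x ≠ 0
  frac : ∀ c ∈ G'.S 1, ∃ s t : Q →₀ D, (∀ q, s q ∈ G.S q) ∧ (∀ q, t q ∈ G.S q) ∧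
    (∀ q, s q ≠ 0 → π q = 1) ∧ (∀ q, t q ≠ 0 → π q = 1) ∧ ev s ≠ 0 ∧ ev s * c = ev t

variable {G : Gr D Q} {G' : Gr D R} {π : Q →* R} {o : LOG Q} {o' : LOG R}

/-- The part of `f` over `p`. -/
noncomputable def Ser.cl (π : Q →* R) (p : R) (f : Ser G o) : Ser G o := f.res {q | π q = p}

theorem Ser.co_cl (π : Q →* R) (p : R) (f : Ser G o) {q : Q} (h : π q = p) :
    (f.cl π p).co q = f.co q := f.co_res_mem h

theorem Ser.co_cl_ne (π : Q →* R) (p : R) (f : Ser G o) {q : Q} (h : π q ≠ p) :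
    (f.cl π p).co q = 0 := f.co_res_not h

theorem cl_add (f g : Ser G o) (p : R) : (f + g).cl π p = f.cl π p + g.cl π p := by
  refine Ser.ext fun δ => ?_
  rw [Ser.co_add]
  by_cases h : π δ = p
  · rw [Ser.co_cl _ _ _ h, Ser.co_cl _ _ _ h, Ser.co_cl _ _ _ h, Ser.co_add]
  · rw [Ser.co_cl_ne _ _ _ h, Ser.co_cl_ne _ _ _ h, Ser.co_cl_ne _ _ _ h, add_zero]

theorem cl_zero (p : R) : (0 : Ser G o).cl π p = 0 := by
  refine Ser.ext fun δ => ?_
  by_cases h : π δ = p
  · rw [Ser.co_cl _ _ _ h]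
  · rw [Ser.co_cl_ne _ _ _ h]
    rfl

/-- The part over `p` as an additive map. -/
noncomputable def clHom (G : Gr D Q) (o : LOG Q) (π : Q →* R) (p : R) : Ser G o →+ Ser G o where
  toFun f := f.cl π p
  map_zero' := cl_zero p
  map_add' f g := cl_add f g p

/-- Elements which are homogeneous for the fine grading. -/
private theorem cl_fine {y : D} {q : Q} (hy : y ∈ G.S q) (f : Ser G o) (p : R) :
    (y • f).cl π (π q * p) = y • f.cl π p := by
  refine Ser.ext fun δ => ?_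
  rw [hom_smul hy]
  by_cases h : π δ = π q * p
  · have h1 : π (q⁻¹ * δ) = p := by
      rw [map_mul, map_inv, h, inv_mul_cancel_left]
    rw [Ser.co_cl _ _ _ h, Ser.co_cl _ _ _ h1, hom_smul hy]
  · have h1 : π (q⁻¹ * δ) ≠ p := by
      intro hc
      refine h ?_
      rw [← hc, map_mul, map_inv, mul_inv_cancel_left]
    rw [Ser.co_cl_ne _ _ _ h, Ser.co_cl_ne _ _ _ h1, mul_zero]

/-- Finite sums of degrees in the kernel preserve the parts. -/
private theorem cl_ker {s : Q →₀ D} (hs : ∀ q, s q ∈ G.S q) (hk : ∀ q, s q ≠ 0 → π q = 1)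
    (f : Ser G o) (p : R) : (ev s • f).cl π p = ev s • f.cl π p := by
  refine Ser.ext fun δ => ?_
  rw [ev_smul s hs]
  by_cases h : π δ = p
  · rw [Ser.co_cl _ _ _ h, ev_smul s hs, Finsupp.sum, Finsupp.sum]
    refine Finset.sum_congr rfl fun μ hμ => ?_
    have h1 : π (μ⁻¹ * δ) = p := by
      rw [map_mul, map_inv, hk μ (Finsupp.mem_support_iff.1 hμ), inv_one, one_mul, h]
    rw [Ser.co_cl _ _ _ h1]
  · rw [Ser.co_cl_ne _ _ _ h, Finsupp.sum]
    refine (Finset.sum_eq_zero fun μ hμ => ?_).symm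
    have h1 : π (μ⁻¹ * δ) ≠ p := by
      rw [map_mul, map_inv, hk μ (Finsupp.mem_support_iff.1 hμ), inv_one, one_mul]
      exact h
    rw [Ser.co_cl_ne _ _ _ h1, mul_zero]

/-- A coarsely homogeneous element translates the coarse parts. -/
theorem cl_smul (P : Pr G G' π) {x : D} {r : R} (hx : x ∈ G'.S r) (f : Ser G o) (p : R) :
    (x • f).cl π (r * p) = x • f.cl π p := by
  obtain ⟨q, rfl, y, hy, hy0⟩ := P.unit r
  have hc : x * y⁻¹ ∈ G'.S 1 := by
    have h := G'.mul hx (G'.inv (P.le q hy))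
    rwa [mul_inv_cancel] at h
  obtain ⟨s, t, hs, ht, hks, hkt, h0, h1⟩ := P.frac _ hc
  have h2 : ∀ (g : Ser G o) (a : R), ((x * y⁻¹) • g).cl π a = (x * y⁻¹) • g.cl π a := by
    intro g a
    refine smul_cancel h0 ?_
    rw [← cl_ker hs hks, smul_smul, smul_smul, h1, cl_ker ht hkt]
  have h3 : x = x * y⁻¹ * y := by
    rw [mul_assoc, inv_mul_cancel₀ hy0, mul_one]
  have h4 : ∀ g : Ser G o, x • g = (x * y⁻¹) • (y • g) := fun g => by
    rw [smul_smul, ← h3]
  rw [h4, h4, h2, cl_fine hy]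

/-- The coarse parts of the product with a coarsely homogeneous finite sum. -/
theorem cl_ev_smul (P : Pr G G' π) (s : R →₀ D) (hs : ∀ r, s r ∈ G'.S r) (f : Ser G o) (δ : R) :
    (ev s • f).cl π δ = s.sum fun μ d => d • f.cl π (μ⁻¹ * δ) := by
  have h1 : ev s • f = ∑ μ ∈ s.support, s μ • f := by
    rw [ev, Finsupp.sum, Finset.sum_smul]
  have h2 : (ev s • f).cl π δ = clHom G o π δ (ev s • f) := rfl
  rw [h2, h1, map_sum, Finsupp.sum]
  refine Finset.sum_congr rfl fun μ _ => ?_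
  have h3 := cl_smul P (hs μ) f (μ⁻¹ * δ)
  rw [mul_inv_cancel_left] at h3
  exact h3

end S14
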