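import Pool.Agent.S14.Gr

/-!
# S14/Ser: the homogeneous finite sums act on series
-/

namespace S14

open MonoidAlgebra

variable {D Q : Type} [DivisionRing D] [Group Q]

/-- The finite homogeneous sums, a subring of the monoid algebra. -/
noncomputable def Gr.A (G : Gr D Q) : Subring (MonoidAlgebra D Q) where
  carrier := {x | ∀ q, x.coeff q ∈ G.S q}
  mul_mem' := by
    classical
    intro x y hx hy q
    rw [MonoidAlgebra.coeff_mul]
    refine AddSubgroup.sum_mem _ fun μ _ => AddSubgroup.sum_mem _ fun ν _ => ?_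
    dsimp only
    split_ifs with h
    · rw [← h]
      exact G.mul (hx μ) (hy ν)
    · exact (G.S q).zero_mem
  one_mem' := by
    classical
    intro q
    rw [MonoidAlgebra.one_def, MonoidAlgebra.coeff_single, Finsupp.single_apply]
    split_ifs with h
    · rw [← h]
      exact G.one
    · exact (G.S q).zero_mem
  add_mem' := by
    intro x y hx hy q
    rw [MonoidAlgebra.coeff_add, Finsupp.add_apply]
    exact (G.S q).add_mem (hx q) (hy q)
  zero_mem' := by
    intro q
    exact (G.S q).zero_mem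
  neg_mem' := by
    intro x hx q
    rw [MonoidAlgebra.coeff_neg, Finsupp.neg_apply]
    exact (G.S q).neg_mem (hx q)

theorem Gr.mem_A (G : Gr D Q) (x : MonoidAlgebra D Q) : x ∈ G.A ↔ ∀ q, x.coeff q ∈ G.S q :=
  Iff.rfl

/-- Sum of the coefficients, a ring homomorphism. -/
noncomputable def evR : MonoidAlgebra D Q →+* D :=
  MonoidAlgebra.liftNCRingHom (RingHom.id D) 1 fun _ _ => Commute.one_right _

theorem evR_apply (x : MonoidAlgebra D Q) : evR x = ev x.coeff := by
  conv_lhs => rw [← MonoidAlgebra.sum_coeff_single x]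
  rw [map_finsuppSum, ev]
  refine Finset.sum_congr rfl fun μ _ => ?_
  dsimp only
  rw [evR, MonoidAlgebra.liftNCRingHom_single]
  simp

theorem evR_inj (G : Gr D Q) {x : MonoidAlgebra D Q} (hx : x ∈ G.A) (h : evR x = 0) : x = 0 := by
  rw [evR_apply] at h
  have h1 := G.direct x.coeff hx h
  rw [← MonoidAlgebra.ofCoeff_coeff x, h1]
  rfl

/-- Translation of functions. -/
def trn : Q →* AddMonoid.End (Q → D) where
  toFun := fun μ =>
    { toFun := fun f δ => f (μ⁻¹ * δ)
      map_zero' := rfl
      map_add' := fun _ _ => rfl }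
  map_one' := by
    refine AddMonoidHom.ext fun f => funext fun δ => ?_
    change f (1⁻¹ * δ) = f δ
    simp
  map_mul' := by
    intro μ ν
    refine AddMonoidHom.ext fun f => funext fun δ => ?_
    change f ((μ * ν)⁻¹ * δ) = f (ν⁻¹ * (μ⁻¹ * δ))
    rw [mul_inv_rev, mul_assoc]

/-- The monoid algebra acts on functions. -/
noncomputable def rho0 : MonoidAlgebra D Q →+* AddMonoid.End (Q → D) :=
  MonoidAlgebra.liftNCRingHom (Module.toAddMonoidEnd D (Q → D)) trn (fun _ _ => rfl)

theorem rho0_apply (x : MonoidAlgebra D Q) (f : Q → D) (δ : Q) :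
    rho0 x f δ = x.coeff.sum fun μ d => d * f (μ⁻¹ * δ) := by
  have h : ∀ (μ : Q) (d : D), rho0 (MonoidAlgebra.single μ d) f δ = d * f (μ⁻¹ * δ) := by
    intro μ d
    rw [rho0, MonoidAlgebra.liftNCRingHom_single]
    rfl
  let ψ : AddMonoid.End (Q → D) →+ D :=
    { toFun := fun φ => φ f δ
      map_zero' := rfl
      map_add' := fun _ _ => rfl }
  have h1 : rho0 x f δ = ψ (rho0 x) := rfl
  rw [h1]
  conv_lhs => rw [← MonoidAlgebra.sum_coeff_single x]
  rw [map_finsuppSum, map_finsuppSum]
  refine Finset.sum_congr rfl fun μ _ => ?_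
  exact h μ _

variable (G : Gr D Q) (o : LOG Q)

theorem rho0_mem {x : MonoidAlgebra D Q} (hx : x ∈ G.A) {f : Q → D} (hf : f ∈ ser G o) :
    rho0 x f ∈ ser G o := by
  constructor
  · intro δ
    rw [rho0_apply]
    refine AddSubgroup.sum_mem _ fun μ _ => ?_
    have h := G.mul (hx μ) (hf.1 (μ⁻¹ * δ))
    simpa using h
  · refine (LOG.WO.biUnion x.coeff.support (fun μ => (fun y => μ * y) '' {q | f q ≠ 0})
      fun μ _ => LOG.WO.lmul hf.2 μ).mono fun δ hδ => ?_
    by_contra hc
    refine hδ ?_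
    rw [rho0_apply]
    refine Finset.sum_eq_zero fun μ hμ => ?_
    by_contra h0
    refine hc (Set.mem_biUnion hμ ⟨μ⁻¹ * δ, ?_, by simp⟩)
    intro h1
    exact h0 (by
      dsimp only
      rw [h1, mul_zero])

/-- The homogeneous finite sums act on the series. -/
noncomputable def Gr.rho : G.A →+* AddMonoid.End (Ser G o) where
  toFun x :=
    { toFun := fun f => ⟨rho0 x.1 f.1, rho0_mem G o x.2 f.2⟩
      map_zero' := Subtype.ext (map_zero (rho0 x.1))
      map_add' := fun f g => Subtype.ext (map_add (rho0 x.1) f.1 g.1) }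
  map_one' := AddMonoidHom.ext fun f => Subtype.ext (by
    change rho0 1 f.1 = f.1
    rw [map_one]
    rfl)
  map_mul' := fun x y => AddMonoidHom.ext fun f => Subtype.ext (by
    change rho0 (x.1 * y.1) f.1 = rho0 x.1 (rho0 y.1 f.1)
    rw [map_mul]
    rfl)
  map_zero' := AddMonoidHom.ext fun f => Subtype.ext (by
    change rho0 0 f.1 = 0
    rw [map_zero]
    rfl)
  map_add' := fun x y => AddMonoidHom.ext fun f => Subtype.ext (by
    change rho0 (x.1 + y.1) f.1 = rho0 x.1 f.1 + rho0 y.1 f.1
    rw [map_add]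
    rfl)

theorem rho_co (x : G.A) (f : Ser G o) (δ : Q) :
    (G.rho o x f).co δ = x.1.coeff.sum fun μ d => d * f.co (μ⁻¹ * δ) :=
  rho0_apply x.1 f.1 δ

end S14
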