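import Pool.Agent.S14.Ld
import Pool.Agent.S14.Ser

/-!
# S14/Ser1: nonzero homogeneous sums act injectively on series
-/

namespace S14

variable {D Q : Type} [DivisionRing D] [Group Q] (G : Gr D Q) (o : LOG Q)

theorem rho_inj (x : G.A) (hx : x ≠ 0) (f : Ser G o) (h : G.rho o x f = 0) : f = 0 := by
  by_contra hf
  obtain ⟨α, hα, hmin⟩ := f.exists_min hf
  have hx0 : x.1.coeff ≠ 0 := by
    intro hc
    refine hx (Subtype.ext ?_)
    rw [← MonoidAlgebra.ofCoeff_coeff x.1, hc]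
    rfl
  obtain ⟨μ, hμ⟩ := exists_ld o hx0 α
  have h1 := sum_ld o (V := D) f.co hmin hμ
  have h2 := rho_co G o x f (μ * α)
  simp only [smul_eq_mul] at h1
  rw [h1, h] at h2
  have h3 : x.1.coeff μ * f.co α = 0 := by
    rw [← h2]
    rfl
  rcases mul_eq_zero.1 h3 with h4 | h4
  · exact hμ.1 h4
  · exact hα h4

end S14
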