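import Pool.Agent.S14.Ser1

/-!
# S14/Ser2: nonzero homogeneous sums act surjectively on series (Zorn)

Partial solutions of `ρ x f = h`, ordered by inclusion of their graphs; comparable partial solutions are end-extensions of each other.
-/

namespace S14

variable {D Q : Type} [DivisionRing D] [Group Q] (G : Gr D Q) (o : LOG Q)

/-- `f` solves `ρ x f = h` up to the leading position of every element of its support. -/
def Ser2Sol (x : G.A) (h f : Ser G o) : Prop :=
  ∀ α μ, f.co α ≠ 0 → IsLd o x.1.coeff α μ → ∀ δ, ¬ o.lt (μ * α) δ → (G.rho o x f).co δ = h.co δ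

variable {G o}

theorem ser2_coeff_ne {x : G.A} (hx : x ≠ 0) : x.1.coeff ≠ 0 := by
  intro h0
  refine hx (Subtype.ext ?_)
  rw [← MonoidAlgebra.ofCoeff_coeff x.1, h0]
  rfl

/-- the lowest value -/
theorem ser2_ld {x : G.A} {f : Ser G o} {α μ : Q} (hf : ∀ p, o.lt p α → f.co p = 0) (h : IsLd o x.1.coeff α μ) :
    (G.rho o x f).co (μ * α) = x.1.coeff μ * f.co α := by
  rw [rho_co]
  have h1 := sum_ld (V := D) o f.co hf h
  rw [smul_eq_mul] at h1
  exact h1

/-- below the lowest value -/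
theorem ser2_ld_zero {x : G.A} {f : Ser G o} {α μ : Q} (hf : ∀ p, o.lt p α → f.co p = 0) (h : IsLd o x.1.coeff α μ) {δ : Q}
    (hδ : o.lt δ (μ * α)) : (G.rho o x f).co δ = 0 := by
  rw [rho_co]
  exact sum_ld_zero (V := D) o f.co hf h hδ

/-- comparable partial solutions: the larger one is an end-extension of the smaller one -/
theorem ser2_end {x : G.A} (hx : x ≠ 0) {h f g : Ser G o} (hf : Ser2Sol G o x h f) (hg : Ser2Sol G o x h g)
    (hfg : ∀ q, f.co q ≠ 0 → g.co q = f.co q) {q : Q} (hq : g.co q ≠ 0) (hq' : f.co q = 0) {p : Q} (hp : f.co p ≠ 0) : o.lt p q := by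
  rcases o.tri p q with h1 | h1 | h1
  · exact h1
  · exact absurd (h1 ▸ hq') hp
  · exfalso
    have hd : g - f ≠ 0 := by
      intro h0
      have h2 : (g - f).co q = 0 := by rw [h0]; rfl
      rw [Ser.co_sub, hq', sub_zero] at h2
      exact hq h2
    obtain ⟨q₀, h2, h3⟩ := Ser.exists_min _ hd
    have h4 : ¬ o.lt q q₀ := fun h5 => by
      have h6 := h3 q h5
      rw [Ser.co_sub, hq', sub_zero] at h6
      exact hq h6
    have h5 : o.lt q₀ p := o.lt_of_not_of_lt h4 h1
    obtain ⟨μ, hμ⟩ := exists_ld o (ser2_coeff_ne hx) q₀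
    obtain ⟨ν, hν⟩ := exists_ld o (ser2_coeff_ne hx) p
    have h6 : o.lt (μ * q₀) (ν * p) := hμ.lt hν h5
    have h7 := hf p ν hp hν (μ * q₀) (o.asymm h6)
    have h8 := hg p ν (by rw [hfg p hp]; exact hp) hν (μ * q₀) (o.asymm h6)
    have h9 := ser2_ld h3 hμ
    rw [map_sub, Ser.co_sub, h7, h8, sub_self] at h9
    exact mul_ne_zero hμ.1 h2 h9.symm

variable (G o)

theorem rho_surj (x : G.A) (hx : x ≠ 0) (h : Ser G o) : ∃ f : Ser G o, G.rho o x f = h := by
  classical
  obtain ⟨⟨f, hf⟩, hmax⟩ := exists_maximal_of_chains_bounded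
    (α := {f : Ser G o // Ser2Sol G o x h f}) (r := fun f g => ∀ q, f.1.co q ≠ 0 → g.1.co q = f.1.co q) (by
      intro c hc
      -- comparability
      have hcmp : ∀ f ∈ c, ∀ g ∈ c, ∀ q, f.1.co q ≠ 0 → g.1.co q ≠ 0 → f.1.co q = g.1.co q := by
        intro f hf g hg q h1 h2
        by_cases he : f = g
        · rw [he]
        · rcases hc hf hg he with h3 | h3
          · exact (h3 q h1).symm
          · exact h3 q h2
      have hend : ∀ f ∈ c, ∀ g ∈ c, ∀ q, g.1.co q ≠ 0 → f.1.co q = 0 → ∀ p, f.1.co p ≠ 0 → o.lt p q := by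
        intro f hf g hg q h1 h2 p h3
        by_cases he : f = g
        · rw [he] at h2
          exact absurd h2 h1
        · rcases hc hf hg he with h4 | h4
          · exact ser2_end hx f.2 g.2 h4 h1 h2 h3
          · exact absurd ((h4 q h1).symm.trans h2) h1
      obtain ⟨F, hF⟩ : ∃ F : Q → D, F = fun q => if hq : ∃ f ∈ c, f.1.co q ≠ 0 then hq.choose.1.co q else 0 := ⟨_, rfl⟩
      have hF1 : ∀ f ∈ c, ∀ q, f.1.co q ≠ 0 → F q = f.1.co q := by
        intro f hf q h1
        have hq : ∃ f ∈ c, f.1.co q ≠ 0 := ⟨f, hf, h1⟩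
        rw [hF]
        simp only
        rw [dif_pos hq]
        exact hcmp _ hq.choose_spec.1 f hf q hq.choose_spec.2 h1
      have hF2 : ∀ q, F q ≠ 0 → ∃ f ∈ c, f.1.co q ≠ 0 := by
        intro q h1
        by_contra hq
        rw [hF] at h1
        simp only at h1
        rw [dif_neg hq] at h1
        exact h1 rfl
      have hFS : ∀ q, F q ∈ G.S q := by
        intro q
        by_cases h1 : F q = 0
        · rw [h1]
          exact (G.S q).zero_mem
        · obtain ⟨f, hf, h2⟩ := hF2 q h1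
          rw [hF1 f hf q h2]
          exact f.1.mem q
      have hFW : o.WO {q | F q ≠ 0} := by
        refine LOG.wo_of_min fun t ht htn => ?_
        obtain ⟨x₀, hx₀⟩ := htn
        obtain ⟨f, hf, h1⟩ := hF2 x₀ (ht hx₀)
        obtain ⟨a, ha, hmin⟩ := LOG.WO.min (LOG.WO.mono (s := t ∩ {q | f.1.co q ≠ 0}) f.1.wo Set.inter_subset_right) ⟨x₀, hx₀, h1⟩
        refine ⟨a, ha.1, fun b hb hlt => ?_⟩
        by_cases h2 : f.1.co b = 0
        · obtain ⟨g, hg, h3⟩ := hF2 b (ht hb)
          exact o.asymm hlt (hend f hf g hg b h3 h2 a ha.2)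
        · exact hmin b ⟨hb, h2⟩ hlt
      refine ⟨⟨Ser.mk F hFS hFW, ?_⟩, fun f hf q h1 => hF1 f hf q h1⟩
      intro α μ hα hμ δ hδ
      obtain ⟨f, hf, h1⟩ := hF2 α hα
      have h2 := f.2 α μ h1 hμ δ hδ
      rw [← h2, rho_co, rho_co, Ser.co_mk, Finsupp.sum, Finsupp.sum]
      refine Finset.sum_congr rfl fun ν hν => ?_
      congr 1
      by_cases h3 : f.1.co (ν⁻¹ * δ) = 0
      · rw [h3]
        by_contra h4
        obtain ⟨g, hg, h5⟩ := hF2 _ h4
        have h6 := hend f hf g hg _ h5 h3 α h1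
        rw [o.lt_inv_mul] at h6
        exact hδ (o.lt_of_not_of_lt (hμ.le (Finsupp.mem_support_iff.1 hν)) h6)
      · exact hF1 f hf _ h3)
    (fun {a b d} hab hbd q h1 => by
      have h2 := hab q h1
      rw [hbd q (by rw [h2]; exact h1), h2])
  refine ⟨f, ?_⟩
  by_contra hne
  have he : h - G.rho o x f ≠ 0 := fun h0 => hne (sub_eq_zero.1 h0).symm
  obtain ⟨δ, hδ, hmin⟩ := Ser.exists_min _ he
  obtain ⟨α, μ, hμ, hμα⟩ := ld_onto o (ser2_coeff_ne hx) δ
  -- the new degree is above the support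
  have habove : ∀ β, f.co β ≠ 0 → o.lt β α := by
    intro β hβ
    obtain ⟨ν, hν⟩ := exists_ld o (ser2_coeff_ne hx) β
    have h1 : o.lt (ν * β) (μ * α) := by
      by_contra h2
      rw [hμα] at h2
      have h3 := hf β ν hβ hν δ h2
      rw [Ser.co_sub, h3, sub_self] at hδ
      exact hδ rfl
    rcases o.tri β α with h2 | h2 | h2
    · exact h2
    · subst h2
      rw [hν.unique hμ] at h1
      exact absurd h1 (o.irrefl _)
    · exact absurd h1 (o.asymm (hμ.lt hν h2))
  have hα0 : f.co α = 0 := by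
    by_contra h1
    exact o.irrefl _ (habove α h1)
  have hc : (x.1.coeff μ)⁻¹ * (h - G.rho o x f).co δ ∈ G.S α := by
    have h1 := G.mul (G.inv (x.2 μ)) ((h - G.rho o x f).mem δ)
    rw [← hμα, inv_mul_cancel_left] at h1
    rw [← hμα]
    exact h1
  obtain ⟨s, hs⟩ : ∃ s : Ser G o, s = Ser.sgl G o α _ hc := ⟨_, rfl⟩
  have hs0 : s.co α = (x.1.coeff μ)⁻¹ * (h - G.rho o x f).co δ := by
    rw [hs, Ser.co_sgl]
  have hsne : ∀ p, p ≠ α → s.co p = 0 := fun p hp => by
    rw [hs, Ser.co_sgl_ne _ _ _ hp]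
  have hslt : ∀ p, o.lt p α → s.co p = 0 := fun p hp => hsne p fun h1 => o.irrefl α (h1 ▸ hp)
  have hxs : (G.rho o x s).co δ = (h - G.rho o x f).co δ := by
    have h1 := ser2_ld hslt hμ
    rw [hμα, hs0, mul_inv_cancel_left₀ hμ.1] at h1
    exact h1
  have hsol : ∀ δ', ¬ o.lt δ δ' → (G.rho o x (f + s)).co δ' = h.co δ' := by
    intro δ' h1
    rw [map_add, Ser.co_add]
    rcases o.tri δ' δ with h2 | h2 | h2
    · have h3 := hmin δ' h2
      rw [Ser.co_sub, sub_eq_zero] at h3
      rw [ser2_ld_zero hslt hμ (by rw [hμα]; exact h2), add_zero, h3]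
    · rw [h2, hxs, Ser.co_sub, add_sub_cancel]
    · exact absurd h2 h1
  have hf' : Ser2Sol G o x h (f + s) := by
    intro β ν hβ hν δ' h1
    refine hsol δ' fun h2 => h1 ?_
    by_cases h3 : β = α
    · rw [h3] at hν ⊢
      rw [hν.unique hμ, hμα]
      exact h2
    · have h4 : f.co β ≠ 0 := by
        rw [Ser.co_add, hsne β h3, add_zero] at hβ
        exact hβ
      have h5 := hν.lt hμ (habove β h4)
      rw [hμα] at h5
      exact o.trans h5 h2
  have h1 := hmax ⟨f + s, hf'⟩ fun q hq => by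
    show (f + s).co q = f.co q
    rw [Ser.co_add, hsne q fun h2 => hq (h2 ▸ hα0), add_zero]
  have h2 : (f + s).co α ≠ 0 := by
    rw [Ser.co_add, hα0, zero_add, hs0]
    exact mul_ne_zero (inv_ne_zero hμ.1) hδ
  exact h2 ((h1 α h2).symm.trans hα0)

theorem rho_unit (x : G.A) (hx : x ≠ 0) : IsUnit (G.rho o x) := by
  have hbij : Function.Bijective (G.rho o x) := by
    refine ⟨(injective_iff_map_eq_zero (G.rho o x)).2 fun f hf => rho_inj G o x hx f hf,
      fun h => rho_surj G o x hx h⟩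
  let e : Ser G o ≃+ Ser G o := AddEquiv.ofBijective (G.rho o x) hbij
  refine ⟨⟨G.rho o x, (e.symm : Ser G o →+ Ser G o), ?_, ?_⟩, rfl⟩
  · refine AddMonoidHom.ext fun f => ?_
    exact e.apply_symm_apply f
  · refine AddMonoidHom.ext fun f => ?_
    exact e.symm_apply_apply f

end S14
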