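import Pool.Agent.S14.Ser2
import Pool.Agent.S14.Ext

/-!
# S14/SerD: the series form a left module over the division ring
-/

namespace S14

variable {D Q : Type} [DivisionRing D] [Group Q] (G : Gr D Q) (o : LOG Q)

theorem exists_act : ∃ Ψ : D →+* AddMonoid.End (Ser G o),
    ∀ x : G.A, Ψ (evR x.1) = G.rho o x := by
  refine exists_ext (evR.comp G.A.subtype) (fun a ha => Subtype.ext (evR_inj G a.2 ha)) ?_
    (G.rho o) (rho_unit G o)
  intro d
  obtain ⟨s, t, hs, ht, h0, h1⟩ := G.frac d
  refine ⟨⟨MonoidAlgebra.ofCoeff s, hs⟩, ⟨MonoidAlgebra.ofCoeff t, ht⟩, ?_, ?_⟩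
  · rwa [RingHom.comp_apply, Subring.subtype_apply, evR_apply]
  · simpa only [RingHom.comp_apply, Subring.subtype_apply, evR_apply] using h1

/-- The action of `D` on series. -/
noncomputable def serAct : D →+* AddMonoid.End (Ser G o) := (exists_act G o).choose

theorem serAct_ev (x : G.A) : serAct G o (evR x.1) = G.rho o x := (exists_act G o).choose_spec x

noncomputable instance : Module D (Ser G o) := Module.compHom (Ser G o) (serAct G o)

theorem smul_def' (b : D) (f : Ser G o) : b • f = serAct G o b f := rfl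

variable {G o}

/-- The action of a finite homogeneous sum. -/
theorem ev_smul (s : Q →₀ D) (hs : ∀ q, s q ∈ G.S q) (f : Ser G o) (δ : Q) :
    (ev s • f).co δ = s.sum fun μ d => d * f.co (μ⁻¹ * δ) := by
  have h := rho_co G o ⟨MonoidAlgebra.ofCoeff s, hs⟩ f δ
  rw [← serAct_ev] at h
  rw [smul_def']
  rw [evR_apply] at h
  exact h

/-- A homogeneous element translates the degrees. -/
theorem hom_smul {x : D} {μ : Q} (hx : x ∈ G.S μ) (f : Ser G o) (δ : Q) :
    (x • f).co δ = x * f.co (μ⁻¹ * δ) := by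
  classical
  have hs : ∀ q, (Finsupp.single μ x) q ∈ G.S q := by
    intro q
    rw [Finsupp.single_apply]
    split_ifs with h
    · rw [← h]
      exact hx
    · exact (G.S q).zero_mem
  have h1 : ev (Finsupp.single μ x) = x := by
    rw [ev, Finsupp.sum_single_index rfl]
  have h2 := ev_smul (Finsupp.single μ x) hs f δ
  rwa [h1, Finsupp.sum_single_index (by rw [zero_mul])] at h2

theorem smul_cancel {b : D} (hb : b ≠ 0) {f g : Ser G o} (h : b • f = b • g) : f = g := by
  have h1 := congrArg (fun x => b⁻¹ • x) h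
  simpa only [smul_smul, inv_mul_cancel₀ hb, one_smul] using h1

/-- The action commutes with the right multiplication with elements of degree one. -/
theorem smul_rm (b : D) (c : D) (hc : c ∈ G.S 1) (f : Ser G o) :
    b • (Ser.rm c hc f) = Ser.rm c hc (b • f) := by
  have key : ∀ (s : Q →₀ D), (∀ q, s q ∈ G.S q) → ∀ g : Ser G o,
      ev s • (Ser.rm c hc g) = Ser.rm c hc (ev s • g) := by
    intro s hs g
    refine Ser.ext fun δ => ?_
    rw [ev_smul s hs, Ser.co_rm, ev_smul s hs, Finsupp.sum, Finsupp.sum, Finset.sum_mul]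
    refine Finset.sum_congr rfl fun μ _ => ?_
    rw [Ser.co_rm, mul_assoc]
  obtain ⟨s, t, hs, ht, h0, h1⟩ := G.frac b
  refine smul_cancel h0 ?_
  rw [smul_smul, h1, key t ht, key s hs, smul_smul, h1]

theorem hom_smul_sgl {x y : D} {μ q : Q} (hx : x ∈ G.S μ) (hy : y ∈ G.S q) :
    x • Ser.sgl G o q y hy = Ser.sgl G o (μ * q) (x * y) (G.mul hx hy) := by
  refine Ser.ext fun δ => ?_
  rw [hom_smul hx]
  by_cases h : δ = μ * q
  · subst h
    rw [inv_mul_cancel_left, Ser.co_sgl, Ser.co_sgl]
  · rw [Ser.co_sgl_ne _ _ _ h, Ser.co_sgl_ne, mul_zero]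
    intro hc
    exact h (by rw [← hc, mul_inv_cancel_left])

end S14
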