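import Mathlib

/-!
# Project S14: ultraproducts of division rings
-/

set_option autoImplicit false
set_option linter.unusedSectionVars false

namespace Pool.Agent.S14

section

variable (F : ℕ → Type) [∀ j, DivisionRing (F j)]

/-- equality almost everywhere -/
def upCon : RingCon (∀ j, F j) where
  r x y := ∀ᶠ j in (Filter.hyperfilter ℕ : Filter ℕ), x j = y j
  iseqv := ⟨fun _ => Filter.Eventually.of_forall fun _ => rfl, fun h => h.mono fun _ e => e.symm,
    fun h h' => (h.and h').mono fun _ e => e.1.trans e.2⟩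
  add' := fun {a b c d} h h' => (h.and h').mono fun j e => by
    show a j + c j = b j + d j
    rw [e.1, e.2]
  mul' := fun {a b c d} h h' => (h.and h').mono fun j e => by
    show a j * c j = b j * d j
    rw [e.1, e.2]

/-- the ultraproduct -/
def Up : Type := (upCon F).Quotient

noncomputable instance : Ring (Up F) := inferInstanceAs (Ring (upCon F).Quotient)

/-- the class of a sequence -/
noncomputable def Up.mk : (∀ j, F j) →+* Up F := (upCon F).mk'

variable {F}

theorem Up.mk_eq_iff (x y : ∀ j, F j) :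
    Up.mk F x = Up.mk F y ↔ ∀ᶠ j in (Filter.hyperfilter ℕ : Filter ℕ), x j = y j :=
  (upCon F).eq (a := x) (b := y)

theorem Up.mk_surj : Function.Surjective (Up.mk F) := (upCon F).mk'_surjective

/-- the inverse, on representatives -/
noncomputable def Up.invFun (a : Up F) : Up F :=
  Up.mk F fun j => (Classical.choose (Up.mk_surj a) j)⁻¹

theorem Up.invFun_mk (x : ∀ j, F j) : Up.invFun (Up.mk F x) = Up.mk F fun j => (x j)⁻¹ := by
  unfold Up.invFun
  rw [Up.mk_eq_iff]
  have h := (Up.mk_eq_iff _ _).1 (Classical.choose_spec (Up.mk_surj (Up.mk F x)))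
  exact h.mono fun j e => by rw [e]

theorem Up.mk_ne_zero {x : ∀ j, F j} (h : Up.mk F x ≠ 0) :
    ∀ᶠ j in (Filter.hyperfilter ℕ : Filter ℕ), x j ≠ 0 := by
  rw [Ultrafilter.eventually_not]
  intro hc
  apply h
  rw [← map_zero (Up.mk F), Up.mk_eq_iff]
  exact hc

end

/-- the ultraproduct is a division ring -/
noncomputable instance Up.div (F : ℕ → Type) [∀ j, DivisionRing (F j)] : DivisionRing (Up F) := by
  classical
  exact { (inferInstance : Ring (Up F)) with
    inv := Up.invFun
    exists_pair_ne := by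
      refine ⟨0, 1, fun h => ?_⟩
      have h' : Up.mk F 0 = Up.mk F 1 := by rw [map_zero, map_one]; exact h
      rw [Up.mk_eq_iff] at h'
      obtain ⟨j, hj⟩ := h'.exists
      exact zero_ne_one hj
    mul_inv_cancel := by
      intro a ha
      obtain ⟨x, rfl⟩ := Up.mk_surj a
      show Up.mk F x * Up.invFun (Up.mk F x) = 1
      rw [Up.invFun_mk, ← map_mul, ← map_one (Up.mk F), Up.mk_eq_iff]
      exact (Up.mk_ne_zero ha).mono fun j hj => mul_inv_cancel₀ hj
    inv_zero := by
      show Up.invFun (0 : Up F) = 0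
      rw [← map_zero (Up.mk F), Up.invFun_mk, Up.mk_eq_iff]
      exact Filter.Eventually.of_forall fun j => inv_zero
    nnqsmul := _
    nnqsmul_def := fun _ _ => rfl
    qsmul := _
    qsmul_def := fun _ _ => rfl }

section

variable {F : ℕ → Type} [∀ j, DivisionRing (F j)]

theorem Up.mk_inv (x : ∀ j, F j) : (Up.mk F x)⁻¹ = Up.mk F fun j => (x j)⁻¹ := Up.invFun_mk x

/-- an involution on the ultraproduct -/
theorem Up.exists_st (st : ∀ j, F j → F j) (st_add : ∀ j a b, st j (a + b) = st j a + st j b)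
    (st_mul : ∀ j a b, st j (a * b) = st j b * st j a) (st_st : ∀ j a, st j (st j a) = a) :
    ∃ s : Up F → Up F, (∀ x : ∀ j, F j, s (Up.mk F x) = Up.mk F fun j => st j (x j)) ∧
      (∀ a b, s (a + b) = s a + s b) ∧ (∀ a b, s (a * b) = s b * s a) ∧ ∀ a, s (s a) = a := by
  obtain ⟨s, hs⟩ : ∃ s : Up F → Up F, ∀ x : ∀ j, F j, s (Up.mk F x) = Up.mk F fun j => st j (x j) := by
    refine ⟨fun a => Up.mk F fun j => st j (Classical.choose (Up.mk_surj a) j), fun x => ?_⟩
    show Up.mk F _ = _
    rw [Up.mk_eq_iff]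
    have h := (Up.mk_eq_iff _ _).1 (Classical.choose_spec (Up.mk_surj (Up.mk F x)))
    exact h.mono fun j e => by rw [e]
  refine ⟨s, hs, ?_, ?_, ?_⟩
  · intro a b
    obtain ⟨x, rfl⟩ := Up.mk_surj a
    obtain ⟨y, rfl⟩ := Up.mk_surj b
    rw [← map_add, hs, hs, hs, ← map_add, Up.mk_eq_iff]
    exact Filter.Eventually.of_forall fun j => st_add j _ _
  · intro a b
    obtain ⟨x, rfl⟩ := Up.mk_surj a
    obtain ⟨y, rfl⟩ := Up.mk_surj b
    rw [← map_mul, hs, hs, hs, ← map_mul, Up.mk_eq_iff]
    exact Filter.Eventually.of_forall fun j => st_mul j _ _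
  · intro a
    obtain ⟨x, rfl⟩ := Up.mk_surj a
    rw [hs, hs, Up.mk_eq_iff]
    exact Filter.Eventually.of_forall fun j => st_st j _

end

end Pool.Agent.S14
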