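import Pool.Agent.S14.DDefs
import Pool.Agent.S14.Up

/-!
# Project S14: the homomorphism from the group algebra to the ultraproduct
-/

set_option autoImplicit false
set_option linter.unusedSectionVars false

namespace Pool.Agent.S14

variable {H : Type} [Group H] (C : Chn H) (Fr : ∀ j, Frc (H ⧸ C.N j))

/-- the reduction to the level `j` -/
noncomputable def red (j : ℕ) : MonoidAlgebra (ZMod 2) H →+* (Fr j).F :=
  (Fr j).v.comp (MonoidAlgebra.mapDomainRingHom (ZMod 2) (QuotientGroup.mk' (C.N j)))

/-- the homomorphism to the ultraproduct -/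
noncomputable def vU : MonoidAlgebra (ZMod 2) H →+* Up fun j => (Fr j).F :=
  (Up.mk _).comp (Pi.ringHom fun j => red C Fr j)

theorem vU_apply (a : MonoidAlgebra (ZMod 2) H) : vU C Fr a = Up.mk _ fun j => red C Fr j a := rfl

theorem red_single (j : ℕ) (h : H) :
    red C Fr j (MonoidAlgebra.single h 1) = un (Fr j).v (h : H ⧸ C.N j) := by
  unfold red un
  simp

end Pool.Agent.S14
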